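import Pool.Agent.P.MP_3c83d0_ag.Defs
import Pool.Agent.P.MP_3c83d0_ag.Loc
import Pool.Agent.P.MP_3c83d0_ag.Lin

-- part Pool.Agent.P.MP_3c83d0_ag.Der
section

open MvPolynomial

namespace Pool.Agent.P.MP_3c83d0_ag

/-- Derivations extend along formally etale maps. -/
theorem der_extend {R A T : Type} [CommRing R] [CommRing A] [CommRing T] [Algebra R A]
    [Algebra R T] [Algebra A T] [IsScalarTower R A T] [Algebra.FormallyEtale A T]
    (D₀ : Derivation R A T) : ∃ D : Derivation R T T, ∀ s, D (algebraMap A T s) = D₀ s := by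
  have hb := KaehlerDifferential.isBaseChange_of_formallyEtale R A T
  refine ⟨(hb.lift D₀.liftKaehlerDifferential).compDer (KaehlerDifferential.D R T), fun s => ?_⟩
  have h1 := hb.lift_eq D₀.liftKaehlerDifferential (KaehlerDifferential.D R A s)
  rw [KaehlerDifferential.map_D, Derivation.liftKaehlerDifferential_comp_D] at h1
  exact h1

open scoped IntermediateField.algebraAdjoinAdjoin in
theorem der_basis {τ : Type} (b : τ → ℂ) (hb : IsTranscendenceBasis ℚ b) (v : τ → ℂ) :
    ∃ D : Derivation ℤ ℂ ℂ, ∀ t, D (b t) = v t := by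
  let e := hb.1.aevalEquiv
  let : Algebra (MvPolynomial τ ℚ) ℂ := (aeval b : MvPolynomial τ ℚ →ₐ[ℚ] ℂ).toRingHom.toAlgebra
  have : IsScalarTower ℚ (MvPolynomial τ ℚ) ℂ :=
    IsScalarTower.of_algebraMap_eq fun r => ((aeval b).commutes r).symm
  let D₁ : Derivation ℚ (MvPolynomial τ ℚ) ℂ := mkDerivation ℚ v
  have he : ∀ x : Algebra.adjoin ℚ (Set.range b), aeval b (e.symm x) = (x : ℂ) := fun x => by
    rw [← hb.1.algebraMap_aevalEquiv]
    exact congrArg _ (e.apply_symm_apply x)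
  let D₀ : Derivation ℚ (Algebra.adjoin ℚ (Set.range b)) ℂ :=
    Derivation.mk' (D₁.toLinearMap ∘ₗ e.symm.toLinearMap) fun x y => by
      change D₁ (e.symm (x * y)) = x • D₁ (e.symm y) + y • D₁ (e.symm x)
      rw [map_mul, Derivation.leibniz]
      change aeval b (e.symm x) * _ + aeval b (e.symm y) * _ = (x : ℂ) * _ + (y : ℂ) * _
      rw [he, he]
  have : Algebra.FormallyEtale (Algebra.adjoin ℚ (Set.range b))
      (IntermediateField.adjoin ℚ (Set.range b)) :=
    .of_isLocalization (nonZeroDivisors _)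
  have := hb.isAlgebraic_field
  have : Algebra.FormallyEtale (IntermediateField.adjoin ℚ (Set.range b)) ℂ :=
    Algebra.FormallyEtale.of_isSeparable _ ℂ
  have : Algebra.FormallyEtale (Algebra.adjoin ℚ (Set.range b)) ℂ :=
    .comp _ (IntermediateField.adjoin ℚ (Set.range b)) _
  obtain ⟨D, hD⟩ := der_extend D₀
  refine ⟨D.restrictScalars ℤ, fun t => ?_⟩
  have h1 := hD (e (X t))
  rw [hb.1.algebraMap_aevalEquiv, aeval_X] at h1
  change D (b t) = D₁ (e.symm (e (X t))) at h1
  rw [e.symm_apply_apply] at h1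
  exact h1.trans (mkDerivation_X ℚ v t)

/-- Derivations of the complex numbers with prescribed values on an algebraically independent
family. -/
theorem exists_derivation {τ : Type} (a : τ → ℂ) (ha : AlgebraicIndependent ℚ a) (v : τ → ℂ) :
    ∃ D : Derivation ℤ ℂ ℂ, ∀ t, D (a t) = v t := by
  obtain ⟨B, hB, hb⟩ := exists_isTranscendenceBasis_superset (R := ℚ) (s := Set.range a)
    ha.to_subtype_range
  obtain ⟨D, hD⟩ := der_basis _ hb fun x : B => Function.extend a v 0 x
  refine ⟨D, fun t => ?_⟩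
  have h := hD ⟨a t, hB ⟨t, rfl⟩⟩
  rwa [ha.injective.extend_apply] at h

theorem gen_of_algInd {n : ℕ} (a : Fin n × Fin 2 → ℂ) (ha : AlgebraicIndependent ℚ a) :
    Gen (fun i : Fin n => ![a (i, 0), a (i, 1), 1]) := by
  refine ⟨fun i h => ?_, fun w => ?_⟩
  · simpa using congrFun h 2
  · obtain ⟨D, hD⟩ := exists_derivation a ha fun t => w t.1 2 * a t - w t.1 t.2.castSucc
    refine ⟨D, 0, fun i => -w i 2, fun i j => ?_⟩
    fin_cases j
    · simp [hD]
      ring
    · simp [hD]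
      ring
    · simp

/-- Outside countably many hypersurfaces the coordinates are algebraically independent. -/
theorem exists_hypersurfaces (τ : Type) [Fintype τ] : ∃ Z : ℕ → MvPolynomial τ ℂ,
    (∀ k, Z k ≠ 0) ∧ ∀ a : τ → ℂ, (∀ k, eval a (Z k) ≠ 0) → AlgebraicIndependent ℚ a := by
  have : Countable (MvPolynomial τ ℚ) := by
    exact (AddMonoidAlgebra.coeffEquiv (R := ℚ) (M := τ →₀ ℕ)).injective.countable
  have : Nonempty {p : MvPolynomial τ ℚ // p ≠ 0} := ⟨⟨1, one_ne_zero⟩⟩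
  obtain ⟨g, hg⟩ := exists_surjective_nat {p : MvPolynomial τ ℚ // p ≠ 0}
  refine ⟨fun k => map (algebraMap ℚ ℂ) (g k).1, fun k h => ?_, fun a h => ?_⟩
  · exact (g k).2 (map_injective _ (algebraMap ℚ ℂ).injective (h.trans (map_zero _).symm))
  · rw [algebraicIndependent_iff]
    intro p hp
    by_contra h0
    obtain ⟨k, hk⟩ := hg ⟨p, h0⟩
    refine h k ?_
    simp only [hk]
    rw [eval_map, ← aeval_def, hp]

end Pool.Agent.P.MP_3c83d0_ag
end

-- part Pool.Agent.P.MP_3c83d0_ag.DimA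
section

open MvPolynomial

namespace Pool.Agent.P.MP_3c83d0_ag

instance finite_Ak (f : P2) (k : ℕ) : Module.Finite ℂ (Ak f k) := by
  unfold Ak
  infer_instance

theorem dimA_card (k : ℕ) :
    2 * Nat.card {n : Fin 2 →₀ ℕ | (n.sum fun _ e => e) ≤ k} = (k + 1) * (k + 2) := by
  have e : {n : Fin 2 →₀ ℕ | (n.sum fun _ e => e) ≤ k} ≃
      ((Finset.range (k + 1)).sigma fun j => Finset.HasAntidiagonal.antidiagonal j) :=
    { toFun := fun n => ⟨⟨n.1 0 + n.1 1, (n.1 0, n.1 1)⟩, by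
        have := n.2
        simp only [Set.mem_ofPred_eq] at this
        rw [Finsupp.sum_fintype _ _ (fun _ => rfl), Fin.sum_univ_two] at this
        simp only [Finset.mem_sigma, Finset.mem_range, Finset.HasAntidiagonal.mem_antidiagonal, and_true]
        omega⟩
      invFun := fun x => ⟨Finsupp.equivFunOnFinite.symm ![x.1.2.1, x.1.2.2], by
        have := x.2
        simp only [Finset.mem_sigma, Finset.mem_range, Finset.HasAntidiagonal.mem_antidiagonal] at this
        simp only [Set.mem_ofPred_eq]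
        rw [Finsupp.sum_fintype _ _ (fun _ => rfl), Fin.sum_univ_two]
        simp
        omega⟩
      left_inv := fun n => by
        ext i
        fin_cases i <;> simp
      right_inv := fun x => by
        obtain ⟨⟨j, a, b⟩, hx⟩ := x
        simp only [Finset.mem_sigma, Finset.mem_range, Finset.HasAntidiagonal.mem_antidiagonal] at hx
        obtain ⟨-, rfl⟩ := hx
        simp }
  rw [Nat.card_congr e, Nat.card_eq_fintype_card, Fintype.card_coe, Finset.card_sigma]
  simp only [Finset.Nat.card_antidiagonal]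
  clear e
  induction k with
  | zero => simp
  | succ k ih =>
    rw [Finset.sum_range_succ, mul_add, ih]
    ring

theorem dimA_finrank (k : ℕ) :
    2 * Module.finrank ℂ (restrictTotalDegree (Fin 2) ℂ k) = (k + 1) * (k + 2) := by
  rw [← dimA_card k]
  congr 1
  exact Module.finrank_eq_nat_card_basis (basisRestrictSupport ℂ _)

/-- Dimension of the degree filtration of the coordinate ring. -/
theorem finrank_Ak {f : P2} {d : ℕ} (hf : f ≠ 0) (hd : f.totalDegree = d) (k : ℕ)
    (hk : d ≤ k + 2) :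
    2 * (Module.finrank ℂ (Ak f k) : ℤ) = 2 * (k : ℤ) * d - (d : ℤ) ^ 2 + 3 * d := by
  set π := (Ideal.Quotient.mkₐ ℂ (Ideal.span {f})).toLinearMap with hπ
  set P := restrictTotalDegree (Fin 2) ℂ k with hP
  have h1 := LinearMap.finrank_range_add_finrank_ker (π.domRestrict P)
  rw [LinearMap.range_domRestrict, ← Submodule.finrank_map_subtype_eq P] at h1
  have h2 : ∀ g : P2, g ∈ (LinearMap.ker (π.domRestrict P)).map P.subtype ↔
      g.totalDegree ≤ k ∧ f ∣ g := by
    intro g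
    constructor
    · rintro ⟨x, hx, rfl⟩
      refine ⟨(mem_restrictTotalDegree _ _ _).1 x.2, ?_⟩
      have : Ideal.Quotient.mk (Ideal.span {f}) (x : P2) = 0 := hx
      exact Ideal.mem_span_singleton.1 (Ideal.Quotient.eq_zero_iff_mem.1 this)
    · rintro ⟨a, b⟩
      refine ⟨⟨g, (mem_restrictTotalDegree _ _ _).2 a⟩, ?_, rfl⟩
      show Ideal.Quotient.mk (Ideal.span {f}) g = 0
      exact Ideal.Quotient.eq_zero_iff_mem.2 (Ideal.mem_span_singleton.2 b)
  have h3 := dimA_finrank k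
  change Module.finrank ℂ (Ak f k) + _ = Module.finrank ℂ P at h1
  rw [← hP] at h3
  by_cases hkd : d ≤ k
  · obtain ⟨e, rfl⟩ := Nat.exists_eq_add_of_le hkd
    have h4 : (LinearMap.ker (π.domRestrict P)).map P.subtype =
        (restrictTotalDegree (Fin 2) ℂ e).map (LinearMap.mulLeft ℂ f) := by
      ext g
      rw [h2]
      constructor
      · rintro ⟨a, g', rfl⟩
        refine ⟨g', (mem_restrictTotalDegree _ _ _).2 ?_, rfl⟩
        by_cases h0 : g' = 0
        · simp [h0]
        · rw [totalDegree_mul_of_isDomain hf h0, hd] at a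
          omega
      · rintro ⟨g', a, rfl⟩
        refine ⟨(totalDegree_mul _ _).trans ?_, Dvd.intro _ rfl⟩
        have := (mem_restrictTotalDegree _ _ _).1 a
        omega
    have h5 : Module.finrank ℂ ((restrictTotalDegree (Fin 2) ℂ e).map (LinearMap.mulLeft ℂ f))
        = Module.finrank ℂ (restrictTotalDegree (Fin 2) ℂ e) :=
      (Submodule.equivMapOfInjective (LinearMap.mulLeft ℂ f) (mul_right_injective₀ hf)
        _).finrank_eq.symm
    rw [h4, h5] at h1
    have h6 := dimA_finrank e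
    zify at h1 h3 h6
    push_cast
    linear_combination 2 * h1 + h3 - h6
  · have h4 : (LinearMap.ker (π.domRestrict P)).map P.subtype = ⊥ := by
      rw [eq_bot_iff]
      intro g hg
      obtain ⟨a, g', rfl⟩ := (h2 g).1 hg
      by_cases h0 : g' = 0
      · simp [h0]
      · rw [totalDegree_mul_of_isDomain hf h0, hd] at a
        omega
    rw [h4, finrank_bot] at h1
    have h7 : d = k + 1 ∨ d = k + 2 := by omega
    zify at h1 h3
    rcases h7 with rfl | rfl
    · push_cast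
      linear_combination 2 * h1 + h3
    · push_cast
      linear_combination 2 * h1 + h3

theorem Ak_mono (f : P2) : Monotone (Ak f) := by
  intro k k' h
  refine Submodule.map_mono fun g hg => ?_
  rw [mem_restrictTotalDegree] at hg ⊢
  exact hg.trans h

theorem exists_mem_Ak (f : P2) (x : Af f) : ∃ k, x ∈ Ak f k := by
  obtain ⟨g, rfl⟩ := Ideal.Quotient.mk_surjective x
  exact ⟨g.totalDegree, g, (mem_restrictTotalDegree _ _ _).2 le_rfl, rfl⟩

end Pool.Agent.P.MP_3c83d0_ag
end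

-- part Pool.Agent.P.MP_3c83d0_ag.DimB
section

open MvPolynomial

namespace Pool.Agent.P.MP_3c83d0_ag

variable {ι : Type*} [Fintype ι]

theorem dimb_equiv {W : Type*} [AddCommGroup W] [Module ℂ W] (I : Ideal P2) (L : P2 →ₗ[ℂ] W)
    (hk : ∀ x, L x = 0 ↔ x ∈ I) : Nonempty ((P2 ⧸ I) ≃ₗ[ℂ] LinearMap.range L) := by
  have h : (I : Submodule P2 P2).restrictScalars ℂ = LinearMap.ker L := by
    ext x
    simp [hk]
  exact ⟨((Submodule.Quotient.restrictScalarsEquiv ℂ (I : Submodule P2 P2)).symm.trans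
    (Submodule.quotEquivOfEq _ _ h)).trans L.quotKerEquivRange⟩

/-- Translation of the variables. -/
noncomputable def dimb_tr (p : Fin 2 → ℂ) : P2 →ₐ[ℂ] P2 := aeval fun j => X j + C (p j)

theorem dimb_tr_tr (p : Fin 2 → ℂ) (G : P2) : dimb_tr p (dimb_tr (-p) G) = G := by
  have : (dimb_tr p).comp (dimb_tr (-p)) = AlgHom.id ℂ P2 := by
    apply MvPolynomial.algHom_ext
    intro j
    simp [dimb_tr]
  exact AlgHom.congr_fun this G

theorem dimb_tr_tr' (p : Fin 2 → ℂ) (G : P2) : dimb_tr (-p) (dimb_tr p G) = G := by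
  have := dimb_tr_tr (-p) G
  rwa [neg_neg] at this

theorem dimb_tr_mem (p : Fin 2 → ℂ) (a : ℕ) (G : P2) :
    G ∈ mx p ^ a ↔ dimb_tr p G ∈ idealOfVars (Fin 2) ℂ ^ a := by
  have h1 : (mx p).map (dimb_tr p) ≤ idealOfVars (Fin 2) ℂ := by
    rw [mx_eq_span, Ideal.map_span, Ideal.span_le]
    rintro _ ⟨_, ⟨j, rfl⟩, rfl⟩
    have : dimb_tr p (X j - C (p j)) = X j := by simp [dimb_tr]
    rw [this]
    exact Ideal.subset_span ⟨j, rfl⟩
  have h2 : (idealOfVars (Fin 2) ℂ).map (dimb_tr (-p)) ≤ mx p := by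
    rw [idealOfVars, Ideal.map_span, Ideal.span_le]
    rintro _ ⟨_, ⟨j, rfl⟩, rfl⟩
    show dimb_tr (-p) (X j) ∈ mx p
    rw [mem_mx]
    simp [dimb_tr]
  constructor
  · intro h
    have := Ideal.mem_map_of_mem (dimb_tr p) h
    rw [Ideal.map_pow] at this
    exact Ideal.pow_right_mono h1 a this
  · intro h
    have := Ideal.mem_map_of_mem (dimb_tr (-p)) h
    rw [Ideal.map_pow, dimb_tr_tr'] at this
    exact Ideal.pow_right_mono h2 a this

/-- Exponents of degree less than `a`. -/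
def dimb_T (a : ℕ) : Finset (Σ _ : ℕ, ℕ × ℕ) :=
  (Finset.range a).sigma fun n => Finset.HasAntidiagonal.antidiagonal n

/-- The exponent vector of a pair. -/
noncomputable def dimb_e (t : ℕ × ℕ) : Fin 2 →₀ ℕ := Finsupp.single 0 t.1 + Finsupp.single 1 t.2

theorem dimb_card (a : ℕ) : 2 * (dimb_T a).card = a * (a + 1) := by
  rw [dimb_T, Finset.card_sigma]
  simp only [Finset.Nat.card_antidiagonal]
  induction a with
  | zero => simp
  | succ n ih => rw [Finset.sum_range_succ, mul_add, ih]; ring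

theorem dimb_e_inj (a : ℕ) (s t : dimb_T a) (h : dimb_e s.1.2 = dimb_e t.1.2) : s = t := by
  obtain ⟨⟨n, i, j⟩, hs⟩ := s
  obtain ⟨⟨n', i', j'⟩, ht⟩ := t
  have h0 := DFunLike.congr_fun h 0
  have h1 := DFunLike.congr_fun h 1
  simp [dimb_e] at h0 h1
  simp only [dimb_T, Finset.mem_sigma, Finset.HasAntidiagonal.mem_antidiagonal] at hs ht
  obtain rfl := h0
  obtain rfl := h1
  obtain rfl : n = n' := hs.2.symm.trans ht.2
  rfl

/-- Taylor coefficients of order less than `a` at `p`. -/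
noncomputable def dimb_L (p : Fin 2 → ℂ) (a : ℕ) : P2 →ₗ[ℂ] (dimb_T a → ℂ) :=
  LinearMap.pi fun t => (lcoeff ℂ (dimb_e t.1.2)).comp (dimb_tr p).toLinearMap

theorem dimb_L_apply (p : Fin 2 → ℂ) (a : ℕ) (G : P2) (t : dimb_T a) :
    dimb_L p a G t = coeff (dimb_e t.1.2) (dimb_tr p G) := rfl

theorem dimb_L_ker (p : Fin 2 → ℂ) (a : ℕ) (G : P2) : dimb_L p a G = 0 ↔ G ∈ mx p ^ a := by
  rw [dimb_tr_mem, mem_pow_idealOfVars_iff']
  constructor
  · intro h x hx
    have hx' : x 0 + x 1 < a := by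
      rw [Finsupp.degree_eq_sum, Fin.sum_univ_two] at hx
      exact hx
    have hmem : (⟨x 0 + x 1, x 0, x 1⟩ : Σ _ : ℕ, ℕ × ℕ) ∈ dimb_T a := by
      simp [dimb_T, hx']
    have h1 := congrFun h ⟨_, hmem⟩
    rw [dimb_L_apply] at h1
    have h2 : dimb_e (x 0, x 1) = x := by
      ext j
      fin_cases j <;> simp [dimb_e]
    simpa [h2] using h1
  · intro h
    funext t
    rw [dimb_L_apply]
    apply h
    obtain ⟨⟨n, i, j⟩, ht⟩ := t
    simp only [dimb_T, Finset.mem_sigma, Finset.HasAntidiagonal.mem_antidiagonal, Finset.mem_range] at ht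
    rw [Finsupp.degree_eq_sum, Fin.sum_univ_two]
    simp [dimb_e]
    omega

theorem dimb_L_surj (p : Fin 2 → ℂ) (a : ℕ) : Function.Surjective (dimb_L p a) := by
  classical
  intro v
  refine ⟨dimb_tr (-p) (∑ t : dimb_T a, monomial (dimb_e t.1.2) (v t)), ?_⟩
  funext s
  rw [dimb_L_apply, dimb_tr_tr, coeff_sum, Finset.sum_eq_single s]
  · simp
  · intro t _ hts
    rw [coeff_monomial, if_neg]
    exact fun h => hts (dimb_e_inj a t s h)
  · simp

theorem dimb_pow_equiv (p : Fin 2 → ℂ) (a : ℕ) :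
    Nonempty ((P2 ⧸ mx p ^ a) ≃ₗ[ℂ] (dimb_T a → ℂ)) := by
  obtain ⟨e⟩ := dimb_equiv (mx p ^ a) (dimb_L p a) (dimb_L_ker p a)
  exact ⟨e.trans ((LinearEquiv.ofEq _ _ (LinearMap.range_eq_top.2 (dimb_L_surj p a))).trans
    Submodule.topEquiv)⟩

theorem dimb_pow_finite (p : Fin 2 → ℂ) (a : ℕ) : Module.Finite ℂ (P2 ⧸ mx p ^ a) := by
  obtain ⟨e⟩ := dimb_pow_equiv p a
  exact Module.Finite.equiv e.symm

theorem dimb_pow_finrank (p : Fin 2 → ℂ) (a : ℕ) :
    2 * Module.finrank ℂ (P2 ⧸ mx p ^ a) = a * (a + 1) := by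
  obtain ⟨e⟩ := dimb_pow_equiv p a
  rw [e.finrank_eq, Module.finrank_fintype_fun_eq_card, Fintype.card_coe, dimb_card]

theorem dimb_factor_surj {I J : Ideal P2} (h : I ≤ J) :
    Function.Surjective (Ideal.Quotient.factorₐ ℂ h).toLinearMap := by
  intro y
  obtain ⟨G, rfl⟩ := Ideal.Quotient.mk_surjective y
  exact ⟨Ideal.Quotient.mk _ G, rfl⟩

theorem dimb_sup_finite (f : P2) (p : Fin 2 → ℂ) (a : ℕ) :
    Module.Finite ℂ (P2 ⧸ (mx p ^ a ⊔ Ideal.span {f})) :=
  haveI := dimb_pow_finite p a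
  Module.Finite.of_surjective _ (dimb_factor_surj (le_sup_left (a := mx p ^ a)))

theorem dimb_mul_mem {f : P2} {p : Fin 2 → ℂ} {m : ℕ} (hm : HasMult f p m) (a : ℕ) (G : P2) :
    G * f ∈ mx p ^ a ↔ G ∈ mx p ^ (a - m) := by
  constructor
  · intro h
    by_cases h0 : G = 0
    · rw [h0]; exact Ideal.zero_mem _
    obtain ⟨k, hk⟩ := exists_hasMult p h0
    have h1 := not_mem_mul p hk.2 hm.2
    have h2 : a ≤ k + m := by
      by_contra hc
      exact h1 (Ideal.pow_le_pow_right (by omega) h)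
    exact Ideal.pow_le_pow_right (by omega) hk.1
  · intro h
    have h1 := Ideal.mul_mem_mul h hm.1
    rw [← pow_add] at h1
    exact Ideal.pow_le_pow_right (by omega) h1

theorem dimb_one {f : P2} {p : Fin 2 → ℂ} {m : ℕ} (hm : HasMult f p m) (a : ℕ) :
    Module.finrank ℂ (P2 ⧸ (mx p ^ a ⊔ Ideal.span {f})) +
      Module.finrank ℂ (P2 ⧸ mx p ^ (a - m)) = Module.finrank ℂ (P2 ⧸ mx p ^ a) := by
  have := dimb_pow_finite p a
  let φ : P2 →ₗ[ℂ] P2 ⧸ mx p ^ a :=
    (Ideal.Quotient.mkₐ ℂ (mx p ^ a)).toLinearMap.comp (LinearMap.mulRight ℂ f)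
  have hφ : ∀ G, φ G = Ideal.Quotient.mk _ (G * f) := fun _ => rfl
  let ψ : (P2 ⧸ mx p ^ a) →ₗ[ℂ] P2 ⧸ (mx p ^ a ⊔ Ideal.span {f}) :=
    (Ideal.Quotient.factorₐ ℂ (le_sup_left (a := mx p ^ a))).toLinearMap
  have hψ : ∀ G : P2, ψ (Ideal.Quotient.mk _ G) = Ideal.Quotient.mk _ G := fun _ => rfl
  obtain ⟨e⟩ := dimb_equiv (mx p ^ (a - m)) φ fun G => by
    rw [hφ, Ideal.Quotient.eq_zero_iff_mem, dimb_mul_mem hm]
  have hk : LinearMap.ker ψ = LinearMap.range φ := by
    ext y
    obtain ⟨G, rfl⟩ := Ideal.Quotient.mk_surjective y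
    rw [LinearMap.mem_ker, hψ, Ideal.Quotient.eq_zero_iff_mem, LinearMap.mem_range]
    constructor
    · intro h
      obtain ⟨u, hu, w, hw, rfl⟩ := Submodule.mem_sup.1 h
      obtain ⟨c, rfl⟩ := Ideal.mem_span_singleton'.1 hw
      refine ⟨c, ?_⟩
      rw [hφ, map_add, Ideal.Quotient.eq_zero_iff_mem.2 hu, zero_add]
    · rintro ⟨c, hc⟩
      rw [hφ, Ideal.Quotient.eq] at hc
      have : G = -(c * f - G) + c * f := by ring
      rw [this]
      exact Submodule.add_mem_sup (neg_mem hc) (Ideal.mem_span_singleton'.2 ⟨c, rfl⟩)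
  have h1 := ψ.finrank_range_add_finrank_ker
  rw [LinearMap.range_eq_top.2 (dimb_factor_surj _), finrank_top, hk, ← e.finrank_eq] at h1
  exact h1

/-- Restriction of a function on the curve to the fat points. -/
noncomputable def dimb_Psi (f : P2) (q : ι → Fin 2 → ℂ) (μ : ι → ℕ) :
    Af f →ₗ[ℂ] ∀ i, P2 ⧸ (mx (q i) ^ μ i ⊔ Ideal.span {f}) :=
  LinearMap.pi fun i =>
    (Ideal.Quotient.factorₐ ℂ (le_sup_right (a := mx (q i) ^ μ i))).toLinearMap

omit [Fintype ι] in
theorem dimb_Psi_ker (f : P2) (q : ι → Fin 2 → ℂ) (μ : ι → ℕ) :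
    Im f q μ = LinearMap.ker (dimb_Psi f q μ) := by
  ext y
  obtain ⟨G, rfl⟩ := Ideal.Quotient.mk_surjective y
  rw [LinearMap.mem_ker, Im, Submodule.mem_iInf, funext_iff]
  refine forall_congr' fun i => ?_
  rw [Submodule.restrictScalars_mem, Ideal.mem_quotient_iff_mem_sup]
  exact (Ideal.Quotient.eq_zero_iff_mem (I := mx (q i) ^ μ i ⊔ Ideal.span {f}) (a := G)).symm

theorem dimb_Psi_surj (f : P2) {q : ι → Fin 2 → ℂ} (hq : Function.Injective q) (μ : ι → ℕ) :
    Function.Surjective (dimb_Psi f q μ) := by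
  intro v
  have hc : Pairwise (Function.onFun IsCoprime fun i => mx (q i) ^ μ i ⊔ Ideal.span {f}) := by
    intro i j hij
    have hne : mx (q i) ≠ mx (q j) := by
      intro h
      apply hij
      apply hq
      funext l
      have h1 : X l - C (q i l) ∈ mx (q i) := by simp [mem_mx]
      rw [h, mem_mx] at h1
      simp at h1
      exact (sub_eq_zero.1 h1).symm
    have h1 : IsCoprime (mx (q i)) (mx (q j)) :=
      Ideal.isCoprime_iff_sup_eq.2 ((mx_isMaximal _).coprime_of_ne (mx_isMaximal _) hne)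
    have h2 : IsCoprime (mx (q i) ^ μ i) (mx (q j) ^ μ j) := h1.pow
    rw [Ideal.isCoprime_iff_codisjoint] at h2
    exact Ideal.isCoprime_iff_codisjoint.2 (h2.mono le_sup_left le_sup_left)
  obtain ⟨G, hG⟩ := Ideal.pi_quotient_surjective hc v
  exact ⟨Ideal.Quotient.mk _ G, funext hG⟩

theorem finite_quot_Im (f : P2) (q : ι → Fin 2 → ℂ) (μ : ι → ℕ) :
    Module.Finite ℂ (Af f ⧸ Im f q μ) := by
  have := fun i => dimb_sup_finite f (q i) (μ i)
  rw [dimb_Psi_ker]
  exact Module.Finite.equiv (dimb_Psi f q μ).quotKerEquivRange.symm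

/-- Colength of the multiplicity conditions on the curve. -/
theorem finrank_quot_Im {f : P2} {q : ι → Fin 2 → ℂ} (hq : Function.Injective q) {m : ι → ℕ}
    (hm : ∀ i, HasMult f (q i) (m i)) (μ : ι → ℕ) (hμ : ∀ i, m i ≤ μ i + 1) :
    2 * (Module.finrank ℂ (Af f ⧸ Im f q μ) : ℤ) =
      ∑ i, (2 * (μ i : ℤ) * m i - (m i : ℤ) ^ 2 + m i) := by
  have := fun i => dimb_sup_finite f (q i) (μ i)
  rw [dimb_Psi_ker, ((dimb_Psi f q μ).quotKerEquivOfSurjective (dimb_Psi_surj f hq μ)).finrank_eq,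
    Module.finrank_pi_fintype]
  push_cast
  rw [Finset.mul_sum]
  refine Finset.sum_congr rfl fun i _ => ?_
  have h1 := dimb_one (hm i) (μ i)
  have h2 := dimb_pow_finrank (q i) (μ i)
  have h3 := dimb_pow_finrank (q i) (μ i - m i)
  rcases Nat.lt_or_ge (μ i) (m i) with h | h
  · have h4 : m i = μ i + 1 := by have := hμ i; omega
    have h5 : μ i - m i = 0 := by omega
    rw [h5] at h1 h3
    zify at h1 h2 h3
    rw [h4]
    push_cast
    linear_combination 2 * h1 + h2 - h3
  · zify [h] at h1 h2 h3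
    linear_combination 2 * h1 + h2 - h3

end Pool.Agent.P.MP_3c83d0_ag
end

-- part Pool.Agent.P.MP_3c83d0_ag.ProdA
section

open MvPolynomial

namespace Pool.Agent.P.MP_3c83d0_ag

theorem finrank_inf_ker {E : Type*} [AddCommGroup E] [Module ℂ E] (V : Submodule ℂ E)
    [Module.Finite ℂ V] (φ : E →ₗ[ℂ] ℂ) {v : E} (hv : v ∈ V) (h : φ v ≠ 0) :
    Module.finrank ℂ ↥(V ⊓ LinearMap.ker φ) + 1 = Module.finrank ℂ V := by
  have h1 := LinearMap.finrank_range_add_finrank_ker (φ.domRestrict V)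
  have h2 : LinearMap.range (φ.domRestrict V) = ⊤ := by
    rw [eq_top_iff]
    intro c _
    refine ⟨(c / φ v) • ⟨v, hv⟩, ?_⟩
    simp [div_mul_cancel₀ _ h]
  have h3 : (LinearMap.ker (φ.domRestrict V)).map V.subtype = V ⊓ LinearMap.ker φ := by
    ext x
    simp only [Submodule.mem_map, LinearMap.mem_ker, LinearMap.domRestrict_apply,
      Submodule.subtype_apply, Submodule.mem_inf]
    constructor
    · rintro ⟨y, hy, rfl⟩
      exact ⟨y.2, hy⟩
    · rintro ⟨hx, hx'⟩
      exact ⟨⟨x, hx⟩, hx', rfl⟩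
  rw [h2, finrank_top, Module.finrank_self] at h1
  rw [← h3, Submodule.finrank_map_subtype_eq]
  omega

/-- Product inequality for spaces of functions. -/
theorem hopf {X : Type*} (n : ℕ) : ∀ (U W Z : Submodule ℂ (X → ℂ)) [Module.Finite ℂ U]
    [Module.Finite ℂ W] [Module.Finite ℂ Z], Module.finrank ℂ U = n + 1 →
    0 < Module.finrank ℂ W → (∀ u ∈ U, ∀ w ∈ W, u * w ∈ Z) →
    (∀ u ∈ U, u ≠ 0 → {x | u x = 0}.Finite) → (∀ w ∈ W, w ≠ 0 → {x | w x ≠ 0}.Infinite) →
    n + Module.finrank ℂ W ≤ Module.finrank ℂ Z := by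
  induction n with
  | zero =>
    intro U W Z _ _ _ hU _ hm hU0 hW0
    obtain ⟨u, hu⟩ := (Module.finrank_pos_iff_exists_ne_zero (R := ℂ) (M := U)).mp (by omega)
    have hu' : (u : X → ℂ) ≠ 0 := fun h => hu (Subtype.ext h)
    let L : W →ₗ[ℂ] Z :=
      { toFun := fun w => ⟨u * w, hm u u.2 w w.2⟩
        map_add' := fun a b => Subtype.ext (by simp [mul_add])
        map_smul' := fun c a => Subtype.ext (by simp) }
    have hL : Function.Injective L := by
      rw [injective_iff_map_eq_zero]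
      intro w hw
      by_contra hw0
      have hw' : (w : X → ℂ) ≠ 0 := fun h => hw0 (Subtype.ext h)
      refine hW0 w w.2 hw' ((hU0 u u.2 hu').subset fun x hx => ?_)
      have := congrFun (congrArg Subtype.val hw) x
      simpa [L, show (w : X → ℂ) x ≠ 0 from hx] using this
    simpa using LinearMap.finrank_le_finrank_of_injective hL
  | succ n ih =>
    intro U W Z _ _ _ hU hW hm hU0 hW0
    obtain ⟨u, hu⟩ := (Module.finrank_pos_iff_exists_ne_zero (R := ℂ) (M := U)).mp (by omega)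
    obtain ⟨w, hw⟩ := (Module.finrank_pos_iff_exists_ne_zero (R := ℂ) (M := W)).mp hW
    have hu' : (u : X → ℂ) ≠ 0 := fun h => hu (Subtype.ext h)
    have hw' : (w : X → ℂ) ≠ 0 := fun h => hw (Subtype.ext h)
    obtain ⟨x, hx1, hx2⟩ := (hW0 w w.2 hw').exists_notMem_finite (hU0 u u.2 hu')
    have e1 := finrank_inf_ker U (LinearMap.proj x) u.2 hx2
    have e2 := finrank_inf_ker Z (LinearMap.proj x) (hm u u.2 w w.2) (mul_ne_zero hx2 hx1)
    haveI : Module.Finite ℂ ↥(U ⊓ LinearMap.ker (LinearMap.proj (R := ℂ) (φ := fun _ : X => ℂ) x)) :=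
      Module.Finite.of_injective (Submodule.inclusion inf_le_left) (Submodule.inclusion_injective _)
    haveI : Module.Finite ℂ ↥(Z ⊓ LinearMap.ker (LinearMap.proj (R := ℂ) (φ := fun _ : X => ℂ) x)) :=
      Module.Finite.of_injective (Submodule.inclusion inf_le_left) (Submodule.inclusion_injective _)
    have := ih (U ⊓ LinearMap.ker (LinearMap.proj x)) W (Z ⊓ LinearMap.ker (LinearMap.proj x))
      (by omega) hW (fun a ha b hb => ⟨hm a ha.1 b hb, by
        have : a x = 0 := ha.2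
        simp [this]⟩) (fun a ha => hU0 a ha.1) hW0
    omega

/-- Product inequality, with the spaces given by linear maps to functions. -/
theorem hopf' {X U W Z : Type*} [AddCommGroup U] [Module ℂ U] [AddCommGroup W] [Module ℂ W]
    [AddCommGroup Z] [Module ℂ Z] [Module.Finite ℂ U] [Module.Finite ℂ W] [Module.Finite ℂ Z]
    (eU : U →ₗ[ℂ] (X → ℂ)) (eW : W →ₗ[ℂ] (X → ℂ)) (eZ : Z →ₗ[ℂ] (X → ℂ))
    (hU : 0 < Module.finrank ℂ U) (hW : 0 < Module.finrank ℂ W)
    (hm : ∀ u w, ∃ z, eZ z = eU u * eW w) (hU0 : ∀ u, u ≠ 0 → {x | eU u x = 0}.Finite)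
    (hW0 : ∀ w, w ≠ 0 → {x | eW w x ≠ 0}.Infinite) :
    Module.finrank ℂ U + Module.finrank ℂ W ≤ Module.finrank ℂ Z + 1 := by
  have iW : Function.Injective eW := by
    rw [injective_iff_map_eq_zero]
    intro w hw
    by_contra h
    have := hW0 w h
    simp [hw] at this
  have hX : (Set.univ : Set X).Infinite := by
    obtain ⟨w, hw⟩ := (Module.finrank_pos_iff_exists_ne_zero (R := ℂ) (M := W)).mp hW
    exact (hW0 w hw).mono (Set.subset_univ _)
  have iU : Function.Injective eU := by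
    rw [injective_iff_map_eq_zero]
    intro u hu
    by_contra h
    have := hU0 u h
    simp only [hu, Pi.zero_apply, Set.setOf_true] at this
    exact hX this
  have e1 := LinearMap.finrank_range_of_inj iU
  have e2 := LinearMap.finrank_range_of_inj iW
  have e3 := LinearMap.finrank_range_le eZ
  have := hopf (Module.finrank ℂ U - 1) (LinearMap.range eU) (LinearMap.range eW)
    (LinearMap.range eZ) (by omega) (by omega)
    (by rintro _ ⟨u, rfl⟩ _ ⟨w, rfl⟩; exact hm u w)
    (by rintro _ ⟨u, rfl⟩ h; exact hU0 u (fun h' => h (by simp [h'])))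
    (by rintro _ ⟨w, rfl⟩ h; exact hW0 w (fun h' => h (by simp [h'])))
  omega

/-- Partial fractions. -/
theorem lagr (s : Finset ℂ) (Q : Polynomial ℂ) (hr : ∀ η ∈ s, Q.IsRoot η)
    (hd : ∀ η ∈ s, Q.derivative.eval η ≠ 0) (hdeg : Q.natDegree ≤ s.card) (g : Polynomial ℂ)
    (hg : g.degree < s.card) : ∃ β : ℂ → ℂ,
      g = ∑ η ∈ s, Polynomial.C (β η) * (Q /ₘ (Polynomial.X - Polynomial.C η)) := by
  classical
  have hw : ∀ η ∈ s, (Q /ₘ (Polynomial.X - Polynomial.C η)).eval η = Q.derivative.eval η := by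
    intro η hη
    conv_rhs => rw [← Polynomial.mul_divByMonic_eq_iff_isRoot.mpr (hr η hη)]
    simp
  have hz : ∀ η ∈ s, ∀ ξ ∈ s, ξ ≠ η → (Q /ₘ (Polynomial.X - Polynomial.C η)).eval ξ = 0 := by
    intro η hη ξ hξ hne
    have h1 := congrArg (Polynomial.eval ξ) (Polynomial.mul_divByMonic_eq_iff_isRoot.mpr (hr η hη))
    rw [Polynomial.eval_mul, (hr ξ hξ).eq_zero] at h1
    simpa [sub_eq_zero, hne] using h1
  refine ⟨fun η => g.eval η / Q.derivative.eval η, ?_⟩
  rw [← sub_eq_zero]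
  apply Polynomial.eq_zero_of_degree_lt_of_eval_finset_eq_zero s
  · refine lt_of_le_of_lt (Polynomial.degree_sub_le _ _) (max_lt hg ?_)
    refine lt_of_le_of_lt (Polynomial.degree_sum_le _ _) ?_
    rw [Finset.sup_lt_iff (WithBot.bot_lt_coe _)]
    intro η hη
    refine lt_of_le_of_lt (Polynomial.degree_mul_le _ _) ?_
    refine lt_of_le_of_lt (add_le_add Polynomial.degree_C_le Polynomial.degree_le_natDegree) ?_
    rw [Polynomial.natDegree_divByMonic _ (Polynomial.monic_X_sub_C η),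
      Polynomial.natDegree_X_sub_C, zero_add]
    have : 0 < s.card := Finset.card_pos.mpr ⟨η, hη⟩
    exact_mod_cast (by omega : Q.natDegree - 1 < s.card)
  · intro ξ hξ
    rw [Polynomial.eval_sub, Polynomial.eval_finset_sum, Finset.sum_eq_single ξ]
    · rw [Polynomial.eval_mul, hw ξ hξ, Polynomial.eval_C, div_mul_cancel₀ _ (hd ξ hξ), sub_self]
    · intro η hη hne
      rw [Polynomial.eval_mul, hz η hη ξ hξ hne.symm, mul_zero]
    · intro h
      exact absurd hξ h

/-- The inverse of `X - l` modulo `N`. -/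
noncomputable def cinv (N : Polynomial ℂ) (l : ℂ) : Polynomial ℂ :=
  Polynomial.C (N.eval l)⁻¹ * ((Polynomial.C (N.eval l) - N) /ₘ (Polynomial.X - Polynomial.C l))

theorem cinv_mul (N : Polynomial ℂ) (l : ℂ) (h : N.eval l ≠ 0) :
    (Polynomial.X - Polynomial.C l) * cinv N l = 1 - Polynomial.C (N.eval l)⁻¹ * N := by
  have h1 : (Polynomial.C (N.eval l) - N).IsRoot l := by simp
  rw [cinv, mul_left_comm, Polynomial.mul_divByMonic_eq_iff_isRoot.mpr h1, mul_sub,
    ← Polynomial.C_mul, inv_mul_cancel₀ h, Polynomial.C_1]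

/-- A functional that kills the multiples of `N` and infinitely many inverses vanishes. -/
theorem eq_zero_of_cinv (N : Polynomial ℂ) (hN : N.Monic) (Λ : Polynomial ℂ →ₗ[ℂ] ℂ)
    (h1 : ∀ r, Λ (N * r) = 0) (L : Set ℂ) (hL : L.Infinite) (h2 : ∀ l ∈ L, N.eval l ≠ 0)
    (h3 : ∀ l ∈ L, Λ (cinv N l) = 0) (g : Polynomial ℂ) : Λ g = 0 := by
  classical
  obtain ⟨s, hs, hc⟩ := hL.exists_subset_card_eq N.natDegree
  set Q : Polynomial ℂ := ∏ l ∈ s, (Polynomial.X - Polynomial.C l) with hQ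
  have hsep : Q.Separable :=
    (Polynomial.separable_prod_X_sub_C_iff' (f := fun l : ℂ => l) (s := s)).mpr
      (fun _ _ _ _ h => h)
  have hr : ∀ η ∈ s, Q.IsRoot η := by
    intro η hη
    rw [Polynomial.IsRoot, hQ, Polynomial.eval_prod]
    exact Finset.prod_eq_zero hη (by simp)
  have hd : ∀ η ∈ s, Q.derivative.eval η ≠ 0 := by
    intro η hη
    have := hsep.aeval_derivative_ne_zero (x := η) (by simpa using (hr η hη).eq_zero)
    simpa using this
  have hdeg : Q.natDegree ≤ s.card := by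
    rw [hQ, Polynomial.natDegree_prod_of_monic _ _ (fun l _ => Polynomial.monic_X_sub_C l)]
    simp
  obtain ⟨β, hβ⟩ := lagr s Q hr hd hdeg ((g * Q) %ₘ N) (by
    rw [hc, ← Polynomial.degree_eq_natDegree hN.ne_zero]
    exact Polynomial.degree_modByMonic_lt _ hN)
  have hcop : IsCoprime N Q := by
    refine IsCoprime.prod_right fun l hl => ⟨Polynomial.C (N.eval l)⁻¹, cinv N l, ?_⟩
    rw [mul_comm (cinv N l), cinv_mul N l (h2 l (hs hl))]
    ring
  have hdvd : N ∣ (g - ∑ l ∈ s, Polynomial.C (β l) * cinv N l) * Q := by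
    have e1 : N ∣ g * Q - (g * Q) %ₘ N :=
      ⟨(g * Q) /ₘ N, by
        have := Polynomial.modByMonic_add_div (g * Q) N
        linear_combination -this⟩
    have e2 : N ∣ (g * Q) %ₘ N - (∑ l ∈ s, Polynomial.C (β l) * cinv N l) * Q := by
      rw [hβ, Finset.sum_mul, ← Finset.sum_sub_distrib]
      refine Finset.dvd_sum fun l hl => ?_
      have a1 := Polynomial.mul_divByMonic_eq_iff_isRoot.mpr (hr l hl)
      have a2 := cinv_mul N l (h2 l (hs hl))
      refine ⟨Polynomial.C (β l) * Polynomial.C (N.eval l)⁻¹ *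
        (Q /ₘ (Polynomial.X - Polynomial.C l)), ?_⟩
      linear_combination (Polynomial.C (β l) * cinv N l) * a1 -
        (Polynomial.C (β l) * (Q /ₘ (Polynomial.X - Polynomial.C l))) * a2
    have := dvd_add e1 e2
    convert this using 1
    ring
  obtain ⟨r, hr'⟩ := hcop.dvd_of_dvd_mul_right hdvd
  have : g = N * r + ∑ l ∈ s, β l • cinv N l := by
    simp only [Polynomial.smul_eq_C_mul]
    linear_combination hr'
  rw [this, map_add, h1, map_sum, zero_add]
  exact Finset.sum_eq_zero fun l hl => by rw [map_smul, h3 l (hs hl), smul_zero]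

end Pool.Agent.P.MP_3c83d0_ag
end

-- part Pool.Agent.P.MP_3c83d0_ag.ProdB
section

open MvPolynomial

namespace Pool.Agent.P.MP_3c83d0_ag

/-- Restriction to the vertical line with first coordinate `l`. -/
noncomputable def sx (l : ℂ) : P2 →ₐ[ℂ] Polynomial ℂ := aeval ![Polynomial.C l, Polynomial.X]

/-- Polynomials in the first variable. -/
noncomputable def px : Polynomial ℂ →ₐ[ℂ] P2 := Polynomial.aeval (X 0)

/-- Polynomials in the second variable. -/
noncomputable def py : Polynomial ℂ →ₐ[ℂ] P2 := Polynomial.aeval (X 1)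

theorem eval_sx (z : Fin 2 → ℂ) (G : P2) : (sx (z 0) G).eval (z 1) = eval z G := by
  induction G using MvPolynomial.induction_on with
  | C c => simp [sx]
  | add a b ha hb => simp [ha, hb]
  | mul_X a i ha =>
    rw [map_mul, Polynomial.eval_mul, ha, map_mul]
    fin_cases i <;> simp [sx]

theorem derivative_sx (l : ℂ) (G : P2) : (sx l G).derivative = sx l (pderiv 1 G) := by
  induction G using MvPolynomial.induction_on with
  | C c => simp [sx]
  | add a b ha hb => simp [ha, hb]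
  | mul_X a i ha =>
    rw [map_mul, Polynomial.derivative_mul, ha, Derivation.leibniz]
    fin_cases i <;> simp [sx] <;> ring

theorem eval_px (z : Fin 2 → ℂ) (r : Polynomial ℂ) : eval z (px r) = r.eval (z 0) := by
  induction r using Polynomial.induction_on' with
  | add a b ha hb => simp [ha, hb]
  | monomial n c => simp [px, Polynomial.aeval_monomial]

theorem natDegree_sx (l : ℂ) (G : P2) : (sx l G).natDegree ≤ G.totalDegree := by
  have := MvPolynomial.aeval_natDegree_le (n := 1) G le_rfl ![Polynomial.C l, Polynomial.X]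
    (fun i => by fin_cases i <;> simp)
  simpa [sx] using this

theorem totalDegree_py (r : Polynomial ℂ) : (py r).totalDegree ≤ r.natDegree := by
  rw [py, Polynomial.aeval_eq_sum_range]
  refine (totalDegree_finsetSum _ _).trans (Finset.sup_le fun i hi => ?_)
  refine (totalDegree_smul_le _ _).trans ?_
  rw [totalDegree_X_pow]
  exact Nat.lt_succ_iff.mp (Finset.mem_range.mp hi)

theorem monomial_eq2 (s : Fin 2 →₀ ℕ) (c : ℂ) :
    (monomial s c : P2) = C c * X 0 ^ s 0 * X 1 ^ s 1 := by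
  rw [monomial_eq, Finsupp.prod_fintype _ _ (by simp), Fin.prod_univ_two, mul_assoc]

theorem supp_le {G : P2} {s : Fin 2 →₀ ℕ} (hs : s ∈ G.support) : s 0 + s 1 ≤ G.totalDegree := by
  have := le_totalDegree hs
  rwa [Finsupp.sum_fintype _ _ (by simp), Fin.sum_univ_two] at this

theorem eq_single_of {s : Fin 2 →₀ ℕ} {d : ℕ} (h0 : s 0 = 0) (h1 : s 1 = d) :
    s = Finsupp.single 1 d := by
  ext i
  fin_cases i <;> simp [h0, h1]

theorem coeff_sx (l : ℂ) {f : P2} {d : ℕ} (hd : f.totalDegree = d) :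
    (sx l f).coeff d = coeff (Finsupp.single 1 d) f := by
  classical
  conv_lhs => rw [f.as_sum, map_sum, Polynomial.finsetSum_coeff]
  have key : ∀ s ∈ f.support, (sx l (monomial s (coeff s f))).coeff d =
      if s = Finsupp.single 1 d then coeff s f else 0 := by
    intro s hs
    have h1 : sx l (monomial s (coeff s f)) =
        Polynomial.C (coeff s f * l ^ s 0) * Polynomial.X ^ s 1 := by
      rw [monomial_eq2]
      simp [sx]
    rw [h1, Polynomial.coeff_C_mul_X_pow]
    have h2 := supp_le hs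
    by_cases h3 : d = s 1
    · have h4 : s 0 = 0 := by omega
      rw [if_pos h3, if_pos (eq_single_of h4 h3.symm), h4, pow_zero, mul_one]
    · rw [if_neg h3, if_neg]
      rintro rfl
      simp at h3
  rw [Finset.sum_congr rfl key, Finset.sum_ite_eq']
  split_ifs with h
  · rfl
  · exact (notMem_support_iff.mp h).symm

theorem sub_sx (l : ℂ) (G : P2) (n : ℕ) (hG : G.totalDegree ≤ n + 1) :
    ∃ a : P2, a.totalDegree ≤ n ∧ G - py (sx l G) = (X 0 - C l) * a := by
  have h1 : ∀ G : P2, (X 0 - C l : P2) ∣ G - py (sx l G) := by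
    intro G
    induction G using MvPolynomial.induction_on with
    | C c => simp [sx, py]
    | add a b ha hb =>
      have := dvd_add ha hb
      rw [map_add, map_add]
      convert this using 1
      ring
    | mul_X a i ha =>
      have h2 : (X 0 - C l : P2) ∣ X i - py (sx l (X i)) := by
        fin_cases i <;> simp [sx, py]
      have := dvd_add (ha.mul_right (X i)) (h2.mul_left (py (sx l a)))
      rw [map_mul, map_mul]
      convert this using 1
      ring
  obtain ⟨a, ha⟩ := h1 G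
  refine ⟨a, ?_, ha⟩
  by_cases h0 : a = 0
  · simp [h0]
  have hx : (X 0 - C l : P2).totalDegree = 1 := by
    rw [sub_eq_add_neg, totalDegree_add_eq_left_of_totalDegree_lt] <;> simp
  have hx0 : (X 0 - C l : P2) ≠ 0 := by
    intro h
    simp [h] at hx
  have h3 := totalDegree_mul_of_isDomain hx0 h0
  have h4 : (G - py (sx l G)).totalDegree ≤ n + 1 :=
    (totalDegree_sub _ _).trans (max_le hG (((totalDegree_py _).trans (natDegree_sx l G)).trans hG))
  rw [ha] at h4
  omega

variable {ι : Type*} [Fintype ι] {q : ι → Fin 2 → ℂ} {f : P2} {d : ℕ} {m : ι → ℕ}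

theorem Ca.pos (h : Ca q f d m) : 0 < d := by
  by_contra h0
  have hd : f.totalDegree = 0 := by rw [h.deg]; omega
  rw [totalDegree_eq_zero_iff_eq_C] at hd
  have h1 : coeff 0 f ≠ 0 := fun h2 => h.prime.ne_zero (by rw [hd, h2, map_zero])
  exact h.prime.not_unit (hd ▸ (Ne.isUnit h1).map C)

theorem Ca.natDegree_sx (h : Ca q f d m) (l : ℂ) : (sx l f).natDegree = d :=
  le_antisymm (h.deg ▸ Pool.Agent.P.MP_3c83d0_ag.natDegree_sx l f)
    (Polynomial.le_natDegree_of_ne_zero (by rw [coeff_sx l h.deg]; exact h.top))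

theorem Ca.sx_ne (h : Ca q f d m) (l : ℂ) : sx l f ≠ 0 := by
  intro h0
  have := h.natDegree_sx l
  have := h.pos
  simp [h0] at *
  omega

theorem Ca.isDomain (h : Ca q f d m) : IsDomain (Af f) := by
  have : (Ideal.span {f}).IsPrime := (Ideal.span_singleton_prime h.prime.ne_zero).mpr h.prime
  exact Ideal.Quotient.isDomain _

/-- The coordinate ring is spanned by the monomials of degree less than `d` in the second
variable. -/
theorem Ca.span_top (h : Ca q f d m) (M : Submodule ℂ (Af f))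
    (hM : ∀ a j : ℕ, j < d → Ideal.Quotient.mk _ (X 0 ^ a * X 1 ^ j : P2) ∈ M) : M = ⊤ := by
  classical
  have key : ∀ b a : ℕ, Ideal.Quotient.mk (Ideal.span {f}) (X 0 ^ a * X 1 ^ b : P2) ∈ M := by
    intro b
    induction b using Nat.strong_induction_on with
    | _ b ih =>
      intro a
      by_cases hb : b < d
      · exact hM a b hb
      obtain ⟨e, rfl⟩ : ∃ e, b = e + d := ⟨b - d, by omega⟩
      have hs : Finsupp.single 1 d ∈ f.support := mem_support_iff.mpr h.top
      have h1 : f = C (coeff (Finsupp.single 1 d) f) * X 1 ^ d +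
          ∑ s ∈ f.support.erase (Finsupp.single 1 d), monomial s (coeff s f) := by
        conv_lhs => rw [f.as_sum, ← Finset.add_sum_erase _ _ hs, monomial_eq2]
        simp
      have h2 : (X 0 ^ a * X 1 ^ (e + d) : P2) =
          C (coeff (Finsupp.single 1 d) f)⁻¹ * (X 0 ^ a * X 1 ^ e) * f -
          ∑ s ∈ f.support.erase (Finsupp.single 1 d),
            ((coeff (Finsupp.single 1 d) f)⁻¹ * coeff s f) • (X 0 ^ (a + s 0) * X 1 ^ (e + s 1)) := by
        have h3 : (C (coeff (Finsupp.single 1 d) f)⁻¹ * C (coeff (Finsupp.single 1 d) f) : P2) = 1 := by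
          rw [← C_mul, inv_mul_cancel₀ h.top, C_1]
        have h4 : ∑ s ∈ f.support.erase (Finsupp.single 1 d),
            ((coeff (Finsupp.single 1 d) f)⁻¹ * coeff s f) •
              (X 0 ^ (a + s 0) * X 1 ^ (e + s 1) : P2) =
            C (coeff (Finsupp.single 1 d) f)⁻¹ * (X 0 ^ a * X 1 ^ e) *
              ∑ s ∈ f.support.erase (Finsupp.single 1 d), monomial s (coeff s f) := by
          rw [Finset.mul_sum]
          refine Finset.sum_congr rfl fun s _ => ?_
          rw [monomial_eq2, smul_eq_C_mul, C_mul]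
          ring
        rw [h4]
        linear_combination (-(X 0 ^ a * X 1 ^ e * X 1 ^ d)) * h3 -
          C (coeff (Finsupp.single 1 d) f)⁻¹ * (X 0 ^ a * X 1 ^ e) * h1
      have h5 : Ideal.Quotient.mk (Ideal.span {f}) f = 0 :=
        Ideal.Quotient.eq_zero_iff_mem.mpr (Ideal.subset_span rfl)
      rw [h2, map_sub, map_mul _ _ f, h5, mul_zero, zero_sub, map_sum]
      refine M.neg_mem (M.sum_mem fun s hs' => ?_)
      have h6 : s 1 < d := by
        have h7 := supp_le (Finset.mem_of_mem_erase hs')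
        rw [h.deg] at h7
        by_contra h8
        exact Finset.ne_of_mem_erase hs' (eq_single_of (by omega) (by omega))
      have := M.smul_mem ((coeff (Finsupp.single 1 d) f)⁻¹ * coeff s f)
        (ih (e + s 1) (by omega) (a + s 0))
      exact this
  rw [eq_top_iff]
  intro x _
  obtain ⟨G, rfl⟩ := Ideal.Quotient.mk_surjective x
  rw [G.as_sum, map_sum]
  refine M.sum_mem fun s _ => ?_
  have := M.smul_mem (coeff s G) (key (s 1) (s 0))
  rw [monomial_eq2, mul_assoc, ← smul_eq_C_mul]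
  exact this

/-- A polynomial not divisible by `f` has finitely many zeros on the curve. -/
theorem Ca.finite_zeros (h : Ca q f d m) (G : P2)
    (hG : Ideal.Quotient.mk (Ideal.span {f}) G ≠ 0) :
    {z : Fin 2 → ℂ | eval z f = 0 ∧ eval z G = 0}.Finite := by
  classical
  have := h.isDomain
  let φ : Polynomial ℂ →ₐ[ℂ] Af f := (Ideal.Quotient.mkₐ ℂ (Ideal.span {f})).comp px
  letI : Algebra (Polynomial ℂ) (Af f) := φ.toRingHom.toAlgebra
  have hφ : ∀ r, algebraMap (Polynomial ℂ) (Af f) r = φ r := fun _ => rfl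
  have : IsScalarTower ℂ (Polynomial ℂ) (Af f) :=
    IsScalarTower.of_algebraMap_eq fun c => (φ.commutes c).symm
  have : Module.Finite (Polynomial ℂ) (Af f) := by
    let T : Finset (Af f) :=
      (Finset.range d).image fun j => Ideal.Quotient.mk (Ideal.span {f}) (X 1 ^ j : P2)
    refine ⟨⟨T, ?_⟩⟩
    apply Submodule.restrictScalars_injective ℂ
    rw [Submodule.restrictScalars_top]
    refine h.span_top _ fun a j hj => ?_
    have h1 : Ideal.Quotient.mk (Ideal.span {f}) (X 1 ^ j : P2) ∈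
        Submodule.span (Polynomial ℂ) (T : Set (Af f)) :=
      Submodule.subset_span (Finset.mem_coe.mpr
        (Finset.mem_image.mpr ⟨j, Finset.mem_range.mpr hj, rfl⟩))
    have h2 := Submodule.smul_mem _ (Polynomial.X ^ a : Polynomial ℂ) h1
    rw [Algebra.smul_def, hφ] at h2
    simpa [φ, px] using h2
  have h1 := Ideal.comap_ne_bot_of_integral_mem (R := Polynomial ℂ) hG
    (Ideal.mem_span_singleton_self _) (Algebra.IsIntegral.isIntegral _)
  obtain ⟨R, hR, hR0⟩ := Submodule.exists_mem_ne_zero_of_ne_bot h1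
  rw [Ideal.mem_comap, hφ, Ideal.mem_span_singleton'] at hR
  obtain ⟨v, hv⟩ := hR
  obtain ⟨V, rfl⟩ := Ideal.Quotient.mk_surjective v
  have h2 : V * G - px R ∈ Ideal.span {f} := by
    rw [← Ideal.Quotient.eq, map_mul]
    exact hv
  obtain ⟨e, he⟩ := Ideal.mem_span_singleton'.mp h2
  have hfin : (⋃ l ∈ {l : ℂ | R.IsRoot l}, (fun η : ℂ => (![l, η] : Fin 2 → ℂ)) ''
      {η : ℂ | (sx l f).IsRoot η}).Finite :=
    (Polynomial.finite_setOf_isRoot hR0).biUnion fun l _ =>
      (Polynomial.finite_setOf_isRoot (h.sx_ne l)).image _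
  refine hfin.subset fun z hz => ?_
  simp only [Set.mem_iUnion, Set.mem_image, Set.mem_setOf_eq]
  refine ⟨z 0, ?_, z 1, ?_, ?_⟩
  · have := congrArg (eval z) he
    rw [map_mul, map_sub, map_mul, hz.1, hz.2, eval_px] at this
    simpa using this
  · rw [Polynomial.IsRoot, eval_sx, hz.1]
  · ext i
    fin_cases i <;> rfl

theorem Ca.pderiv_ne (h : Ca q f d m) :
    Ideal.Quotient.mk (Ideal.span {f}) (pderiv 1 f) ≠ 0 := by
  intro h0
  obtain ⟨e, he⟩ := Ideal.mem_span_singleton'.mp (Ideal.Quotient.eq_zero_iff_mem.mp h0)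
  have h1 := congrArg (sx 0) he
  rw [map_mul, ← derivative_sx] at h1
  have h2 := h.natDegree_sx 0
  have h3 := h.pos
  have h4 : (sx 0 f).derivative ≠ 0 := by
    intro h5
    have := Polynomial.natDegree_eq_zero_of_derivative_eq_zero h5
    omega
  have h5 := Polynomial.natDegree_le_of_dvd (⟨sx 0 e, by rw [← h1, mul_comm]⟩ :
    sx 0 f ∣ (sx 0 f).derivative) h4
  have h6 := Polynomial.natDegree_derivative_lt (p := sx 0 f) (by omega)
  omega

end Pool.Agent.P.MP_3c83d0_ag
end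

-- part Pool.Agent.P.MP_3c83d0_ag.Prod
section

open MvPolynomial

namespace Pool.Agent.P.MP_3c83d0_ag

/-- Points of the curve whose first coordinate is not a root of `N`. -/
def Pts (f : P2) (N : Polynomial ℂ) : Type := {z : Fin 2 → ℂ // eval z f = 0 ∧ N.eval (z 0) ≠ 0}

/-- Evaluation at a point of the curve. -/
noncomputable def evA {f : P2} {N : Polynomial ℂ} (z : Pts f N) : Af f →ₐ[ℂ] ℂ :=
  Ideal.Quotient.liftₐ (Ideal.span {f}) (aeval z.1) (fun a ha => by
    obtain ⟨e, rfl⟩ := Ideal.mem_span_singleton'.mp ha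
    have : aeval z.1 f = 0 := z.2.1
    rw [map_mul, this, mul_zero])

theorem evA_mk {f : P2} {N : Polynomial ℂ} (z : Pts f N) (G : P2) :
    evA z (Ideal.Quotient.mk _ G) = eval z.1 G := rfl

/-- Functions on the curve. -/
noncomputable def eA (f : P2) (N : Polynomial ℂ) : Af f →ₗ[ℂ] (Pts f N → ℂ) :=
  LinearMap.pi fun z => (evA z).toLinearMap

/-- The class with a simple pole at `z`. -/
noncomputable def del {f : P2} {N : Polynomial ℂ} (z : Pts f N) : Af f :=
  Ideal.Quotient.mk _ (px (cinv N (z.1 0)) *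
    py (sx (z.1 0) f /ₘ (Polynomial.X - Polynomial.C (z.1 1))))

/-- The function attached to a functional. -/
noncomputable def om (f : P2) (N : Polynomial ℂ) : Module.Dual ℂ (Af f) →ₗ[ℂ] (Pts f N → ℂ) :=
  LinearMap.pi fun z => LinearMap.applyₗ (del z)

variable {ι : Type*} [Fintype ι] {q : ι → Fin 2 → ℂ} {f : P2} {d : ℕ} {m : ι → ℕ}

theorem Ca.eA_finite (h : Ca q f d m) (N : Polynomial ℂ) (u : Af f) (hu : u ≠ 0) :
    {z : Pts f N | eA f N u z = 0}.Finite := by
  obtain ⟨G, rfl⟩ := Ideal.Quotient.mk_surjective u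
  refine ((h.finite_zeros G hu).preimage (Subtype.val_injective (p := fun z : Fin 2 → ℂ =>
    eval z f = 0 ∧ N.eval (z 0) ≠ 0)).injOn).subset fun z hz => ⟨z.2.1, hz⟩

theorem Ca.pts_infinite (h : Ca q f d m) (N : Polynomial ℂ) (hN : N ≠ 0) :
    (Set.univ : Set (Pts f N)).Infinite := by
  intro hf
  have h1 := hf.image fun z : Pts f N => z.1 0
  refine (Polynomial.finite_setOf_isRoot hN).infinite_compl (h1.subset fun l hl => ?_)
  obtain ⟨η, hη⟩ := IsAlgClosed.exists_root (sx l f) (by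
    rw [Polynomial.degree_eq_natDegree (h.sx_ne l), h.natDegree_sx l]
    exact_mod_cast h.pos.ne')
  refine ⟨⟨![l, η], ?_, hl⟩, Set.mem_univ _, rfl⟩
  rw [← eval_sx]
  exact hη

theorem mul_mem_Ak {k k' : ℕ} {x y : Af f} (hx : x ∈ Ak f k) (hy : y ∈ Ak f k') :
    x * y ∈ Ak f (k + k') := by
  obtain ⟨a, ha, rfl⟩ := hx
  obtain ⟨b, hb, rfl⟩ := hy
  refine ⟨a * b, ?_, by simp⟩
  exact (mem_restrictTotalDegree _ _ _).mpr ((totalDegree_mul a b).trans
    (add_le_add ((mem_restrictTotalDegree _ _ _).mp ha) ((mem_restrictTotalDegree _ _ _).mp hb)))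

omit [Fintype ι] in
theorem mem_Im {μ : ι → ℕ} {x : Af f} : x ∈ Im f q μ ↔
    ∀ i, x ∈ (mx (q i) ^ μ i).map (Ideal.Quotient.mk (Ideal.span {f})) := by
  simp [Im, Submodule.mem_iInf]

omit [Fintype ι] in
theorem mul_mem_Im {μ μ' : ι → ℕ} {x y : Af f} (hx : x ∈ Im f q μ) (hy : y ∈ Im f q μ') :
    x * y ∈ Im f q (μ + μ') := by
  rw [mem_Im] at *
  intro i
  rw [Pi.add_apply, pow_add, Ideal.map_mul]
  exact Ideal.mul_mem_mul (hx i) (hy i)

theorem finite_H0 (k : ℕ) (μ : ι → ℕ) : Module.Finite ℂ ↥(Im f q μ ⊓ Ak f k) :=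
  Module.Finite.of_injective (Submodule.inclusion inf_le_right) (Submodule.inclusion_injective _)

theorem finite_H1 (k : ℕ) (μ : ι → ℕ) :
    Module.Finite ℂ ↥(Im f q μ ⊔ Ak f k).dualAnnihilator := by
  have := finite_quot_Im f q μ
  have : Module.Finite ℂ (Af f ⧸ (Im f q μ ⊔ Ak f k)) :=
    Module.Finite.of_surjective (Submodule.factor (le_sup_left : Im f q μ ≤ Im f q μ ⊔ Ak f k))
      (Submodule.factor_surjective _)
  exact Module.Finite.equiv (Submodule.dualQuotEquivDualAnnihilator _)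

theorem a_p0 {q : ι → Fin 2 → ℂ} {f : P2} {d : ℕ} {m : ι → ℕ} (h : Ca q f d m)
    (k : ℕ) (μ : ι → ℕ) (k' : ℕ) (μ' : ι → ℕ) (h1 : 0 < a0 f q k μ) (h2 : 0 < a0 f q k' μ') :
    a0 f q k μ + a0 f q k' μ' ≤ a0 f q (k + k') (μ + μ') + 1 := by
  have := finite_H0 (f := f) (q := q) k μ
  have := finite_H0 (f := f) (q := q) k' μ'
  have := finite_H0 (f := f) (q := q) (k + k') (μ + μ')
  refine hopf' (eA f 1 ∘ₗ (Im f q μ ⊓ Ak f k).subtype) (eA f 1 ∘ₗ (Im f q μ' ⊓ Ak f k').subtype)
    (eA f 1 ∘ₗ (Im f q (μ + μ') ⊓ Ak f (k + k')).subtype) h1 h2 (fun u w => ?_) (fun u hu => ?_)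
    (fun w hw => ?_)
  · refine ⟨⟨u.1 * w.1, mul_mem_Im u.2.1 w.2.1, mul_mem_Ak u.2.2 w.2.2⟩, ?_⟩
    funext z
    exact map_mul (evA z) u.1 w.1
  · exact h.eA_finite 1 u.1 fun h0 => hu (Subtype.ext h0)
  · have h3 := h.eA_finite 1 w.1 fun h0 => hw (Subtype.ext h0)
    intro h4
    refine h.pts_infinite 1 one_ne_zero ((h3.union h4).subset fun z _ => ?_)
    by_cases h5 : eA f 1 w.1 z = 0
    · exact Or.inl h5
    · exact Or.inr h5

/-- Multiplication of a functional by a function of bounded degree. -/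
theorem Ca.om_mul (h : Ca q f d m) (N : Polynomial ℂ) (ψ : Module.Dual ℂ (Af f)) (k k' : ℕ)
    (hk : d ≤ k + 2) (h1 : ∀ x ∈ Ak f (k + k'), ψ x = 0)
    (h2 : ∀ x, ψ (Ideal.Quotient.mk _ (px N) * x) = 0) (u : Af f) (hu : u ∈ Ak f k')
    (z : Pts f N) : ψ (u * del z) = evA z u * ψ (del z) := by
  obtain ⟨G, hG, rfl⟩ := hu
  have hG' : G.totalDegree ≤ k' := (mem_restrictTotalDegree _ _ _).mp hG
  change ψ (Ideal.Quotient.mk _ G * del z) = eval z.1 G * ψ (del z)
  have hC : ∀ c : ℂ, ψ (Ideal.Quotient.mk _ (C c) * del z) = c * ψ (del z) := by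
    intro c
    have : Ideal.Quotient.mk (Ideal.span {f}) (C c) * del z = c • del z := by
      obtain ⟨y, hy⟩ := Ideal.Quotient.mk_surjective (del z)
      rw [← hy, ← map_mul, ← smul_eq_C_mul]
      rfl
    rw [this, map_smul, smul_eq_mul]
  rcases k' with _ | n
  · have : G = C (coeff 0 G) := totalDegree_eq_zero_iff_eq_C.mp (by omega)
    rw [this, hC, eval_C]
  obtain ⟨e, he⟩ : ∃ e, d = e + 1 := ⟨d - 1, by have := h.pos; omega⟩
  obtain ⟨a, ha1, ha2⟩ := sub_sx (z.1 0) G n hG'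
  obtain ⟨ε, hε1, hε2⟩ := sub_sx (z.1 0) f e (by rw [h.deg, he])
  set w := sx (z.1 0) f /ₘ (Polynomial.X - Polynomial.C (z.1 1)) with hw
  set b := (sx (z.1 0) G - Polynomial.C (eval z.1 G)) /ₘ (Polynomial.X - Polynomial.C (z.1 1))
    with hb
  have e1 : (Polynomial.X - Polynomial.C (z.1 1)) * w = sx (z.1 0) f :=
    Polynomial.mul_divByMonic_eq_iff_isRoot.mpr (by rw [Polynomial.IsRoot, eval_sx]; exact z.2.1)
  have e2 : (Polynomial.X - Polynomial.C (z.1 1)) * b =
      sx (z.1 0) G - Polynomial.C (eval z.1 G) :=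
    Polynomial.mul_divByMonic_eq_iff_isRoot.mpr (by simp [Polynomial.IsRoot, eval_sx])
  have dw : (py w).totalDegree ≤ e := by
    refine (totalDegree_py w).trans ?_
    rw [hw, Polynomial.natDegree_divByMonic _ (Polynomial.monic_X_sub_C _),
      Polynomial.natDegree_X_sub_C, h.natDegree_sx]
    omega
  have db : (py b).totalDegree ≤ n := by
    refine (totalDegree_py b).trans ?_
    rw [hb, Polynomial.natDegree_divByMonic _ (Polynomial.monic_X_sub_C _),
      Polynomial.natDegree_X_sub_C, Polynomial.natDegree_sub_C]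
    have := Pool.Agent.P.MP_3c83d0_ag.natDegree_sx (z.1 0) G
    omega
  have e3 := congrArg py e1
  have e4 := congrArg py e2
  have e5 := congrArg px (cinv_mul N (z.1 0) z.2.2)
  simp only [map_mul, map_sub, map_one] at e3 e4 e5
  have p1 : py Polynomial.X = X 1 := by simp [py]
  have p2 : ∀ c, py (Polynomial.C c) = C c := by simp [py]
  have p3 : px Polynomial.X = X 0 := by simp [px]
  have p4 : ∀ c, px (Polynomial.C c) = C c := by simp [px]
  rw [p1, p2] at e3
  rw [p1, p2, p2] at e4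
  rw [p3, p4, p4] at e5
  have key : G * (px (cinv N (z.1 0)) * py w) =
      C (eval z.1 G) * (px (cinv N (z.1 0)) * py w) + (a * py w - py b * ε) +
      px N * (-(C (N.eval (z.1 0))⁻¹ * (a * py w - py b * ε))) +
      (px (cinv N (z.1 0)) * py b) * f := by
    linear_combination (px (cinv N (z.1 0)) * py w) * ha2 - (px (cinv N (z.1 0)) * py w) * e4 +
      (px (cinv N (z.1 0)) * py b) * e3 - (px (cinv N (z.1 0)) * py b) * hε2 +
      (a * py w - py b * ε) * e5
  have h5 : Ideal.Quotient.mk (Ideal.span {f}) f = 0 :=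
    Ideal.Quotient.eq_zero_iff_mem.mpr (Ideal.subset_span rfl)
  have h6 : Ideal.Quotient.mk (Ideal.span {f}) (a * py w - py b * ε) ∈ Ak f (k + (n + 1)) := by
    refine ⟨a * py w - py b * ε, (mem_restrictTotalDegree _ _ _).mpr ?_, rfl⟩
    refine (totalDegree_sub _ _).trans (max_le ?_ ?_)
    · have := totalDegree_mul a (py w)
      omega
    · have := totalDegree_mul (py b) ε
      omega
  have h7 : Ideal.Quotient.mk (Ideal.span {f}) G * del z =
      Ideal.Quotient.mk _ (C (eval z.1 G)) * del z + Ideal.Quotient.mk _ (a * py w - py b * ε) +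
      Ideal.Quotient.mk _ (px N) *
        Ideal.Quotient.mk _ (-(C (N.eval (z.1 0))⁻¹ * (a * py w - py b * ε))) := by
    rw [del, ← hw, ← map_mul, key, map_add, map_mul _ _ f, h5, mul_zero, add_zero, map_add,
      map_add, map_mul _ (px N), map_mul _ (C (eval z.1 G))]
  rw [h7, map_add, map_add, h1 _ h6, h2, hC, add_zero, add_zero]

/-- A nonzero functional gives a function with infinite support. -/
theorem Ca.om_infinite (h : Ca q f d m) (N : Polynomial ℂ) (hN : N.Monic)
    (ψ : Module.Dual ℂ (Af f)) (h2 : ∀ x, ψ (Ideal.Quotient.mk _ (px N) * x) = 0) (h0 : ψ ≠ 0) :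
    {z : Pts f N | om f N ψ z ≠ 0}.Infinite := by
  classical
  intro hf
  apply h0
  have b1 := Polynomial.finite_setOf_isRoot hN.ne_zero
  have b2 := hf.image fun z : Pts f N => z.1 0
  have b3 := (h.finite_zeros _ h.pderiv_ne).image fun z : Fin 2 → ℂ => z 0
  have hL := ((b1.union b2).union b3).infinite_compl
  have hker : LinearMap.ker ψ = ⊤ := by
    refine h.span_top _ fun a j hj => ?_
    let Λ : Polynomial ℂ →ₗ[ℂ] ℂ := ψ ∘ₗ (Ideal.Quotient.mkₐ ℂ (Ideal.span {f})).toLinearMap ∘ₗ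
      LinearMap.mulRight ℂ (X 1 ^ j : P2) ∘ₗ px.toLinearMap
    have hΛ : ∀ r, Λ r = ψ (Ideal.Quotient.mk _ (px r * X 1 ^ j)) := fun _ => rfl
    have := eq_zero_of_cinv N hN Λ (fun r => by
      rw [hΛ, map_mul px, mul_assoc, map_mul]
      exact h2 _) _ hL (fun l hl h3 => hl (Or.inl (Or.inl h3))) (fun l hl => ?_)
      (Polynomial.X ^ a)
    · rw [hΛ] at this
      simpa [px] using this
    have hNl : N.eval l ≠ 0 := fun h3 => hl (Or.inl (Or.inl h3))
    have hder : ∀ η, (sx l f).IsRoot η → (sx l f).derivative.eval η ≠ 0 := by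
      intro η hη h3
      refine hl (Or.inr ⟨![l, η], ⟨?_, ?_⟩, rfl⟩)
      · rw [← eval_sx]
        exact hη
      · rw [← eval_sx, ← derivative_sx]
        exact h3
    have hnd : (sx l f).roots.Nodup := by
      rw [Multiset.nodup_iff_count_le_one]
      intro η
      by_contra h3
      rw [Polynomial.count_roots, not_le,
        Polynomial.one_lt_rootMultiplicity_iff_isRoot (h.sx_ne l)] at h3
      exact hder η h3.1 h3.2
    have hcard : (sx l f).roots.toFinset.card = d := by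
      rw [Multiset.toFinset_card_of_nodup hnd, IsAlgClosed.card_roots_eq_natDegree,
        h.natDegree_sx]
    have hroot : ∀ η ∈ (sx l f).roots.toFinset, (sx l f).IsRoot η := fun η hη =>
      (Polynomial.mem_roots (h.sx_ne l)).mp (Multiset.mem_toFinset.mp hη)
    obtain ⟨β, hβ⟩ := lagr _ (sx l f) hroot (fun η hη => hder η (hroot η hη))
      (by rw [hcard, h.natDegree_sx]) (Polynomial.X ^ j)
      (by rw [hcard, Polynomial.degree_X_pow]; exact_mod_cast hj)
    have e1 : (X 1 ^ j : P2) = py (Polynomial.X ^ j) := by simp [py]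
    rw [hΛ, e1, hβ, map_sum, Finset.mul_sum, map_sum, map_sum]
    refine Finset.sum_eq_zero fun η hη => ?_
    let z : Pts f N := ⟨![l, η], by rw [← eval_sx]; exact hroot η hη, hNl⟩
    have hz : ψ (del z) = 0 := by
      by_contra h3
      exact hl (Or.inl (Or.inr ⟨z, h3, rfl⟩))
    have e2 : Ideal.Quotient.mk (Ideal.span {f}) (px (cinv N l) *
        py (Polynomial.C (β η) * (sx l f /ₘ (Polynomial.X - Polynomial.C η)))) = β η • del z := by
      rw [← Polynomial.smul_eq_C_mul, map_smul, mul_smul_comm]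
      rfl
    rw [e2, map_smul, hz, smul_zero]
  exact LinearMap.ker_eq_top.mp hker

theorem a_p1 {q : ι → Fin 2 → ℂ} {f : P2} {d : ℕ} {m : ι → ℕ} (h : Ca q f d m)
    (k : ℕ) (μ : ι → ℕ) (k' : ℕ) (μ' : ι → ℕ) (hk : d ≤ k + 2) (h1 : 0 < a0 f q k' μ')
    (h2 : 0 < a1 f q (k + k') (μ + μ')) :
    a0 f q k' μ' + a1 f q (k + k') (μ + μ') ≤ a1 f q k μ + 1 := by
  classical
  have := finite_H0 (f := f) (q := q) k' μ'
  have := finite_H1 (f := f) (q := q) k μ
  have := finite_H1 (f := f) (q := q) (k + k') (μ + μ')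
  let N : Polynomial ℂ := ∏ i, (Polynomial.X - Polynomial.C (q i 0)) ^ (μ + μ') i
  have hN : N.Monic := Polynomial.monic_prod_of_monic _ _ fun i _ =>
    (Polynomial.monic_X_sub_C _).pow _
  have hI : ∀ x, Ideal.Quotient.mk _ (px N) * x ∈ Im f q (μ + μ') := by
    intro x
    rw [mem_Im]
    intro i
    refine Ideal.mul_mem_right _ _ (Ideal.mem_map_of_mem _ ?_)
    obtain ⟨r, hr⟩ : (Polynomial.X - Polynomial.C (q i 0)) ^ (μ + μ') i ∣ N :=
      Finset.dvd_prod_of_mem _ (Finset.mem_univ i)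
    rw [hr, map_mul, map_pow]
    refine Ideal.mul_mem_right _ _ (Ideal.pow_mem_pow ?_ _)
    rw [mem_mx, eval_px]
    simp
  refine hopf' (eA f N ∘ₗ (Im f q μ' ⊓ Ak f k').subtype)
    (om f N ∘ₗ (Im f q (μ + μ') ⊔ Ak f (k + k')).dualAnnihilator.subtype)
    (om f N ∘ₗ (Im f q μ ⊔ Ak f k).dualAnnihilator.subtype) h1 h2 (fun u w => ?_)
    (fun u hu => ?_) (fun w hw => ?_)
  · have hw := (Submodule.mem_dualAnnihilator _).mp w.2
    refine ⟨⟨w.1 ∘ₗ LinearMap.mulLeft ℂ u.1, (Submodule.mem_dualAnnihilator _).mpr ?_⟩, ?_⟩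
    · intro x hx
      obtain ⟨y, hy, y', hy', rfl⟩ := Submodule.mem_sup.mp hx
      refine hw _ ?_
      rw [LinearMap.mulLeft_apply, mul_add, mul_comm u.1 y, mul_comm u.1 y']
      exact Submodule.add_mem_sup (mul_mem_Im hy u.2.1) (mul_mem_Ak hy' u.2.2)
    · funext z
      exact h.om_mul N w.1 k k' hk (fun x hx => hw x (Submodule.mem_sup_right hx))
        (fun x => hw _ (Submodule.mem_sup_left (hI x))) u.1 u.2.2 z
  · exact h.eA_finite N u.1 fun h0 => hu (Subtype.ext h0)
  · have hw' := (Submodule.mem_dualAnnihilator _).mp w.2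
    exact h.om_infinite N hN w.1 (fun x => hw' _ (Submodule.mem_sup_left (hI x)))
      fun h0 => hw (Subtype.ext h0)

end Pool.Agent.P.MP_3c83d0_ag
end

-- part Pool.Agent.P.MP_3c83d0_ag.RR
section

open MvPolynomial

namespace Pool.Agent.P.MP_3c83d0_ag

variable {ι : Type*} [Fintype ι]

/-- The four term exact sequence of two subspaces. -/
theorem rr_finrank {K V : Type*} [Field K] [AddCommGroup V] [Module K V] (I W : Submodule K V)
    [Module.Finite K (V ⧸ I)] [Module.Finite K W] :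
    Module.finrank K ↥(I ⊓ W) + Module.finrank K (V ⧸ I)
      = Module.finrank K W + Module.finrank K ↥(I ⊔ W).dualAnnihilator := by
  have h1 := LinearMap.finrank_range_add_finrank_ker (I.mkQ ∘ₗ W.subtype)
  have e1 : LinearMap.range (I.mkQ ∘ₗ W.subtype) = W.map I.mkQ := by
    rw [LinearMap.range_comp, Submodule.range_subtype]
  have e2 : LinearMap.ker (I.mkQ ∘ₗ W.subtype) = (I ⊓ W).comap W.subtype := by
    rw [LinearMap.ker_comp, Submodule.ker_mkQ, Submodule.comap_inf, Submodule.comap_subtype_self,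
      inf_top_eq]
  rw [e1, e2, (Submodule.comapSubtypeEquivOfLe (inf_le_right : I ⊓ W ≤ W)).finrank_eq] at h1
  have h2 := Submodule.finrank_quotient_add_finrank (W.map I.mkQ)
  rw [(Submodule.quotientQuotientEquivQuotientSup I W).finrank_eq] at h2
  have h3 := (Submodule.dualQuotEquivDualAnnihilator (I ⊔ W)).finrank_eq
  rw [Subspace.dual_finrank_eq] at h3
  omega

theorem rr_sup_eq_top (f : P2) (q : ι → Fin 2 → ℂ) (μ : ι → ℕ) :
    ∃ k0, ∀ k, k0 ≤ k → Im f q μ ⊔ Ak f k = ⊤ := by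
  have := finite_quot_Im f q μ
  obtain ⟨n, g, hg⟩ := Module.Finite.exists_fin (R := ℂ) (M := Af f ⧸ Im f q μ)
  choose x hx using fun j => (Im f q μ).mkQ_surjective (g j)
  choose c hc using fun j => exists_mem_Ak f (x j)
  refine ⟨Finset.univ.sup c, fun k hk => ?_⟩
  rw [← Submodule.map_mkQ_eq_top, eq_top_iff, ← hg, Submodule.span_le]
  rintro _ ⟨j, rfl⟩
  exact ⟨x j, Ak_mono f ((Finset.le_sup (Finset.mem_univ j)).trans hk) (hc j), hx j⟩

theorem Ca.pack {q : ι → Fin 2 → ℂ} {f : P2} {d : ℕ} {m : ι → ℕ} (h : Ca q f d m) :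
    Pack d m (a0 f q) (a1 f q) := by
  refine ⟨?_, fun k μ hk hμ => ?_, a_p0 h, a_p1 h, fun μ => ?_⟩
  · refine Nat.pos_of_ne_zero fun h0 => h.prime.not_isUnit ?_
    have h1 := totalDegree_eq_zero_iff_eq_C.1 (h.deg.trans h0)
    have h2 : coeff 0 f ≠ 0 := fun h2 => h.prime.ne_zero (by rw [h1, h2, C_0])
    rw [h1]
    exact (Ne.isUnit h2).map C
  · have := finite_quot_Im f q μ
    have h1 := rr_finrank (Im f q μ) (Ak f k)
    have h2 := finrank_Ak h.prime.ne_zero h.deg k hk
    have h3 := finrank_quot_Im h.inj h.mult μ hμ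
    have h4 : (a0 f q k μ : ℤ) + Module.finrank ℂ (Af f ⧸ Im f q μ)
        = Module.finrank ℂ (Ak f k) + a1 f q k μ := by exact_mod_cast h1
    simp only [Finset.sum_add_distrib, Finset.sum_sub_distrib, mul_assoc, ← Finset.mul_sum] at h3
    unfold dg g2 sq kc
    linarith
  · obtain ⟨k0, hk⟩ := rr_sup_eq_top f q μ
    refine ⟨k0, fun k h1 => ?_⟩
    rw [a1, hk k h1, Submodule.dualAnnihilator_top, finrank_bot]

theorem a_low (q : ι → Fin 2 → ℂ) (f : P2) (k : ℕ) (μ : ι → ℕ) (r : ℕ) (G : Fin r → P2)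
    (hd : ∀ a, (G a).totalDegree ≤ k) (hm : ∀ a i, G a ∈ mx (q i) ^ μ i ⊔ Ideal.span {f})
    (hi : ∀ c : Fin r → ℂ, f ∣ ∑ a, C (c a) * G a → ∀ a, c a = 0) : r ≤ a0 f q k μ := by
  have hmem : ∀ a, Ideal.Quotient.mk (Ideal.span {f}) (G a) ∈ Im f q μ ⊓ Ak f k := by
    intro a
    refine ⟨(Submodule.mem_iInf _).2 fun i => ?_, G a, (mem_restrictTotalDegree _ _ _).2 (hd a), rfl⟩
    obtain ⟨y, hy, z, hz, hyz⟩ := Submodule.mem_sup.1 (hm a i)
    rw [Submodule.restrictScalars_mem, ← hyz, map_add, Ideal.Quotient.eq_zero_iff_mem.2 hz,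
      add_zero]
    exact Ideal.mem_map_of_mem _ hy
  have : Module.Finite ℂ ↥(Im f q μ ⊓ Ak f k) :=
    Module.Finite.of_injective (Submodule.inclusion inf_le_right) (Submodule.inclusion_injective _)
  have hli : LinearIndependent ℂ fun a => (⟨_, hmem a⟩ : ↥(Im f q μ ⊓ Ak f k)) := by
    rw [Fintype.linearIndependent_iff]
    intro c hc
    refine hi c ?_
    rw [← Ideal.mem_span_singleton, ← Ideal.Quotient.eq_zero_iff_mem]
    have h1 := congrArg Subtype.val hc
    simp only [Submodule.coe_sum, Submodule.coe_smul, Submodule.coe_zero] at h1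
    rw [← h1, map_sum]
    refine Finset.sum_congr rfl fun a _ => ?_
    rw [← smul_eq_C_mul]
    rfl
  simpa [a0] using hli.fintype_card_le_finrank

end Pool.Agent.P.MP_3c83d0_ag
end

-- part Pool.Agent.P.MP_3c83d0_ag.Proj
section

open MvPolynomial

namespace Pool.Agent.P.MP_3c83d0_ag

variable {ι : Type*} [Fintype ι]

/-- Dehomogenisation with respect to the last coordinate. -/
noncomputable def pjPhi : S →ₐ[ℂ] P2 := aeval ![X 0, X 1, 1]

/-- The homogeneous coordinates of an affine point. -/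
def pjPt (q : Fin 2 → ℂ) : Fin 3 → ℂ := ![q 0, q 1, 1]

theorem pj_eval (q : Fin 2 → ℂ) (G : S) : eval q (pjPhi G) = eval (pjPt q) G := by
  induction G using MvPolynomial.induction_on with
  | C c => simp [pjPhi]
  | add a b ha hb => simp [ha, hb]
  | mul_X a j ha =>
    rw [map_mul, map_mul, map_mul, ha]
    congr 1
    fin_cases j <;> simp [pjPhi, pjPt]

theorem pj_X2 : pjPhi (X 2) = 1 := by simp [pjPhi]

theorem pj_X2_pow (k : ℕ) : pjPhi (X 2 ^ k) = 1 := by rw [map_pow, pj_X2, one_pow]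

theorem pj_hom_X2 (k : ℕ) : (X 2 ^ k : S).IsHomogeneous k := by
  simpa using (isHomogeneous_X ℂ (2 : Fin 3)).pow k

theorem pj_surj (a : P2) : ∃ (A : S) (k : ℕ), A.IsHomogeneous k ∧ pjPhi A = a := by
  induction a using MvPolynomial.induction_on with
  | C c => exact ⟨C c, 0, isHomogeneous_C _ _, by simp [pjPhi]⟩
  | add a b ha hb =>
    obtain ⟨A, k, hA, rfl⟩ := ha
    obtain ⟨B, l, hB, rfl⟩ := hb
    refine ⟨A * X 2 ^ l + B * X 2 ^ k, k + l, (hA.mul (pj_hom_X2 l)).add ?_, ?_⟩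
    · rw [add_comm]
      exact hB.mul (pj_hom_X2 k)
    · simp only [map_add, map_mul, pj_X2_pow, mul_one]
  | mul_X a j ha =>
    obtain ⟨A, k, hA, rfl⟩ := ha
    refine ⟨A * X j.castSucc, k + 1, hA.mul (isHomogeneous_X ℂ _), ?_⟩
    rw [map_mul]
    congr 1
    fin_cases j <;> simp [pjPhi]

theorem pj_inj {A : S} {k : ℕ} (hA : A.IsHomogeneous k) (h : pjPhi A = 0) : A = 0 := by
  have h1 : A * X 2 = 0 := by
    apply MvPolynomial.funext
    intro x
    rw [map_mul, eval_X, map_zero]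
    by_cases hx : x 2 = 0
    · rw [hx, mul_zero]
    · have h2 : x = x 2 • pjPt ![x 0 / x 2, x 1 / x 2] := by
        funext j
        fin_cases j <;> simp [pjPt] <;> field_simp
      have h3 : eval x A = 0 := by
        rw [h2, eval_smul_of_isHomogeneous hA, ← pj_eval, h, map_zero, mul_zero]
      rw [h3, zero_mul]
  exact (mul_eq_zero.1 h1).resolve_right (X_ne_zero _)

theorem pj_eq {A B : S} {k l : ℕ} (hA : A.IsHomogeneous k) (hB : B.IsHomogeneous l)
    (h : pjPhi A = pjPhi B) : A * X 2 ^ l = B * X 2 ^ k := by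
  rw [← sub_eq_zero]
  refine pj_inj (k := k + l) ((hA.mul (pj_hom_X2 l)).sub ?_) ?_
  · rw [add_comm]
    exact hB.mul (pj_hom_X2 k)
  · simp only [map_sub, map_mul, pj_X2_pow, mul_one, h, sub_self]

theorem pj_dvd {F G : S} {d k : ℕ} (hF : F.IsHomogeneous d) (hP : Prime F)
    (h1 : eval ![0, 1, 0] F ≠ 0) (hG : G.IsHomogeneous k) (h : pjPhi F ∣ pjPhi G) : F ∣ G := by
  obtain ⟨e, he⟩ := h
  obtain ⟨E, n, hE, rfl⟩ := pj_surj e
  rw [← map_mul] at he
  have h2 := pj_eq hG (hF.mul hE) he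
  have h3 : F ∣ G * X 2 ^ (d + n) := ⟨E * X 2 ^ k, by rw [h2, mul_assoc]⟩
  refine (hP.dvd_or_dvd h3).resolve_right fun h4 => h1 ?_
  have h5 : F ∣ X 2 := hP.dvd_of_dvd_pow h4
  have h6 : (X 2 : S) ∣ F :=
    ((hP.irreducible.associated_of_dvd (X_prime (i := (2 : Fin 3))).irreducible h5).symm).dvd
  obtain ⟨H, rfl⟩ := h6
  simp

theorem pj_prime {F : S} {d : ℕ} (hF : F.IsHomogeneous d) (hP : Prime F)
    (h1 : eval ![0, 1, 0] F ≠ 0) : Prime (pjPhi F) := by
  refine ⟨fun h => hP.ne_zero (pj_inj hF h), fun h => hP.not_isUnit ?_, fun a b h => ?_⟩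
  · apply isUnit_of_dvd_one
    exact pj_dvd hF hP h1 (isHomogeneous_one _ _) h.dvd
  · obtain ⟨A, k, hA, rfl⟩ := pj_surj a
    obtain ⟨B, l, hB, rfl⟩ := pj_surj b
    rw [← map_mul] at h
    exact (hP.dvd_or_dvd (pj_dvd hF hP h1 (hA.mul hB) h)).imp (map_dvd _) (map_dvd _)

theorem pj_mem_pow (q : Fin 2 → ℂ) {G : S} {a : ℕ} (h : G ∈ mx (pjPt q) ^ a) :
    pjPhi G ∈ mx q ^ a := by
  have h1 : (mx (pjPt q)).map pjPhi ≤ mx q := by
    rw [Ideal.map_le_iff_le_comap]
    intro x hx
    rw [Ideal.mem_comap, mem_mx, pj_eval]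
    exact hx
  have h2 := Ideal.mem_map_of_mem pjPhi h
  rw [Ideal.map_pow] at h2
  exact Ideal.pow_right_mono h1 a h2

theorem pj_lift (q : Fin 2 → ℂ) (n : ℕ) : ∀ a ∈ mx q ^ n,
    ∃ (A : S) (k : ℕ), A.IsHomogeneous k ∧ pjPhi A = a ∧ A ∈ mx (pjPt q) ^ n := by
  induction n with
  | zero =>
    intro a _
    obtain ⟨A, k, hA, h⟩ := pj_surj a
    exact ⟨A, k, hA, h, by simp⟩
  | succ n ih =>
    intro a ha
    rw [pow_succ] at ha
    refine Submodule.mul_induction_on ha ?_ ?_
    · intro x hx y hy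
      obtain ⟨A, k, hA, rfl, hm⟩ := ih x hx
      obtain ⟨B, l, hB, rfl⟩ := pj_surj y
      refine ⟨A * B, k + l, hA.mul hB, map_mul _ _ _, ?_⟩
      rw [pow_succ]
      refine Ideal.mul_mem_mul hm ?_
      rw [mem_mx, ← pj_eval]
      exact hy
    · rintro x y ⟨A, k, hA, rfl, hm⟩ ⟨B, l, hB, rfl, hn⟩
      refine ⟨A * X 2 ^ l + B * X 2 ^ k, k + l, (hA.mul (pj_hom_X2 l)).add ?_, ?_, ?_⟩
      · rw [add_comm]
        exact hB.mul (pj_hom_X2 k)
      · simp only [map_add, map_mul, pj_X2_pow, mul_one]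
      · exact add_mem (Ideal.mul_mem_right _ _ hm) (Ideal.mul_mem_right _ _ hn)

theorem pj_mult (q : Fin 2 → ℂ) {F : S} {d m : ℕ} (hF : F.IsHomogeneous d)
    (h : HasMult F (pjPt q) m) : HasMult (pjPhi F) q m := by
  refine ⟨pj_mem_pow q h.1, fun h1 => ?_⟩
  obtain ⟨A, k, hA, h2, h3⟩ := pj_lift q _ _ h1
  have h4 := pj_eq hF hA h2.symm
  have h5 : (X 2 ^ k : S) ∉ mx (pjPt q) ^ (0 + 1) := by
    rw [zero_add, pow_one, mem_mx]
    simp [pjPt]
  refine not_mem_mul (pjPt q) h.2 h5 ?_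
  rw [h4]
  exact Ideal.mul_mem_right _ _ h3

theorem pj_monomial (s : Fin 3 →₀ ℕ) (c : ℂ) : pjPhi (monomial s c) =
    monomial (Finsupp.single 0 (s 0) + Finsupp.single 1 (s 1)) c := by
  rw [pjPhi, aeval_monomial, Finsupp.prod_fintype _ _ (by simp), Fin.prod_univ_three,
    monomial_add_single, ← zero_add (Finsupp.single (0 : Fin 2) (s 0)), monomial_add_single]
  simp [mul_assoc]

theorem pj_deg_sum {G : S} {k : ℕ} (hG : G.IsHomogeneous k) {s : Fin 3 →₀ ℕ}
    (hs : s ∈ G.support) : s 0 + s 1 + s 2 = k := by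
  have h := hG (mem_support_iff.1 hs)
  rw [← h, Finsupp.weight_apply, Finsupp.sum_fintype _ _ (by simp), Fin.sum_univ_three]
  simp

theorem pj_totalDegree {G : S} {k : ℕ} (hG : G.IsHomogeneous k) :
    (pjPhi G).totalDegree ≤ k := by
  conv_lhs => rw [G.as_sum, map_sum]
  refine totalDegree_finsetSum_le fun s hs => ?_
  rw [pj_monomial]
  refine (totalDegree_monomial_le _ _).trans ?_
  rw [Finsupp.sum_fintype _ _ (by simp), Fin.sum_univ_two]
  have := pj_deg_sum hG hs
  simp
  omega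

theorem pj_top {G : S} {k : ℕ} (hG : G.IsHomogeneous k) :
    coeff (Finsupp.single 1 k) (pjPhi G) = eval ![0, 1, 0] G := by
  conv_lhs => rw [G.as_sum, map_sum, coeff_sum]
  conv_rhs => rw [G.as_sum, map_sum]
  refine Finset.sum_congr rfl fun s hs => ?_
  have h := pj_deg_sum hG hs
  rw [pj_monomial, coeff_monomial, eval_monomial, Finsupp.prod_fintype _ _ (by simp),
    Fin.prod_univ_three]
  by_cases h0 : s 0 = 0 ∧ s 2 = 0
  · rw [if_pos]
    · simp [h0.1, h0.2]
    · have : s 1 = k := by omega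
      simp [h0.1, this]
  · rw [if_neg]
    · rcases not_and_or.1 h0 with h1 | h1 <;> simp [h1]
    · intro h1
      have a0 := DFunLike.congr_fun h1 0
      have a1 := DFunLike.congr_fun h1 1
      simp at a0 a1
      omega

theorem pj_pack {q : ι → Fin 2 → ℂ} {F : S} {d : ℕ} {m : ι → ℕ} (hq : Function.Injective q)
    (hC : Cv (fun i => pjPt (q i)) F d m) (h1 : eval ![0, 1, 0] F ≠ 0) :
    ∃ h0 h1, Pack d m h0 h1 ∧ Low (fun i => pjPt (q i)) F h0 := by
  have ht : coeff (Finsupp.single 1 d) (pjPhi F) ≠ 0 := by rwa [pj_top hC.hom]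
  have ha : Ca q (pjPhi F) d m := by
    refine ⟨hq, pj_prime hC.hom hC.prime h1, le_antisymm (pj_totalDegree hC.hom) ?_, ht,
      fun i => pj_mult _ hC.hom (hC.mult i)⟩
    simpa using le_totalDegree (mem_support_iff.2 ht)
  refine ⟨_, _, ha.pack, fun k μ r G hG hm hi => ?_⟩
  refine a_low q _ k μ r (fun a => pjPhi (G a)) (fun a => pj_totalDegree (hG a))
    (fun a i => ?_) (fun c hc => hi c ?_)
  · obtain ⟨x, hx, y, hy, h⟩ := Submodule.mem_sup.1 (hm a i)
    rw [← h, map_add]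
    refine add_mem (Ideal.mem_sup_left (pj_mem_pow _ hx)) (Ideal.mem_sup_right ?_)
    rw [Ideal.mem_span_singleton] at hy ⊢
    exact map_dvd _ hy
  · refine pj_dvd (k := k) hC.hom hC.prime h1 ?_ ?_
    · exact IsHomogeneous.sum _ _ _ fun a _ => (hG a).C_mul _
    · rw [map_sum]
      simpa only [map_mul, algHom_C, algebraMap_eq] using hc

theorem pj_aeval (x : Fin 3 × Fin 3 → ℂ) (F : S) :
    eval x (aeval (fun a => (X (a, 1) : MvPolynomial (Fin 3 × Fin 3) ℂ)) F) =
      eval (fun a => x (a, 1)) F := by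
  induction F using MvPolynomial.induction_on with
  | C c => simp
  | add a b ha hb => simp only [map_add, ha, hb]
  | mul_X a j ha => simp only [map_mul, ha, aeval_X, eval_X]

/-- A good coordinate system. -/
theorem pj_coord {p : ι → Fin 3 → ℂ} (hp : ∀ i, p i ≠ 0) {F : S} (hF : F ≠ 0) :
    ∃ g : Matrix (Fin 3) (Fin 3) ℂ, g.det ≠ 0 ∧ eval (g.mulVec ![0, 1, 0]) F ≠ 0 ∧
      ∀ i r, g.mulVec r = p i → r 2 ≠ 0 := by
  let Q := MvPolynomial (Fin 3 × Fin 3) ℂ
  let A : Q := (Matrix.of fun a b => (X (a, b) : Q)).det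
  let B : Q := aeval (fun a => (X (a, 1) : Q)) F
  let D : ι → Q := fun i => (X (0, 0) * X (1, 1) - X (1, 0) * X (0, 1)) * C (p i 2) +
    (X (1, 0) * X (2, 1) - X (2, 0) * X (1, 1)) * C (p i 0) +
    (X (2, 0) * X (0, 1) - X (0, 0) * X (2, 1)) * C (p i 1)
  have eA : ∀ x : Fin 3 × Fin 3 → ℂ, eval x A = (Matrix.of fun a b => x (a, b)).det := by
    intro x
    rw [RingHom.map_det]
    congr 1
    ext a b
    simp
  have eB : ∀ x : Fin 3 × Fin 3 → ℂ, eval x B = eval (fun a => x (a, 1)) F := by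
    intro x
    exact pj_aeval x F
  have hA : A ≠ 0 := by
    intro h
    have := eA fun ab => (1 : Matrix (Fin 3) (Fin 3) ℂ) ab.1 ab.2
    rw [h, map_zero] at this
    have h2 : (Matrix.of fun a b => (1 : Matrix (Fin 3) (Fin 3) ℂ) a b) = 1 := rfl
    rw [h2, Matrix.det_one] at this
    exact zero_ne_one this
  have hB : B ≠ 0 := by
    intro h
    apply hF
    apply MvPolynomial.funext
    intro o
    have := eB fun ab => o ab.1
    rw [h, map_zero] at this
    rw [map_zero]
    exact this.symm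
  have hD : ∀ i, D i ≠ 0 := by
    intro i h
    apply hp i
    have h0 := congrArg (eval fun ab : Fin 3 × Fin 3 =>
      (!![0, 0, 0; 1, 0, 0; 0, 1, 0] : Matrix (Fin 3) (Fin 3) ℂ) ab.1 ab.2) h
    have h1 := congrArg (eval fun ab : Fin 3 × Fin 3 =>
      (!![0, 1, 0; 0, 0, 0; 1, 0, 0] : Matrix (Fin 3) (Fin 3) ℂ) ab.1 ab.2) h
    have h2 := congrArg (eval fun ab : Fin 3 × Fin 3 =>
      (!![1, 0, 0; 0, 1, 0; 0, 0, 0] : Matrix (Fin 3) (Fin 3) ℂ) ab.1 ab.2) h
    simp [D] at h0 h1 h2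
    funext j
    fin_cases j <;> simp [h0, h1, h2]
  have hne : A * B * ∏ i, D i ≠ 0 :=
    mul_ne_zero (mul_ne_zero hA hB) (Finset.prod_ne_zero_iff.2 fun i _ => hD i)
  obtain ⟨x, hx⟩ : ∃ x : Fin 3 × Fin 3 → ℂ, eval x (A * B * ∏ i, D i) ≠ 0 := by
    by_contra hcon
    push Not at hcon
    exact hne (MvPolynomial.funext fun x => by rw [hcon x, map_zero])
  rw [map_mul, map_mul, map_prod, mul_ne_zero_iff, mul_ne_zero_iff, Finset.prod_ne_zero_iff,
    eA, eB] at hx
  refine ⟨Matrix.of fun a b => x (a, b), hx.1.1, ?_, fun i r hr h2 => hx.2 i (Finset.mem_univ _) ?_⟩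
  · have : (Matrix.of fun a b => x (a, b)).mulVec ![0, 1, 0] = fun a => x (a, 1) := by
      funext a
      simp [Matrix.mulVec, dotProduct, Fin.sum_univ_three]
    rw [this]
    exact hx.1.2
  · have e0 := congrFun hr 0
    have e1 := congrFun hr 1
    have e2 := congrFun hr 2
    simp [Matrix.mulVec, dotProduct, Fin.sum_univ_three, h2] at e0 e1 e2
    simp only [D, map_add, map_mul, map_sub, eval_X, eval_C]
    rw [← e0, ← e1, ← e2]
    ring

theorem exists_pack {p : ι → Fin 3 → ℂ} {F : S} {d : ℕ} {m : ι → ℕ} (hs : Sep p)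
    (hC : Cv p F d m) : ∃ h0 h1, Pack d m h0 h1 ∧ Low p F h0 := by
  obtain ⟨g, hg, hF, hr⟩ := pj_coord hs.1 hC.prime.ne_zero
  have hu : IsUnit g.det := isUnit_iff_ne_zero.2 hg
  let r : ι → Fin 3 → ℂ := fun i => g⁻¹.mulVec (p i)
  have hgr : ∀ i, g.mulVec (r i) = p i := by
    intro i
    simp only [r]
    rw [Matrix.mulVec_mulVec, Matrix.mul_nonsing_inv _ hu, Matrix.one_mulVec]
  have h2 : ∀ i, r i 2 ≠ 0 := fun i => hr i _ (hgr i)
  let q : ι → Fin 2 → ℂ := fun i => ![r i 0 / r i 2, r i 1 / r i 2]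
  have hq : ∀ i, pjPt (q i) = (r i 2)⁻¹ • r i := by
    intro i
    have := h2 i
    funext j
    fin_cases j <;> simp [pjPt, q] <;> field_simp
  have hq' : ∀ i, r i = r i 2 • pjPt (q i) := by
    intro i
    rw [hq, smul_smul, mul_inv_cancel₀ (h2 i), one_smul]
  have hC1 : Cv r (lin g F) d m := Cv.subst hu (by simpa only [hgr] using hC)
  have hC2 : Cv (fun i => pjPt (q i)) (lin g F) d m := by
    refine ⟨hC1.hom, hC1.prime, fun i => ⟨?_, fun h => (hC1.mult i).2 ?_⟩⟩
    · rw [hq]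
      exact mem_pow_smul_of_mem hC1.hom _ (inv_ne_zero (h2 i)) (hC1.mult i).1
    · rw [hq' i]
      exact mem_pow_smul_of_mem hC1.hom _ (h2 i) h
  have hinj : Function.Injective q := by
    intro i j hij
    by_contra hne
    refine hs.2 i j hne (r i 2 * (r j 2)⁻¹) ?_
    have h3 : r i = (r i 2 * (r j 2)⁻¹) • r j := by
      rw [← smul_smul, ← hq j, ← hij]
      exact hq' i
    rw [← hgr i, ← hgr j, ← Matrix.mulVec_smul, ← h3]
  obtain ⟨h0, h1, hP, hL⟩ := pj_pack hinj hC2 (by rwa [eval_lin])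
  refine ⟨h0, h1, hP, fun k μ n G hG hm hi => ?_⟩
  refine hL k μ n (fun a => lin g (G a)) (fun a => lin_isHomogeneous g (hG a))
    (fun a i => ?_) (fun c hc => hi c ?_)
  · simp only [hq]
    refine mem_smul_of_mem hC1.hom (lin_isHomogeneous g (hG a)) _ (inv_ne_zero (h2 i)) ?_
    obtain ⟨x, hx, y, hy, h⟩ := Submodule.mem_sup.1 (hm a i)
    rw [← h, map_add]
    refine add_mem (Ideal.mem_sup_left (lin_mem_pow g _ (by rwa [hgr]))) (Ideal.mem_sup_right ?_)
    rw [Ideal.mem_span_singleton] at hy ⊢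
    exact map_dvd _ hy
  · have h3 : ∑ a, C (c a) * lin g (G a) = lin g (∑ a, C (c a) * G a) := by
      rw [map_sum]
      simp only [map_mul, algHom_C, algebraMap_eq]
    rw [h3] at hc
    have h4 := map_dvd (lin g⁻¹) hc
    rwa [lin_lin, lin_lin, Matrix.mul_nonsing_inv _ hu, lin_one, lin_one] at h4

end Pool.Agent.P.MP_3c83d0_ag
end

-- part Pool.Agent.P.MP_3c83d0_ag.Num
section

open MvPolynomial

namespace Pool.Agent.P.MP_3c83d0_ag

variable {ι : Type*} [Fintype ι] {d : ℕ} {m : ι → ℕ} {h0 h1 : ℕ → (ι → ℕ) → ℕ}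

theorem num_dg_add (d : ℕ) (m : ι → ℕ) (k k' : ℕ) (μ μ' : ι → ℕ) :
    dg d m (k + k') (μ + μ') = dg d m k μ + dg d m k' μ' := by
  unfold dg
  simp only [Pi.add_apply, Nat.cast_add, add_mul, Finset.sum_add_distrib]
  ring

theorem num_big (h : Pack d m h0 h1) :
    ∃ K, d ≤ K + 2 ∧ h1 K m = 0 ∧ 0 < h0 K m := by
  obtain ⟨k0, hk0⟩ := h.van m
  set N : ℕ := (2 * ∑ i, (m i : ℤ) * m i + g2 d m).toNat + 1 with hN
  refine ⟨k0 + d + N, by omega, hk0 _ (by omega), ?_⟩
  have hr := h.rr (k0 + d + N) m (by omega) (fun i => by omega)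
  rw [hk0 _ (by omega)] at hr
  unfold dg at hr
  have h2 : 2 * ∑ i, (m i : ℤ) * m i + g2 d m < N := by
    have := Int.self_le_toNat (2 * ∑ i, (m i : ℤ) * m i + g2 d m)
    rw [hN]; push_cast; omega
  have h3 : (1 : ℤ) ≤ d := by exact_mod_cast h.pos
  have h4 : (0 : ℤ) < h0 (k0 + d + N) m := by
    push_cast at hr
    nlinarith [Int.natCast_nonneg k0, Int.natCast_nonneg N]
  exact_mod_cast h4

/-- Bezout bound. -/
theorem Pack.b0 (h : Pack d m h0 h1) (k : ℕ) (μ : ι → ℕ) (hp : 0 < h0 k μ) :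
    (h0 k μ : ℤ) ≤ dg d m k μ + 1 := by
  obtain ⟨K, hK, hv, hpos⟩ := num_big h
  have e1 : h1 (K + k) (m + μ) = 0 := by
    by_contra hc
    have := h.p1 K m k μ hK hp (Nat.pos_of_ne_zero hc)
    omega
  have r1 := h.rr K m hK (fun i => by omega)
  have r2 := h.rr (K + k) (m + μ) (by omega) (fun i => by simp only [Pi.add_apply]; omega)
  have p := h.p0 K m k μ hpos hp
  rw [num_dg_add, e1] at r2
  rw [hv] at r1
  omega

theorem Pack.g0 (h : Pack d m h0 h1) : -2 ≤ g2 d m := by
  obtain ⟨K, hK, hv, hpos⟩ := num_big h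
  have r1 := h.rr K m hK (fun i => by omega)
  have b := h.b0 K m hpos
  rw [hv] at r1
  omega

/-- A class with `h0 = deg + 1 ≥ 2` forces genus zero. -/
theorem Pack.g1 (h : Pack d m h0 h1) (k : ℕ) (μ : ι → ℕ) (hk : d ≤ k + 2)
    (hμ : ∀ i, m i ≤ μ i + 1) (h2 : 2 ≤ h0 k μ) (hd : dg d m k μ + 1 ≤ h0 k μ) :
    g2 d m = -2 := by
  have key : ∀ j : ℕ, ∃ k' μ', d ≤ k' + 2 ∧ (∀ i, m i ≤ μ' i + 1) ∧ 0 < h0 k' μ' ∧
      dg d m k' μ' + 1 ≤ h0 k' μ' ∧ (h1 k' μ' = 0 ∨ h1 k' μ' + j ≤ h1 k μ) := by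
    intro j
    induction j with
    | zero => exact ⟨k, μ, hk, hμ, by omega, hd, Or.inr le_rfl⟩
    | succ j ih =>
      obtain ⟨k', μ', a1, a2, a3, a4, a5⟩ := ih
      have p := h.p0 k' μ' k μ a3 (by omega)
      refine ⟨k' + k, μ' + μ, by omega, fun i => ?_, by omega, ?_, ?_⟩
      · have := a2 i
        simp only [Pi.add_apply]
        omega
      · rw [num_dg_add]
        omega
      · by_cases hc : h1 (k' + k) (μ' + μ) = 0
        · exact Or.inl hc
        · have := h.p1 k' μ' k μ a1 (by omega) (Nat.pos_of_ne_zero hc)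
          omega
  obtain ⟨k', μ', a1, a2, a3, a4, a5⟩ := key (h1 k μ)
  have r := h.rr k' μ' a1 a2
  have g := h.g0
  omega

/-- Clifford type alternative. -/
theorem Pack.cl (h : Pack d m h0 h1) (k : ℕ) (μ : ι → ℕ) (k' : ℕ) (μ' : ι → ℕ) (hk : d ≤ k + 2)
    (hμ : ∀ i, m i ≤ μ i + 1) (hp : 0 < h0 k' μ')
    (hlt : dg d m k' μ' + 1 + h0 k μ < h0 k' μ' + h0 (k + k') (μ + μ')) :
    2 * (h0 (k + k') (μ + μ') : ℤ) = 2 * dg d m (k + k') (μ + μ') - g2 d m := by
  have r1 := h.rr k μ hk hμ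
  have r2 := h.rr (k + k') (μ + μ') (by omega) (fun i => by
    have := hμ i
    simp only [Pi.add_apply]
    omega)
  by_cases hc : h1 (k + k') (μ + μ') = 0
  · rw [hc] at r2
    omega
  · have := h.p1 k μ k' μ' hk hp (Nat.pos_of_ne_zero hc)
    rw [num_dg_add] at r2
    omega

end Pool.Agent.P.MP_3c83d0_ag
end

-- part Pool.Agent.P.MP_3c83d0_ag.Theta
section

open MvPolynomial

namespace Pool.Agent.P.MP_3c83d0_ag

variable {ι : Type*} [Fintype ι]

theorem Gen.sep {p : ι → Fin 3 → ℂ} (hp : Gen p) : Sep p := by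
  classical
  refine ⟨hp.1, fun i j hij c hc => ?_⟩
  have key : ∀ u : Fin 3 → ℂ, ∃ α : ℂ, ∀ a, u a = α * p j a := by
    intro u
    obtain ⟨D, A, e, h⟩ := hp.2 (Pi.single i u)
    refine ⟨c * e j - D c - e i * c, fun a => ?_⟩
    have h1 := h i a
    have h2 := h j a
    rw [Pi.single_eq_same, hc, Matrix.mulVec_smul] at h1
    rw [Pi.single_eq_of_ne hij.symm] at h2
    simp only [Pi.smul_apply, smul_eq_mul, Derivation.leibniz, Pi.zero_apply] at h1 h2
    linear_combination c * h2 - h1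
  obtain ⟨α, hα⟩ := key (Pi.single 0 1)
  obtain ⟨β, hβ⟩ := key (Pi.single 1 1)
  have a0 := hα 0
  have a1 := hα 1
  have b0 := hβ 0
  have b1 := hβ 1
  simp only [Pi.single_eq_same] at a0 b1
  rw [Pi.single_eq_of_ne (by decide)] at a1 b0
  have : (1 : ℂ) = 0 := by
    linear_combination a0 + α * p j 0 * b1 - β * p j 0 * a1
  exact one_ne_zero this

theorem Gen.det_ne {p : ι → Fin 3 → ℂ} (hp : Gen p) {i j k : ι} (hij : i ≠ j) (hik : i ≠ k)
    (hjk : j ≠ k) : (Matrix.of ![p i, p j, p k]).det ≠ 0 := by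
  classical
  intro hdet
  rw [Matrix.det_fin_three] at hdet
  simp only [Matrix.of_apply, Matrix.cons_val_zero, Matrix.cons_val_one, Matrix.cons_val] at hdet
  have key : ∀ u : Fin 3 → ℂ, u 0 * (p j 1 * p k 2 - p j 2 * p k 1)
      + u 1 * (p j 2 * p k 0 - p j 0 * p k 2) + u 2 * (p j 0 * p k 1 - p j 1 * p k 0) = 0 := by
    intro u
    obtain ⟨D, A, e, h⟩ := hp.2 (Pi.single i u)
    have hi : ∀ a, D (p i a) = A a 0 * p i 0 + A a 1 * p i 1 + A a 2 * p i 2 - u a
        - e i * p i a := fun a => by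
      have := h i a
      rw [Pi.single_eq_same] at this
      simp only [Matrix.mulVec, dotProduct, Fin.sum_univ_three] at this
      linear_combination -this
    have hl : ∀ l, l ≠ i → ∀ a, D (p l a) = A a 0 * p l 0 + A a 1 * p l 1 + A a 2 * p l 2
        - e l * p l a := fun l hl a => by
      have := h l a
      rw [Pi.single_eq_of_ne hl] at this
      simp only [Matrix.mulVec, dotProduct, Fin.sum_univ_three, Pi.zero_apply] at this
      linear_combination -this
    have hD := congrArg D hdet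
    simp only [map_sub, map_add, Derivation.leibniz, smul_eq_mul, map_zero, hi, hl j hij.symm,
      hl k hik.symm] at hD
    linear_combination (A 0 0 + A 1 1 + A 2 2 - e i - e j - e k) * hdet - hD
  have c0 := key (Pi.single 0 1)
  have c1 := key (Pi.single 1 1)
  have c2 := key (Pi.single 2 1)
  simp only [Pi.single_eq_same, Pi.single_eq_of_ne, ne_eq, Fin.reduceEq, not_false_eq_true,
    one_mul, zero_mul, add_zero, zero_add] at c0 c1 c2
  obtain ⟨a, ha⟩ := Function.ne_iff.1 (hp.1 k)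
  rw [Pi.zero_apply] at ha
  refine hp.sep.2 j k hjk (p j a / p k a) (funext fun b => ?_)
  rw [Pi.smul_apply, smul_eq_mul, div_mul_eq_mul_div, eq_div_iff ha]
  fin_cases a <;> fin_cases b <;> simp only [Fin.zero_eta, Fin.mk_one, Fin.reduceFinMk] <;>
    first
      | linear_combination c0
      | linear_combination -c0
      | linear_combination c1
      | linear_combination -c1
      | linear_combination c2
      | linear_combination -c2

theorem Gen.subst {p : ι → Fin 3 → ℂ} (hp : Gen p) {g : Matrix (Fin 3) (Fin 3) ℂ}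
    (hg : IsUnit g.det) : Gen (fun i => g.mulVec (p i)) := by
  refine ⟨fun i h0 => hp.1 i ?_, fun w => ?_⟩
  · have h1 : g⁻¹.mulVec (g.mulVec (p i)) = p i := by
      rw [Matrix.mulVec_mulVec, Matrix.nonsing_inv_mul _ hg, Matrix.one_mulVec]
    have h2 : g.mulVec (p i) = 0 := h0
    rw [← h1, h2, Matrix.mulVec_zero]
  · obtain ⟨D, A, c, h⟩ := hp.2 fun i => g⁻¹.mulVec (w i)
    refine ⟨D, (g * A + g.map D) * g⁻¹, c, fun i a => ?_⟩
    have h1 : ((g * A + g.map D) * g⁻¹).mulVec (g.mulVec (p i))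
        = g.mulVec (A.mulVec (p i)) + (g.map D).mulVec (p i) := by
      rw [Matrix.mulVec_mulVec, Matrix.mul_assoc, Matrix.nonsing_inv_mul _ hg, Matrix.mul_one,
        Matrix.add_mulVec, Matrix.mulVec_mulVec]
    have h2 : g.mulVec (g⁻¹.mulVec (w i)) = w i := by
      rw [Matrix.mulVec_mulVec, Matrix.mul_nonsing_inv _ hg, Matrix.one_mulVec]
    have h3 := congrFun h2 a
    have e0 := h i 0
    have e1 := h i 1
    have e2 := h i 2
    dsimp only at e0 e1 e2 ⊢
    rw [h1, Pi.add_apply]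
    generalize g⁻¹.mulVec (w i) = w' at h3 e0 e1 e2
    generalize A.mulVec (p i) = v at e0 e1 e2
    simp only [Matrix.mulVec, dotProduct, Fin.sum_univ_three, Matrix.map_apply, map_add,
      Derivation.leibniz, smul_eq_mul] at h3 ⊢
    linear_combination g a 0 * e0 + g a 1 * e1 + g a 2 * e2 + h3

/-- Apply a derivation of the ground field to all coefficients. -/
noncomputable def thCo (D : Derivation ℤ ℂ ℂ) (G : S) : S :=
  ∑ s ∈ G.support, monomial s (D (coeff s G))

theorem coeff_thCo (D : Derivation ℤ ℂ ℂ) (G : S) (s : Fin 3 →₀ ℕ) :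
    coeff s (thCo D G) = D (coeff s G) := by
  unfold thCo
  rw [coeff_sum]
  simp only [coeff_monomial]
  rw [Finset.sum_ite_eq']
  split_ifs with h
  · rfl
  · rw [notMem_support_iff.1 h, map_zero]

theorem thCo_add (D : Derivation ℤ ℂ ℂ) (G H : S) : thCo D (G + H) = thCo D G + thCo D H := by
  ext s
  simp only [coeff_thCo, coeff_add, map_add]

theorem thCo_mul (D : Derivation ℤ ℂ ℂ) (G H : S) :
    thCo D (G * H) = G * thCo D H + H * thCo D G := by
  ext s
  rw [mul_comm H]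
  simp only [coeff_thCo, coeff_add, coeff_mul, map_sum, Derivation.leibniz, smul_eq_mul,
    ← Finset.sum_add_distrib]
  exact Finset.sum_congr rfl fun x _ => by ring

theorem thCo_sub (D : Derivation ℤ ℂ ℂ) (a : Fin 3) (c : ℂ) :
    thCo D (X a - C c) = -C (D c) := by
  ext s
  rw [coeff_thCo, coeff_sub, coeff_neg, coeff_C, coeff_C, coeff_X, map_sub]
  split_ifs <;> simp

theorem thCo_pderiv (D : Derivation ℤ ℂ ℂ) (G : S) (j : Fin 3) :
    thCo D (pderiv j G) = pderiv j (thCo D G) := by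
  ext s
  rw [coeff_thCo, coeff_pderiv, coeff_pderiv, coeff_thCo, Derivation.leibniz, map_add,
    Derivation.map_natCast, Derivation.map_one_eq_zero]
  simp [mul_comm]

theorem th_pderiv_comm (G : S) (a j : Fin 3) :
    pderiv a (pderiv j G) = pderiv j (pderiv a G) := by
  ext s
  simp only [coeff_pderiv]
  rw [add_right_comm s]
  by_cases h : a = j
  · subst h
    rfl
  · simp only [Finsupp.add_apply, Finsupp.single_eq_of_ne h, Finsupp.single_eq_of_ne (Ne.symm h),
      add_zero]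
    ring

/-- A derivation of the ground field plus a polynomial vector field. -/
noncomputable def th (D : Derivation ℤ ℂ ℂ) (V : Fin 3 → S) : Derivation ℤ S S :=
  Derivation.mk'
    (AddMonoidHom.mk' (fun G => thCo D G + ∑ a, V a * pderiv a G) fun G H => by
      simp only [thCo_add, map_add, mul_add, Finset.sum_add_distrib]
      ring).toIntLinearMap
    fun G H => by
      show thCo D (G * H) + ∑ a, V a * pderiv a (G * H)
        = G * (thCo D H + ∑ a, V a * pderiv a H) + H * (thCo D G + ∑ a, V a * pderiv a G)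
      simp only [thCo_mul, Derivation.leibniz, smul_eq_mul, Fin.sum_univ_three]
      ring

theorem th_apply (D : Derivation ℤ ℂ ℂ) (V : Fin 3 → S) (G : S) :
    th D V G = thCo D G + ∑ a, V a * pderiv a G := rfl

theorem th_mem (D : Derivation ℤ ℂ ℂ) (V : Fin 3 → S) (q : Fin 3 → ℂ)
    (h : ∀ a, eval q (V a) = D (q a)) (n : ℕ) : ∀ G ∈ mx q ^ n, th D V G ∈ mx q ^ n := by
  have key : ∀ x ∈ Ideal.span (Set.range fun j => (X j - C (q j) : S)), th D V x ∈ mx q := by
    intro x hx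
    induction hx using Submodule.span_induction with
    | mem x hx =>
      obtain ⟨a, rfl⟩ := hx
      rw [mem_mx, th_apply, thCo_sub]
      have e : ∑ b, V b * pderiv b (X a - C (q a) : S) = V a := by
        simp only [map_sub, pderiv_C, sub_zero, pderiv_X]
        rw [Finset.sum_eq_single a]
        · simp
        · intro b _ hb
          simp [Pi.single_eq_of_ne hb.symm]
        · simp
      rw [e]
      simp [h]
    | zero => simp
    | add x y _ _ hx hy =>
      rw [map_add]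
      exact Ideal.add_mem _ hx hy
    | smul r x hx0 hx =>
      have hx1 : x ∈ mx q := by rw [mx_eq_span]; exact hx0
      rw [smul_eq_mul, Derivation.leibniz, smul_eq_mul, smul_eq_mul]
      exact Ideal.add_mem _ (Ideal.mul_mem_left _ _ hx) (Ideal.mul_mem_right _ _ hx1)
  exact der_pow_mem (th D V) (mx q) (fun x hx => key x (mx_eq_span q ▸ hx)) n

/-- The derivation of the polynomial ring that moves `p i` in the direction `w` and fixes the
other points. -/
theorem Gen.exists_theta {p : ι → Fin 3 → ℂ} (hp : Gen p) (i : ι) (w : Fin 3 → ℂ) :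
    ∃ Θ : Derivation ℤ S S, (∀ (G : S) (k : ℕ), G.IsHomogeneous k → (Θ G).IsHomogeneous k) ∧
      (∀ j, j ≠ i → ∀ (G : S) (k a : ℕ), G.IsHomogeneous k → G ∈ mx (p j) ^ a →
        Θ G ∈ mx (p j) ^ a) ∧
      (∀ (G : S) (k a : ℕ), G.IsHomogeneous k → G ∈ mx (p i) ^ a →
        Θ G - dv w G ∈ mx (p i) ^ a) ∧
      (∀ (G : S) (j : Fin 3),
        Θ (pderiv j G) - pderiv j (Θ G) ∈ Ideal.span (Set.range fun b => pderiv b G)) := by
  classical
  obtain ⟨D, A, c, h⟩ := hp.2 (Pi.single i w)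
  have main : ∀ (j : ι) (u : Fin 3 → ℂ), (Pi.single i w : ι → Fin 3 → ℂ) j = u →
      ∀ (G : S) (k a : ℕ), G.IsHomogeneous k → G ∈ mx (p j) ^ a →
        th D (fun a => ∑ b, C (A a b) * X b) G - dv u G ∈ mx (p j) ^ a := by
    intro j u hu G k a hG hm
    have h1 := th_mem D (fun a => ∑ b, C (A a b) * X b - C (u a + c j * p j a)) (p j)
      (fun a => by
        have := h j a
        rw [hu] at this
        simp only [Matrix.mulVec, dotProduct] at this
        simp only [map_sub, map_sum, map_mul, eval_C, eval_X]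
        linear_combination this) a G hm
    have h2 := Ideal.mul_mem_left _ (C (c j)) (dv_self_mem (p j) hG hm)
    have h3 := Ideal.add_mem _ h1 h2
    convert h3 using 1
    simp only [th_apply, dv, Fin.sum_univ_three, map_add, map_mul]
    ring
  refine ⟨th D fun a => ∑ b, C (A a b) * X b, fun G k hG => ?_, fun j hj G k a hG hm => ?_,
    main i w (Pi.single_eq_same _ _), fun G j => ?_⟩
  · rw [th_apply]
    refine IsHomogeneous.add (fun s hs => hG fun h0 => hs ?_) (IsHomogeneous.sum _ _ _ fun a _ => ?_)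
    · rw [coeff_thCo, h0, map_zero]
    · rcases k with _ | k
      · rw [totalDegree_eq_zero_iff_eq_C.1 (Nat.le_zero.1 hG.totalDegree_le), pderiv_C, mul_zero]
        exact isHomogeneous_zero _ _ _
      · have h1 : (∑ b, C (A a b) * X b : S).IsHomogeneous 1 :=
          IsHomogeneous.sum _ _ _ fun b _ => (isHomogeneous_X ℂ b).C_mul _
        have h2 := h1.mul (hG.pderiv (i := a))
        rwa [Nat.add_sub_cancel, add_comm] at h2
  · have h1 := main j 0 (Pi.single_eq_of_ne hj _) G k a hG hm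
    have h2 : dv (0 : Fin 3 → ℂ) G = 0 := by simp [dv]
    rwa [h2, sub_zero] at h1
  · generalize (fun a => ∑ b, C (A a b) * X b : Fin 3 → S) = V
    have e : th D V (pderiv j G) - pderiv j (th D V G) = -∑ a, pderiv j (V a) * pderiv a G := by
      simp only [th_apply, map_add, thCo_pderiv, Fin.sum_univ_three, Derivation.leibniz,
        smul_eq_mul, th_pderiv_comm G _ j]
      ring
    rw [e]
    exact neg_mem (Ideal.sum_mem _ fun a _ =>
      Ideal.mul_mem_left _ _ (Ideal.subset_span ⟨a, rfl⟩))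

end Pool.Agent.P.MP_3c83d0_ag
end

-- part Pool.Agent.P.MP_3c83d0_ag.NP
section

open MvPolynomial

namespace Pool.Agent.P.MP_3c83d0_ag

theorem np_exists_pow {R : Type*} [CommRing R] {J Q : Ideal R} (hQ : Q ∈ J.minimalPrimes) {x : R}
    (hx : x ∈ Q) : ∃ s ∉ Q, ∃ n : ℕ, s * x ^ n ∈ J := by
  have := hQ.isPrime
  by_contra h
  push Not at h
  have hd : Disjoint (J : Set R) (Q.primeCompl ⊔ Submonoid.powers x : Submonoid R) := by
    rw [Set.disjoint_left]
    intro y hy hm
    obtain ⟨s, hs, z, ⟨n, rfl⟩, rfl⟩ := Submonoid.mem_sup.1 hm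
    exact h s hs n hy
  obtain ⟨Q', hQ', hJ, hdis⟩ := Ideal.exists_le_prime_disjoint J _ hd
  have hle : Q' ≤ Q := fun y hy => by
    by_contra hn
    exact Set.disjoint_left.1 hdis hy (Submonoid.mem_sup_left hn)
  exact Set.disjoint_left.1 hdis (hQ.2 ⟨hQ', hJ⟩ hle hx)
    (Submonoid.mem_sup_right (Submonoid.mem_powers x))

theorem np_natCast_mem {Q : Ideal S} (hQ : Q.IsPrime) {n : ℕ} (hn : n ≠ 0) : (n : S) ∉ Q := by
  intro h
  refine hQ.ne_top (Ideal.eq_top_of_isUnit_mem _ h ?_)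
  have : IsUnit (C (n : ℂ) : S) := (IsUnit.mk0 _ (Nat.cast_ne_zero.2 hn)).map C
  simpa using this

/-- minimal primes of a differential ideal are differential -/
theorem np_stable (Θ : Derivation ℤ S S) {J Q : Ideal S} (hJ : ∀ x ∈ J, Θ x ∈ J)
    (hQ : Q ∈ J.minimalPrimes) {x : S} (hx : x ∈ Q) : Θ x ∈ Q := by
  have hP := hQ.isPrime
  have key : ∀ n : ℕ, ∀ s : S, s * x ^ n ∈ J → s ∈ Q ∨ Θ x ∈ Q := by
    intro n
    induction n with
    | zero => intro s hs; exact Or.inl (hQ.le (by simpa using hs))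
    | succ n ih =>
      intro s hs
      have h1 := J.mul_mem_left s (hJ _ hs)
      have h2 := J.mul_mem_left (Θ s) hs
      have h3 : (((n + 1 : ℕ) : S) * (s * s * Θ x)) * x ^ n ∈ J := by
        have := J.sub_mem h1 h2
        convert this using 1
        rw [Derivation.leibniz, Derivation.leibniz_pow]
        simp only [smul_eq_mul, nsmul_eq_mul, Nat.add_sub_cancel]
        ring
      rcases ih _ h3 with h4 | h4
      · rcases hP.mem_or_mem ((hP.mem_or_mem h4).resolve_left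
          (np_natCast_mem hP (Nat.succ_ne_zero n))) with h5 | h5
        · exact Or.inl ((hP.mem_or_mem h5).elim id id)
        · exact Or.inr h5
      · exact Or.inr h4
  obtain ⟨s, hs, n, h⟩ := np_exists_pow hQ hx
  exact (key n s h).resolve_left hs

/-- restriction to the line through `p` -/
noncomputable def npLine (p : Fin 3 → ℂ) : S →ₐ[ℂ] Polynomial ℂ :=
  aeval fun a => Polynomial.C (p a) * Polynomial.X

theorem np_eval (p : Fin 3 → ℂ) (t : ℂ) (G : S) :
    (npLine p G).eval t = eval (t • p) G := by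
  induction G using MvPolynomial.induction_on with
  | C c => simp [npLine]
  | add f g hf hg => simp [hf, hg]
  | mul_X f j hf =>
    rw [map_mul, Polynomial.eval_mul, hf, map_mul, npLine, aeval_X, Polynomial.eval_mul,
      Polynomial.eval_C, Polynomial.eval_X, eval_X, Pi.smul_apply, smul_eq_mul, mul_comm t]

theorem np_line_zero {p : Fin 3 → ℂ} {G : S} {k : ℕ} (hG : G.IsHomogeneous k)
    (h : eval p G = 0) : npLine p G = 0 := by
  refine Polynomial.funext fun t => ?_
  rw [np_eval, eval_smul_of_isHomogeneous hG, h, mul_zero, Polynomial.eval_zero]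

/-- A singular point of an irreducible curve cannot be moved by a derivation that preserves the
Jacobian ideal. -/
theorem np0 {F : S} {d : ℕ} (hF : F.IsHomogeneous d) (hP : Prime F) {p w : Fin 3 → ℂ}
    (hp : p ≠ 0) (hs : ∀ j, eval p (pderiv j F) = 0) (Θ : Derivation ℤ S S)
    (hJ : ∀ j, Θ (pderiv j F) ∈ Ideal.span (Set.range fun b => pderiv b F))
    (hl : ∀ l : S, l.IsHomogeneous 1 → eval p l = 0 →
      (Θ l).IsHomogeneous 1 ∧ eval p (Θ l) = eval w l) : ∃ c : ℂ, w = c • p := by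
  set J : Ideal S := Ideal.span (Set.range fun b => pderiv b F) with hJdef
  have hstab : ∀ x ∈ J, Θ x ∈ J := by
    intro x hx
    induction hx using Submodule.span_induction with
    | mem x hx => obtain ⟨j, rfl⟩ := hx; exact hJ j
    | zero => simp
    | add x y _ _ hx hy => rw [map_add]; exact J.add_mem hx hy
    | smul a x hx ih =>
      rw [smul_eq_mul, Derivation.leibniz, smul_eq_mul, smul_eq_mul]
      exact J.add_mem (J.mul_mem_left _ ih) (J.mul_mem_right _ hx)
  set P : Ideal S := RingHom.ker (npLine p) with hPdef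
  have hPp : P.IsPrime := RingHom.ker_isPrime _
  have hJP : J ≤ P := by
    rw [hJdef, Ideal.span_le]
    rintro _ ⟨j, rfl⟩
    exact np_line_zero hF.pderiv (hs j)
  obtain ⟨Q, hQ, hQP⟩ := Ideal.exists_minimalPrimes_le hJP
  have hQp := hQ.isPrime
  have hd : d ≠ 0 := by
    rintro rfl
    rw [← totalDegree_zero_iff_isHomogeneous, totalDegree_eq_zero_iff_eq_C] at hF
    refine hP.not_isUnit ?_
    rw [hF]
    refine (IsUnit.mk0 _ fun h => hP.ne_zero ?_).map C
    rw [hF, h, map_zero]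
  have heul := hF.sum_X_mul_pderiv
  have hFQ : F ∈ Q := by
    have h1 : (d : S) * F ∈ Q := by
      rw [← nsmul_eq_mul, ← heul]
      exact Q.sum_mem fun j _ => Q.mul_mem_left _ (hQ.le (Ideal.subset_span ⟨j, rfl⟩))
    exact (hQp.mem_or_mem h1).resolve_left (np_natCast_mem hQp hd)
  have hFp : (Ideal.span {F}).IsPrime := (Ideal.span_singleton_prime hP.ne_zero).2 hP
  have c1 : (⊥ : Ideal S) < Ideal.span {F} :=
    bot_lt_iff_ne_bot.2 (by simpa using hP.ne_zero)
  have c2 : Ideal.span {F} < Q := by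
    refine lt_of_le_of_ne ((Ideal.span_singleton_le_iff_mem _).2 hFQ) fun h => ?_
    have h0 : ∀ j, pderiv j F = 0 := by
      intro j
      by_contra hne
      have h1 : F ∣ pderiv j F := by
        rw [← Ideal.mem_span_singleton, h]
        exact hQ.le (Ideal.subset_span ⟨j, rfl⟩)
      have h2 := totalDegree_le_of_dvd_of_isDomain h1 hne
      rw [hF.totalDegree hP.ne_zero, hF.pderiv.totalDegree hne] at h2
      omega
    simp only [h0, mul_zero, Finset.sum_const_zero] at heul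
    exact hP.ne_zero ((smul_eq_zero.1 heul.symm).resolve_left hd)
  obtain ⟨a, ha⟩ : ∃ a, p a ≠ 0 := Function.ne_iff.1 hp
  have hPm : ∀ G ∈ P, eval p G = 0 := by
    intro G hG
    have := np_eval p 1 G
    rw [one_smul, (RingHom.mem_ker).1 hG, Polynomial.eval_zero] at this
    exact this.symm
  have hm : (mx p).IsPrime := RingHom.ker_isPrime _
  have c4 : P < mx p := by
    refine lt_of_le_of_ne hPm fun h => ha ?_
    have h1 : X a - C (p a) ∈ P := by
      rw [h, mem_mx]
      simp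
    have := np_eval p 0 (X a - C (p a))
    rw [(RingHom.mem_ker).1 h1] at this
    simpa using this
  have hQeq : Q = P := by
    by_contra hne
    have c3 : Q < P := lt_of_le_of_ne hQP hne
    have e1 := Ideal.height_add_one_le_of_lt_of_isPrime c1
    have e2 := Ideal.height_add_one_le_of_lt_of_isPrime c2
    have e3 := Ideal.height_add_one_le_of_lt_of_isPrime c3
    have e4 := Ideal.height_add_one_le_of_lt_of_isPrime c4
    have e5 : (4 : ℕ∞) ≤ (mx p).height := by
      calc (4 : ℕ∞) = 0 + 1 + 1 + 1 + 1 := by norm_num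
        _ ≤ (⊥ : Ideal S).height + 1 + 1 + 1 + 1 := by gcongr; exact zero_le
        _ ≤ (Ideal.span {F}).height + 1 + 1 + 1 := by gcongr
        _ ≤ Q.height + 1 + 1 := by gcongr
        _ ≤ P.height + 1 := by gcongr
        _ ≤ (mx p).height := e4
    have e6 := Ideal.height_le_ringKrullDim_of_ne_top hm.ne_top
    rw [MvPolynomial.ringKrullDim_of_isNoetherianRing, ringKrullDim_eq_zero_of_field] at e6
    have e7 : ((4 : ℕ∞) : WithBot ℕ∞) ≤ 0 + (Nat.card (Fin 3) : WithBot ℕ∞) :=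
      (WithBot.coe_le_coe.2 e5).trans e6
    rw [Nat.card_eq_fintype_card, Fintype.card_fin, zero_add] at e7
    have e8 : (4 : ℕ∞) ≤ (3 : ℕ) := WithBot.coe_le_coe.1 e7
    exact absurd e8 (by decide)
  refine ⟨w a / p a, funext fun b => ?_⟩
  have hl1 : (C (p a) * X b - C (p b) * X a : S).IsHomogeneous 1 :=
    ((isHomogeneous_X ℂ b).C_mul _).sub ((isHomogeneous_X ℂ a).C_mul _)
  have hl2 : eval p (C (p a) * X b - C (p b) * X a : S) = 0 := by simp [mul_comm]
  have h1 := np_stable Θ hstab hQ (x := C (p a) * X b - C (p b) * X a)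
    (hQeq ▸ np_line_zero hl1 hl2)
  have h2 := hPm _ (hQeq ▸ h1)
  rw [(hl _ hl1 hl2).2] at h2
  simp only [map_sub, map_mul, eval_C, eval_X] at h2
  rw [Pi.smul_apply, smul_eq_mul]
  field_simp
  linear_combination h2

end Pool.Agent.P.MP_3c83d0_ag
end

-- part Pool.Agent.P.MP_3c83d0_ag.Rule
section

open MvPolynomial

namespace Pool.Agent.P.MP_3c83d0_ag

theorem exists_compl {x : Fin 3 → ℂ} (hx : x ≠ 0) : ∃ v0 v1 : Fin 3 → ℂ,
    (∀ b0 b1 c : ℂ, b0 • v0 + b1 • v1 = c • x → b0 = 0 ∧ b1 = 0) ∧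
    ∀ u : Fin 3 → ℂ, ∃ b0 b1 c : ℂ, u = b0 • v0 + b1 • v1 + c • x := by
  have h : x 0 ≠ 0 ∨ x 1 ≠ 0 ∨ x 2 ≠ 0 := by
    by_contra h
    push Not at h
    exact hx (by ext a; fin_cases a <;> simp [h.1, h.2.1, h.2.2])
  rcases h with h | h | h
  · refine ⟨![0, 1, 0], ![0, 0, 1], fun b0 b1 c e => ?_, fun u =>
      ⟨u 1 - u 0 / x 0 * x 1, u 2 - u 0 / x 0 * x 2, u 0 / x 0, ?_⟩⟩
    · have e0 := congrFun e 0
      have e1 := congrFun e 1
      have e2 := congrFun e 2
      simp [h] at e0 e1 e2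
      simp [e0, e1, e2]
    · ext a
      fin_cases a <;> simp [h]
  · refine ⟨![1, 0, 0], ![0, 0, 1], fun b0 b1 c e => ?_, fun u =>
      ⟨u 0 - u 1 / x 1 * x 0, u 2 - u 1 / x 1 * x 2, u 1 / x 1, ?_⟩⟩
    · have e0 := congrFun e 0
      have e1 := congrFun e 1
      have e2 := congrFun e 2
      simp [h] at e0 e1 e2
      simp [e0, e1, e2]
    · ext a
      fin_cases a <;> simp [h]
  · refine ⟨![1, 0, 0], ![0, 1, 0], fun b0 b1 c e => ?_, fun u =>
      ⟨u 0 - u 2 / x 2 * x 0, u 1 - u 2 / x 2 * x 1, u 2 / x 2, ?_⟩⟩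
    · have e0 := congrFun e 0
      have e1 := congrFun e 1
      have e2 := congrFun e 2
      simp [h] at e0 e1 e2
      simp [e0, e1, e2]
    · ext a
      fin_cases a <;> simp [h]

theorem dv_vadd (u w : Fin 3 → ℂ) (G : S) : dv (u + w) G = dv u G + dv w G := by
  simp [dv, add_mul, Finset.sum_add_distrib]

theorem dv_vsmul (c : ℂ) (w : Fin 3 → ℂ) (G : S) : dv (c • w) G = C c * dv w G := by
  simp [dv, Finset.mul_sum, mul_assoc]

theorem dv_single (j : Fin 3) (G : S) : dv (Pi.single j 1) G = pderiv j G := by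
  rw [dv, Finset.sum_eq_single j]
  · simp
  · intro b _ hb
    simp [hb]
  · simp

theorem dv_sub (w : Fin 3 → ℂ) (G H : S) : dv w (G - H) = dv w G - dv w H := by
  simp [dv, mul_sub, Finset.sum_sub_distrib]

theorem dv_C_mul (w : Fin 3 → ℂ) (c : ℂ) (G : S) : dv w (C c * G) = C c * dv w G := by
  rw [lin_dv_mul, lin_dv_C, zero_mul, zero_add]

theorem dv_hom (w : Fin 3 → ℂ) {G : S} {k : ℕ} (h : G.IsHomogeneous k) :
    (dv w G).IsHomogeneous (k - 1) :=
  IsHomogeneous.sum _ _ _ fun j _ => (h.pderiv (i := j)).C_mul _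

theorem dv_comm (u w : Fin 3 → ℂ) (G : S) : dv u (dv w G) = dv w (dv u G) := by
  simp only [dv, map_sum, pderiv_C_mul, Finset.mul_sum]
  rw [Finset.sum_comm]
  refine Finset.sum_congr rfl fun a _ => Finset.sum_congr rfl fun b _ => ?_
  rw [th_pderiv_comm G a b]
  ring

/-- Taylor criterion with two directions. -/
theorem mem_succ_of_dv {x v0 v1 : Fin 3 → ℂ}
    (hv : ∀ u : Fin 3 → ℂ, ∃ b0 b1 c : ℂ, u = b0 • v0 + b1 • v1 + c • x) {G : S} {k a : ℕ}
    (hh : G.IsHomogeneous k) (hG : G ∈ mx x ^ (a + 1)) (h0 : dv v0 G ∈ mx x ^ (a + 1))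
    (h1 : dv v1 G ∈ mx x ^ (a + 1)) : G ∈ mx x ^ (a + 2) := by
  refine (mem_pow_succ_iff x G (a + 1)).mpr ⟨((mem_pow_succ_iff x G a).mp hG).1, fun j => ?_⟩
  obtain ⟨b0, b1, c, e⟩ := hv (Pi.single j 1)
  rw [← dv_single, e, dv_vadd, dv_vadd, dv_vsmul, dv_vsmul, dv_vsmul]
  exact Ideal.add_mem _ (Ideal.add_mem _ (Ideal.mul_mem_left _ _ h0) (Ideal.mul_mem_left _ _ h1))
    (Ideal.mul_mem_left _ _ (dv_self_mem x hh hG))

theorem eval_dv_linear {l : S} (hl : l.IsHomogeneous 1) (x w : Fin 3 → ℂ) :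
    eval x (dv w l) = eval w l := by
  have h1 : ∀ j, ∃ c, pderiv j l = C c := fun j =>
    ⟨_, totalDegree_eq_zero_iff_eq_C.mp
      (Nat.le_zero.mp (hl.pderiv (i := j)).totalDegree_le)⟩
  choose c hc using h1
  have h2 := hl.sum_X_mul_pderiv
  rw [one_smul] at h2
  conv_rhs => rw [← h2]
  simp [dv, hc]

variable {ι : Type*} [Fintype ι] {p : ι → Fin 3 → ℂ} {F : S} {d : ℕ} {m : ι → ℕ}

theorem dg_add' (k k' : ℕ) (μ μ' : ι → ℕ) :
    dg d m (k + k') (μ + μ') = dg d m k μ + dg d m k' μ' := by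
  simp only [dg, Pi.add_apply, Nat.cast_add, add_mul, Finset.sum_add_distrib]
  ring

theorem dg_self : dg d m d m = sq d m := by
  simp only [dg, sq, pow_two]

theorem dg_sub (τ : ι → ℕ) (h : ∀ j, τ j ≤ m j) :
    dg d m d (m - τ) = sq d m + ∑ j, (τ j : ℤ) * m j := by
  have : ∀ j, (((m - τ) j : ℕ) : ℤ) * m j = (m j : ℤ) ^ 2 - (τ j : ℤ) * m j := fun j => by
    rw [Pi.sub_apply, Nat.cast_sub (h j)]
    ring
  simp only [dg, sq, this, Finset.sum_sub_distrib]
  ring

theorem sum_single [DecidableEq ι] (i : ι) (t : ℕ) :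
    ∑ j, ((Pi.single i t : ι → ℕ) j : ℤ) * m j = t * m i := by
  rw [Finset.sum_eq_single i]
  · simp
  · intro b _ hb
    simp [hb]
  · simp

theorem dg_one [DecidableEq ι] (i : ι) (t : ℕ) (h : t ≤ m i) :
    dg d m d (m - Pi.single i t) = sq d m + t * m i := by
  rw [dg_sub _ (fun j => by by_cases hj : j = i <;> simp [hj, h]), sum_single]

theorem dg_two [DecidableEq ι] {i j : ι} (hij : i ≠ j) (hi : 1 ≤ m i) (hj : 1 ≤ m j) :
    dg d m d (m - (Pi.single i 1 + Pi.single j 1)) = sq d m + m i + m j := by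
  rw [dg_sub _ (fun l => by
    by_cases h1 : l = i
    · subst h1; simp [hij, hi]
    · by_cases h2 : l = j
      · subst h2; simp [h1, hj]
      · simp [h1, h2])]
  simp only [Pi.add_apply, Nat.cast_add, add_mul, Finset.sum_add_distrib, sum_single]
  ring

theorem h0_self {h0 h1 : ℕ → (ι → ℕ) → ℕ} (h : Pack d m h0 h1) (hn : sq d m < 0) :
    h0 d m = 0 := by
  by_contra h2
  have := h.b0 d m (by omega)
  rw [dg_self] at this
  omega

/-- The tangent cone at a multiple point is not a cone over a direction. -/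
theorem no_pure (hp : Gen p) (hC : Cv p F d m) (hn : sq d m < 0) (i : ι) (hi : 2 ≤ m i)
    (w : Fin 3 → ℂ) (hw : dv w F ∈ mx (p i) ^ m i) : ∃ c : ℂ, w = c • p i := by
  obtain ⟨h0, h1, hP, hL⟩ := exists_pack hp.sep hC
  obtain ⟨Θ, t1, t2, t3, t4⟩ := hp.exists_theta i w
  have hm : ∀ j, Θ F ∈ mx (p j) ^ m j := by
    intro j
    by_cases hj : j = i
    · subst hj
      simpa using Ideal.add_mem _ (t3 F d _ hC.hom (hC.mult j).1) hw
    · exact t2 j hj F d _ hC.hom (hC.mult j).1
  have hd : F ∣ Θ F := by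
    by_contra hd
    have := hL d m 1 ![Θ F] (fun a => by fin_cases a; exact t1 F d hC.hom)
      (fun a j => by fin_cases a; exact Ideal.mem_sup_left (hm j)) (fun c hc a => by
        fin_cases a
        simp only [Finset.univ_unique, Fin.default_eq_zero, Finset.sum_singleton,
          Matrix.cons_val_zero] at hc
        by_contra hc0
        rcases hC.prime.dvd_or_dvd hc with h3 | h3
        · exact hC.prime.not_isUnit (isUnit_of_dvd_unit h3 ((Ne.isUnit hc0).map C))
        · exact hd h3)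
    rw [h0_self hP hn] at this
    omega
  obtain ⟨c, hc⟩ := exists_eq_C_mul hC.hom hC.prime.ne_zero (t1 F d hC.hom) hd
  obtain ⟨a, ha⟩ : ∃ a, m i = a + 2 := ⟨m i - 2, by omega⟩
  have hF := (hC.mult i).1
  rw [ha] at hF
  refine np0 hC.hom hC.prime (hp.1 i) (fun j => ?_) Θ (fun j => ?_) (fun l hl hl0 => ?_)
  · exact ((mem_pow_succ_iff _ _ a).mp (((mem_pow_succ_iff _ _ (a + 1)).mp hF).2 j)).1
  · have h3 := t4 F j
    rw [hc, pderiv_C_mul] at h3
    have h4 : C c * pderiv j F ∈ Ideal.span (Set.range fun b => pderiv b F) :=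
      Ideal.mul_mem_left _ _ (Ideal.subset_span ⟨j, rfl⟩)
    simpa using Ideal.add_mem _ h3 h4
  · refine ⟨t1 l 1 hl, ?_⟩
    have h3 := t3 l 1 1 hl (by rw [pow_one]; exact hl0)
    rw [pow_one, mem_mx, map_sub, eval_dv_linear hl] at h3
    exact sub_eq_zero.mp h3

/-- The first derivative of a form with respect to a moving point. -/
theorem exists_move (hp : Gen p) (i : ι) (w : Fin 3 → ℂ) {G : S} {k : ℕ} {μ : ι → ℕ}
    (hG : G.IsHomogeneous k) (hm : ∀ j, G ∈ mx (p j) ^ μ j) :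
    ∃ H : S, H.IsHomogeneous k ∧ (∀ j, j ≠ i → H ∈ mx (p j) ^ μ j) ∧
      H - dv w G ∈ mx (p i) ^ μ i ∧ H ∈ mx (p i) ^ (μ i - 1) := by
  obtain ⟨Θ, t1, t2, t3, _⟩ := hp.exists_theta i w
  have h1 := t3 G k _ hG (hm i)
  refine ⟨Θ G, t1 G k hG, fun j hj => t2 j hj G k _ hG (hm j), h1, ?_⟩
  rcases h : μ i with _ | a
  · simp
  · have h2 := hm i
    rw [h] at h1 h2
    simpa using Ideal.add_mem _ (Ideal.pow_le_pow_right (Nat.le_succ a) h1) (dv_mem _ w h2)

/-- At a smooth point the moved form does not vanish. -/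
theorem exists_move_one (hp : Gen p) (hC : Cv p F d m) (i : ι) (hi : m i = 1) :
    ∃ H : S, H.IsHomogeneous d ∧ (∀ j, j ≠ i → H ∈ mx (p j) ^ m j) ∧ eval (p i) H ≠ 0 := by
  have h1 := hC.mult i
  rw [hi] at h1
  have h2 : ∃ j, eval (p i) (pderiv j F) ≠ 0 := by
    by_contra h3
    push Not at h3
    refine h1.2 ((mem_pow_succ_iff _ _ 1).mpr ⟨(mem_mx _ _).mp (by simpa using h1.1), fun j => ?_⟩)
    rw [pow_one]
    exact h3 j
  obtain ⟨j, hj⟩ := h2
  obtain ⟨H, a1, a2, a3, _⟩ := exists_move hp i (Pi.single j 1) hC.hom fun j => (hC.mult j).1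
  refine ⟨H, a1, a2, ?_⟩
  rw [hi, pow_one, mem_mx, map_sub, dv_single, sub_eq_zero] at a3
  rwa [a3]

/-- At a multiple point there are two independent moved forms. -/
theorem exists_move_two (hp : Gen p) (hC : Cv p F d m) (hn : sq d m < 0) (i : ι) (hi : 2 ≤ m i)
    {v0 v1 : Fin 3 → ℂ} (hv : ∀ b0 b1 c : ℂ, b0 • v0 + b1 • v1 = c • p i → b0 = 0 ∧ b1 = 0)
    {G0 G1 : S} (h0 : G0 - dv v0 F ∈ mx (p i) ^ m i) (h1 : G1 - dv v1 F ∈ mx (p i) ^ m i)
    (b0 b1 : ℂ) (h : C b0 * G0 + C b1 * G1 ∈ mx (p i) ^ m i) : b0 = 0 ∧ b1 = 0 := by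
  have h2 : dv (b0 • v0 + b1 • v1) F ∈ mx (p i) ^ m i := by
    rw [dv_vadd, dv_vsmul, dv_vsmul]
    have := Ideal.sub_mem _ h (Ideal.add_mem _ (Ideal.mul_mem_left _ (C b0) h0)
      (Ideal.mul_mem_left _ (C b1) h1))
    convert this using 1
    ring
  obtain ⟨c, hc⟩ := no_pure hp hC hn i hi _ h2
  exact hv b0 b1 c hc

omit [Fintype ι] in
theorem mem_low {G : S} {τ : ι → ℕ} {j : ι} {a : ℕ} (h : G ∈ mx (p j) ^ a)
    (ha : m j ≤ a + τ j) : G ∈ mx (p j) ^ (m - τ) j ⊔ Ideal.span {F} :=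
  Ideal.mem_sup_left (Ideal.pow_le_pow_right (by rw [Pi.sub_apply]; omega) h)

omit [Fintype ι] in
theorem mem_of_dvd (hC : Cv p F d m) {G : S} (h : F ∣ G) (i : ι) : G ∈ mx (p i) ^ m i := by
  obtain ⟨Q, rfl⟩ := h
  exact Ideal.mul_mem_right _ _ (hC.mult i).1

theorem low_one [DecidableEq ι] (hp : Gen p) (hC : Cv p F d m) {h0 : ℕ → (ι → ℕ) → ℕ}
    (hL : Low p F h0) (i : ι) (hi : m i = 1) : 1 ≤ h0 d (m - Pi.single i 1) := by
  obtain ⟨H, a1, a2, a3⟩ := exists_move_one hp hC i hi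
  refine hL d _ 1 ![H] (fun a => by fin_cases a; exact a1) (fun a j => ?_) (fun c hc a => ?_)
  · fin_cases a
    by_cases hj : j = i
    · subst hj
      exact mem_low (a := 0) (by simp) (by simp [hi])
    · exact mem_low (a2 j hj) (by simp)
  · fin_cases a
    have := mem_of_dvd hC hc i
    rw [hi, pow_one, mem_mx] at this
    simpa [a3] using this

theorem low_two [DecidableEq ι] (hp : Gen p) (hC : Cv p F d m) (hn : sq d m < 0)
    {h0 : ℕ → (ι → ℕ) → ℕ} (hL : Low p F h0) (i : ι) (hi : 2 ≤ m i) :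
    2 ≤ h0 d (m - Pi.single i 1) := by
  obtain ⟨v0, v1, hv, _⟩ := exists_compl (hp.1 i)
  obtain ⟨G0, a1, a2, a3, a4⟩ := exists_move hp i v0 hC.hom fun j => (hC.mult j).1
  obtain ⟨G1, b1, b2, b3, b4⟩ := exists_move hp i v1 hC.hom fun j => (hC.mult j).1
  refine hL d _ 2 ![G0, G1] (fun a => by fin_cases a; exacts [a1, b1]) (fun a j => ?_)
    (fun c hc a => ?_)
  · by_cases hj : j = i
    · subst hj
      fin_cases a
      · exact mem_low a4 (by simp; omega)
      · exact mem_low b4 (by simp; omega)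
    · fin_cases a
      · exact mem_low (a2 j hj) (by simp)
      · exact mem_low (b2 j hj) (by simp)
  · have := exists_move_two hp hC hn i hi hv a3 b3 (c 0) (c 1)
      (by simpa [Fin.sum_univ_two] using mem_of_dvd hC hc i)
    fin_cases a
    exacts [this.1, this.2]

theorem rule0 (hp : Gen p) (hC : Cv p F d m) : -2 ≤ g2 d m := by
  obtain ⟨h0, h1, hP, _⟩ := exists_pack hp.sep hC
  exact hP.g0

theorem rule1 (hp : Gen p) (hC : Cv p F d m) (hn : sq d m < 0) (i : ι) (hi : m i = 1) :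
    sq d m = -1 := by
  classical
  obtain ⟨h0, h1, hP, hL⟩ := exists_pack hp.sep hC
  have a1 := low_one hp hC hL i hi
  have a2 := hP.b0 _ _ a1
  rw [dg_one i 1 (by omega), hi] at a2
  omega

theorem rule11 (hp : Gen p) (hC : Cv p F d m) (hn : sq d m < 0) (i j : ι) (hij : i ≠ j)
    (hi : m i = 1) (hj : m j = 1) : g2 d m = -2 := by
  classical
  obtain ⟨h0, h1, hP, hL⟩ := exists_pack hp.sep hC
  obtain ⟨H, a1, a2, a3⟩ := exists_move_one hp hC i hi
  obtain ⟨K, b1, b2, b3⟩ := exists_move_one hp hC j hj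
  have h2 : 2 ≤ h0 d (m - (Pi.single i 1 + Pi.single j 1)) := by
    refine hL d _ 2 ![H, K] (fun a => by fin_cases a; exacts [a1, b1]) (fun a l => ?_)
      (fun c hc a => ?_)
    · fin_cases a
      · by_cases hl : l = i
        · subst hl
          exact mem_low (a := 0) (by simp) (by simp [hi])
        · exact mem_low (a2 l hl) (by simp)
      · by_cases hl : l = j
        · subst hl
          exact mem_low (a := 0) (by simp) (by simp [hj])
        · exact mem_low (b2 l hl) (by simp)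
    · have e1 := mem_of_dvd hC hc i
      have e2 := mem_of_dvd hC hc j
      have e3 := b2 i hij
      have e4 := a2 j hij.symm
      rw [hi, pow_one, mem_mx] at e1 e3
      rw [hj, pow_one, mem_mx] at e2 e4
      simp [Fin.sum_univ_two, e3, e4, a3, b3] at e1 e2
      fin_cases a
      exacts [e1, e2]
  refine hP.g1 d _ (by omega) (fun l => ?_) h2 ?_
  · by_cases h3 : l = i
    · subst h3; simp [hi]
    · by_cases h4 : l = j
      · subst h4; simp [hj]
      · simp [h3, h4]
  · rw [dg_two hij (by omega) (by omega), hi, hj]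
    omega

theorem adm_one [DecidableEq ι] (i l : ι) : m l ≤ (m - Pi.single i 1 : ι → ℕ) l + 1 := by
  by_cases h : l = i
  · subst h; simp; omega
  · simp [h]

theorem rule2 (hp : Gen p) (hC : Cv p F d m) (hn : sq d m < 0) (i : ι) (hi : m i = 2) :
    sq d m = -1 ∧ g2 d m = -2 := by
  classical
  obtain ⟨h0, h1, hP, hL⟩ := exists_pack hp.sep hC
  have a1 := low_two hp hC hn hL i (by omega)
  have a2 := hP.b0 d (m - Pi.single i 1) (by omega)
  have a3 := hP.g1 d _ (by omega) (adm_one i) a1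
  rw [dg_one i 1 (by omega), hi] at a2 a3
  exact ⟨by omega, a3 (by omega)⟩

theorem exists_annih (x : Fin 2 × Fin 2 → ℂ × ℂ)
    (h : ∀ s t, (x s).1 * (x t).2 = (x s).2 * (x t).1) :
    ∃ β0 β1 : ℂ, ¬(β0 = 0 ∧ β1 = 0) ∧ ∀ s, β0 * (x s).1 + β1 * (x s).2 = 0 := by
  by_cases h0 : ∀ s, (x s).1 = 0 ∧ (x s).2 = 0
  · exact ⟨1, 0, by simp, fun s => by simp [(h0 s).1]⟩
  · push Not at h0
    obtain ⟨t, ht⟩ := h0
    refine ⟨(x t).2, -(x t).1, fun h1 => ht (neg_eq_zero.mp h1.2) h1.1, fun s => ?_⟩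
    linear_combination h s t

theorem low_four [DecidableEq ι] (hp : Gen p) (hC : Cv p F d m) (hn : sq d m < 0)
    {h0 : ℕ → (ι → ℕ) → ℕ} (hL : Low p F h0) (i : ι) (hi : m i = 3) :
    4 ≤ h0 d (m - Pi.single i 2) := by
  obtain ⟨v0, v1, hv, hv'⟩ := exists_compl (hp.1 i)
  let v : Fin 2 → Fin 3 → ℂ := ![v0, v1]
  choose G a1 a2 a3 a4 using fun a : Fin 2 =>
    exists_move hp i (v a) hC.hom fun j => (hC.mult j).1
  have hG : ∀ a j, G a ∈ mx (p j) ^ (Function.update m i 2) j := by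
    intro a j
    by_cases hj : j = i
    · subst hj
      simpa [hi] using a4 a
    · simpa [hj] using a2 a j hj
  choose H b1 b2 b3 b4 using fun s : Fin 2 × Fin 2 => exists_move hp i (v s.2) (a1 s.1) (hG s.1)
  simp only [Function.update_self] at b3 b4
  rw [hi] at a3 a4
  have hF := (hC.mult i).1
  rw [hi] at hF
  have hH : ∀ s u, eval (p i) (dv u (H s)) = eval (p i) (dv u (dv (v s.2) (dv (v s.1) F))) := by
    intro s u
    have e1 : H s - dv (v s.2) (dv (v s.1) F) ∈ mx (p i) ^ 2 := by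
      have := Ideal.add_mem _ (b3 s) (dv_mem _ (v s.2) (a3 s.1))
      rw [dv_sub] at this
      simpa using this
    have e2 := dv_mem _ u e1
    rw [pow_one, mem_mx, dv_sub, map_sub] at e2
    exact sub_eq_zero.mp e2
  have hdet : ∃ s t, eval (p i) (dv v0 (H s)) * eval (p i) (dv v1 (H t)) ≠
      eval (p i) (dv v1 (H s)) * eval (p i) (dv v0 (H t)) := by
    by_contra h3
    push Not at h3
    obtain ⟨β0, β1, hβ, hβ'⟩ := exists_annih
      (fun s => (eval (p i) (dv v0 (H s)), eval (p i) (dv v1 (H s)))) h3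
    have e1 : ∀ a b, dv (v b) (dv (v a) (dv (β0 • v0 + β1 • v1) F)) ∈ mx (p i) ^ (0 + 1) := by
      intro a b
      have := hβ' (a, b)
      rw [hH, hH] at this
      rw [zero_add, pow_one, mem_mx, dv_comm (v a), dv_comm (v b), dv_vadd, dv_vsmul, dv_vsmul]
      simpa using this
    have e2 : ∀ a, dv (v a) (dv (β0 • v0 + β1 • v1) F) ∈ mx (p i) ^ (1 + 1) := fun a =>
      mem_succ_of_dv hv' (dv_hom _ (dv_hom _ hC.hom)) (dv_mem _ _ (dv_mem _ _ hF)) (e1 a 0) (e1 a 1)
    have e3 := mem_succ_of_dv hv' (dv_hom _ hC.hom) (dv_mem _ _ hF) (e2 0) (e2 1)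
    obtain ⟨c, hc⟩ := no_pure hp hC hn i (by omega) (β0 • v0 + β1 • v1) (by rw [hi]; exact e3)
    exact hβ (hv β0 β1 c hc)
  obtain ⟨s, t, hst⟩ := hdet
  refine hL d _ 4 ![G 0, G 1, H s, H t]
    (fun a => by fin_cases a; exacts [a1 0, a1 1, b1 s, b1 t]) (fun a j => ?_) (fun c hc a => ?_)
  · by_cases hj : j = i
    · subst hj
      fin_cases a
      · exact mem_low (a4 0) (by simp [hi])
      · exact mem_low (a4 1) (by simp [hi])
      · exact mem_low (b4 s) (by simp [hi])
      · exact mem_low (b4 t) (by simp [hi])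
    · fin_cases a
      · exact mem_low (a2 0 j hj) (by simp)
      · exact mem_low (a2 1 j hj) (by simp)
      · exact mem_low (b2 s j hj) (by simp [hj])
      · exact mem_low (b2 t j hj) (by simp [hj])
  · have e1 := mem_of_dvd hC hc i
    rw [hi] at e1
    simp only [Fin.sum_univ_four, Matrix.cons_val_zero, Matrix.cons_val_one, Matrix.cons_val]
      at e1
    have e2 : C (c 2) * H s + C (c 3) * H t ∈ mx (p i) ^ 2 := by
      have := Ideal.sub_mem _ (Ideal.pow_le_pow_right (by norm_num : 2 ≤ 3) e1)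
        (Ideal.add_mem _ (Ideal.mul_mem_left _ (C (c 0)) (a4 0))
          (Ideal.mul_mem_left _ (C (c 1)) (a4 1)))
      convert this using 1
      ring
    have e3 := dv_mem _ v0 e2
    have e4 := dv_mem _ v1 e2
    rw [pow_one, mem_mx, lin_dv_add, dv_C_mul, dv_C_mul, map_add, map_mul, map_mul, eval_C,
      eval_C] at e3 e4
    have e5 : c 2 = 0 := by
      apply mul_right_cancel₀ (sub_ne_zero.mpr hst)
      linear_combination (eval (p i) (dv v1 (H t))) * e3 - (eval (p i) (dv v0 (H t))) * e4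
    have e6 : c 3 = 0 := by
      apply mul_right_cancel₀ (sub_ne_zero.mpr hst)
      linear_combination (eval (p i) (dv v0 (H s))) * e4 - (eval (p i) (dv v1 (H s))) * e3
    have e7 := exists_move_two hp hC hn i (by omega) hv (G0 := G 0) (G1 := G 1)
      (by rw [hi]; exact a3 0) (by rw [hi]; exact a3 1) (c 0) (c 1)
      (by rw [hi]; simpa [e5, e6] using e1)
    fin_cases a
    exacts [e7.1, e7.2, e5, e6]

theorem rule3 (hp : Gen p) (hC : Cv p F d m) (hn : sq d m < 0) (i : ι) (hi : m i = 3) :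
    (sq d m = -2 ∧ g2 d m = -2) ∨ (sq d m = -1 ∧ g2 d m ≤ 2) := by
  classical
  obtain ⟨h0, h1, hP, hL⟩ := exists_pack hp.sep hC
  have a1 := low_two hp hC hn hL i (by omega)
  have a2 := hP.b0 d (m - Pi.single i 1) (by omega)
  have a3 := hP.g1 d _ (by omega) (adm_one i) a1
  have a4 := low_four hp hC hn hL i hi
  have a5 := hP.p0 d (m - Pi.single i 1) d (m - Pi.single i 1) (by omega) (by omega)
  have a6 := hP.cl d m d (m - Pi.single i 2) (by omega) (fun l => by omega) (by omega)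
  have e : (m - Pi.single i 1 + (m - Pi.single i 1) : ι → ℕ) = m + (m - Pi.single i 2) := by
    funext l
    by_cases h : l = i
    · subst h; simp [hi]
    · simp [h]
  rw [e] at a5
  rw [dg_add', dg_self, h0_self hP hn, dg_one i 2 (by omega), hi] at a6
  rw [dg_one i 1 (by omega), hi] at a2 a3
  by_cases h2 : sq d m = -2
  · exact Or.inl ⟨h2, a3 (by omega)⟩
  · have h3 : sq d m = -1 := by omega
    have := a6 (by omega)
    exact Or.inr ⟨h3, by omega⟩

theorem rule31 (hp : Gen p) (hC : Cv p F d m) (hn : sq d m < 0) (i j : ι) (hi : m i = 3)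
    (hj : m j = 1) : g2 d m ≤ 0 := by
  classical
  have hij : i ≠ j := fun h => by subst h; omega
  have hs := rule1 hp hC hn j hj
  obtain ⟨h0, h1, hP, hL⟩ := exists_pack hp.sep hC
  have c1 := low_one hp hC hL j hj
  have c2 := hP.b0 _ _ c1
  obtain ⟨v0, v1, hv, _⟩ := exists_compl (hp.1 i)
  obtain ⟨G0, a1, a2, a3, a4⟩ := exists_move hp i v0 hC.hom fun j => (hC.mult j).1
  obtain ⟨G1, b1, b2, b3, b4⟩ := exists_move hp i v1 hC.hom fun j => (hC.mult j).1
  obtain ⟨K, k1, k2, k3⟩ := exists_move_one hp hC j hj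
  have c3 : 3 ≤ h0 d (m - (Pi.single i 1 + Pi.single j 1)) := by
    refine hL d _ 3 ![G0, G1, K] (fun a => by fin_cases a; exacts [a1, b1, k1]) (fun a l => ?_)
      (fun c hc a => ?_)
    · fin_cases a
      · by_cases hl : l = i
        · subst hl
          exact mem_low a4 (by simp; omega)
        · exact mem_low (a2 l hl) (by simp)
      · by_cases hl : l = i
        · subst hl
          exact mem_low b4 (by simp; omega)
        · exact mem_low (b2 l hl) (by simp)
      · by_cases hl : l = j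
        · subst hl
          exact mem_low (a := 0) (by simp) (by simp [hj])
        · exact mem_low (k2 l hl) (by simp)
    · have e1 := mem_of_dvd hC hc i
      have e2 := mem_of_dvd hC hc j
      have e3 := a2 j hij.symm
      have e4 := b2 j hij.symm
      rw [hj, pow_one, mem_mx] at e2 e3 e4
      have e5 : c 2 = 0 := by simpa [Fin.sum_univ_three, e3, e4, k3] using e2
      have e7 := exists_move_two hp hC hn i (by omega) hv a3 b3 (c 0) (c 1)
        (by simpa [Fin.sum_univ_three, e5] using e1)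
      fin_cases a
      exacts [e7.1, e7.2, e5]
  have c4 := hP.p0 d (m - Pi.single j 1) d (m - (Pi.single i 1 + Pi.single j 1)) c1 (by omega)
  have c5 := hP.cl d (m - Pi.single j 1) d (m - (Pi.single i 1 + Pi.single j 1)) (by omega)
    (adm_one j) (by omega)
  rw [dg_add', dg_two hij (by omega) (by omega), dg_one j 1 (by omega), hi, hj, hs] at c5
  rw [dg_one j 1 (by omega), hj, hs] at c2
  have := c5 (by omega)
  omega

end Pool.Agent.P.MP_3c83d0_ag
end
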