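import Pool.Agent.K.MP_3c83d0_ag.C0
import Pool.Agent.P.MP_3c83d0_ag.Numer

-- part Pool.Agent.P.MP_3c83d0_ag.Halph
section

open MvPolynomial

namespace Pool.Agent.P.MP_3c83d0_ag

variable {ι : Type*} [Fintype ι] {p : ι → Fin 3 → ℂ} {F : S} {m : ι → ℕ}

/-- Bezout inequality for a form that is not divisible by the equation of the curve. -/
theorem hal_bez {d k : ℕ} {μ : ι → ℕ} {G : S} (hs : Sep p) (hC : Cv p F d m)
    (hG : G.IsHomogeneous k) (hμ : ∀ i, G ∈ mx (p i) ^ μ i ⊔ Ideal.span {F}) (hd : ¬ F ∣ G) :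
    0 ≤ dg d m k μ := by
  obtain ⟨h0, h1, hP, hL⟩ := exists_pack hs hC
  have h := hL k μ 1 (fun _ => G) (fun _ => hG) (fun _ i => hμ i) (by
    intro c hc a
    by_contra hne
    have ha : a = 0 := Subsingleton.elim _ _
    subst ha
    rw [Fin.sum_univ_one] at hc
    exact hd (((IsUnit.mk0 _ hne).map C).dvd_mul_left.mp hc))
  have := hP.b0 k μ (by omega)
  have h' : (1 : ℤ) ≤ h0 k μ := by exact_mod_cast h
  omega

/-- A form of smaller degree is not divisible by the equation of the curve. -/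
theorem hal_not_dvd {d k : ℕ} {G : S} (hF : F.IsHomogeneous d) (hF0 : F ≠ 0)
    (hG : G.IsHomogeneous k) (hG0 : G ≠ 0) (hk : k < d) : ¬ F ∣ G := by
  intro h
  have := totalDegree_le_of_dvd_of_isDomain h hG0
  rw [hF.totalDegree hF0, hG.totalDegree hG0] at this
  omega

/-- There is a cubic through nine points. -/
theorem hal_cubic (hc : Fintype.card ι = 9) (p : ι → Fin 3 → ℂ) :
    ∃ G : S, G ≠ 0 ∧ G.IsHomogeneous 3 ∧ ∀ i, eval (p i) G = 0 := by
  classical
  set T : Finset (Fin 3 →₀ ℕ) := (Finset.univ : Finset (Fin 3)).finsuppAntidiag 3 with hT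
  have hcard : T.card = 10 := by
    rw [hT, Finset.card_finsuppAntidiag_nat_eq_choose]
    simp [Nat.choose]
  let L : (T → ℂ) →ₗ[ℂ] (ι → ℂ) :=
    Matrix.mulVecLin (Matrix.of fun (i : ι) (t : T) => eval (p i) (monomial t.1 (1 : ℂ)))
  have hk : LinearMap.ker L ≠ ⊥ := by
    apply LinearMap.ker_ne_bot_of_finrank_lt
    simp [hc, hcard]
  obtain ⟨c, hcL, hc0⟩ := Submodule.exists_mem_ne_zero_of_ne_bot hk
  refine ⟨∑ t : T, monomial t.1 (c t), ?_, ?_, ?_⟩
  · intro h
    apply hc0
    funext t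
    have := congrArg (coeff t.1) h
    rw [coeff_sum, Finset.sum_eq_single t] at this
    · simpa using this
    · intro b _ hb
      rw [coeff_monomial, if_neg (fun h => hb (Subtype.ext h))]
    · simp
  · apply IsHomogeneous.sum
    intro t _
    apply isHomogeneous_monomial
    have := (Finset.mem_finsuppAntidiag.mp t.2).1
    rw [Finsupp.degree_eq_sum]
    exact this
  · intro i
    have := congrFun (LinearMap.mem_ker.mp hcL) i
    simp only [L, Matrix.mulVecLin_apply, Matrix.mulVec, dotProduct, Matrix.of_apply,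
      Pi.zero_apply] at this
    rw [map_sum, ← this]
    refine Finset.sum_congr rfl fun t _ => ?_
    simp [eval_monomial, mul_comm]

/-- A form of degree zero that is not zero is a unit. -/
theorem hal_unit {G : S} (h0 : G ≠ 0) (h : G.totalDegree = 0) : IsUnit G := by
  rw [totalDegree_eq_zero_iff_eq_C] at h
  have h2 : coeff 0 G ≠ 0 := fun h1 => h0 (by rw [h, h1, map_zero])
  rw [h]
  exact (IsUnit.mk0 _ h2).map C

omit [Fintype ι] in
/-- A linear form that vanishes at three independent vectors is zero. -/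
theorem hal_line {G : S} (hG : G.IsHomogeneous 1) {x y z : Fin 3 → ℂ}
    (hdet : (Matrix.of ![x, y, z]).det ≠ 0) (hx : eval x G = 0) (hy : eval y G = 0)
    (hz : eval z G = 0) : G = 0 := by
  have hE := hG.sum_X_mul_pderiv
  rw [one_smul] at hE
  have hc : ∀ j, pderiv j G = C (coeff 0 (pderiv j G)) := by
    intro j
    rw [← totalDegree_eq_zero_iff_eq_C]
    have h1 : (pderiv j G).IsHomogeneous 0 := hG.pderiv
    exact Nat.le_zero.mp h1.totalDegree_le
  set c : Fin 3 → ℂ := fun j => coeff 0 (pderiv j G) with hcdef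
  have hG' : G = ∑ j, X j * C (c j) := by
    rw [← hE]
    exact Finset.sum_congr rfl fun j _ => by rw [← hc j]
  have hev : ∀ u : Fin 3 → ℂ, eval u G = ∑ j, u j * c j := by
    intro u
    rw [hG', map_sum]
    simp
  have hc0 : c = 0 := by
    apply Matrix.eq_zero_of_mulVec_eq_zero hdet
    funext r
    fin_cases r
    · simpa [Matrix.mulVec, dotProduct, hev] using hx
    · simpa [Matrix.mulVec, dotProduct, hev] using hy
    · simpa [Matrix.mulVec, dotProduct, hev] using hz
  rw [hG', hc0]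
  simp

/-- A cubic through the nine triple points is not a line together with a conic. -/
theorem hal_split (hc : Fintype.card ι = 9) (hp : Gen p) (hC : Cv p F 9 fun _ => 3) {a b : S}
    (ha : a.IsHomogeneous 1) (ha0 : a ≠ 0) (hb : b.IsHomogeneous 2) (hb0 : b ≠ 0)
    (h : ∀ i, eval (p i) (a * b) = 0) : False := by
  classical
  set A : Finset ι := Finset.univ.filter fun i => eval (p i) a = 0 with hA
  have hA2 : A.card ≤ 2 := by
    by_contra hlt
    obtain ⟨i, hi, j, hj, k, hk, hij, hik, hjk⟩ := Finset.two_lt_card.mp (not_le.mp hlt)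
    exact ha0 (hal_line ha (hp.det_ne hij hik hjk) (Finset.mem_filter.mp hi).2
      (Finset.mem_filter.mp hj).2 (Finset.mem_filter.mp hk).2)
  have hb1 := hal_bez (μ := fun i => if i ∈ A then 0 else 1) hp.sep hC hb (by
    intro i
    apply Ideal.mem_sup_left
    split_ifs with hi
    · simp
    · rw [pow_one, mem_mx]
      have := h i
      rw [map_mul] at this
      rcases mul_eq_zero.mp this with h1 | h1
      · exact absurd (Finset.mem_filter.mpr ⟨Finset.mem_univ i, h1⟩) hi
      · exact h1) (hal_not_dvd hC.hom hC.prime.ne_zero hb hb0 (by norm_num))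
  have hsum : ∑ i, (((if i ∈ A then 0 else 1 : ℕ) : ℤ) * ((3 : ℕ) : ℤ)) = (9 - A.card) * 3 := by
    have h1 : ∀ i, (((if i ∈ A then 0 else 1 : ℕ) : ℤ) * ((3 : ℕ) : ℤ)) =
        3 - (if i ∈ A then 3 else 0) := by
      intro i
      split_ifs <;> simp
    simp only [h1, Finset.sum_sub_distrib, Finset.sum_const, Finset.card_univ, hc,
      Finset.sum_ite_mem, Finset.univ_inter]
    simp
    ring
  unfold dg at hb1
  rw [hsum] at hb1
  have : (A.card : ℤ) ≤ 2 := by exact_mod_cast hA2
  push_cast at hb1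
  omega

/-- The cubic through the nine triple points is irreducible. -/
theorem hal_prime (hc : Fintype.card ι = 9) (hp : Gen p) (hC : Cv p F 9 fun _ => 3) {G : S}
    (h0 : G ≠ 0) (hG : G.IsHomogeneous 3) (h : ∀ i, eval (p i) G = 0) : Prime G := by
  rw [← UniqueFactorizationMonoid.irreducible_iff_prime]
  refine ⟨fun hu => ?_, fun a b hab => ?_⟩
  · have : G ∣ (1 : S) := hu.dvd
    exact hal_not_dvd hG h0 (isHomogeneous_one _ _) one_ne_zero (by norm_num) this
  · subst hab
    have ha0 : a ≠ 0 := left_ne_zero_of_mul h0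
    have hb0 : b ≠ 0 := right_ne_zero_of_mul h0
    have ha := isHomogeneous_of_mul hG h0
    have hb : b.IsHomogeneous b.totalDegree :=
      isHomogeneous_of_mul (G := b) (H := a) (by rwa [mul_comm]) (by rwa [mul_comm])
    have hs : a.totalDegree + b.totalDegree = 3 := (ha.mul hb).inj_right hG h0
    by_contra hn
    rw [not_or] at hn
    have h1 : a.totalDegree ≠ 0 := fun e => hn.1 (hal_unit ha0 e)
    have h2 : b.totalDegree ≠ 0 := fun e => hn.2 (hal_unit hb0 e)
    rcases (show (a.totalDegree = 1 ∧ b.totalDegree = 2) ∨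
        (a.totalDegree = 2 ∧ b.totalDegree = 1) by omega) with ⟨e1, e2⟩ | ⟨e1, e2⟩
    · rw [e1] at ha
      rw [e2] at hb
      exact hal_split hc hp hC ha ha0 hb hb0 h
    · rw [e1] at ha
      rw [e2] at hb
      exact hal_split hc hp hC hb hb0 ha ha0 (by intro i; rw [mul_comm]; exact h i)

theorem hal_dg [DecidableEq ι] (hc : Fintype.card ι = 9) (d c k a b : ℕ) (i0 : ι) :
    dg d (fun _ : ι => c) k (fun i => if i = i0 then a else b) =
      (k : ℤ) * d - ((a : ℤ) + 8 * b) * c := by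
  unfold dg
  have h1 : ∀ i, (((if i = i0 then a else b : ℕ) : ℤ) * (c : ℤ)) =
      (b : ℤ) * c + (if i = i0 then ((a : ℤ) - b) * c else 0) := by
    intro i
    split_ifs <;> ring
  simp only [h1, Finset.sum_add_distrib, Finset.sum_const, Finset.card_univ, hc,
    Finset.sum_ite_eq', Finset.mem_univ, if_true]
  simp
  ring

/-- The case of exactly nine points. -/
theorem hal_nine (hc : Fintype.card ι = 9) (hp : Gen p) (hC : Cv p F 9 fun _ => 3) : False := by
  classical
  obtain ⟨G, h0, hG, hz⟩ := hal_cubic hc p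
  have hP := hal_prime hc hp hC h0 hG hz
  have hFG : ¬ F ∣ G := hal_not_dvd hC.hom hC.prime.ne_zero hG h0 (by norm_num)
  have hGF : ¬ G ∣ F := by
    intro h
    exact hFG ((hP.associated_of_dvd hC.prime h).symm.dvd)
  have hCG : Cv p G 3 fun _ => 1 := by
    refine ⟨hG, hP, fun i0 => ⟨by rw [pow_one, mem_mx]; exact hz i0, fun h2 => ?_⟩⟩
    have := hal_bez (μ := fun i => if i = i0 then 2 else 1) hp.sep hC hG (by
      intro i
      apply Ideal.mem_sup_left
      split_ifs with hi
      · rw [hi]; exact h2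
      · rw [pow_one, mem_mx]; exact hz i) hFG
    rw [hal_dg hc] at this
    norm_num at this
  obtain ⟨i0⟩ : Nonempty ι := Fintype.card_pos_iff.mp (by omega)
  have hF3 : ∀ i, F ∈ mx (p i) ^ 3 := fun i => (hC.mult i).1
  have hdv : ∀ v : Fin 3 → ℂ, dv v F ∈ mx (p i0) ^ 3 ⊔ Ideal.span {G} := by
    intro v
    obtain ⟨Θ, hΘ1, hΘ2, hΘ3, -⟩ := hp.exists_theta i0 v
    have e3 := hΘ3 F 9 3 hC.hom (hF3 i0)
    have hle : mx (p i0) ^ 3 ≤ mx (p i0) ^ 2 := Ideal.pow_le_pow_right (by norm_num)
    have e2 : Θ F ∈ mx (p i0) ^ 2 := by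
      have := Ideal.add_mem _ (hle e3) (dv_mem (p i0) v (hF3 i0))
      simpa using this
    suffices hs : Θ F ∈ mx (p i0) ^ 3 ⊔ Ideal.span {G} by
      have := Ideal.sub_mem _ hs (Ideal.mem_sup_left e3)
      simpa using this
    by_contra hn
    obtain ⟨h0', h1', hPk, hL⟩ := exists_pack hp.sep hCG
    have h2 := hL 9 (fun i => if i = i0 then 2 else 3) 2 ![F, Θ F] (by
      intro a
      fin_cases a
      · exact hC.hom
      · exact hΘ1 F 9 hC.hom) (by
      intro a i
      apply Ideal.mem_sup_left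
      fin_cases a
      · by_cases hi : i = i0
        · simp only [hi, if_true]
          exact hle (hF3 i0)
        · simp only [hi, if_false]
          exact hF3 i
      · by_cases hi : i = i0
        · simp only [hi, if_true]
          exact e2
        · simp only [hi, if_false]
          exact hΘ2 i hi F 9 3 hC.hom (hF3 i)) (by
      intro c hcd
      rw [Fin.sum_univ_two] at hcd
      simp only [Matrix.cons_val_zero, Matrix.cons_val_one] at hcd
      have c1 : c 1 = 0 := by
        by_contra hne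
        apply hn
        have hm : C (c 0) * F + C (c 1) * Θ F ∈ mx (p i0) ^ 3 ⊔ Ideal.span {G} :=
          Ideal.mem_sup_right (Ideal.mem_span_singleton.mpr hcd)
        have hm2 : C (c 0) * F ∈ mx (p i0) ^ 3 ⊔ Ideal.span {G} :=
          Ideal.mem_sup_left (Ideal.mul_mem_left _ _ (hF3 i0))
        have hm3 := Ideal.sub_mem _ hm hm2
        rw [add_sub_cancel_left] at hm3
        exact (Ideal.unit_mul_mem_iff_mem _ ((IsUnit.mk0 _ hne).map C)).mp hm3
      have c0 : c 0 = 0 := by
        by_contra hne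
        rw [c1, map_zero, zero_mul, add_zero] at hcd
        exact hGF (((IsUnit.mk0 _ hne).map C).dvd_mul_left.mp hcd)
      intro a
      fin_cases a
      · exact c0
      · exact c1)
    have hg := hPk.g1 9 (fun i => if i = i0 then 2 else 3) (by norm_num)
      (by intro i; split_ifs <;> norm_num) h2 (by
        rw [hal_dg hc]
        have : (2 : ℤ) ≤ h0' 9 (fun i => if i = i0 then 2 else 3) := by exact_mod_cast h2
        push_cast
        omega)
    simp [g2, sq, kc, hc] at hg
  have hpd : ∀ j, pderiv j F ∈ mx (p i0) ^ 3 ⊔ Ideal.span {G} := by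
    intro j
    have := hdv (Pi.single j 1)
    have e : dv (Pi.single j 1) F = pderiv j F := by
      unfold dv
      rw [Finset.sum_eq_single j]
      · simp
      · intro b _ hb
        simp [Pi.single_eq_of_ne hb]
      · simp
    rwa [e] at this
  have h4 : F ∈ mx (p i0) ^ 4 ⊔ Ideal.span {G} := by
    have e1 : ∑ j, (X j - C (p i0 j)) * pderiv j F ∈ mx (p i0) ^ 4 ⊔ Ideal.span {G} := by
      apply Ideal.sum_mem
      intro j _
      obtain ⟨y, hy, z, hz', hyz⟩ := Submodule.mem_sup.mp (hpd j)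
      rw [← hyz, mul_add]
      apply Ideal.add_mem
      · apply Ideal.mem_sup_left
        rw [pow_succ']
        exact Ideal.mul_mem_mul (by rw [mem_mx]; simp) hy
      · exact Ideal.mem_sup_right (Ideal.mul_mem_left _ _ hz')
    have e2 := Ideal.sub_mem _ e1 (Ideal.mem_sup_left (euler_mem (p i0) (hF3 i0)))
    rw [sub_sub_cancel] at e2
    exact (Ideal.unit_mul_mem_iff_mem _ ((IsUnit.mk0 _ (by norm_num)).map C)).mp e2
  have := hal_bez (μ := fun i => if i = i0 then 4 else 3) hp.sep hCG hC.hom (by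
    intro i
    split_ifs with hi
    · rw [hi]; exact h4
    · exact Ideal.mem_sup_left (hF3 i)) hGF
  rw [hal_dg hc] at this
  norm_num at this

/-- No irreducible nonic has triple points at nine of the points. -/
theorem ruleH (hp : Gen p) (hC : Cv p F 9 m) (s : Finset ι) (hs : s.card = 9)
    (h3 : ∀ i ∈ s, m i = 3) : False := by
  classical
  refine hal_nine (ι := s) (p := fun i => p i) (F := F) (by simpa using hs) ⟨fun i => hp.1 i, ?_⟩
    ⟨hC.hom, hC.prime, fun i => ?_⟩
  · intro w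
    obtain ⟨D, A, c, h⟩ := hp.2 fun i => if hi : i ∈ s then w ⟨i, hi⟩ else 0
    refine ⟨D, A, fun i => c i, fun i a => ?_⟩
    have := h i a
    simpa [i.2] using this
  · have := hC.mult i
    rwa [h3 i i.2] at this

end Pool.Agent.P.MP_3c83d0_ag
end

-- part Pool.Agent.P.MP_3c83d0_ag.Crem
section

open MvPolynomial

namespace Pool.Agent.P.MP_3c83d0_ag

namespace Crem

theorem hom_iff {G : S} {k : ℕ} :
    G.IsHomogeneous k ↔ ∀ s ∈ G.support, s 0 + s 1 + s 2 = k := by
  have key : ∀ s : Fin 3 →₀ ℕ, Finsupp.weight (1 : Fin 3 → ℕ) s = s 0 + s 1 + s 2 := by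
    intro s
    have h1 : Finsupp.weight (1 : Fin 3 → ℕ) s = s.degree := by
      rw [Finsupp.degree_eq_weight_one]; rfl
    rw [h1, Finsupp.degree_eq_sum, Fin.sum_univ_three]
  constructor
  · intro h s hs
    rw [← key]; exact h (mem_support_iff.mp hs)
  · intro h s hs
    rw [key]; exact h s (mem_support_iff.mpr hs)

theorem mem_support_pderiv {G : S} {b : Fin 3} {s : Fin 3 →₀ ℕ} :
    s ∈ (pderiv b G).support ↔ s + Finsupp.single b 1 ∈ G.support := by
  rw [mem_support_iff, mem_support_iff, coeff_pderiv]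
  have : ((s b : ℂ) + 1) ≠ 0 := by exact_mod_cast Nat.succ_ne_zero (s b)
  simp [this]

theorem eval_single_monomial (a : Fin 3) (s : Fin 3 →₀ ℕ) (c : ℂ) (h : ∃ b, b ≠ a ∧ s b ≠ 0) :
    eval (Pi.single a (1 : ℂ) : Fin 3 → ℂ) (monomial s c) = 0 := by
  obtain ⟨b, hb, hs⟩ := h
  rw [eval_monomial, Finsupp.prod_fintype _ _ (by simp)]
  rw [Finset.prod_eq_zero (Finset.mem_univ b), mul_zero]
  rw [Pi.single_eq_of_ne hb, zero_pow hs]

theorem eval_single {G : S} {k : ℕ} (hG : G.IsHomogeneous k) (a : Fin 3) :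
    eval (Pi.single a (1 : ℂ) : Fin 3 → ℂ) G = coeff (Finsupp.single a k) G := by
  classical
  conv_lhs => rw [G.as_sum, map_sum]
  rw [Finset.sum_eq_single (Finsupp.single a k)]
  · rw [eval_monomial, Finsupp.prod_single_index (by simp)]; simp
  · intro s hs hne
    apply eval_single_monomial
    by_contra hcon
    push Not at hcon
    apply hne
    have h3 := hom_iff.mp hG s hs
    ext b
    fin_cases a <;> fin_cases b <;> simp_all [Fin.forall_fin_succ]
  · intro h
    rw [notMem_support_iff.mp h]; simp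

/-- Multiplicity of a form at a coordinate point. -/
theorem mem_pow_single (a : Fin 3) (μ : ℕ) : ∀ {G : S} {k : ℕ}, G.IsHomogeneous k →
    (G ∈ mx (Pi.single a (1 : ℂ) : Fin 3 → ℂ) ^ μ ↔ ∀ s ∈ G.support, s a + μ ≤ k) := by
  induction μ with
  | zero =>
    intro G k hG
    simp only [pow_zero, Ideal.one_eq_top, Submodule.mem_top, true_iff]
    intro s hs
    have h3 := hom_iff.mp hG s hs
    fin_cases a <;> simp <;> omega
  | succ μ ih =>
    intro G k hG
    rw [mem_pow_succ_iff, eval_single hG]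
    constructor
    · rintro ⟨h0, h1⟩ s hs
      have h3 := hom_iff.mp hG s hs
      by_cases hex : ∃ b, b ≠ a ∧ s b ≠ 0
      · obtain ⟨b, hb, hsb⟩ := hex
        have hle : Finsupp.single b 1 ≤ s := by
          rw [Finsupp.single_le_iff]; omega
        have hmem : s - Finsupp.single b 1 ∈ (pderiv b G).support := by
          rw [mem_support_pderiv, tsub_add_cancel_of_le hle]; exact hs
        have h4 := (ih hG.pderiv).mp (h1 b) _ hmem
        have h5 : (s - Finsupp.single b 1 : Fin 3 →₀ ℕ) a = s a := by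
          simp [Finsupp.single_eq_of_ne hb.symm]
        have h6 : 1 ≤ k := by fin_cases b <;> simp at hsb <;> omega
        omega
      · exfalso
        push Not at hex
        have : s = Finsupp.single a k := by
          ext b
          fin_cases a <;> fin_cases b <;> simp_all [Fin.forall_fin_succ]
        exact mem_support_iff.mp hs (this ▸ h0)
    · intro h
      refine ⟨?_, fun b => (ih hG.pderiv).mpr ?_⟩
      · by_contra hne
        have := h _ (mem_support_iff.mpr hne)
        simp at this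
      · intro s hs
        have := h _ (mem_support_pderiv.mp hs)
        simp only [Finsupp.add_apply] at this
        omega

/-- Reversal of the exponents inside the box `be`. -/
noncomputable def rev (be : Fin 3 →₀ ℕ) : S →ₗ[ℂ] S :=
  (basisMonomials (Fin 3) ℂ).constr ℂ fun s => monomial (be - s) (1 : ℂ)

theorem rev_monomial (be s : Fin 3 →₀ ℕ) (c : ℂ) :
    rev be (monomial s c) = monomial (be - s) c := by
  have h1 : (monomial s c : S) = c • basisMonomials (Fin 3) ℂ s := by
    simp [smul_monomial]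
  rw [h1, map_smul, rev, Module.Basis.constr_basis]
  simp [smul_monomial]

/-- All exponents lie in the box `be`. -/
def Bd (be : Fin 3 →₀ ℕ) (G : S) : Prop := ∀ s ∈ G.support, s ≤ be

theorem rev_eq_sum (be : Fin 3 →₀ ℕ) (G : S) :
    rev be G = ∑ s ∈ G.support, monomial (be - s) (coeff s G) := by
  conv_lhs => rw [G.as_sum, map_sum]
  simp only [rev_monomial]

theorem coeff_rev {be : Fin 3 →₀ ℕ} {G : S} (h : Bd be G) (t : Fin 3 →₀ ℕ) :
    coeff t (rev be G) = if t ≤ be then coeff (be - t) G else 0 := by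
  classical
  rw [rev_eq_sum, coeff_sum]
  simp only [coeff_monomial]
  split_ifs with ht
  · rw [Finset.sum_eq_single (be - t)]
    · rw [if_pos (tsub_tsub_cancel_of_le ht)]
    · intro s hs hne
      rw [if_neg]
      intro he
      apply hne
      rw [← he, tsub_tsub_cancel_of_le (h s hs)]
    · intro hn
      rw [notMem_support_iff.mp hn]; simp
  · apply Finset.sum_eq_zero
    intro s _
    rw [if_neg]
    intro he
    exact ht (he ▸ tsub_le_self)

theorem mem_support_rev {be : Fin 3 →₀ ℕ} {G : S} (h : Bd be G) (t : Fin 3 →₀ ℕ) :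
    t ∈ (rev be G).support ↔ t ≤ be ∧ be - t ∈ G.support := by
  rw [mem_support_iff, mem_support_iff, coeff_rev h]
  by_cases ht : t ≤ be <;> simp [ht]

theorem sub_mem_support_rev {be : Fin 3 →₀ ℕ} {G : S} (h : Bd be G) {s : Fin 3 →₀ ℕ}
    (hs : s ∈ G.support) : be - s ∈ (rev be G).support := by
  rw [mem_support_rev h, tsub_tsub_cancel_of_le (h s hs)]
  exact ⟨tsub_le_self, hs⟩

theorem bd_rev {be : Fin 3 →₀ ℕ} {G : S} (h : Bd be G) : Bd be (rev be G) :=
  fun t ht => ((mem_support_rev h t).mp ht).1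

theorem rev_rev {be : Fin 3 →₀ ℕ} {G : S} (h : Bd be G) : rev be (rev be G) = G := by
  ext t
  rw [coeff_rev (bd_rev h)]
  split_ifs with ht
  · rw [coeff_rev h, if_pos tsub_le_self, tsub_tsub_cancel_of_le ht]
  · by_contra hne
    exact ht (h t (mem_support_iff.mpr fun h0 => hne h0.symm))

theorem rev_mul {be ga : Fin 3 →₀ ℕ} {G H : S} (hG : Bd be G) (hH : Bd ga H) :
    rev (be + ga) (G * H) = rev be G * rev ga H := by
  rw [rev_eq_sum be, rev_eq_sum ga]
  conv_lhs => rw [G.as_sum, H.as_sum]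
  rw [Finset.sum_mul_sum, Finset.sum_mul_sum, map_sum]
  refine Finset.sum_congr rfl fun s hs => ?_
  rw [map_sum]
  refine Finset.sum_congr rfl fun t ht => ?_
  rw [monomial_mul, monomial_mul, rev_monomial, tsub_add_tsub_comm (hG s hs) (hH t ht)]

/-- The vector of the degrees in the three variables. -/
noncomputable def dvec (G : S) : Fin 3 →₀ ℕ :=
  Finsupp.equivFunOnFinite.symm fun a => degreeOf a G

theorem dvec_apply (G : S) (a : Fin 3) : dvec G a = degreeOf a G := rfl

theorem bd_dvec (G : S) : Bd (dvec G) G := fun _ hs a => monomial_le_degreeOf a hs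

theorem degreeOf_eq {G : S} {a : Fin 3} {n : ℕ} (h1 : ∀ s ∈ G.support, s a ≤ n)
    (h2 : ∃ s ∈ G.support, s a = n) : degreeOf a G = n := by
  obtain ⟨s, hs, rfl⟩ := h2
  exact le_antisymm (degreeOf_le_iff.mpr h1) (monomial_le_degreeOf a hs)

theorem X_dvd_of {G : S} {a : Fin 3} (h : ∀ s ∈ G.support, s a ≠ 0) : (X a : S) ∣ G := by
  rw [G.as_sum]
  exact Finset.dvd_sum fun s hs => X_dvd_monomial.mpr (Or.inr (h s hs))

theorem ne_zero_of_X_dvd {G : S} {a : Fin 3} (h : (X a : S) ∣ G) : ∀ s ∈ G.support, s a ≠ 0 := by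
  classical
  obtain ⟨H, rfl⟩ := h
  intro s hs h0
  rw [mem_support_iff, coeff_X_mul'] at hs
  simp [h0] at hs

theorem irreducible_rev {F : S} {al : Fin 3 →₀ ℕ} (hF : Irreducible F) (hb : Bd al F)
    (h0 : ∀ a, ∃ s ∈ F.support, s a = 0) (h1 : ∀ a, ∃ s ∈ F.support, s a = al a) :
    Irreducible (rev al F) := by
  have hd : dvec (rev al F) = al := by
    ext a
    rw [dvec_apply]
    refine degreeOf_eq (fun s hs => bd_rev hb s hs a) ?_
    obtain ⟨s, hs, hs0⟩ := h0 a
    exact ⟨al - s, sub_mem_support_rev hb hs, by simp [hs0]⟩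
  have hX : ∀ a, ¬ (X a : S) ∣ rev al F := by
    intro a hdv
    obtain ⟨s, hs, hs1⟩ := h1 a
    exact ne_zero_of_X_dvd hdv _ (sub_mem_support_rev hb hs) (by simp [hs1])
  have hne : rev al F ≠ 0 := fun h => hX 0 (h ▸ dvd_zero _)
  have aux : ∀ G : S, G ∣ rev al F → IsUnit (rev (dvec G) G) → IsUnit G := by
    intro G hG hu
    obtain ⟨c, hc, hGc⟩ := isUnit_iff_eq_C_of_isReduced.mp hu
    have hG1 : G = monomial (dvec G) c := by
      conv_lhs => rw [← rev_rev (bd_dvec G), hGc, C_apply, rev_monomial, tsub_zero]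
    have hz : dvec G = 0 := by
      ext a
      by_contra hne
      exact hX a ((hG1 ▸ X_dvd_monomial.mpr (Or.inr hne) : (X a : S) ∣ G).trans hG)
    rw [hG1, hz, ← C_apply]
    exact hc.map C
  constructor
  · intro hu
    obtain ⟨c, hc, hFc⟩ := isUnit_iff_eq_C_of_isReduced.mp hu
    have hz : al = 0 := by
      rw [← hd, hFc]; ext a; simp [dvec_apply]
    apply hF.not_isUnit
    rw [← rev_rev hb, hFc, C_apply, rev_monomial, hz, tsub_zero, ← C_apply]
    exact hc.map C
  · intro G H hGH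
    have hG0 : G ≠ 0 := by rintro rfl; exact hne (by simpa using hGH)
    have hH0 : H ≠ 0 := by rintro rfl; exact hne (by simpa using hGH)
    have hal : al = dvec G + dvec H := by
      rw [← hd, hGH]; ext a
      simp [dvec_apply, degreeOf_mul_eq hG0 hH0]
    have hFm : F = rev (dvec G) G * rev (dvec H) H := by
      rw [← rev_mul (bd_dvec G) (bd_dvec H), ← hal, ← hGH, rev_rev hb]
    rcases hF.isUnit_or_isUnit hFm with hu | hu
    · exact Or.inl (aux G ⟨H, hGH⟩ hu)
    · exact Or.inr (aux H ⟨G, by rw [hGH, mul_comm]⟩ hu)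

/-- Reversal transports multiplicities at points of the torus. -/
theorem rev_mem_pow {q : Fin 3 → ℂ} (hq : ∀ a, q a ≠ 0) {be : Fin 3 →₀ ℕ} {G : S} (hb : Bd be G)
    {μ : ℕ} (hG : G ∈ mx q ^ μ) : rev be G ∈ mx (fun a => (q a)⁻¹) ^ μ := by
  set q' : Fin 3 → ℂ := fun a => (q a)⁻¹ with hq'
  set I : Ideal S := mx q' ^ μ with hI
  let mk : S →ₐ[ℂ] S ⧸ I := Ideal.Quotient.mkₐ ℂ I
  have hgen : ∀ a, (X a - C (q' a) : S) ∈ mx q' := fun a => by simp [mem_mx]
  have hunit : ∀ a, IsUnit (mk (X a)) := by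
    intro a
    have hnil : IsNilpotent (mk (X a - C (q' a))) := by
      refine ⟨μ, ?_⟩
      rw [← map_pow]
      exact Ideal.Quotient.eq_zero_iff_mem.mpr (Ideal.pow_mem_pow (hgen a) μ)
    have hu : IsUnit (mk (C (q' a))) :=
      ((IsUnit.mk0 _ (inv_ne_zero (hq a))).map (C : ℂ →+* S)).map mk
    have := hnil.isUnit_add_right_of_commute hu (Commute.all _ _)
    rwa [← map_add, sub_add_cancel] at this
  choose u hu using hunit
  let φ : S →ₐ[ℂ] S ⧸ I := aeval fun a => ((u a)⁻¹ : (S ⧸ I)ˣ)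
  let J : Ideal (S ⧸ I) := (mx q').map mk
  have hJ : J ^ μ = ⊥ := by
    rw [← Ideal.map_pow]
    exact Ideal.map_quotient_self I
  have hφ : (mx q).map φ ≤ J := by
    rw [mx_eq_span q, Ideal.map_span, Ideal.span_le]
    rintro _ ⟨_, ⟨a, rfl⟩, rfl⟩
    have h1 : φ (X a - C (q a)) =
        -(((u a)⁻¹ : (S ⧸ I)ˣ) * mk (C (q a))) * mk (X a - C (q' a)) := by
      have h2 : mk (C (q a)) * mk (C (q' a)) = 1 := by
        rw [← map_mul, ← map_mul, hq', mul_inv_cancel₀ (hq a), map_one, map_one]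
      have h3 : (((u a)⁻¹ : (S ⧸ I)ˣ) : S ⧸ I) * mk (X a) = 1 := by
        rw [← hu a]; exact Units.inv_mul _
      have h4 : φ (C (q a)) = mk (C (q a)) := by
        rw [← algebraMap_eq, AlgHom.commutes, AlgHom.commutes]
      rw [map_sub, map_sub, h4]
      simp only [φ, aeval_X]
      linear_combination (mk (C (q a))) * h3 - (((u a)⁻¹ : (S ⧸ I)ˣ) : S ⧸ I) * h2
    rw [SetLike.mem_coe, h1]
    exact Ideal.mul_mem_left _ _ (Ideal.mem_map_of_mem mk (hgen a))
  have hφG : φ G = 0 := by
    have h1 : φ G ∈ ((mx q).map φ) ^ μ := by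
      rw [← Ideal.map_pow]; exact Ideal.mem_map_of_mem φ hG
    have h2 := Ideal.pow_right_mono hφ μ h1
    rwa [hJ, Ideal.mem_bot] at h2
  have hmon : ∀ s : Fin 3 →₀ ℕ, s ≤ be → ∀ c : ℂ,
      mk (monomial (be - s) c) = (∏ a, mk (X a) ^ be a) * φ (monomial s c) := by
    intro s hs c
    have h4 : φ (C c) = mk (C c) := by
      rw [← algebraMap_eq, AlgHom.commutes, AlgHom.commutes]
    rw [monomial_eq, monomial_eq, Finsupp.prod_fintype _ _ (by simp),
      Finsupp.prod_fintype _ _ (by simp), map_mul, map_mul, map_prod, map_prod, h4,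
      mul_left_comm, ← Finset.prod_mul_distrib]
    congr 1
    refine Finset.prod_congr rfl fun a _ => ?_
    have h3 : mk (X a) * (((u a)⁻¹ : (S ⧸ I)ˣ) : S ⧸ I) = 1 := by
      rw [← hu a]; exact Units.mul_inv _
    have h5 : be a = (be - s) a + s a := by
      rw [Finsupp.tsub_apply, tsub_add_cancel_of_le (hs a)]
    rw [map_pow, map_pow]
    simp only [φ, aeval_X]
    conv_rhs => rw [h5, pow_add, mul_assoc, ← mul_pow, h3, one_pow, mul_one]
  have hfin : mk (rev be G) = 0 := by
    rw [rev_eq_sum, map_sum, Finset.sum_congr rfl fun s hs => hmon s (hb s hs) _,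
      ← Finset.mul_sum, ← map_sum, ← G.as_sum, hφG, mul_zero]
  exact Ideal.Quotient.eq_zero_iff_mem.mp hfin

variable {ι : Type*} [Fintype ι]

/-- The image of the points under the standard quadratic transformation. -/
noncomputable def crPt (q : ι → Fin 3 → ℂ) (i j k : ι) : ι → Fin 3 → ℂ := by
  classical
  exact fun l => if l = i ∨ l = j ∨ l = k then q l else fun a => (q l a)⁻¹

omit [Fintype ι] in
theorem crPt_of_mem (q : ι → Fin 3 → ℂ) {i j k l : ι} (h : l = i ∨ l = j ∨ l = k) :
    crPt q i j k l = q l := by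
  simp only [crPt, if_pos h]

omit [Fintype ι] in
theorem crPt_of_not (q : ι → Fin 3 → ℂ) {i j k l : ι} (h : ¬ (l = i ∨ l = j ∨ l = k)) :
    crPt q i j k l = fun a => (q l a)⁻¹ := by
  simp only [crPt, if_neg h]

omit [Fintype ι] in
theorem gen_crPt {q : ι → Fin 3 → ℂ} (hq : Gen q) {i j k : ι}
    (hi : q i = Pi.single 0 1) (hj : q j = Pi.single 1 1) (hk : q k = Pi.single 2 1)
    (hT : ∀ l, ¬ (l = i ∨ l = j ∨ l = k) → ∀ a, q l a ≠ 0) : Gen (crPt q i j k) := by
  classical
  refine ⟨fun l => ?_, fun w' => ?_⟩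
  · by_cases h : l = i ∨ l = j ∨ l = k
    · rw [crPt_of_mem q h]; exact hq.1 l
    · rw [crPt_of_not q h]
      intro h0
      exact inv_ne_zero (hT l h 0) (congrFun h0 0)
  · let A0 : Matrix (Fin 3) (Fin 3) ℂ := (Matrix.of ![w' i, w' j, w' k]).transpose
    let w : ι → Fin 3 → ℂ := fun l => if l = i ∨ l = j ∨ l = k then 0 else
      fun a => -(w' l a - A0.mulVec (fun b => (q l b)⁻¹) a) * q l a ^ 2
    obtain ⟨D, A, c, h⟩ := hq.2 w
    have hD : ∀ b a : Fin 3, D ((Pi.single b (1 : ℂ) : Fin 3 → ℂ) a) = 0 := by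
      intro b a
      by_cases hab : a = b
      · subst hab; simp
      · simp [Pi.single_eq_of_ne hab]
    have hcol : ∀ l (b : Fin 3), (l = i ∨ l = j ∨ l = k) → q l = Pi.single b 1 →
        ∀ a, A a b = c l * (Pi.single b (1 : ℂ) : Fin 3 → ℂ) a := by
      intro l b hl hb a
      have h1 := h l a
      simp only [w, if_pos hl, hb, hD, Matrix.mulVec_single_one] at h1
      simpa using h1
    have h0 := hcol i 0 (Or.inl rfl) hi
    have h1 := hcol j 1 (Or.inr (Or.inl rfl)) hj
    have h2 := hcol k 2 (Or.inr (Or.inr rfl)) hk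
    have hdiag : ∀ (x : Fin 3 → ℂ) (a : Fin 3), A.mulVec x a = A a a * x a := by
      intro x a
      simp only [Matrix.mulVec, dotProduct, Fin.sum_univ_three, h0, h1, h2]
      fin_cases a <;> simp [h0, h1, h2]
    refine ⟨D, A0 - A, fun l => -c l, fun l a => ?_⟩
    by_cases hl : l = i ∨ l = j ∨ l = k
    · rw [crPt_of_mem q hl, Matrix.sub_mulVec, Pi.sub_apply]
      have h3 := h l a
      simp only [w, if_pos hl, Pi.zero_apply, zero_add] at h3
      have h4 : A0.mulVec (q l) a = w' l a ∧ D (q l a) = 0 := by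
        rcases hl with rfl | rfl | rfl
        · rw [hi]; exact ⟨by simp [A0], hD _ _⟩
        · rw [hj]; exact ⟨by simp [A0], hD _ _⟩
        · rw [hk]; exact ⟨by simp [A0], hD _ _⟩
      rw [h4.2] at h3
      rw [h4.1, h4.2]
      linear_combination -h3
    · rw [crPt_of_not q hl, Matrix.sub_mulVec, Pi.sub_apply, hdiag]
      have h3 := h l a
      simp only [w, if_neg hl, hdiag] at h3
      have hne := hT l hl a
      simp only [Derivation.leibniz_inv, smul_eq_mul]
      generalize A0.mulVec (fun b => (q l b)⁻¹) a = y at h3 ⊢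
      field_simp
      linear_combination -h3

omit [Fintype ι] in
theorem cremona_std {q : ι → Fin 3 → ℂ} {F : S} {d : ℕ} {m : ι → ℕ} (hC : Cv q F d m)
    (hd : d ≠ 1) {i j k : ι} (hij : i ≠ j) (hik : i ≠ k) (hjk : j ≠ k)
    (hi : q i = Pi.single 0 1) (hj : q j = Pi.single 1 1) (hk : q k = Pi.single 2 1)
    (hT : ∀ l, ¬ (l = i ∨ l = j ∨ l = k) → ∀ a, q l a ≠ 0) :
    ∃ (F' : S) (d' : ℕ) (m' : ι → ℕ), Cv (crPt q i j k) F' d' m' ∧
    d' + m i + m j + m k = 2 * d ∧ m' i + m j + m k = d ∧ m' j + m i + m k = d ∧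
    m' k + m i + m j = d ∧ ∀ l, l ≠ i → l ≠ j → l ≠ k → m' l = m l := by
  classical
  have hF0 : F ≠ 0 := hC.prime.ne_zero
  set al := dvec F with hal
  have hb : Bd al F := bd_dvec F
  have hdeg : ∀ (l : ι) (a : Fin 3), q l = Pi.single a 1 →
      al a + m l = d ∧ ∃ s ∈ F.support, s a = al a := by
    intro l a hl
    obtain ⟨h1, h2⟩ := hC.mult l
    rw [hl, mem_pow_single a _ hC.hom] at h1 h2
    push Not at h2
    obtain ⟨s, hs, hs2⟩ := h2
    have h3 := h1 s hs
    have h4 : al a = s a := by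
      rw [hal, dvec_apply]
      refine degreeOf_eq (fun t ht => ?_) ⟨s, hs, rfl⟩
      have := h1 t ht
      omega
    exact ⟨by omega, s, hs, h4.symm⟩
  obtain ⟨e0, t0⟩ := hdeg i 0 hi
  obtain ⟨e1, t1⟩ := hdeg j 1 hj
  obtain ⟨e2, t2⟩ := hdeg k 2 hk
  have htop : ∀ a, ∃ s ∈ F.support, s a = al a := by
    intro a
    fin_cases a
    exacts [t0, t1, t2]
  have hbot : ∀ a, ∃ s ∈ F.support, s a = 0 := by
    intro a
    by_contra hcon
    push Not at hcon
    obtain ⟨H, hH⟩ := X_dvd_of hcon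
    rcases hC.prime.irreducible.isUnit_or_isUnit hH with hu | hu
    · obtain ⟨c, _, hc⟩ := isUnit_iff_eq_C_of_isReduced.mp hu
      have := congrArg (degreeOf a) hc
      simp at this
    · obtain ⟨c, _, hc⟩ := isUnit_iff_eq_C_of_isReduced.mp hu
      have h1 : F.IsHomogeneous 1 := by
        rw [hH, hc]
        simpa using (isHomogeneous_X ℂ a).mul (isHomogeneous_C (Fin 3) c)
      exact hd (hC.hom.inj_right h1 hF0)
  obtain ⟨d', hd'⟩ : ∃ d', d' + d = al 0 + al 1 + al 2 := by
    obtain ⟨s, hs, _⟩ := t0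
    have h1 := hom_iff.mp hC.hom s hs
    have h2 := hb s hs 0
    have h3 := hb s hs 1
    have h4 := hb s hs 2
    exact ⟨al 0 + al 1 + al 2 - d, by omega⟩
  have hsub : ∀ s ∈ F.support, (al - s) 0 + (al - s) 1 + (al - s) 2 = d' := by
    intro s hs
    have h1 := hom_iff.mp hC.hom s hs
    have h2 := hb s hs 0
    have h3 := hb s hs 1
    have h4 := hb s hs 2
    simp only [Finsupp.tsub_apply]
    omega
  have hhom : (rev al F).IsHomogeneous d' := by
    rw [hom_iff]
    intro t ht
    obtain ⟨h1, h2⟩ := (mem_support_rev hb t).mp ht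
    have := hsub _ h2
    rwa [tsub_tsub_cancel_of_le h1] at this
  have hle : ∀ a, al a ≤ d' := by
    intro a
    obtain ⟨s, hs, hs0⟩ := hbot a
    have h1 := hsub s hs
    have h2 : (al - s) a = al a := by simp [hs0]
    fin_cases a <;> simp only [Fin.zero_eta, Fin.mk_one, Fin.reduceFinMk] at h2 ⊢ <;> omega
  have hmult : ∀ a : Fin 3, HasMult (rev al F) (Pi.single a 1) (d' - al a) := by
    intro a
    have h0 := hle a
    constructor
    · rw [mem_pow_single a _ hhom]
      intro t ht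
      have := bd_rev hb t ht a
      omega
    · rw [mem_pow_single a _ hhom]
      intro h
      obtain ⟨s, hs, hs0⟩ := hbot a
      have h1 := h _ (sub_mem_support_rev hb hs)
      have h2 : (al - s) a = al a := by simp [hs0]
      omega
  let m' : ι → ℕ := fun l =>
    if l = i then d' - al 0 else if l = j then d' - al 1 else if l = k then d' - al 2 else m l
  have mi : m' i = d' - al 0 := by simp [m']
  have mj : m' j = d' - al 1 := by simp [m', hij.symm]
  have mk : m' k = d' - al 2 := by simp [m', hik.symm, hjk.symm]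
  have ml : ∀ l, l ≠ i → l ≠ j → l ≠ k → m' l = m l := by
    intro l h1 h2 h3
    simp [m', h1, h2, h3]
  have l0 := hle 0
  have l1 := hle 1
  have l2 := hle 2
  refine ⟨rev al F, d', m', ⟨hhom, ?_, fun l => ?_⟩, by omega, by omega, by omega, by omega, ml⟩
  · exact (irreducible_rev hC.prime.irreducible hb hbot htop).prime
  · by_cases hl : l = i ∨ l = j ∨ l = k
    · rw [crPt_of_mem q hl]
      rcases hl with rfl | rfl | rfl
      · rw [hi, mi]; exact hmult 0
      · rw [hj, mj]; exact hmult 1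
      · rw [hk, mk]; exact hmult 2
    · rw [crPt_of_not q hl, ml l (fun h => hl (Or.inl h)) (fun h => hl (Or.inr (Or.inl h)))
        (fun h => hl (Or.inr (Or.inr h)))]
      refine ⟨rev_mem_pow (hT l hl) hb (hC.mult l).1, fun h => (hC.mult l).2 ?_⟩
      have h1 := rev_mem_pow (fun a => inv_ne_zero (hT l hl a)) (bd_rev hb) h
      simpa only [rev_rev hb, inv_inv] using h1

end Crem

variable {ι : Type*} [Fintype ι] {p : ι → Fin 3 → ℂ} {F : S} {d : ℕ} {m : ι → ℕ}

/-- The quadratic transformation centred at three of the points. -/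
theorem cremona (hp : Gen p) (hC : Cv p F d m) (hd : d ≠ 1) {i j k : ι} (hij : i ≠ j)
    (hik : i ≠ k) (hjk : j ≠ k) : ∃ (p' : ι → Fin 3 → ℂ) (F' : S) (d' : ℕ) (m' : ι → ℕ),
    Gen p' ∧ Cv p' F' d' m' ∧
    d' + m i + m j + m k = 2 * d ∧ m' i + m j + m k = d ∧ m' j + m i + m k = d ∧
    m' k + m i + m j = d ∧ ∀ l, l ≠ i → l ≠ j → l ≠ k → m' l = m l := by
  let g : Matrix (Fin 3) (Fin 3) ℂ := (Matrix.of ![p i, p j, p k]).transpose
  have hg : IsUnit g.det := by
    rw [Matrix.det_transpose]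
    exact IsUnit.mk0 _ (hp.det_ne hij hik hjk)
  let q : ι → Fin 3 → ℂ := fun l => g⁻¹.mulVec (p l)
  have hq : Gen q := hp.subst (Matrix.isUnit_nonsing_inv_det g hg)
  have hgq : (fun l => g.mulVec (q l)) = p := by
    funext l
    simp only [q, Matrix.mulVec_mulVec, Matrix.mul_nonsing_inv g hg, Matrix.one_mulVec]
  have hC1 : Cv q (lin g F) d m := Cv.subst hg (hgq ▸ hC)
  have hstd : ∀ (l : ι) (a : Fin 3), g.mulVec (Pi.single a 1) = p l → q l = Pi.single a 1 := by
    intro l a h
    simp only [q, ← h, Matrix.mulVec_mulVec, Matrix.nonsing_inv_mul g hg, Matrix.one_mulVec]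
  have hi : q i = Pi.single 0 1 := hstd i 0 (by ext a; simp [g])
  have hj : q j = Pi.single 1 1 := hstd j 1 (by ext a; simp [g])
  have hk : q k = Pi.single 2 1 := hstd k 2 (by ext a; simp [g])
  have hT : ∀ l, ¬ (l = i ∨ l = j ∨ l = k) → ∀ a, q l a ≠ 0 := by
    intro l hl a
    push Not at hl
    obtain ⟨h1, h2, h3⟩ := hl
    fin_cases a
    · have := hq.det_ne h2 h3 hjk
      rw [hj, hk, Matrix.det_fin_three] at this
      simpa using this
    · have := hq.det_ne h1 h3 hik
      rw [hi, hk, Matrix.det_fin_three] at this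
      simpa using this
    · have := hq.det_ne h1 h2 hij
      rw [hi, hj, Matrix.det_fin_three] at this
      simpa using this
  obtain ⟨F', d', m', h⟩ := Crem.cremona_std hC1 hd hij hik hjk hi hj hk hT
  exact ⟨Crem.crPt q i j k, F', d', m', Crem.gen_crPt hq hi hj hk hT, h⟩

end Pool.Agent.P.MP_3c83d0_ag
end

-- part Pool.Agent.P.MP_3c83d0_ag.Main
section

open MvPolynomial

namespace Pool.Agent.P.MP_3c83d0_ag

variable {ι : Type*} [Fintype ι]

theorem rules : Rules (fun (d : ℕ) (m : ι → ℕ) => ∃ (p : ι → Fin 3 → ℂ) (F : S),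
    Gen p ∧ Cv p F d m) where
  pos := fun _ _ ⟨_, _, _, hC⟩ => hC.pos
  le := fun _ _ ⟨_, _, _, hC⟩ => hC.le
  r0 := fun _ _ ⟨_, _, hp, hC⟩ => rule0 hp hC
  r1 := fun _ _ ⟨_, _, hp, hC⟩ hn => rule1 hp hC hn
  r11 := fun _ _ ⟨_, _, hp, hC⟩ hn => rule11 hp hC hn
  r2 := fun _ _ ⟨_, _, hp, hC⟩ hn => rule2 hp hC hn
  r3 := fun _ _ ⟨_, _, hp, hC⟩ hn => rule3 hp hC hn
  r31 := fun _ _ ⟨_, _, hp, hC⟩ hn => rule31 hp hC hn
  rH := fun _ ⟨_, _, hp, hC⟩ _ => ruleH hp hC
  cr := fun _ _ ⟨_, _, hp, hC⟩ hd _ _ _ hij hik hjk => by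
    obtain ⟨p', F', d', m', h1, h2, h3⟩ := cremona hp hC hd hij hik hjk
    exact ⟨d', m', ⟨p', F', h1, h2⟩, h3⟩

theorem three {p : ι → Fin 3 → ℂ} {F : S} {d : ℕ} {m : ι → ℕ} (hp : Gen p) (hC : Cv p F d m)
    (hn : sq d m < 0) (i : ι) (hi : m i = 3) : sq d m = -1 ∧ g2 d m = -2 :=
  rules.three d m ⟨p, F, hp, hC⟩ hn i hi

end Pool.Agent.P.MP_3c83d0_ag
end
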