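import Pool.Agent.P.MP_3c83d0_ag.ElDefs
import Pool.Agent.K.MP_3c83d0_ag.C0
import Pool.Agent.P.MP_3c83d0_ag.ElPlace
import Pool.Agent.P.MP_3c83d0_ag.Numer
import Pool.Agent.K.MP_3c83d0_ag.C1

-- part Pool.Agent.P.MP_3c83d0_ag.ElDer
section

open Polynomial

namespace Pool.Agent.P.MP_3c83d0_ag

variable {M : Type} [Field M] [Algebra ℂ M]

/-- The ring homomorphism into the dual numbers attached to a derivation of the constants. -/
noncomputable def elder_hom (d : Derivation ℤ ℂ ℂ) : ℂ →+* TrivSqZeroExt M M where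
  toFun a := TrivSqZeroExt.inl (algebraMap ℂ M a) + TrivSqZeroExt.inr (algebraMap ℂ M (d a))
  map_one' := by ext <;> simp
  map_mul' a b := by ext <;> simp [mul_comm, -DualNumber.inr_eq_smul_eps]
  map_zero' := by ext <;> simp
  map_add' a b := by ext <;> simp [-DualNumber.inr_eq_smul_eps]

open scoped IntermediateField.algebraAdjoinAdjoin in
theorem elder_basis (d : Derivation ℤ ℂ ℂ) {τ : Type} (b : τ → M)
    (hb : IsTranscendenceBasis ℂ b) (v : τ → M) :
    ∃ D : Derivation ℤ M M, (∀ a : ℂ, D (algebraMap ℂ M a) = algebraMap ℂ M (d a)) ∧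
      ∀ t, D (b t) = v t := by
  have : CharZero M := charZero_of_injective_algebraMap (algebraMap ℂ M).injective
  let e := hb.1.aevalEquiv
  let φ : MvPolynomial τ ℂ →+* TrivSqZeroExt M M := MvPolynomial.eval₂Hom (elder_hom d)
    fun t => TrivSqZeroExt.inl (b t) + TrivSqZeroExt.inr (v t)
  have hφ : ∀ p, (φ p).fst = MvPolynomial.aeval b p := fun p => by
    induction p using MvPolynomial.induction_on with
    | C a => simp [φ, elder_hom]
    | add p q hp hq => rw [map_add, map_add, TrivSqZeroExt.fst_add, hp, hq]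
    | mul_X p t hp => rw [map_mul, map_mul, TrivSqZeroExt.fst_mul, hp]; simp [φ]
  have he : ∀ x : Algebra.adjoin ℂ (Set.range b), (φ (e.symm x)).fst = (x : M) := fun x => by
    rw [hφ, ← hb.1.algebraMap_aevalEquiv]
    exact congrArg _ (e.apply_symm_apply x)
  let L : Algebra.adjoin ℂ (Set.range b) →+ M :=
    AddMonoidHom.mk' (fun x => (φ (e.symm x)).snd) fun x y => by
      rw [map_add, map_add, TrivSqZeroExt.snd_add]
  let D₀ : Derivation ℤ (Algebra.adjoin ℂ (Set.range b)) M :=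
    Derivation.mk' L.toIntLinearMap fun x y => by
      change (φ (e.symm (x * y))).snd =
        (x : M) * (φ (e.symm y)).snd + (y : M) * (φ (e.symm x)).snd
      rw [map_mul, map_mul, TrivSqZeroExt.snd_mul, he, he]
      simp [mul_comm]
  have : Algebra.FormallyEtale (Algebra.adjoin ℂ (Set.range b))
      (IntermediateField.adjoin ℂ (Set.range b)) :=
    .of_isLocalization (nonZeroDivisors _)
  have := hb.isAlgebraic_field
  have : Algebra.FormallyEtale (IntermediateField.adjoin ℂ (Set.range b)) M :=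
    Algebra.FormallyEtale.of_isSeparable _ M
  have : Algebra.FormallyEtale (Algebra.adjoin ℂ (Set.range b)) M :=
    .comp _ (IntermediateField.adjoin ℂ (Set.range b)) _
  obtain ⟨D, hD⟩ := der_extend D₀
  have key : ∀ p, D (MvPolynomial.aeval b p) = (φ p).snd := fun p => by
    have h1 := hD (e p)
    rw [hb.1.algebraMap_aevalEquiv] at h1
    change _ = (φ (e.symm (e p))).snd at h1
    rwa [e.symm_apply_apply] at h1
  refine ⟨D, fun a => ?_, fun t => ?_⟩
  · simpa [φ, elder_hom, -DualNumber.inr_eq_smul_eps] using key (MvPolynomial.C a)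
  · simpa [φ] using key (MvPolynomial.X t)

/-- Extension of a derivation of the constants with a prescribed value at a transcendental
element. -/
theorem der_ext (d : Derivation ℤ ℂ ℂ) {x : M} (hx : Transcendental ℂ x) (u : M) :
    ∃ D : Derivation ℤ M M, (∀ a : ℂ, D (algebraMap ℂ M a) = algebraMap ℂ M (d a)) ∧ D x = u := by
  have h1 : AlgebraicIndependent ℂ (fun _ : Unit => x) :=
    algebraicIndependent_unique_type_iff.2 hx
  obtain ⟨B, hB, hb⟩ := exists_isTranscendenceBasis_superset (R := ℂ)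
    (s := Set.range fun _ : Unit => x) h1.to_subtype_range
  obtain ⟨D, h2, h3⟩ := elder_basis d _ hb fun _ : B => u
  exact ⟨D, h2, h3 ⟨x, hB ⟨(), rfl⟩⟩⟩

theorem elder_aeval {K N : Type} [Field K] [Field N] [Algebra K N] (D : Derivation ℤ N N)
    (h0 : ∀ a : K, D (algebraMap K N a) = 0) (x : N) (p : K[X]) :
    D (aeval x p) = aeval x (derivative p) * D x := by
  induction p using Polynomial.induction_on' with
  | add p q hp hq => simp only [map_add, hp, hq, add_mul]
  | monomial n a =>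
    rw [aeval_monomial, Derivation.leibniz, h0, Derivation.leibniz_pow, derivative_monomial,
      aeval_monomial]
    simp only [smul_eq_mul, nsmul_eq_mul, map_mul, map_natCast]
    ring

theorem elder_alg {K N : Type} [Field K] [CharZero K] [Field N] [Algebra K N]
    (D : Derivation ℤ N N) (h0 : ∀ a : K, D (algebraMap K N a) = 0) {w : N}
    (hw : IsAlgebraic K w) : D w = 0 := by
  have h1 := elder_aeval D h0 w (minpoly K w)
  rw [minpoly.aeval, map_zero] at h1
  have h2 : (minpoly K w).Separable := (minpoly.irreducible hw.isIntegral).separable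
  exact (mul_eq_zero.1 h1.symm).resolve_left (h2.aeval_derivative_ne_zero (minpoly.aeval K w))

theorem der_aeval (D : Derivation ℤ M M) (h0 : ∀ a : ℂ, D (algebraMap ℂ M a) = 0) (x : M)
    (p : ℂ[X]) : D (aeval x p) = aeval x (derivative p) * D x :=
  elder_aeval D h0 x p

/-- A derivation that kills a subfield kills the elements that are algebraic over it. -/
theorem der_alg (D : Derivation ℤ M M) (K : IntermediateField ℂ M) (hK : ∀ z ∈ K, D z = 0)
    {w : M} (hw : IsAlgebraic K w) : D w = 0 := by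
  have : CharZero K := charZero_of_injective_algebraMap (algebraMap ℂ K).injective
  exact elder_alg (K := K) D (fun a => hK a a.2) hw

theorem der_adjoin (D : Derivation ℤ M M) (h0 : ∀ a : ℂ, D (algebraMap ℂ M a) = 0) (s : Set M)
    (hs : ∀ z ∈ s, D z = 0) : ∀ z ∈ IntermediateField.adjoin ℂ s, D z = 0 := by
  intro z hz
  induction hz using IntermediateField.adjoin_induction with
  | mem x hx => exact hs x hx
  | algebraMap a => exact h0 a
  | add x y _ _ hx hy => rw [map_add, hx, hy, add_zero]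
  | inv x _ hx => rw [Derivation.leibniz_inv, hx, smul_zero]
  | mul x y _ _ hx hy => rw [Derivation.leibniz, hx, hy, smul_zero, smul_zero, add_zero]

theorem der_algebraic (d : Derivation ℤ ℂ ℂ) {l : ℂ} (hl : IsAlgebraic ℚ l) : d l = 0 := by
  refine elder_alg d (fun a => ?_) hl
  rw [eq_ratCast, Rat.cast_def, Derivation.leibniz_div]
  simp

end Pool.Agent.P.MP_3c83d0_ag
end

-- part Pool.Agent.P.MP_3c83d0_ag.ElRep
section

open Polynomial

namespace Pool.Agent.P.MP_3c83d0_ag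

variable {M : Type} [Field M] [Algebra ℂ M]

theorem elrep_parity {a b r : ℂ[X]} (hodd : Odd r.natDegree) (h : a ^ 2 - b ^ 2 * r = 0) :
    a = 0 ∧ b = 0 := by
  have hr : r ≠ 0 := by
    rintro rfl
    simp at hodd
  have h1 : a ^ 2 = b ^ 2 * r := sub_eq_zero.1 h
  have hb : b = 0 := by
    by_contra hb
    have h2 := congrArg natDegree h1
    rw [natDegree_mul (pow_ne_zero _ hb) hr, natDegree_pow, natDegree_pow] at h2
    obtain ⟨k, hk⟩ := hodd
    omega
  subst hb
  refine ⟨?_, rfl⟩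
  have h3 : a ^ 2 = 0 := by simpa using h1
  exact pow_eq_zero_iff (two_ne_zero) |>.1 h3

theorem elrep_ne {x : M} (hx : Transcendental ℂ x) {p : ℂ[X]} (hp : p ≠ 0) : aeval x p ≠ 0 :=
  fun h => hx ⟨p, hp, h⟩

/-- Normal form of the elements of a hyperelliptic function field. -/
theorem rep {x y : M} (r : ℂ[X]) (hodd : Odd r.natDegree) (hx : Transcendental ℂ x)
    (hy : y ^ 2 = aeval x r) {z : M} (hz : z ∈ IntermediateField.adjoin ℂ {x, y}) :
    ∃ a b c : ℂ[X], c ≠ 0 ∧ z * aeval x c = aeval x a + aeval x b * y := by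
  induction hz using IntermediateField.adjoin_induction with
  | mem z hz =>
    rcases hz with rfl | hz
    · exact ⟨X, 0, 1, one_ne_zero, by simp⟩
    · rw [Set.mem_singleton_iff] at hz
      subst hz
      exact ⟨0, 1, 1, one_ne_zero, by simp⟩
  | algebraMap k => exact ⟨C k, 0, 1, one_ne_zero, by simp⟩
  | add z z' _ _ h h' =>
    obtain ⟨a, b, c, hc, e⟩ := h
    obtain ⟨a', b', c', hc', e'⟩ := h'
    refine ⟨a * c' + a' * c, b * c' + b' * c, c * c', mul_ne_zero hc hc', ?_⟩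
    simp only [map_add, map_mul]
    linear_combination aeval x c' * e + aeval x c * e'
  | inv z _ h =>
    obtain ⟨a, b, c, hc, e⟩ := h
    by_cases hN : a ^ 2 - b ^ 2 * r = 0
    · obtain ⟨rfl, rfl⟩ := elrep_parity hodd hN
      have h1 : z = 0 := by
        have h2 : z * aeval x c = 0 := by simpa using e
        exact (mul_eq_zero.1 h2).resolve_right (elrep_ne hx hc)
      exact ⟨0, 0, 1, one_ne_zero, by simp [h1]⟩
    · have h1 : z * (aeval x c * (aeval x a - aeval x b * y)) = aeval x (a ^ 2 - b ^ 2 * r) := by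
        simp only [map_sub, map_mul, map_pow]
        linear_combination (aeval x a - aeval x b * y) * e - aeval x b ^ 2 * hy
      have hz0 : z ≠ 0 := by
        rintro rfl
        rw [zero_mul] at h1
        exact elrep_ne hx hN h1.symm
      refine ⟨c * a, -(c * b), a ^ 2 - b ^ 2 * r, hN, ?_⟩
      rw [← h1, ← mul_assoc, inv_mul_cancel₀ hz0]
      simp only [map_neg, map_mul]
      ring
  | mul z z' _ _ h h' =>
    obtain ⟨a, b, c, hc, e⟩ := h
    obtain ⟨a', b', c', hc', e'⟩ := h'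
    refine ⟨a * a' + b * b' * r, a * b' + a' * b, c * c', mul_ne_zero hc hc', ?_⟩
    simp only [map_add, map_mul]
    linear_combination (z' * aeval x c') * e + (aeval x a + aeval x b * y) * e' +
      aeval x b * aeval x b' * hy

theorem elrep_to (P : Place M ℂ) (hP : ∀ a : ℂ, P.To (algebraMap ℂ M a) a) {u : M} {s : ℂ}
    (h : P.To u s) (p : ℂ[X]) : P.To (aeval u p) (p.eval s) := by
  have h1 := Place.To.aeval (P := P) (fun a => hP a) h p
  rwa [coe_aeval_eq_eval] at h1

theorem elrep_claim (P : Place M ℂ) (hP : ∀ a : ℂ, P.To (algebraMap ℂ M a) a) {u w : M} (r : ℂ[X])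
    (hr : r.Separable) (hu : Transcendental ℂ u) (hw : w ^ 2 = aeval u r) {s t : ℂ}
    (hs : P.To u s) (ht : P.To w t) (k : ℕ) :
    ∀ (a b c : ℂ[X]) (z : M), c ≠ 0 → c.natDegree = k → z ∈ P.O →
      z * aeval u c = aeval u a + aeval u b * w →
      ∃ a' b' c' e' : ℂ[X], c'.eval s + e'.eval s * t ≠ 0 ∧
        z * (aeval u c' + aeval u e' * w) = aeval u a' + aeval u b' * w := by
  have hts : t ^ 2 = r.eval s := (ht.pow 2).uniq (hw ▸ elrep_to P hP hs r)
  have hus : aeval u (X - C s) ≠ 0 := elrep_ne hu (X_sub_C_ne_zero s)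
  induction k using Nat.strong_induction_on with
  | _ k ih =>
    intro a b c z hc hk hz e
    by_cases hcs : c.eval s ≠ 0
    · exact ⟨a, b, c, 0, by simpa using hcs, by simpa using e⟩
    rw [not_not] at hcs
    obtain ⟨c1, rfl⟩ := dvd_iff_isRoot.2 hcs
    have hc1 : c1 ≠ 0 := right_ne_zero_of_mul hc
    have hlt : c1.natDegree < k := by
      rw [natDegree_mul (X_sub_C_ne_zero s) hc1, natDegree_X_sub_C] at hk
      omega
    obtain ⟨v, hv⟩ := Place.to_of_mem hz
    have h0 : a.eval s + b.eval s * t = 0 := by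
      have h1 := hv.mul (elrep_to P hP hs ((X - C s) * c1))
      rw [e, hcs, mul_zero] at h1
      exact ((elrep_to P hP hs a).add ((elrep_to P hP hs b).mul ht)).uniq h1
    by_cases hbs : b.eval s = 0
    · have has : a.eval s = 0 := by simpa [hbs] using h0
      obtain ⟨a1, rfl⟩ := dvd_iff_isRoot.2 has
      obtain ⟨b1, rfl⟩ := dvd_iff_isRoot.2 hbs
      refine ih _ hlt a1 b1 c1 z hc1 rfl hz (mul_left_cancel₀ hus ?_)
      simp only [map_mul] at e
      linear_combination e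
    by_cases ht0 : t = 0
    · exfalso
      subst ht0
      have has : a.eval s = 0 := by simpa using h0
      have hrs : r.eval s = 0 := by simpa using hts.symm
      obtain ⟨a1, rfl⟩ := dvd_iff_isRoot.2 has
      obtain ⟨r1, rfl⟩ := dvd_iff_isRoot.2 hrs
      have hr1 : r1.eval s ≠ 0 := by
        intro h
        obtain ⟨r2, rfl⟩ := dvd_iff_isRoot.2 h
        exact not_isUnit_X_sub_C s (hr.squarefree _ ⟨r2, by ring⟩)
      have h2 : z * aeval u c1 * w = aeval u a1 * w + aeval u b * aeval u r1 := by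
        refine mul_left_cancel₀ hus ?_
        simp only [map_mul] at e hw
        linear_combination w * e + aeval u b * hw
      have h3 := (hv.mul (elrep_to P hP hs c1)).mul ht
      rw [h2, mul_zero] at h3
      have h4 := (((elrep_to P hP hs a1).mul ht).add
        ((elrep_to P hP hs b).mul (elrep_to P hP hs r1))).uniq h3
      rw [mul_zero, zero_add] at h4
      exact mul_ne_zero hbs hr1 h4
    · have hN : (a ^ 2 - b ^ 2 * r).eval s = 0 := by
        simp only [eval_sub, eval_mul, eval_pow]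
        linear_combination (a.eval s - b.eval s * t) * h0 + b.eval s ^ 2 * hts
      obtain ⟨N1, hN1⟩ := dvd_iff_isRoot.2 hN
      have h5 := congrArg (aeval u) hN1
      simp only [map_mul] at h5 e
      rw [map_sub, map_mul, map_pow, map_pow] at h5
      have hn0 := (elrep_to P hP hs a).sub ((elrep_to P hP hs b).mul ht)
      obtain ⟨a', b', c', e', hne, he⟩ := ih _ hlt N1 0 c1 (z * (aeval u a - aeval u b * w)) hc1 rfl
        (hv.mul hn0).mem (by
          refine mul_left_cancel₀ hus ?_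
          rw [map_zero]
          linear_combination (aeval u a - aeval u b * w) * e - aeval u b ^ 2 * hw + h5)
      refine ⟨a', b', a * c' - b * e' * r, a * e' - b * c', ?_, ?_⟩
      · have h6 : (a * c' - b * e' * r).eval s + (a * e' - b * c').eval s * t =
            (-2 * (b.eval s * t)) * (c'.eval s + e'.eval s * t) := by
          simp only [eval_sub, eval_mul]
          linear_combination (c'.eval s + e'.eval s * t) * h0 + b.eval s * e'.eval s * hts
        rw [h6]
        exact mul_ne_zero (mul_ne_zero (by norm_num) (mul_ne_zero hbs ht0)) hne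
      · simp only [map_sub, map_mul]
        linear_combination he + z * aeval u b * aeval u e' * hw

/-- A derivation that is regular on the coordinates preserves the local ring of a smooth point. -/
theorem pres (P : Place M ℂ) (hP : ∀ a : ℂ, P.To (algebraMap ℂ M a) a) {u w : M} (r : ℂ[X])
    (hr : r.Separable) (hodd : Odd r.natDegree) (hu : Transcendental ℂ u)
    (hw : w ^ 2 = aeval u r) (huO : u ∈ P.O) (δ : Derivation ℤ M M)
    (h0 : ∀ a : ℂ, δ (algebraMap ℂ M a) = 0) (h1 : δ u ∈ P.O) (h2 : δ w ∈ P.O) {z : M}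
    (hz : z ∈ IntermediateField.adjoin ℂ {u, w}) (hzO : z ∈ P.O) : δ z ∈ P.O := by
  obtain ⟨s, hs⟩ := Place.to_of_mem huO
  obtain ⟨t, ht, -⟩ := Place.To.of_pow (P := P) (x := w) two_ne_zero (hw ▸ elrep_to P hP hs r)
  obtain ⟨a, b, c, hc, e⟩ := rep r hodd hu hw hz
  obtain ⟨a', b', c', e', hne, he⟩ := elrep_claim P hP r hr hu hw hs ht _ a b c z hc rfl hzO e
  have hp : ∀ p : ℂ[X], aeval u p ∈ P.O := fun p => (elrep_to P hP hs p).mem
  have hd : ∀ p q : ℂ[X], δ (aeval u p + aeval u q * w) ∈ P.O := by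
    intro p q
    rw [map_add, Derivation.leibniz, der_aeval δ h0, der_aeval δ h0, smul_eq_mul, smul_eq_mul]
    exact P.O.add_mem (P.O.mul_mem (hp _) h1)
      (P.O.add_mem (P.O.mul_mem (hp _) h2) (P.O.mul_mem ht.mem (P.O.mul_mem (hp _) h1)))
  have hn := (elrep_to P hP hs c').add ((elrep_to P hP hs e').mul ht)
  have hn0 := hn.ne_zero hne
  have h3 := congrArg δ he
  rw [Derivation.leibniz, smul_eq_mul, smul_eq_mul] at h3
  have h4 : δ z = (δ (aeval u a' + aeval u b' * w) - z * δ (aeval u c' + aeval u e' * w)) *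
      (aeval u c' + aeval u e' * w)⁻¹ := by
    rw [eq_mul_inv_iff_mul_eq₀ hn0]
    linear_combination h3
  rw [h4]
  exact P.O.mul_mem (P.O.sub_mem (hd _ _) (P.O.mul_mem hzO (hd _ _))) (hn.inv hne).mem

end Pool.Agent.P.MP_3c83d0_ag
end

-- part Pool.Agent.P.MP_3c83d0_ag.ElConst
section

open Polynomial

namespace Pool.Agent.P.MP_3c83d0_ag

variable {M : Type} [Field M] [Algebra ℂ M]

theorem elconst_sep {k a b c : ℂ} (hk : k ≠ 0) (hab : a ≠ b) (hac : a ≠ c) (hbc : b ≠ c) :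
    (C k * ((X - C a) * (X - C b) * (X - C c))).Separable ∧
      Odd (C k * ((X - C a) * (X - C b) * (X - C c))).natDegree := by
  constructor
  · refine Separable.unit_mul (isUnit_C.2 hk.isUnit) ?_
    refine Separable.mul (Separable.mul separable_X_sub_C separable_X_sub_C ?_)
      separable_X_sub_C (IsCoprime.mul_left ?_ ?_)
    · exact isCoprime_X_sub_C_of_isUnit_sub (sub_ne_zero.2 hab).isUnit
    · exact isCoprime_X_sub_C_of_isUnit_sub (sub_ne_zero.2 hac).isUnit
    · exact isCoprime_X_sub_C_of_isUnit_sub (sub_ne_zero.2 hbc).isUnit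
  · rw [natDegree_C_mul hk, natDegree_mul (mul_ne_zero (X_sub_C_ne_zero a) (X_sub_C_ne_zero b))
      (X_sub_C_ne_zero c), natDegree_mul (X_sub_C_ne_zero a) (X_sub_C_ne_zero b),
      natDegree_X_sub_C, natDegree_X_sub_C, natDegree_X_sub_C]
    decide

theorem elconst_ne {x : M} (hx : Transcendental ℂ x) (a : ℂ) : x ≠ algebraMap ℂ M a := by
  rintro rfl
  exact hx (isAlgebraic_algebraMap a)

theorem elconst_ne0 {x : M} (hx : Transcendental ℂ x) : x ≠ 0 := by
  simpa using elconst_ne hx 0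

theorem elconst_y {l : ℂ} {x y : M} (hx : Transcendental ℂ x)
    (hy : y ^ 2 = x * (x - 1) * (x - algebraMap ℂ M l)) : y ≠ 0 := by
  rintro rfl
  have h1 : x - 1 ≠ 0 := sub_ne_zero.2 (by simpa using elconst_ne hx 1)
  have h2 : x - algebraMap ℂ M l ≠ 0 := sub_ne_zero.2 (elconst_ne hx l)
  exact mul_ne_zero (mul_ne_zero (elconst_ne0 hx) h1) h2 (by rw [← hy]; ring)

omit [Algebra ℂ M] in
theorem elconst_d1 {L x y : M} (δ : Derivation ℤ M M) (hL : δ L = 0)
    (hy : y ^ 2 = x * (x - 1) * (x - L)) :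
    2 * y * δ y = (3 * x ^ 2 - 2 * (1 + L) * x + L) * δ x := by
  have h := congrArg δ hy
  rw [pow_two] at h
  simp only [Derivation.leibniz, map_sub, hL, Derivation.map_one_eq_zero, smul_eq_mul] at h
  linear_combination h

omit [Algebra ℂ M] in
theorem elconst_d2 {L u w : M} (δ : Derivation ℤ M M) (hL : δ L = 0)
    (hy : w ^ 2 = u * (1 - u) * (1 - L * u)) :
    2 * w * δ w = (1 - 2 * (1 + L) * u + 3 * L * u ^ 2) * δ u := by
  have h := congrArg δ hy
  rw [pow_two] at h
  simp only [Derivation.leibniz, map_sub, hL, Derivation.map_one_eq_zero, smul_eq_mul] at h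
  linear_combination h

omit [Algebra ℂ M] in
theorem elconst_inv {L x y : M} (hx : x ≠ 0) (hy : y ^ 2 = x * (x - 1) * (x - L)) :
    (y * x⁻¹ ^ 2) ^ 2 = x⁻¹ * (1 - x⁻¹) * (1 - L * x⁻¹) := by
  rw [mul_pow, hy]
  field_simp

omit [Algebra ℂ M] in
theorem elconst_dinv (δ : Derivation ℤ M M) (x : M) : δ x⁻¹ = -(x⁻¹ ^ 2 * δ x) := by
  rw [Derivation.leibniz_inv, smul_eq_mul, neg_mul]

theorem elconst_half (P : Place M ℂ) (hP : ∀ a : ℂ, P.To (algebraMap ℂ M a) a) :
    (2 : M)⁻¹ ∈ P.O := by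
  have h := (hP 2⁻¹).mem
  rwa [map_inv₀, map_ofNat] at h

omit [Algebra ℂ M] in
theorem elconst_two (P : Place M ℂ) : P.To 2 2 := by
  have h := Place.to_natCast (P := P) 2
  simpa using h

omit [Algebra ℂ M] in
theorem elconst_three (P : Place M ℂ) : P.To 3 3 := by
  have h := Place.to_natCast (P := P) 3
  simpa using h

/-- The invariant derivation preserves every local ring of the function field. -/
theorem elconst_pres {l : ℂ} (l0 : l ≠ 0) (l1 : l ≠ 1) {x y : M}
    (hx : Transcendental ℂ x) (hy : y ^ 2 = x * (x - 1) * (x - algebraMap ℂ M l))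
    (δ : Derivation ℤ M M) (h0 : ∀ a : ℂ, δ (algebraMap ℂ M a) = 0) (hδ : δ x = y)
    (P : Place M ℂ) (hP : ∀ a : ℂ, P.To (algebraMap ℂ M a) a) {z : M}
    (hz : z ∈ IntermediateField.adjoin ℂ {x, y}) (hzO : z ∈ P.O) : δ z ∈ P.O := by
  have : CharZero M := charZero_of_injective_algebraMap (algebraMap ℂ M).injective
  have y0 := elconst_y hx hy
  have x0 := elconst_ne0 hx
  have hh := elconst_half P hP
  rcases P.to_or x with ⟨s, hs⟩ | ⟨-, hu⟩
  · obtain ⟨t, ht, -⟩ := Place.To.of_pow two_ne_zero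
      (((hs.mul (hs.sub Place.to_one)).mul (hs.sub (hP l))).congr hy.symm rfl)
    obtain ⟨e1, e2⟩ := elconst_sep (k := 1) (a := 0) (b := 1) (c := l) one_ne_zero zero_ne_one
      l0.symm l1.symm
    refine pres P hP _ e1 e2 hx ?_ hs.mem δ h0 (hδ ▸ ht.mem) ?_ hz hzO
    · rw [hy]; simp
    · have h := elconst_d1 δ (h0 l) hy
      rw [hδ] at h
      have h' : δ y = (3 * x ^ 2 - 2 * (1 + algebraMap ℂ M l) * x + algebraMap ℂ M l) * 2⁻¹ := by
        apply mul_left_cancel₀ y0
        have h2 : (2 : M) * 2⁻¹ = 1 := mul_inv_cancel₀ two_ne_zero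
        linear_combination (2⁻¹ : M) * h - y * δ y * h2
      rw [h']
      exact P.O.mul_mem (((((elconst_three P).mul (hs.pow 2)).sub
        (((elconst_two P).mul (Place.to_one.add (hP l))).mul hs)).add (hP l)).mem) hh
  · have hw := elconst_inv x0 hy
    have w0 : y * x⁻¹ ^ 2 ≠ 0 := mul_ne_zero y0 (pow_ne_zero _ (inv_ne_zero x0))
    obtain ⟨t, ht, -⟩ := Place.To.of_pow two_ne_zero
      (((hu.mul (Place.to_one.sub hu)).mul (Place.to_one.sub ((hP l).mul hu))).congr hw.symm rfl)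
    obtain ⟨e1, e2⟩ := elconst_sep (k := l) (a := 0) (b := 1) (c := l⁻¹) l0 zero_ne_one
      (inv_ne_zero l0).symm (fun h => l1 (inv_eq_one.1 h.symm))
    have hdu : δ x⁻¹ = -(y * x⁻¹ ^ 2) := by rw [elconst_dinv, hδ, mul_comm]
    have hL : algebraMap ℂ M l ≠ 0 := (_root_.map_ne_zero _).2 l0
    refine pres P hP _ e1 e2 (u := x⁻¹) (w := y * x⁻¹ ^ 2)
      (fun h => hx (IsAlgebraic.inv_iff.1 h)) ?_ hu.mem δ h0 (hdu ▸ ht.neg.mem) ?_ ?_ hzO
    · rw [hw]
      simp only [map_mul, map_sub, aeval_C, aeval_X, map_zero, map_one, map_inv₀]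
      field_simp
      ring
    · have h := elconst_d2 δ (h0 l) hw
      rw [hdu] at h
      have h' : δ (y * x⁻¹ ^ 2) = -(1 - 2 * (1 + algebraMap ℂ M l) * x⁻¹
          + 3 * algebraMap ℂ M l * x⁻¹ ^ 2) * 2⁻¹ := by
        apply mul_left_cancel₀ w0
        have h2 : (2 : M) * 2⁻¹ = 1 := mul_inv_cancel₀ two_ne_zero
        linear_combination (2⁻¹ : M) * h - (y * x⁻¹ ^ 2) * δ (y * x⁻¹ ^ 2) * h2
      rw [h']
      exact P.O.mul_mem (((Place.to_one.sub (((elconst_two P).mul
        (Place.to_one.add (hP l))).mul hu)).add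
        (((elconst_three P).mul (hP l)).mul (hu.pow 2))).neg.mem) hh
    · refine (IntermediateField.adjoin_le_iff.2 ?_ :
        IntermediateField.adjoin ℂ {x, y} ≤ IntermediateField.adjoin ℂ {x⁻¹, y * x⁻¹ ^ 2}) hz
      have hu' : x⁻¹ ∈ IntermediateField.adjoin ℂ {x⁻¹, y * x⁻¹ ^ 2} :=
        IntermediateField.subset_adjoin _ _ (by simp)
      have hw' : y * x⁻¹ ^ 2 ∈ IntermediateField.adjoin ℂ {x⁻¹, y * x⁻¹ ^ 2} :=
        IntermediateField.subset_adjoin _ _ (by simp)
      have hx' : x ∈ IntermediateField.adjoin ℂ {x⁻¹, y * x⁻¹ ^ 2} := by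
        have := inv_mem hu'
        rwa [inv_inv] at this
      rintro v (rfl | rfl)
      · exact hx'
      · have e : v = v * x⁻¹ ^ 2 * x ^ 2 := by field_simp
        have := mul_mem hw' (pow_mem hx' 2)
        rwa [← e] at this

/-- The pull-back of the invariant differential is a constant multiple of the invariant
differential. -/
theorem iso_const {l μ : ℂ} (l0 : l ≠ 0) (l1 : l ≠ 1) (m0 : μ ≠ 0) (m1 : μ ≠ 1) {x y ξ η : M}
    (hx : Transcendental ℂ x) (hy : y ^ 2 = x * (x - 1) * (x - algebraMap ℂ M l))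
    (hξ : Transcendental ℂ ξ) (hη : η ^ 2 = ξ * (ξ - 1) * (ξ - algebraMap ℂ M μ))
    (h1 : ξ ∈ IntermediateField.adjoin ℂ {x, y}) (h2 : η ∈ IntermediateField.adjoin ℂ {x, y})
    (δ : Derivation ℤ M M) (h0 : ∀ a : ℂ, δ (algebraMap ℂ M a) = 0) (hδ : δ x = y) :
    ∃ c : ℂ, δ ξ = algebraMap ℂ M c * η := by
  have η0 := elconst_y hξ hη
  have ξ0 := elconst_ne0 hξ
  by_contra hne
  have hc : ∀ a : ℂ, δ ξ * η⁻¹ ≠ algebraMap ℂ M a := fun a h =>
    hne ⟨a, by rw [← h, inv_mul_cancel_right₀ η0]⟩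
  obtain ⟨P, hP, hcO⟩ := exists_pole hc
  have hp : ∀ z ∈ IntermediateField.adjoin ℂ {x, y}, z ∈ P.O → δ z ∈ P.O := fun z hz hzO =>
    elconst_pres l0 l1 hx hy δ h0 hδ P hP hz hzO
  apply hcO
  rcases P.to_or ξ with ⟨s, hs⟩ | ⟨-, hu⟩
  · obtain ⟨t, ht, hts⟩ := Place.To.of_pow two_ne_zero
      (((hs.mul (hs.sub Place.to_one)).mul (hs.sub (hP μ))).congr hη.symm rfl)
    by_cases t0 : t = 0
    · have hq := (((elconst_three P).mul (hs.pow 2)).sub
        (((elconst_two P).mul (Place.to_one.add (hP μ))).mul hs)).add (hP μ)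
      have hq0 : 3 * s ^ 2 - 2 * (1 + μ) * s + μ ≠ 0 := by
        rw [t0, zero_pow two_ne_zero] at hts
        rcases mul_eq_zero.1 hts.symm with h | h
        · rcases mul_eq_zero.1 h with h | h
          · rw [h]; simpa using m0
          · rw [sub_eq_zero.1 h]
            intro h'
            exact m1 (by linear_combination -h')
        · rw [sub_eq_zero.1 h]
          intro h'
          exact mul_ne_zero m0 (sub_ne_zero.2 m1) (by linear_combination h')
      have hQ := hq.ne_zero hq0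
      have h := elconst_d1 δ (h0 μ) hη
      have e : δ ξ * η⁻¹ = 2 * δ η *
          (3 * ξ ^ 2 - 2 * (1 + algebraMap ℂ M μ) * ξ + algebraMap ℂ M μ)⁻¹ := by
        rw [← div_eq_mul_inv, ← div_eq_mul_inv, div_eq_div_iff η0 hQ]
        linear_combination -h
      rw [e]
      exact P.O.mul_mem (P.O.mul_mem (elconst_two P).mem (hp _ h2 ht.mem)) (hq.inv hq0).mem
    · exact P.O.mul_mem (hp _ h1 hs.mem) (ht.inv t0).mem
  · have hw := elconst_inv ξ0 hη
    obtain ⟨t, ht, -⟩ := Place.To.of_pow two_ne_zero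
      (((hu.mul (Place.to_one.sub hu)).mul (Place.to_one.sub ((hP μ).mul hu))).congr hw.symm rfl)
    have hq := (Place.to_one.sub (((elconst_two P).mul (Place.to_one.add (hP μ))).mul hu)).add
      (((elconst_three P).mul (hP μ)).mul (hu.pow 2))
    have hq0 : (1 : ℂ) - 2 * (1 + μ) * 0 + 3 * μ * 0 ^ 2 ≠ 0 := by simp
    have hQ := hq.ne_zero hq0
    have h := elconst_d2 δ (h0 μ) hw
    rw [elconst_dinv] at h
    have u0 : ξ⁻¹ ^ 2 ≠ 0 := pow_ne_zero _ (inv_ne_zero ξ0)
    have e : δ ξ * η⁻¹ = -(2 * δ (η * ξ⁻¹ ^ 2)) *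
        (1 - 2 * (1 + algebraMap ℂ M μ) * ξ⁻¹ + 3 * algebraMap ℂ M μ * ξ⁻¹ ^ 2)⁻¹ := by
      rw [← div_eq_mul_inv, ← div_eq_mul_inv, div_eq_div_iff η0 hQ]
      apply mul_left_cancel₀ u0
      linear_combination h
    rw [e]
    exact P.O.mul_mem (P.O.neg_mem (P.O.mul_mem (elconst_two P).mem
      (hp _ (mul_mem h2 (pow_mem (inv_mem h1) 2)) ht.mem))) (hq.inv hq0).mem

end Pool.Agent.P.MP_3c83d0_ag
end

-- part Pool.Agent.P.MP_3c83d0_ag.ElOde
section

open Polynomial

namespace Pool.Agent.P.MP_3c83d0_ag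

theorem elode_root (q ρ a b : ℂ[X]) (hq : q.Separable) (hb : b ≠ 0) (hab : IsCoprime a b)
    (h : 2 * q * (derivative a * b - a * derivative b) + derivative q * a * b = 2 * ρ * b ^ 2)
    (e : ℂ) : ¬ b.IsRoot e := by
  intro he
  have ha : a.eval e ≠ 0 := by
    intro h1
    obtain ⟨u, v, huv⟩ := hab
    have h2 := congrArg (eval e) huv
    simp [h1, he.eq_zero] at h2
  obtain ⟨b1, hb1, hnd⟩ := exists_eq_pow_rootMultiplicity_mul_and_not_dvd b hb e
  obtain ⟨n, hn⟩ := Nat.exists_eq_succ_of_ne_zero ((rootMultiplicity_pos hb).2 he).ne'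
  rw [hn] at hb1
  have hb1' : b1.eval e ≠ 0 := fun h1 => hnd (dvd_iff_isRoot.2 h1)
  have hu : (X - C e : ℂ[X]) ≠ 0 := X_sub_C_ne_zero e
  have hdb : derivative b =
      (X - C e) ^ n * ((n + 1 : ℂ[X]) * b1 + (X - C e) * derivative b1) := by
    rw [hb1, derivative_mul, derivative_pow_succ]
    simp only [derivative_sub, derivative_X, derivative_C, sub_zero, mul_one, map_add, map_natCast,
      map_one, Nat.succ_eq_add_one]
    ring
  have h1 : 2 * q * (derivative a * ((X - C e) * b1) -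
      a * ((n + 1 : ℂ[X]) * b1 + (X - C e) * derivative b1)) + derivative q * a * ((X - C e) * b1) =
      2 * ρ * ((X - C e) ^ (n + 2) * b1 ^ 2) := by
    refine mul_left_cancel₀ (pow_ne_zero n hu) ?_
    rw [hdb, hb1] at h
    simp only [Nat.succ_eq_add_one] at h
    linear_combination h
  have hn1 : (n + 1 : ℂ) ≠ 0 := Nat.cast_add_one_ne_zero n
  have hq0 : q.eval e = 0 := by
    have h2 := congrArg (eval e) h1
    simp at h2
    tauto
  obtain ⟨q1, rfl⟩ := dvd_iff_isRoot.2 hq0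
  have hq1 : q1.eval e ≠ 0 := by
    have h2 := hq.aeval_derivative_ne_zero (x := e) (by simp)
    simpa using h2
  have h2 : 2 * q1 * (derivative a * ((X - C e) * b1) -
      a * ((n + 1 : ℂ[X]) * b1 + (X - C e) * derivative b1)) +
      (q1 + (X - C e) * derivative q1) * a * b1 = 2 * ρ * ((X - C e) ^ (n + 1) * b1 ^ 2) := by
    refine mul_left_cancel₀ hu ?_
    simp only [derivative_mul, derivative_sub, derivative_X, derivative_C, sub_zero, one_mul] at h1
    linear_combination h1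
  have h3 := congrArg (eval e) h2
  simp only [eval_add, eval_mul, eval_sub, eval_X, eval_C, sub_self, zero_mul, mul_zero, eval_pow,
    eval_natCast, eval_one, eval_ofNat, add_zero, zero_sub, zero_pow (Nat.succ_ne_zero n)] at h3
  have h4 : (2 * (n : ℂ) + 1) ≠ 0 := by exact_mod_cast Nat.succ_ne_zero (2 * n)
  exact mul_ne_zero (mul_ne_zero (mul_ne_zero h4 hq1) ha) hb1' (by linear_combination -h3)

theorem ode_poly (q ρ a b : ℂ[X]) (hq : q.Separable) (h3 : q.natDegree = 3)
    (hρ : ρ.natDegree = 1) (hb : b ≠ 0) (hab : IsCoprime a b)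
    (h : 2 * q * (derivative a * b - a * derivative b) + derivative q * a * b = 2 * ρ * b ^ 2) :
    False := by
  have hd : b.degree = 0 := by
    by_contra h1
    obtain ⟨e, he⟩ := IsAlgClosed.exists_root b h1
    exact elode_root q ρ a b hq hb hab h e he
  obtain ⟨c, rfl⟩ : ∃ c, b = C c := ⟨_, eq_C_of_degree_eq_zero hd⟩
  have h1 : 2 * (q * derivative a) + derivative q * a = C (2 * c) * ρ := by
    refine mul_left_cancel₀ hb ?_
    rw [derivative_C] at h
    rw [map_mul, C_ofNat]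
    linear_combination h
  have hq3 : q.coeff 3 ≠ 0 := by
    rw [← h3]
    exact leadingCoeff_ne_zero.2 hq.ne_zero
  have hq' : (derivative q).natDegree ≤ 2 := (natDegree_derivative_le q).trans (by omega)
  have hr : ∀ k, (C (2 * c) * ρ).coeff (2 + k) = 0 := fun k => by
    rw [coeff_C_mul, coeff_eq_zero_of_natDegree_lt (by omega), mul_zero]
  have ha : a ≠ 0 := by
    rintro rfl
    have h2 : C (2 * c) ≠ 0 := C_ne_zero.2 (mul_ne_zero two_ne_zero (C_ne_zero.1 hb))
    have h4 : ρ = 0 := (mul_eq_zero.1 (h1.symm.trans (by simp))).resolve_left h2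
    simp [h4] at hρ
  have hl : a.coeff a.natDegree ≠ 0 := leadingCoeff_ne_zero.2 ha
  have h2 := congrArg (fun p => coeff p (2 + a.natDegree)) h1
  simp only [hr, coeff_add, coeff_mul_add_eq_of_natDegree_le hq' le_rfl, coeff_derivative,
    coeff_ofNat_mul] at h2
  rcases hn : a.natDegree with _ | m
  · rw [derivative_of_natDegree_zero hn] at h2
    rw [hn] at h2 hl
    exact mul_ne_zero (mul_ne_zero hq3 hl) (three_ne_zero (α := ℂ))
      (by simp at h2 ⊢; norm_num at h2; tauto)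
  · have h4 : (derivative a).natDegree ≤ m := (natDegree_derivative_le a).trans (by omega)
    rw [hn] at h2 hl
    rw [show 2 + (m + 1) = 3 + m by omega, coeff_mul_add_eq_of_natDegree_le h3.le h4,
      coeff_derivative] at h2
    have h5 : (2 * (m : ℂ) + 5) ≠ 0 := by exact_mod_cast Nat.succ_ne_zero (2 * m + 4)
    refine mul_ne_zero (mul_ne_zero hq3 hl) h5 ?_
    norm_num at h2
    linear_combination h2

theorem elode_coeffs {M : Type} [Field M] [Algebra ℂ M] (d : Derivation ℤ M M)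
    (K : IntermediateField ℂ M) (hK : ∀ z ∈ K, d z ∈ K) (B : M) (p : K[X]) :
    ∃ pd : K[X], (∀ i, (pd.coeff i : M) = d (p.coeff i)) ∧
      d (aeval B p) = aeval B pd + aeval B (derivative p) * d B := by
  induction p using Polynomial.induction_on' with
  | add p r hp hr =>
    obtain ⟨pd, h1, h2⟩ := hp
    obtain ⟨rd, h3, h4⟩ := hr
    refine ⟨pd + rd, fun i => by simp [h1, h3], ?_⟩
    simp only [map_add, h2, h4]
    ring
  | monomial n c =>
    refine ⟨monomial n ⟨d c, hK _ c.2⟩, fun i => ?_, ?_⟩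
    · simp only [coeff_monomial]
      split_ifs <;> simp
    · simp only [aeval_monomial, derivative_monomial, Derivation.leibniz, Derivation.leibniz_pow,
        smul_eq_mul, nsmul_eq_mul, map_mul, map_natCast, IntermediateField.algebraMap_apply]
      ring

theorem ode_alg {M : Type} [Field M] [Algebra ℂ M] (d : Derivation ℤ M M)
    (h0 : ∀ a : ℂ, d (algebraMap ℂ M a) = 0) {ξ B : M} (h1 : d ξ = 1) (hξ : Transcendental ℂ ξ)
    (hB : IsAlgebraic (IntermediateField.adjoin ℂ {ξ}) B) (q ρ : ℂ[X]) (hq : q.Separable)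
    (h3 : q.natDegree = 3) (hρ : ρ.natDegree = 1)
    (h : 2 * aeval ξ q * d B + aeval ξ (derivative q) * B = 2 * aeval ξ ρ) : False := by
  have hK : ∀ z ∈ IntermediateField.adjoin ℂ {ξ}, d z ∈ IntermediateField.adjoin ℂ {ξ} := by
    intro z hz
    induction hz using IntermediateField.adjoin_induction with
    | mem x hx => rw [Set.mem_singleton_iff.1 hx, h1]; exact one_mem _
    | algebraMap x => rw [h0]; exact zero_mem _
    | add x y _ _ hx hy => rw [map_add]; exact add_mem hx hy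
    | inv x hx hx' =>
      rw [Derivation.leibniz_inv, smul_eq_mul]
      exact mul_mem (neg_mem (pow_mem (inv_mem hx) _)) hx'
    | mul x y hx hy hx' hy' =>
      rw [Derivation.leibniz, smul_eq_mul, smul_eq_mul]
      exact add_mem (mul_mem hx hy') (mul_mem hy hx')
  have hp : ∀ p : ℂ[X], aeval ξ p ∈ IntermediateField.adjoin ℂ {ξ} := fun p =>
    (IntermediateField.mem_adjoin_simple_iff ℂ _).2 ⟨p, 1, by simp⟩
  have hrep := fun z (hz : z ∈ IntermediateField.adjoin ℂ {ξ}) =>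
    (IntermediateField.mem_adjoin_simple_iff ℂ z).1 hz
  generalize IntermediateField.adjoin ℂ {ξ} = K at hB hK hp hrep
  have hI := hB.isIntegral
  obtain ⟨pd, h4, h5⟩ := elode_coeffs d K hK B (minpoly K B)
  obtain ⟨s, hs⟩ := Nat.exists_eq_succ_of_ne_zero (minpoly.natDegree_pos hI).ne'
  have hm : (minpoly K B).coeff (s + 1) = 1 := by
    have h6 := (minpoly.monic hI).coeff_natDegree
    rwa [hs] at h6
  have hz : ∀ i, s + 1 < i → (minpoly K B).coeff i = 0 := fun i hi =>
    coeff_eq_zero_of_natDegree_lt (by omega)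
  have hmB := minpoly.aeval K B
  have hle := fun (p : K[X]) => minpoly.degree_le_of_ne_zero K B (p := p)
  rw [degree_eq_natDegree (minpoly.ne_zero hI), hs] at hle
  generalize minpoly K B = m at h4 h5 hm hz hmB
  let Q : K := ⟨_, hp q⟩
  let Q' : K := ⟨_, hp (derivative q)⟩
  let R : K := ⟨_, hp ρ⟩
  let N : K[X] := C (Q + Q) * pd + C (R + R) * derivative m - C Q' * (derivative m * X) +
    C ((s + 1) * Q') * m
  have hN : ∀ i, (N.coeff (i + 1) : M) = 2 * aeval ξ q * d (m.coeff (i + 1)) +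
      2 * aeval ξ ρ * (m.coeff (i + 2) * (i + 2)) +
      (s - i) * aeval ξ (derivative q) * m.coeff (i + 1) := fun i => by
    simp only [N, coeff_add, coeff_sub, coeff_C_mul, coeff_mul_X, coeff_derivative]
    push_cast
    rw [h4]
    simp only [Q, Q', R]
    ring
  have hN0 : (N.coeff 0 : M) = 2 * aeval ξ q * d (m.coeff 0) + 2 * aeval ξ ρ * m.coeff 1 +
      (s + 1) * aeval ξ (derivative q) * m.coeff 0 := by
    simp only [N, coeff_add, coeff_sub, coeff_C_mul, coeff_mul_X_zero, coeff_derivative]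
    push_cast
    rw [h4]
    simp only [Q, Q', R]
    ring
  have hNz : N = 0 := by
    by_contra h6
    refine absurd (hle N h6 ?_) (not_le.2 ((degree_lt_iff_coeff_zero _ _).2 fun i hi => ?_))
    · rw [hmB, map_zero] at h5
      simp only [N, map_add, map_sub, map_mul, aeval_C, aeval_X, hmB,
        IntermediateField.algebraMap_apply, Q, Q', R]
      linear_combination (-2 * aeval ξ q) * h5 - aeval B (derivative m) * h
    · obtain ⟨j, rfl⟩ := Nat.exists_eq_succ_of_ne_zero (n := i) (by omega)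
      refine Subtype.ext ((hN j).trans ?_)
      rw [hz (j + 2) (by omega)]
      rcases Nat.eq_or_lt_of_le hi with h7 | h7
      · obtain rfl : s = j := by omega
        simp [hm]
      · simp [hz (j + 1) h7]
  have hc : 2 * aeval ξ q * d (m.coeff s) + aeval ξ (derivative q) * m.coeff s =
      2 * aeval ξ (C (-((s : ℂ) + 1)) * ρ) := by
    simp only [map_mul, map_neg, map_add, map_natCast, map_one]
    rcases s with _ | s
    · rw [hNz] at hN0
      simp only [zero_add] at hm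
      simp only [hm, coeff_zero, ZeroMemClass.coe_zero, OneMemClass.coe_one] at hN0
      push_cast at hN0 ⊢
      linear_combination -hN0
    · have h6 := hN s
      rw [hNz] at h6
      simp only [hm, coeff_zero, ZeroMemClass.coe_zero, OneMemClass.coe_one] at h6
      push_cast at h6 ⊢
      linear_combination -h6
  obtain ⟨a, b, hab, hb, he⟩ : ∃ a b : ℂ[X], IsCoprime a b ∧ b ≠ 0 ∧
      (m.coeff s : M) * aeval ξ b = aeval ξ a := by
    obtain ⟨a, b, h6⟩ := hrep _ (m.coeff s).2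
    by_cases h7 : aeval ξ b = 0
    · exact ⟨0, 1, isCoprime_one_right, one_ne_zero, by simp [h6, h7]⟩
    obtain ⟨a', b', c', h8, rfl, rfl⟩ := UniqueFactorizationMonoid.exists_reduced_factors' a b
      (fun h8 => h7 (by simp [h8]))
    rw [map_mul] at h7
    refine ⟨a', b', h8.isCoprime, fun h9 => h7 (by simp [h9]), ?_⟩
    rw [h6, map_mul, map_mul]
    field_simp [left_ne_zero_of_mul h7, right_ne_zero_of_mul h7]
  have h6 := congrArg d he
  rw [Derivation.leibniz, der_aeval d h0, der_aeval d h0, h1, smul_eq_mul, smul_eq_mul] at h6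
  refine ode_poly q (C (-((s : ℂ) + 1)) * ρ) a b hq h3
    (by rw [natDegree_C_mul (neg_ne_zero.2 (Nat.cast_add_one_ne_zero s)), hρ]) hb hab
    (sub_eq_zero.1 (transcendental_iff.1 hξ _ ?_))
  generalize C (-((s : ℂ) + 1)) * ρ = ρ' at hc ⊢
  simp only [map_sub, map_add, map_mul, map_pow, map_ofNat]
  linear_combination (aeval ξ b) ^ 2 * hc - 2 * aeval ξ q * aeval ξ b * h6 +
    (2 * aeval ξ q * aeval ξ (derivative b) - aeval ξ (derivative q) * aeval ξ b) * he

end Pool.Agent.P.MP_3c83d0_ag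
end

-- part Pool.Agent.P.MP_3c83d0_ag.ElIso
section

open Polynomial

namespace Pool.Agent.P.MP_3c83d0_ag

theorem eliso_ne {M : Type} [Field M] [Algebra ℂ M] {x : M} (hx : Transcendental ℂ x) (a : ℂ) :
    x - algebraMap ℂ M a ≠ 0 := fun h => hx (sub_eq_zero.1 h ▸ isAlgebraic_algebraMap a)

theorem eliso_root {M : Type} [Field M] [Algebra ℂ M] {x y : M} (hx : Transcendental ℂ x) {l : ℂ}
    (hy : y ^ 2 = x * (x - 1) * (x - algebraMap ℂ M l)) : y ≠ 0 := by
  rintro rfl
  refine mul_ne_zero (mul_ne_zero ?_ ?_) (eliso_ne hx l) (hy.symm.trans (by simp))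
  · simpa using eliso_ne hx 0
  · simpa using eliso_ne hx 1

theorem eliso_der {M : Type} [Field M] (D : Derivation ℤ M M) {x y l : M}
    (hy : y ^ 2 = x * (x - 1) * (x - l)) :
    2 * y * D y = (3 * x ^ 2 - 2 * (1 + l) * x + l) * D x - x * (x - 1) * D l := by
  have h := congrArg D hy
  simp only [pow_two, Derivation.leibniz, map_sub, D.map_one_eq_zero, smul_eq_mul] at h
  linear_combination h

theorem eliso_sep {μ : ℂ} (m0 : μ ≠ 0) (m1 : μ ≠ 1) :
    (X * (X - C 1) * (X - C μ) : ℂ[X]).Separable := by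
  have h : ∀ a b : ℂ, a ≠ b → IsCoprime (X - C a : ℂ[X]) (X - C b) := fun a b hab =>
    isCoprime_X_sub_C_of_isUnit_sub (sub_ne_zero.2 hab).isUnit
  refine (separable_X.mul separable_X_sub_C ?_).mul separable_X_sub_C
    (IsCoprime.mul_left ?_ (h 1 μ m1.symm))
  · simpa using h 0 1 zero_ne_one
  · simpa using h 0 μ m0.symm

/-- A Legendre curve with algebraic parameter does not dominate a Legendre curve with
transcendental parameter. -/
theorem iso {M : Type} [Field M] [Algebra ℂ M] {l μ : ℂ} (hl : IsAlgebraic ℚ l) (l0 : l ≠ 0)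
    (l1 : l ≠ 1) (hμ : Transcendental ℚ μ) {x y ξ η : M}
    (hx : Transcendental ℂ x) (hy : y ^ 2 = x * (x - 1) * (x - algebraMap ℂ M l))
    (hξ : Transcendental ℂ ξ) (hη : η ^ 2 = ξ * (ξ - 1) * (ξ - algebraMap ℂ M μ))
    (h1 : ξ ∈ IntermediateField.adjoin ℂ {x, y}) (h2 : η ∈ IntermediateField.adjoin ℂ {x, y})
    (halg : ∀ w : M, IsAlgebraic (IntermediateField.adjoin ℂ {ξ}) w) : False := by
  have : CharZero M := charZero_of_injective_algebraMap (algebraMap ℂ M).injective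
  have m0 : μ ≠ 0 := fun h => hμ (h ▸ isAlgebraic_zero)
  have m1 : μ ≠ 1 := fun h => hμ (h ▸ isAlgebraic_one)
  obtain ⟨D, hD⟩ := exists_derivation (fun _ : Unit => μ)
    (algebraicIndependent_unique_type_iff.2 hμ) fun _ => 1
  have hD : D μ = 1 := hD ()
  obtain ⟨δ, d0, dx⟩ := der_ext 0 hx y
  obtain ⟨E, e0, ex⟩ := der_ext D hx 0
  replace d0 : ∀ a : ℂ, δ (algebraMap ℂ M a) = 0 := fun a => by simpa using d0 a
  have el : E (algebraMap ℂ M l) = 0 := by rw [e0, der_algebraic D hl, map_zero]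
  have em : E (algebraMap ℂ M μ) = 1 := by rw [e0, hD, map_one]
  have y0 := eliso_root hx hy
  have η0 := eliso_root hξ hη
  have ey : E y = 0 := by
    have h := eliso_der E hy
    rw [ex, el] at h
    simpa [y0] using h
  have dy : δ y + δ y = x * x + x * x + x * x - (1 + algebraMap ℂ M l) * (x + x) +
      algebraMap ℂ M l := by
    have h := eliso_der δ hy
    rw [dx, d0] at h
    exact mul_right_cancel₀ y0 (by linear_combination h)
  have edy : E (δ y) = 0 := by
    have h := congrArg E dy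
    simp only [Derivation.leibniz, map_sub, map_add, E.map_one_eq_zero, smul_eq_mul, ex, el] at h
    exact add_self_eq_zero.1 (by simpa using h)
  have hc := der_adjoin ⁅E, δ⁆ (fun a => by rw [Derivation.commutator_apply, d0, e0, d0]; simp)
    {x, y} (by
      rintro z (rfl | rfl)
      · rw [Derivation.commutator_apply, dx, ex, ey]; simp
      · rw [Derivation.commutator_apply, edy, ey]; simp) ξ h1
  obtain ⟨c, hδ⟩ := iso_const l0 l1 m0 m1 hx hy hξ hη h1 h2 δ d0 dx
  have c0 : c ≠ 0 := by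
    rintro rfl
    refine y0 (dx ▸ der_alg δ _ (der_adjoin δ d0 {ξ} ?_) (halg x))
    rintro z rfl
    simpa using hδ
  have c1 : algebraMap ℂ M c ≠ 0 := by simpa using c0
  rw [Derivation.commutator_apply, hδ, Derivation.leibniz, e0, smul_eq_mul, smul_eq_mul] at hc
  have h3 := eliso_der E hη
  have h4 := eliso_der δ hη
  rw [em] at h3
  rw [d0, hδ] at h4
  obtain ⟨B, hB⟩ : ∃ B : M, η * η * B =
      algebraMap ℂ M μ * (algebraMap ℂ M μ - 1) * E ξ - ξ * (ξ - 1) :=
    ⟨_, mul_div_cancel₀ _ (mul_ne_zero η0 η0)⟩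
  have h5 := congrArg δ hB
  simp only [Derivation.leibniz, map_sub, δ.map_one_eq_zero, smul_eq_mul, d0, hδ] at h5
  refine ode_alg ((algebraMap ℂ M c * η)⁻¹ • δ) (fun a => by simp [d0])
    (by rw [Derivation.smul_apply, hδ, smul_eq_mul, inv_mul_cancel₀ (mul_ne_zero c1 η0)]) hξ
    (halg B) _ (C (-1 / 2) * X + C (μ * (μ - 1) * D c / c + μ / 2)) (eliso_sep m0 m1) ?_
    (natDegree_linear (by norm_num)) ?_
  · compute_degree!
  · simp only [derivative_mul, derivative_X, derivative_C, map_add, map_mul,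
      map_sub, map_one, aeval_X, aeval_C, map_div₀, map_neg, map_ofNat, derivative_one, sub_zero,
      Derivation.smul_apply, smul_eq_mul]
    rw [← hη]
    generalize algebraMap ℂ M μ = m at *
    generalize algebraMap ℂ M c = k at *
    generalize algebraMap ℂ M (D c) = k' at *
    field_simp
    refine mul_left_cancel₀ (mul_ne_zero η0 η0) ?_
    linear_combination (2 * η) * h5 - (2 * η * B) * h4 - (2 * η * m * (m - 1)) * hc +
      (k * m * (m - 1)) * h3 - (k * (3 * ξ ^ 2 - 2 * (1 + m) * ξ + m)) * hB -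
      (k * (3 * ξ + m - 2)) * hη

end Pool.Agent.P.MP_3c83d0_ag
end

-- part Pool.Agent.P.MP_3c83d0_ag.ElLin
section

open Polynomial

namespace Pool.Agent.P.MP_3c83d0_ag

variable {L M : Type} [Field L] [Field M] [Algebra ℂ L] [Algebra ℂ M]

/-- A constant times a power of `s` times an element with a nonzero constant value. -/
def ellinForm (Q : Place L M) (s g : L) : Prop :=
  ∃ (k : ℂ) (n : ℤ) (u : L) (b : ℂ), k ≠ 0 ∧ b ≠ 0 ∧ Q.To u (algebraMap ℂ M b) ∧
    g = algebraMap ℂ L k * s ^ n * u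

theorem ellin_const {Q : Place L M} {s : L} {k : ℂ} (hk : k ≠ 0) :
    ellinForm Q s (algebraMap ℂ L k) :=
  ⟨k, 0, 1, 1, hk, one_ne_zero, by rw [map_one]; exact Place.to_one, by simp⟩

theorem ellin_mul {Q : Place L M} {s g g' : L} (hs : s ≠ 0) (h : ellinForm Q s g)
    (h' : ellinForm Q s g') : ellinForm Q s (g * g') := by
  obtain ⟨k, n, u, b, hk, hb, hu, rfl⟩ := h
  obtain ⟨k', n', u', b', hk', hb', hu', rfl⟩ := h'
  refine ⟨k * k', n + n', u * u', b * b', mul_ne_zero hk hk', mul_ne_zero hb hb', ?_, ?_⟩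
  · rw [map_mul]; exact hu.mul hu'
  · rw [map_mul, zpow_add₀ hs]; ring

theorem ellin_inv {Q : Place L M} {s g : L} (h : ellinForm Q s g) : ellinForm Q s g⁻¹ := by
  obtain ⟨k, n, u, b, hk, hb, hu, rfl⟩ := h
  refine ⟨k⁻¹, -n, u⁻¹, b⁻¹, inv_ne_zero hk, inv_ne_zero hb, ?_, ?_⟩
  · rw [map_inv₀]; exact hu.inv ((_root_.map_ne_zero _).2 hb)
  · rw [map_inv₀, zpow_neg, mul_inv, mul_inv]

theorem ellin_poly {Q : Place L M} {s x : L} (hs : s ≠ 0)
    (h : ∀ α : ℂ, ellinForm Q s (x - algebraMap ℂ L α)) (p : ℂ[X]) (hp : p ≠ 0) :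
    ellinForm Q s (aeval x p) := by
  induction hn : p.natDegree using Nat.strong_induction_on generalizing p with
  | _ n ih =>
    by_cases h0 : p.degree = 0
    · rw [eq_C_of_degree_eq_zero h0] at hp ⊢
      rw [aeval_C]
      exact ellin_const fun h => hp (by rw [h, map_zero])
    · obtain ⟨α, hα⟩ := IsAlgClosed.exists_root p h0
      obtain ⟨q, hq⟩ := dvd_iff_isRoot.2 hα
      have hq0 : q ≠ 0 := by
        rintro rfl
        exact hp (by rw [hq, mul_zero])
      have hd : p.natDegree = q.natDegree + 1 := by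
        rw [hq, natDegree_mul (X_sub_C_ne_zero α) hq0, natDegree_X_sub_C, add_comm]
      rw [hq, map_mul, map_sub, aeval_X, aeval_C]
      exact ellin_mul hs (h α) (ih q.natDegree (by omega) q hq0 rfl)

theorem ellin_val {Q : Place L M} {s g : L} {v : M}
    (hS : ∀ (k : ℂ) (n : ℤ) (w : M), k ≠ 0 → Q.To (algebraMap ℂ L k * s ^ n) w →
      ∃ b, w = algebraMap ℂ M b)
    (h : ellinForm Q s g) (hv : Q.To g v) : ∃ b, v = algebraMap ℂ M b := by
  obtain ⟨k, n, u, b, hk, hb, hu, rfl⟩ := h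
  have hb' : algebraMap ℂ M b ≠ 0 := (_root_.map_ne_zero _).2 hb
  have h1 := hv.div hu hb'
  rw [mul_div_cancel_right₀ _ (hu.ne_zero hb')] at h1
  obtain ⟨c, hc⟩ := hS k n _ hk h1
  refine ⟨c * b, ?_⟩
  rw [map_mul, ← hc, div_mul_cancel₀ _ hb']

omit [Algebra ℂ M] in
theorem ellin_pos {Q : Place L M} {s : L} (hs : s ≠ 0)
    (hd : ∀ β : ℂ, β ≠ 0 → Q.To (s / algebraMap ℂ L β) 0 ∨ Q.To (s / algebraMap ℂ L β)⁻¹ 0)
    {k : ℂ} (hk : k ≠ 0) {n : ℕ} (hn : n ≠ 0) {w : M}
    (hw : Q.To (algebraMap ℂ L k * s ^ n) w) : w = 0 := by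
  by_contra hw0
  obtain ⟨β, hβ⟩ := IsAlgClosed.exists_pow_nat_eq k⁻¹ (Nat.pos_of_ne_zero hn)
  have hβ0 : β ≠ 0 := by
    rintro rfl
    rw [zero_pow hn] at hβ
    exact inv_ne_zero hk hβ.symm
  have e : algebraMap ℂ L k * s ^ n = (s / algebraMap ℂ L β) ^ n := by
    rw [div_pow, ← map_pow, hβ, map_inv₀, div_inv_eq_mul, mul_comm]
  rw [e] at hw
  obtain ⟨t, ht, htn⟩ := Place.To.of_pow hn hw
  rcases hd β hβ0 with h | h
  · rw [ht.uniq h, zero_pow hn] at htn
    exact hw0 htn.symm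
  · exact Place.not_to_of_inv h (div_ne_zero hs ((_root_.map_ne_zero _).2 hβ0)) _ ht

theorem ellin_S {P : Place ℂ ℂ} {Q : Place L M} (h : P.Over Q) {s : L} (hs : s ≠ 0)
    (hd : ∀ β : ℂ, β ≠ 0 → Q.To (s / algebraMap ℂ L β) 0 ∨ Q.To (s / algebraMap ℂ L β)⁻¹ 0)
    (k : ℂ) (n : ℤ) (w : M) (hk : k ≠ 0) (hw : Q.To (algebraMap ℂ L k * s ^ n) w) :
    ∃ b, w = algebraMap ℂ M b := by
  by_cases hw0 : w = 0
  · exact ⟨0, by rw [hw0, map_zero]⟩
  obtain ⟨m, rfl | rfl⟩ := n.eq_nat_or_neg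
  · rw [zpow_natCast] at hw
    by_cases hm : m = 0
    · rw [hm, pow_zero, mul_one] at hw
      obtain ⟨b, -, hb⟩ := h.range hw
      exact ⟨b, hb⟩
    · exact absurd (ellin_pos hs hd hk hm hw) hw0
  · by_cases hm : m = 0
    · rw [hm, Nat.cast_zero, neg_zero, zpow_zero, mul_one] at hw
      obtain ⟨b, -, hb⟩ := h.range hw
      exact ⟨b, hb⟩
    · have h1 := hw.inv hw0
      rw [mul_inv, ← map_inv₀, zpow_neg, inv_inv, zpow_natCast] at h1
      exact absurd (ellin_pos hs hd (inv_ne_zero hk) hm h1) (inv_ne_zero hw0)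

theorem ellin_A {P : Place ℂ ℂ} {Q : Place L M} (h : P.Over Q) {x : L}
    (hx : Transcendental ℂ x)
    (H : ∀ (α β : ℂ) (τ : M), β ≠ 0 → Q.To ((x - algebraMap ℂ L α) / algebraMap ℂ L β) τ →
      ∃ b, τ = algebraMap ℂ M b)
    (a c : ℂ[X]) (hc : c ≠ 0) {v : M} (hv : Q.To (aeval x a / aeval x c) v) :
    ∃ b, v = algebraMap ℂ M b := by
  by_cases ha : a = 0
  · rw [ha, map_zero, zero_div] at hv
    exact ⟨0, by rw [map_zero]; exact hv.uniq Place.to_zero⟩
  have main : ∀ s : L, s ≠ 0 →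
      (∀ (k : ℂ) (n : ℤ) (w : M), k ≠ 0 → Q.To (algebraMap ℂ L k * s ^ n) w →
        ∃ b, w = algebraMap ℂ M b) →
      (∀ α : ℂ, ellinForm Q s (x - algebraMap ℂ L α)) → ∃ b, v = algebraMap ℂ M b := by
    intro s hs hS hF
    refine ellin_val hS ?_ hv
    rw [div_eq_mul_inv]
    exact ellin_mul hs (ellin_poly hs hF a ha) (ellin_inv (ellin_poly hs hF c hc))
  by_cases h1 : ∀ α : ℂ, ellinForm Q 1 (x - algebraMap ℂ L α)
  · refine main 1 one_ne_zero (fun k n w _ hw => ?_) h1
    rw [one_zpow, mul_one] at hw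
    obtain ⟨b, -, hb⟩ := h.range hw
    exact ⟨b, hb⟩
  · obtain ⟨α0, hα0⟩ := not_forall.1 h1
    have hs : x - algebraMap ℂ L α0 ≠ 0 := fun e =>
      hx (sub_eq_zero.1 e ▸ isAlgebraic_algebraMap α0)
    have hd : ∀ β : ℂ, β ≠ 0 → Q.To ((x - algebraMap ℂ L α0) / algebraMap ℂ L β) 0 ∨
        Q.To ((x - algebraMap ℂ L α0) / algebraMap ℂ L β)⁻¹ 0 := by
      intro β hβ
      rcases Q.to_or ((x - algebraMap ℂ L α0) / algebraMap ℂ L β) with ⟨τ, hτ⟩ | ⟨-, h0⟩
      · left
        obtain ⟨b, rfl⟩ := H α0 β τ hβ hτ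
        by_cases hb : b = 0
        · rwa [hb, map_zero] at hτ
        · refine absurd ⟨β, 0, _, b, hβ, hb, hτ, ?_⟩ hα0
          rw [zpow_zero, mul_one, mul_div_cancel₀ _ ((_root_.map_ne_zero _).2 hβ)]
      · exact Or.inr h0
    refine main _ hs (ellin_S h hs hd) fun α => ?_
    by_cases hβ : α - α0 = 0
    · refine ⟨1, 1, 1, 1, one_ne_zero, one_ne_zero, by rw [map_one]; exact Place.to_one, ?_⟩
      rw [sub_eq_zero.1 hβ]
      simp
    · have hβ' : algebraMap ℂ L (α - α0) ≠ 0 := (_root_.map_ne_zero _).2 hβ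
      rcases hd _ hβ with h0 | h0
      · refine ⟨-(α - α0), 0, _, 1, neg_ne_zero.2 hβ, one_ne_zero,
          (Place.to_one.sub h0).congr rfl (by simp), ?_⟩
        rw [zpow_zero, mul_one, map_neg, mul_sub, mul_one, neg_mul, mul_div_cancel₀ _ hβ', map_sub]
        ring
      · refine ⟨1, 1, _, 1, one_ne_zero, one_ne_zero,
          (Place.to_one.sub h0).congr rfl (by simp), ?_⟩
        rw [zpow_one, map_one, one_mul, mul_sub, mul_one, inv_div, mul_div_cancel₀ _ hs, map_sub]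
        ring

/-- A place with a transcendental value is a Gauss place for a linear coordinate. -/
theorem gi_lin {P : Place ℂ ℂ} {Q : Place L M} (h : P.Over Q) {x y : L} (r : ℂ[X])
    (hx : Transcendental ℂ x) (hy : y ^ 2 = aeval x r)
    (hrep : ∀ z : L, ∃ a b c : ℂ[X], c ≠ 0 ∧ z * aeval x c = aeval x a + aeval x b * y)
    {z : L} {ξ : M} (hz : Q.To z ξ) (hξ : Transcendental ℂ ξ) :
    ∃ (α β : ℂ) (τ : M), β ≠ 0 ∧ Q.To ((x - algebraMap ℂ L α) / algebraMap ℂ L β) τ ∧
      Transcendental ℂ τ := by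
  by_contra hcon
  have H : ∀ (α β : ℂ) (τ : M), β ≠ 0 →
      Q.To ((x - algebraMap ℂ L α) / algebraMap ℂ L β) τ → ∃ b, τ = algebraMap ℂ M b := by
    intro α β τ hβ hτ
    have h1 : IsAlgebraic ℂ τ := by
      by_contra h2
      exact hcon ⟨α, β, τ, hβ, hτ, h2⟩
    obtain ⟨b, hb⟩ := minpoly.mem_range_of_degree_eq_one ℂ τ
      (IsAlgClosed.degree_eq_one_of_irreducible ℂ (minpoly.irreducible h1.isIntegral))
    exact ⟨b, hb.symm⟩
  obtain ⟨a, b, c, hc, he⟩ := hrep z
  have hne : ∀ p : ℂ[X], p ≠ 0 → aeval x p ≠ 0 := fun p hp e => hx ⟨p, hp, e⟩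
  let p : Fin 3 → ℂ[X] := ![a ^ 2 - b ^ 2 * r, -(2 * a * c), c ^ 2]
  have hq : aeval x (p 2) * z ^ 2 + aeval x (p 1) * z + aeval x (p 0) = 0 := by
    simp only [p, Matrix.cons_val, map_sub, map_mul, map_pow, map_neg, map_ofNat]
    rw [← hy]
    linear_combination (z * aeval x c - aeval x a + aeval x b * y) * he
  obtain ⟨i, -, hi0, hi⟩ := Q.exists_max Finset.univ (fun j => aeval x (p j))
    ⟨2, Finset.mem_univ _, hne _ (pow_ne_zero 2 hc)⟩
  have hpi : p i ≠ 0 := fun e => hi0 (by rw [e, map_zero])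
  have hval : ∀ j, ∃ b : ℂ, Q.To (aeval x (p j) / aeval x (p i)) (algebraMap ℂ M b) := by
    intro j
    obtain ⟨v, hv⟩ := Place.to_of_mem (hi j (Finset.mem_univ _))
    obtain ⟨b, rfl⟩ := ellin_A h hx H _ _ hpi hv
    exact ⟨b, hv⟩
  choose e hee using hval
  have hei : e i = 1 := by
    have h1 := hee i
    rw [div_self hi0] at h1
    have h2 := h1.uniq Place.to_one
    rw [← map_one (algebraMap ℂ M)] at h2
    exact (algebraMap ℂ M).injective h2
  have h1 := (((hee 2).mul (hz.pow 2)).add ((hee 1).mul hz)).add (hee 0)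
  have h2 : aeval x (p 2) / aeval x (p i) * z ^ 2 + aeval x (p 1) / aeval x (p i) * z +
      aeval x (p 0) / aeval x (p i) = 0 := by
    have : aeval x (p 2) / aeval x (p i) * z ^ 2 + aeval x (p 1) / aeval x (p i) * z +
      aeval x (p 0) / aeval x (p i) =
        (aeval x (p 2) * z ^ 2 + aeval x (p 1) * z + aeval x (p 0)) / aeval x (p i) := by ring
    rw [this, hq, zero_div]
  rw [h2] at h1
  have h3 := h1.uniq Place.to_zero
  refine hξ ⟨C (e 2) * X ^ 2 + C (e 1) * X + C (e 0), fun h0 => ?_, by simpa using h3⟩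
  have c0 := congrArg (fun q : ℂ[X] => q.coeff 0) h0
  have c1 := congrArg (fun q : ℂ[X] => q.coeff 1) h0
  have c2 := congrArg (fun q : ℂ[X] => q.coeff 2) h0
  simp [coeff_X, coeff_C] at c0 c1 c2
  fin_cases i
  · exact one_ne_zero (hei.symm.trans c0)
  · exact one_ne_zero (hei.symm.trans c1)
  · exact one_ne_zero (hei.symm.trans c2)

end Pool.Agent.P.MP_3c83d0_ag
end

-- part Pool.Agent.P.MP_3c83d0_ag.ElRes
section

open Polynomial

namespace Pool.Agent.P.MP_3c83d0_ag

variable {L M : Type} [Field L] [Field M] [Algebra ℂ L] [Algebra ℂ M]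

/-- `g` is a constant times an element with a nonzero value in `K`. -/
def ElResGood (Q : Place L M) (K : IntermediateField ℂ M) (g : L) : Prop :=
  ∃ (k : ℂ) (u : L) (v : M), k ≠ 0 ∧ v ≠ 0 ∧ v ∈ K ∧ Q.To u v ∧ g = algebraMap ℂ L k * u

namespace ElResGood

variable {P : Place ℂ ℂ} {Q : Place L M} {K : IntermediateField ℂ M} {g g' x : L} {τ : M}

theorem mul (h : ElResGood Q K g) (h' : ElResGood Q K g') : ElResGood Q K (g * g') := by
  obtain ⟨k, u, v, a1, a2, a3, a4, rfl⟩ := h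
  obtain ⟨k', u', v', b1, b2, b3, b4, rfl⟩ := h'
  exact ⟨k * k', u * u', v * v', mul_ne_zero a1 b1, mul_ne_zero a2 b2, K.mul_mem a3 b3, a4.mul b4,
    by rw [map_mul]; ring⟩

theorem inv (h : ElResGood Q K g) : ElResGood Q K g⁻¹ := by
  obtain ⟨k, u, v, a1, a2, a3, a4, rfl⟩ := h
  exact ⟨k⁻¹, u⁻¹, v⁻¹, inv_ne_zero a1, inv_ne_zero a2, K.inv_mem a3, a4.inv a2,
    by rw [map_inv₀, mul_inv]⟩

theorem ne_zero (h : ElResGood Q K g) : g ≠ 0 := by
  obtain ⟨k, u, v, a1, a2, -, a4, rfl⟩ := h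
  exact mul_ne_zero ((_root_.map_ne_zero _).2 a1) (a4.ne_zero a2)

theorem const {k : ℂ} (hk : k ≠ 0) : ElResGood Q K (algebraMap ℂ L k) :=
  ⟨k, 1, 1, hk, one_ne_zero, K.one_mem, Place.to_one, (mul_one _).symm⟩

theorem of_to {v : M} (h : Q.To g v) (h0 : v ≠ 0) (hK : v ∈ K) : ElResGood Q K g :=
  ⟨1, g, v, one_ne_zero, h0, hK, h, by simp⟩

theorem val (hP : P.Over Q) (h : ElResGood Q K g) {z : M} (hz : Q.To g z) : z ∈ K := by
  obtain ⟨k, u, v, -, a2, a3, a4, rfl⟩ := h
  have h1 := hz.div a4 a2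
  rw [mul_div_cancel_right₀ _ (a4.ne_zero a2)] at h1
  obtain ⟨b, -, hb⟩ := hP.range h1
  rw [(div_eq_iff a2).1 hb]
  exact K.mul_mem (K.algebraMap_mem b) a3

theorem lin (hP : P.Over Q) (h1 : Q.To x τ) (hτ : Transcendental ℂ τ) (hK : τ ∈ K) (α : ℂ) :
    ElResGood Q K (x - algebraMap ℂ L α) := by
  rcases P.to_or α with ⟨b, hb⟩ | ⟨ha, h0⟩
  · refine of_to (h1.sub (hP _ _ hb)) (fun h => hτ ?_) (K.sub_mem hK (K.algebraMap_mem b))
    rw [sub_eq_zero.1 h]
    exact isAlgebraic_algebraMap b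
  · have h2 := Place.to_one.sub (h1.mul (hP _ _ h0))
    rw [map_zero, mul_zero, sub_zero] at h2
    refine ⟨-α, _, 1, neg_ne_zero.2 ha, one_ne_zero, K.one_mem, h2, ?_⟩
    have : algebraMap ℂ L α ≠ 0 := (_root_.map_ne_zero _).2 ha
    rw [map_neg, map_inv₀]
    field_simp
    ring

theorem poly (hP : P.Over Q) (h1 : Q.To x τ) (hτ : Transcendental ℂ τ) (hK : τ ∈ K) {p : ℂ[X]}
    (hp : p ≠ 0) : ElResGood Q K (aeval x p) := by
  rw [(IsAlgClosed.splits p).eq_prod_roots, map_mul, aeval_C, map_multiset_prod]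
  refine (const (leadingCoeff_ne_zero.2 hp)).mul (Multiset.prod_induction _ _ (fun _ _ => mul)
    (of_to Place.to_one one_ne_zero K.one_mem) fun g hg => ?_)
  obtain ⟨q, hq, rfl⟩ := Multiset.mem_map.1 hg
  obtain ⟨a, -, rfl⟩ := Multiset.mem_map.1 hq
  rw [map_sub, aeval_X, aeval_C]
  exact lin hP h1 hτ hK a

theorem rat (hP : P.Over Q) (h1 : Q.To x τ) (hτ : Transcendental ℂ τ) (hK : τ ∈ K)
    (hg : g ∈ IntermediateField.adjoin ℂ {x}) (h0 : g ≠ 0) : ElResGood Q K g := by
  obtain ⟨r, s, rfl⟩ := (IntermediateField.mem_adjoin_simple_iff ℂ g).1 hg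
  rw [div_eq_mul_inv]
  refine (poly hP h1 hτ hK ?_).mul (poly hP h1 hτ hK ?_).inv
  · rintro rfl
    simp at h0
  · rintro rfl
    simp at h0

/-- Two good elements have a common scale. -/
theorem scale (hP : P.Over Q) (h : ElResGood Q K g) (h' : ElResGood Q K g') :
    ∃ (k : ℂ) (u u' : L) (v v' : M), k ≠ 0 ∧ (v ≠ 0 ∨ v' ≠ 0) ∧ v ∈ K ∧ v' ∈ K ∧ Q.To u v ∧
      Q.To u' v' ∧ g = algebraMap ℂ L k * u ∧ g' = algebraMap ℂ L k * u' := by
  obtain ⟨k, u, v, a1, a2, a3, a4, rfl⟩ := h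
  obtain ⟨k', u', v', b1, b2, b3, b4, rfl⟩ := h'
  have a5 : algebraMap ℂ L k ≠ 0 := (_root_.map_ne_zero _).2 a1
  have b5 : algebraMap ℂ L k' ≠ 0 := (_root_.map_ne_zero _).2 b1
  rcases P.tot (k / k') with h | h
  · obtain ⟨c, hc⟩ := Place.to_of_mem h
    refine ⟨k', _, u', _, v', b1, Or.inr b2, K.mul_mem (K.algebraMap_mem c) a3, b3,
      (hP _ _ hc).mul a4, b4, ?_, rfl⟩
    rw [map_div₀]
    field_simp
  · obtain ⟨c, hc⟩ := Place.to_of_mem h
    refine ⟨k, u, _, v, _, a1, Or.inl a2, a3, K.mul_mem (K.algebraMap_mem c) b3, a4,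
      (hP _ _ hc).mul b4, rfl, ?_⟩
    rw [inv_div, map_div₀]
    field_simp

end ElResGood

/-- The values of a Gauss place are generated by the values of the coordinates. -/
theorem gi_res {P : Place ℂ ℂ} {Q : Place L M} (h : P.Over Q) {x y : L} (r : ℂ[X])
    (hy : y ^ 2 = aeval x r)
    (hrep : ∀ z : L, ∃ a b c : ℂ[X], c ≠ 0 ∧ z * aeval x c = aeval x a + aeval x b * y)
    {τ σ : M} (h1 : Q.To x τ) (hτ : Transcendental ℂ τ) (h2 : Q.To y σ) (hσ : σ ≠ 0)
    {w : L} {u : M} (hw : Q.To w u) : u ∈ IntermediateField.adjoin ℂ {τ, σ} := by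
  set K := IntermediateField.adjoin ℂ {τ, σ} with hK
  have hτK : τ ∈ K := IntermediateField.subset_adjoin _ _ (by simp)
  have hσK : σ ∈ K := IntermediateField.subset_adjoin _ _ (by simp)
  by_cases hw0 : w = 0
  · rw [hw0] at hw
    rw [hw.uniq Place.to_zero]
    exact K.zero_mem
  refine ElResGood.val h ?_ hw
  obtain ⟨a, b, c, hc, e⟩ := hrep w
  have hc0 := (ElResGood.poly h h1 hτ hτK hc).ne_zero
  have mem : ∀ p : ℂ[X], aeval x p ∈ IntermediateField.adjoin ℂ {x} := fun p =>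
    (IntermediateField.mem_adjoin_simple_iff ℂ _).2 ⟨p, 1, by simp⟩
  obtain ⟨A, B, hA, hB, rfl⟩ : ∃ A B : L, A ∈ IntermediateField.adjoin ℂ {x} ∧
      B ∈ IntermediateField.adjoin ℂ {x} ∧ w = A + B * y :=
    ⟨aeval x a / aeval x c, aeval x b / aeval x c, div_mem (mem a) (mem c),
      div_mem (mem b) (mem c), by rw [eq_div_of_mul_eq hc0 e]; field_simp⟩
  by_cases hB0 : B = 0
  · rw [hB0, zero_mul, add_zero] at hw0 ⊢
    exact ElResGood.rat h h1 hτ hτK hA hw0
  have gB := ElResGood.rat h h1 hτ hτK hB hB0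
  by_cases hA0 : A = 0
  · rw [hA0, zero_add]
    exact gB.mul (ElResGood.of_to h2 hσ hσK)
  obtain ⟨k, A1, B1, a1, b1, hk, hne, m1, m2, t1, t2, e1, e2⟩ :=
    (ElResGood.rat h h1 hτ hτK hA hA0).scale h gB
  by_cases hs : a1 + b1 * σ = 0
  swap
  · exact ⟨k, _, _, hk, hs, K.add_mem m1 (K.mul_mem m2 hσK), t1.add (t2.mul h2),
      by rw [e1, e2]; ring⟩
  have : CharZero M := charZero_of_injective_algebraMap (algebraMap ℂ M).injective
  have hb : b1 ≠ 0 := fun h0 => by
    rw [h0, zero_mul, add_zero] at hs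
    exact hne.elim (fun h3 => h3 hs) fun h3 => h3 h0
  have gn : ElResGood Q K (A - B * y) := by
    refine ⟨k, _, _, hk, fun h3 => ?_, K.sub_mem m1 (K.mul_mem m2 hσK), t1.sub (t2.mul h2),
      by rw [e1, e2]; ring⟩
    exact mul_ne_zero two_ne_zero (mul_ne_zero hb hσ) (by linear_combination hs - h3)
  have hN : (A + B * y) * (A - B * y) ∈ IntermediateField.adjoin ℂ {x} := by
    rw [show (A + B * y) * (A - B * y) = A ^ 2 - B ^ 2 * aeval x r by rw [← hy]; ring]
    exact sub_mem (pow_mem hA 2) (mul_mem (pow_mem hB 2) (mem r))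
  have := (ElResGood.rat h h1 hτ hτK hN (mul_ne_zero hw0 gn.ne_zero)).mul gn.inv
  rwa [mul_inv_cancel_right₀ gn.ne_zero] at this

end Pool.Agent.P.MP_3c83d0_ag
end

-- part Pool.Agent.P.MP_3c83d0_ag.ElGi
section

open Polynomial

namespace Pool.Agent.P.MP_3c83d0_ag

variable {L M : Type} [Field L] [Field M] [Algebra ℂ L] [Algebra ℂ M]

theorem elgi_trans {τ t : M} (hτ : Transcendental ℂ τ)
    (h : τ ∈ IntermediateField.adjoin ℂ {t}) : Transcendental ℂ t := by
  intro ht
  apply hτ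
  have := IntermediateField.isAlgebraic_adjoin_simple ht.isIntegral
  exact IntermediateField.isAlgebraic_iff.1
    (Algebra.IsAlgebraic.isAlgebraic (⟨τ, h⟩ : IntermediateField.adjoin ℂ {t}))

theorem elgi_const {x : M} (hx : IsAlgebraic ℂ x) : ∃ a : ℂ, x = algebraMap ℂ M a := by
  have h1 := IsAlgClosed.degree_eq_one_of_irreducible ℂ (minpoly.irreducible hx.isIntegral)
  obtain ⟨a, ha⟩ := minpoly.mem_range_of_degree_eq_one ℂ x h1
  exact ⟨a, ha.symm⟩

theorem elgi_ne {τ : M} (hτ : Transcendental ℂ τ) (a : ℂ) : τ - algebraMap ℂ M a ≠ 0 := by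
  intro h
  apply hτ
  rw [sub_eq_zero.1 h]
  exact isAlgebraic_algebraMap a

theorem elgi_self (t : M) : t ∈ IntermediateField.adjoin ℂ {t} :=
  IntermediateField.mem_adjoin_simple_self ℂ t

theorem elgi_rat1 {τ σ : M} (hτ : Transcendental ℂ τ) {a : ℂ}
    (hσ : σ ^ 2 = τ - algebraMap ℂ M a) :
    ∃ t : M, Transcendental ℂ t ∧ τ ∈ IntermediateField.adjoin ℂ {t} ∧
      σ ∈ IntermediateField.adjoin ℂ {t} := by
  have h1 : τ ∈ IntermediateField.adjoin ℂ {σ} := by
    have e : τ = algebraMap ℂ M a + σ ^ 2 := by rw [hσ]; ring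
    rw [e]
    exact add_mem (IntermediateField.algebraMap_mem _ a) (pow_mem (elgi_self σ) 2)
  exact ⟨σ, elgi_trans hτ h1, h1, elgi_self σ⟩

/-- Conics are rational. -/
theorem gi_rat {τ σ u v : M} (hτ : Transcendental ℂ τ)
    (hu : u = 1 ∨ ∃ a : ℂ, u = τ - algebraMap ℂ M a)
    (hv : v = 1 ∨ ∃ a : ℂ, v = τ - algebraMap ℂ M a) (hσ : σ ^ 2 = u * v) :
    ∃ t : M, Transcendental ℂ t ∧ τ ∈ IntermediateField.adjoin ℂ {t} ∧
      σ ∈ IntermediateField.adjoin ℂ {t} := by
  rcases hu with rfl | ⟨a, rfl⟩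
  · rcases hv with rfl | ⟨b, rfl⟩
    · refine ⟨τ, hτ, elgi_self τ, ?_⟩
      rw [mul_one, ← one_pow 2] at hσ
      rcases sq_eq_sq_iff_eq_or_eq_neg.1 hσ with h | h
      · rw [h]; exact one_mem _
      · rw [h]; exact neg_mem (one_mem _)
    · rw [one_mul] at hσ
      exact elgi_rat1 hτ hσ
  · rcases hv with rfl | ⟨b, rfl⟩
    · rw [mul_one] at hσ
      exact elgi_rat1 hτ hσ
    · by_cases hab : a = b
      · subst hab
        refine ⟨τ, hτ, elgi_self τ, ?_⟩
        have hm : τ - algebraMap ℂ M a ∈ IntermediateField.adjoin ℂ {τ} :=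
          sub_mem (elgi_self τ) (IntermediateField.algebraMap_mem _ a)
        rw [← pow_two] at hσ
        rcases sq_eq_sq_iff_eq_or_eq_neg.1 hσ with h | h
        · rw [h]; exact hm
        · rw [h]; exact neg_mem hm
      · have ha := elgi_ne hτ a
        set t : M := σ / (τ - algebraMap ℂ M a) with ht
        have e1 : t ^ 2 * (τ - algebraMap ℂ M a) = τ - algebraMap ℂ M b := by
          rw [ht, div_pow, hσ]
          field_simp
        have e2 : t ^ 2 - 1 ≠ 0 := by
          intro h0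
          rw [sub_eq_zero.1 h0, one_mul] at e1
          exact hab ((algebraMap ℂ M).injective (sub_right_injective e1))
        have e3 : τ = (algebraMap ℂ M a * t ^ 2 - algebraMap ℂ M b) / (t ^ 2 - 1) := by
          rw [eq_div_iff e2]
          linear_combination e1
        have h1 : τ ∈ IntermediateField.adjoin ℂ {t} := by
          rw [e3]
          exact div_mem (sub_mem (mul_mem (IntermediateField.algebraMap_mem _ a)
            (pow_mem (elgi_self t) 2)) (IntermediateField.algebraMap_mem _ b))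
            (sub_mem (pow_mem (elgi_self t) 2) (one_mem _))
        refine ⟨t, elgi_trans hτ h1, h1, ?_⟩
        have e4 : σ = t * (τ - algebraMap ℂ M a) := by
          rw [ht, div_mul_cancel₀ _ ha]
        rw [e4]
        exact mul_mem (elgi_self t) (sub_mem h1 (IntermediateField.algebraMap_mem _ a))

theorem elgi_lin1 {P : Place ℂ ℂ} {Q : Place L M} (h : P.Over Q) {x : L} {τ : M}
    (hx : Q.To x τ) (c : ℂ) :
    ∃ (g : ℂ) (p : ℂ[X]) (v : M), g ≠ 0 ∧ p.natDegree = 1 ∧
      x - algebraMap ℂ L c = algebraMap ℂ L g * aeval x p ∧ Q.To (aeval x p) v ∧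
      (v = 1 ∨ ∃ a, P.To c a ∧ v = τ - algebraMap ℂ M a) := by
  rcases P.to_or c with ⟨a, ha⟩ | ⟨hc, h0⟩
  · refine ⟨1, X - C c, τ - algebraMap ℂ M a, one_ne_zero, natDegree_X_sub_C c, by simp, ?_,
      Or.inr ⟨a, ha, rfl⟩⟩
    refine (hx.sub (h _ _ ha)).congr ?_ rfl
    simp
  · refine ⟨-c, C (-c⁻¹) * X + C 1, 1, neg_ne_zero.2 hc,
      natDegree_linear (neg_ne_zero.2 (inv_ne_zero hc)), ?_, ?_, Or.inl rfl⟩
    · have hc' : algebraMap ℂ L c ≠ 0 := (_root_.map_ne_zero _).2 hc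
      simp only [map_add, map_mul, aeval_C, aeval_X, map_neg, map_inv₀, map_one]
      field_simp
      ring
    · refine ((((h _ _ h0).neg).mul hx).add Place.to_one).congr ?_ ?_
      · simp
      · simp

theorem elgi_A {τ σ v1 v2 v3 : M} (hτ : Transcendental ℂ τ)
    (h2 : v2 = 1 ∨ ∃ a : ℂ, v2 = τ - algebraMap ℂ M a)
    (h3 : v3 = 1 ∨ ∃ a : ℂ, v3 = τ - algebraMap ℂ M a) (hσ : σ ^ 2 = v1 * v2 * v3)
    (h : v1 = 1 ∨ v1 = v2) :
    ∃ t : M, Transcendental ℂ t ∧ τ ∈ IntermediateField.adjoin ℂ {t} ∧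
      σ ∈ IntermediateField.adjoin ℂ {t} := by
  rcases h with rfl | rfl
  · rw [one_mul] at hσ
    exact gi_rat hτ h2 h3 hσ
  · have h0 : v1 ≠ 0 := by
      rcases h2 with rfl | ⟨a, rfl⟩
      · exact one_ne_zero
      · exact elgi_ne hτ a
    have e : (σ / v1) ^ 2 = 1 * v3 := by
      rw [div_pow, hσ]
      field_simp
    obtain ⟨t, ht, m1, m2⟩ := gi_rat hτ (Or.inl rfl) h3 e
    refine ⟨t, ht, m1, ?_⟩
    have e2 : σ = σ / v1 * v1 := by rw [div_mul_cancel₀ _ h0]
    rw [e2]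
    refine mul_mem m2 ?_
    rcases h2 with rfl | ⟨a, rfl⟩
    · exact one_mem _
    · exact sub_mem m1 (IntermediateField.algebraMap_mem _ a)

theorem elgi_le {a b c d : M} (h1 : a ∈ IntermediateField.adjoin ℂ {c, d})
    (h2 : b ∈ IntermediateField.adjoin ℂ {c, d}) :
    IntermediateField.adjoin ℂ {a, b} ≤ IntermediateField.adjoin ℂ {c, d} := by
  rw [IntermediateField.adjoin_le_iff]
  rintro w (rfl | rfl)
  · exact h1
  · exact h2

theorem elgi_fst (a b : M) : a ∈ IntermediateField.adjoin ℂ {a, b} :=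
  IntermediateField.subset_adjoin _ _ (by simp)

theorem elgi_snd (a b : M) : b ∈ IntermediateField.adjoin ℂ {a, b} :=
  IntermediateField.subset_adjoin _ _ (by simp)

theorem elgi_sqrt {K : Type} [Field K] [IsAlgClosed K] (a : K) : ∃ r : K, r ^ 2 = a :=
  IsAlgClosed.exists_pow_nat_eq a (by norm_num)

theorem elgi_x {P : Place ℂ ℂ} {Q : Place L M} (h : P.Over Q) {l : ℂ}
    {x y : L} (hy : y ^ 2 = x * (x - 1) * (x - algebraMap ℂ L l))
    (hgen : IntermediateField.adjoin ℂ {x, y} = ⊤) {z : L} {ξ : M} (hz : Q.To z ξ)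
    (hξ : Transcendental ℂ ξ) : Transcendental ℂ x := by
  intro hx
  obtain ⟨a, rfl⟩ := elgi_const hx
  have hy2 : IsAlgebraic ℂ (y ^ 2) := by
    have e : y ^ 2 = algebraMap ℂ L (a * (a - 1) * (a - l)) := by
      rw [hy]; simp
    rw [e]
    exact isAlgebraic_algebraMap _
  obtain ⟨b, rfl⟩ := elgi_const (IsAlgebraic.of_pow (by norm_num) hy2)
  have hle : IntermediateField.adjoin ℂ {algebraMap ℂ L a, algebraMap ℂ L b} ≤ ⊥ := by
    rw [IntermediateField.adjoin_le_iff]
    rintro w (rfl | rfl)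
    · exact IntermediateField.algebraMap_mem _ a
    · exact IntermediateField.algebraMap_mem _ b
  have hz' : z ∈ (⊥ : IntermediateField ℂ L) := hle (hgen ▸ IntermediateField.mem_top)
  obtain ⟨c, rfl⟩ := IntermediateField.mem_bot.1 hz'
  obtain ⟨d, -, rfl⟩ := h.range hz
  exact hξ (isAlgebraic_algebraMap d)

/-- Reduction of an elliptic function field at a place with a transcendental value. -/
theorem gi [IsAlgClosed M] {P : Place ℂ ℂ} {Q : Place L M} (h : P.Over Q) {l l' : ℂ}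
    (hl : P.To l l') {x y : L} (hy : y ^ 2 = x * (x - 1) * (x - algebraMap ℂ L l))
    (hgen : IntermediateField.adjoin ℂ {x, y} = ⊤) {z : L} {ξ : M} (hz : Q.To z ξ)
    (hξ : Transcendental ℂ ξ) :
    ∃ (k : ℂ) (x0 y0 : M), (k = l' ∨ k = -1) ∧ k ≠ 0 ∧ k ≠ 1 ∧ Transcendental ℂ x0 ∧
      y0 ^ 2 = x0 * (x0 - 1) * (x0 - algebraMap ℂ M k) ∧
      ∀ w u, Q.To w u → u ∈ IntermediateField.adjoin ℂ {x0, y0} := by
  have hx := elgi_x h hy hgen hz hξ
  have hy1 : y ^ 2 = aeval x ((X - C 0) * (X - C 1) * (X - C l) : ℂ[X]) := by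
    rw [hy]; simp
  have hodd : Odd ((X - C 0) * (X - C 1) * (X - C l) : ℂ[X]).natDegree := by
    rw [natDegree_mul (mul_ne_zero (X_sub_C_ne_zero _) (X_sub_C_ne_zero _)) (X_sub_C_ne_zero _),
      natDegree_mul (X_sub_C_ne_zero _) (X_sub_C_ne_zero _), natDegree_X_sub_C,
      natDegree_X_sub_C, natDegree_X_sub_C]
    decide
  obtain ⟨α, β, τ, hβ, hx', hτ⟩ := gi_lin h _ hx hy1
    (fun w => rep _ hodd hx hy1 (hgen ▸ IntermediateField.mem_top)) hz hξ
  have hβ' : algebraMap ℂ L β ≠ 0 := (_root_.map_ne_zero _).2 hβ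
  set x' : L := (x - algebraMap ℂ L α) / algebraMap ℂ L β with hxd
  have ex : x = algebraMap ℂ L α + algebraMap ℂ L β * x' := by
    rw [hxd]; field_simp; ring
  obtain ⟨g1, p1, v1, hg1, d1, e1, t1, c1⟩ := elgi_lin1 h hx' ((0 - α) / β)
  obtain ⟨g2, p2, v2, hg2, d2, e2, t2, c2⟩ := elgi_lin1 h hx' ((1 - α) / β)
  obtain ⟨g3, p3, v3, hg3, d3, e3, t3, c3⟩ := elgi_lin1 h hx' ((l - α) / β)
  have f : ∀ c : ℂ, x - algebraMap ℂ L c =
      algebraMap ℂ L β * (x' - algebraMap ℂ L ((c - α) / β)) := by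
    intro c
    rw [ex, map_div₀, map_sub]
    field_simp
    ring
  obtain ⟨ρ, hρ⟩ := elgi_sqrt (β ^ 3 * (g1 * g2 * g3))
  have hρ0 : ρ ≠ 0 := by
    rintro rfl
    exact mul_ne_zero (pow_ne_zero 3 hβ) (mul_ne_zero (mul_ne_zero hg1 hg2) hg3)
      (by rw [← hρ]; simp)
  have hρ' : algebraMap ℂ L ρ ≠ 0 := (_root_.map_ne_zero _).2 hρ0
  set y' : L := y / algebraMap ℂ L ρ with hyd
  have ey : y = algebraMap ℂ L ρ * y' := by rw [hyd]; field_simp
  have hy2 : y' ^ 2 = aeval x' (p1 * p2 * p3) := by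
    have k0 := f 0
    have k1 := f 1
    have k2 := f l
    rw [e1, map_zero, sub_zero] at k0
    rw [e2, map_one] at k1
    rw [e3] at k2
    have k3 : algebraMap ℂ L ρ ^ 2 = algebraMap ℂ L β ^ 3 *
        (algebraMap ℂ L g1 * algebraMap ℂ L g2 * algebraMap ℂ L g3) := by
      rw [← map_pow, hρ]; simp
    apply mul_left_cancel₀ (pow_ne_zero 2 hρ')
    rw [← mul_pow, ← ey, hy, k1, k2, k3, map_mul, map_mul]
    conv_lhs => rw [k0]
    ring
  have n1 : p1 ≠ 0 := by rintro rfl; simp at d1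
  have n2 : p2 ≠ 0 := by rintro rfl; simp at d2
  have n3 : p3 ≠ 0 := by rintro rfl; simp at d3
  have hodd' : Odd (p1 * p2 * p3).natDegree := by
    rw [natDegree_mul (mul_ne_zero n1 n2) n3, natDegree_mul n1 n2, d1, d2, d3]
    decide
  have hxt : Transcendental ℂ x' := by
    refine elgi_trans hx ?_
    rw [ex]
    exact add_mem (IntermediateField.algebraMap_mem _ α)
      (mul_mem (IntermediateField.algebraMap_mem _ β) (elgi_self x'))
  have hgen' : IntermediateField.adjoin ℂ {x', y'} = ⊤ := by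
    rw [eq_top_iff, ← hgen]
    refine elgi_le ?_ ?_
    · rw [ex]
      exact add_mem (IntermediateField.algebraMap_mem _ α)
        (mul_mem (IntermediateField.algebraMap_mem _ β) (elgi_fst x' y'))
    · rw [ey]
      exact mul_mem (IntermediateField.algebraMap_mem _ ρ) (elgi_snd x' y')
  have tq : Q.To (y' ^ 2) (v1 * v2 * v3) := by
    refine ((t1.mul t2).mul t3).congr ?_ rfl
    rw [hy2, map_mul, map_mul]
  obtain ⟨σ, hσ, hσ2⟩ := tq.of_pow (by norm_num)
  have w : ∀ {c : ℂ} {v : M}, (v = 1 ∨ ∃ a, P.To c a ∧ v = τ - algebraMap ℂ M a) →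
      (v = 1 ∨ ∃ a : ℂ, v = τ - algebraMap ℂ M a) := by
    intro c v hv
    rcases hv with hv | ⟨a, -, hv⟩
    · exact Or.inl hv
    · exact Or.inr ⟨a, hv⟩
  have nz : ∀ {v : M}, (v = 1 ∨ ∃ a : ℂ, v = τ - algebraMap ℂ M a) → v ≠ 0 := by
    intro v hv
    rcases hv with rfl | ⟨a, rfl⟩
    · exact one_ne_zero
    · exact elgi_ne hτ a
  have hσ0 : σ ≠ 0 := by
    rintro rfl
    exact mul_ne_zero (mul_ne_zero (nz (w c1)) (nz (w c2))) (nz (w c3)) (by rw [← hσ2]; simp)
  have hall : ∀ w u, Q.To w u → u ∈ IntermediateField.adjoin ℂ {τ, σ} := fun w u hw =>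
    gi_res h _ hy2 (fun w => rep _ hodd' hxt hy2 (hgen' ▸ IntermediateField.mem_top))
      hx' hτ hσ hσ0 hw
  have fin : (∃ t : M, Transcendental ℂ t ∧ τ ∈ IntermediateField.adjoin ℂ {t} ∧
      σ ∈ IntermediateField.adjoin ℂ {t}) →
      ∃ (k : ℂ) (x0 y0 : M), (k = l' ∨ k = -1) ∧ k ≠ 0 ∧ k ≠ 1 ∧ Transcendental ℂ x0 ∧
      y0 ^ 2 = x0 * (x0 - 1) * (x0 - algebraMap ℂ M k) ∧
      ∀ w u, Q.To w u → u ∈ IntermediateField.adjoin ℂ {x0, y0} := by
    rintro ⟨t, ht, m1, m2⟩
    obtain ⟨y0, hy0⟩ := elgi_sqrt (t * (t - 1) * (t - algebraMap ℂ M (-1)))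
    have hle : IntermediateField.adjoin ℂ {t} ≤ IntermediateField.adjoin ℂ {t, y0} :=
      IntermediateField.adjoin.mono _ _ _ (by simp)
    exact ⟨-1, t, y0, Or.inr rfl, by norm_num, by norm_num, ht, hy0,
      fun w u hw => elgi_le (hle m1) (hle m2) (hall w u hw)⟩
  have s2 : σ ^ 2 = v2 * v3 * v1 := by rw [hσ2]; ring
  have s3 : σ ^ 2 = v3 * v1 * v2 := by rw [hσ2]; ring
  by_cases q1 : v1 = 1 ∨ v1 = v2
  · exact fin (elgi_A hτ (w c2) (w c3) hσ2 q1)
  by_cases q2 : v2 = 1 ∨ v2 = v3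
  · exact fin (elgi_A hτ (w c3) (w c1) s2 q2)
  by_cases q3 : v3 = 1 ∨ v3 = v1
  · exact fin (elgi_A hτ (w c1) (w c2) s3 q3)
  rw [not_or] at q1 q2 q3
  obtain ⟨a1, b1, rfl⟩ := c1.resolve_left q1.1
  obtain ⟨a2, b2, rfl⟩ := c2.resolve_left q2.1
  obtain ⟨a3, b3, rfl⟩ := c3.resolve_left q3.1
  have h21 : a2 - a1 ≠ 0 := fun h0 => q1.2 (by rw [sub_eq_zero.1 h0])
  have h32 : a3 - a2 ≠ 0 := fun h0 => q2.2 (by rw [sub_eq_zero.1 h0])
  have h31 : a3 - a1 ≠ 0 := fun h0 => q3.2 (by rw [sub_eq_zero.1 h0])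
  have hl' : l' = (a3 - a1) / (a2 - a1) := by
    refine hl.uniq (((b3.sub b1).div (b2.sub b1) h21).congr ?_ rfl)
    field_simp
    ring
  obtain ⟨ρ0, hρ0'⟩ := elgi_sqrt ((a2 - a1) ^ 3)
  have hρ00 : ρ0 ≠ 0 := by
    rintro rfl
    exact pow_ne_zero 3 h21 (by rw [← hρ0']; simp)
  have m21 : algebraMap ℂ M (a2 - a1) ≠ 0 := (_root_.map_ne_zero _).2 h21
  have mρ : algebraMap ℂ M ρ0 ≠ 0 := (_root_.map_ne_zero _).2 hρ00
  set x0 : M := (τ - algebraMap ℂ M a1) / algebraMap ℂ M (a2 - a1) with hx0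
  set y0 : M := σ / algebraMap ℂ M ρ0 with hy0
  have eτ : τ = algebraMap ℂ M a1 + algebraMap ℂ M (a2 - a1) * x0 := by
    rw [hx0]; field_simp; ring
  have eσ : σ = algebraMap ℂ M ρ0 * y0 := by rw [hy0]; field_simp
  refine ⟨l', x0, y0, Or.inl rfl, ?_, ?_, ?_, ?_, fun w u hw => elgi_le ?_ ?_ (hall w u hw)⟩
  · rw [hl']; exact div_ne_zero h31 h21
  · rw [hl']
    intro h1
    rw [div_eq_one_iff_eq h21] at h1
    exact h32 (by linear_combination h1)
  · refine elgi_trans hτ ?_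
    rw [eτ]
    exact add_mem (IntermediateField.algebraMap_mem _ a1)
      (mul_mem (IntermediateField.algebraMap_mem _ _) (elgi_self x0))
  · have k3 : algebraMap ℂ M ρ0 ^ 2 = algebraMap ℂ M (a2 - a1) ^ 3 := by
      rw [← map_pow, hρ0', map_pow]
    rw [hy0, div_pow, hσ2, k3, hl', map_div₀, hx0]
    have m21' := m21
    rw [map_sub] at m21'
    simp only [map_sub]
    field_simp
    ring
  · rw [eτ]
    exact add_mem (IntermediateField.algebraMap_mem _ a1)
      (mul_mem (IntermediateField.algebraMap_mem _ _) (elgi_fst x0 y0))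
  · rw [eσ]
    exact mul_mem (IntermediateField.algebraMap_mem _ ρ0) (elgi_snd x0 y0)

end Pool.Agent.P.MP_3c83d0_ag
end

-- part Pool.Agent.P.MP_3c83d0_ag.ElRed
section

open Polynomial

namespace Pool.Agent.P.MP_3c83d0_ag

theorem elred_deg {Z : S} {e : ℕ} (hZ : Z.IsHomogeneous e) {s : Fin 3 →₀ ℕ}
    (hs : MvPolynomial.coeff s Z ≠ 0) : s 0 + s 1 + s 2 = e := by
  have h : s.degree = e := by
    rw [Finsupp.degree_eq_weight_one]
    exact hZ hs
  rwa [Finsupp.degree_eq_sum, Fin.sum_univ_three] at h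

theorem elred_single {e : ℕ} {s : Fin 3 →₀ ℕ} (h : s 0 + s 1 + s 2 = e) (h0 : s 0 + s 2 = 0) :
    s = Finsupp.single 1 e := by
  ext j
  fin_cases j
  · simp; omega
  · simp; omega
  · simp; omega

theorem elred_eval {Z : S} {e : ℕ} (hZ : Z.IsHomogeneous e) :
    MvPolynomial.eval ![0, 1, 0] Z = MvPolynomial.coeff (Finsupp.single 1 e) Z := by
  rw [MvPolynomial.eval_eq', Finset.sum_eq_single (Finsupp.single 1 e)]
  · simp [Fin.prod_univ_three]
  · intro s hs hne
    have h1 := elred_deg hZ (MvPolynomial.mem_support_iff.1 hs)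
    have h2 : s 0 + s 2 ≠ 0 := fun h => hne (elred_single h1 h)
    rw [Fin.prod_univ_three]
    by_cases h0 : s 0 = 0
    · have : s 2 ≠ 0 := by omega
      simp [this]
    · simp [h0]
  · intro h
    rw [MvPolynomial.notMem_support_iff.1 h, zero_mul]

theorem elred_supp (m : ℕ) : ∀ {Z : S} {e : ℕ}, Z.IsHomogeneous e → Z ∈ mx ![0, 1, 0] ^ m →
    ∀ s : Fin 3 →₀ ℕ, MvPolynomial.coeff s Z ≠ 0 → m ≤ s 0 + s 2 := by
  induction m with
  | zero => intro Z e _ _ s _; exact Nat.zero_le _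
  | succ m ih =>
    intro Z e hZ hm s hs
    obtain ⟨h0, hd⟩ := (mem_pow_succ_iff _ _ _).1 hm
    have h1 := elred_deg hZ hs
    have h2 : s 0 + s 2 ≠ 0 := fun h => hs (by
      rw [elred_single h1 h, ← elred_eval hZ, h0])
    have key : ∀ j : Fin 3, s j ≠ 0 →
        m ≤ (s - Finsupp.single j 1 : Fin 3 →₀ ℕ) 0 + (s - Finsupp.single j 1 : Fin 3 →₀ ℕ) 2 := by
      intro j hj
      refine ih (hZ.pderiv (i := j)) (hd j) _ ?_
      rw [MvPolynomial.coeff_pderiv, Finsupp.sub_add_single_one_cancel hj]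
      exact mul_ne_zero hs (Nat.cast_add_one_ne_zero _)
    by_cases h3 : s 0 = 0
    · have h4 := key 2 (by omega)
      simp at h4
      omega
    · have h4 := key 0 h3
      simp at h4
      omega

theorem elred_sum {κ : Type} (T : Finset κ) (f : κ → ℂ[X]) (h : ∑ s ∈ T, f s ≠ 0) :
    ∃ s ∈ T, f s ≠ 0 ∧ (∑ s ∈ T, f s).natDegree ≤ (f s).natDegree := by
  have h1 := leadingCoeff_ne_zero.2 h
  rw [leadingCoeff, finsetSum_coeff] at h1
  obtain ⟨s, hs, h2⟩ := Finset.exists_ne_zero_of_sum_ne_zero h1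
  exact ⟨s, hs, fun h3 => h2 (by rw [h3, coeff_zero]), le_natDegree_of_ne_zero h2⟩

theorem elred_top {κ : Type} (T : Finset κ) (f : κ → ℂ[X]) {s0 : κ} (h0 : s0 ∈ T)
    (h : ∀ s ∈ T, s ≠ s0 → f s ≠ 0 → (f s).natDegree < (f s0).natDegree) :
    (∑ s ∈ T, f s).natDegree = (f s0).natDegree := by
  classical
  rw [← Finset.add_sum_erase T f h0]
  by_cases h1 : ∑ s ∈ T.erase s0, f s = 0
  · rw [h1, add_zero]
  · obtain ⟨s, hs, h2, h3⟩ := elred_sum _ _ h1
    exact natDegree_add_eq_left_of_natDegree_lt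
      (h3.trans_lt (h s (Finset.mem_of_mem_erase hs) (Finset.ne_of_mem_erase hs) h2))

theorem elred_term {q : ℂ[X]} (h3 : q.natDegree = 3) {c : ℂ} (hc : c ≠ 0) (i r : ℕ) :
    (C c * X ^ i * q ^ r).natDegree = i + 3 * r := by
  have hq : q ≠ 0 := fun h => by rw [h] at h3; simp at h3
  rw [natDegree_mul (mul_ne_zero (C_ne_zero.2 hc) (pow_ne_zero _ X_ne_zero)) (pow_ne_zero _ hq),
    natDegree_C_mul_X_pow _ _ hc, natDegree_pow, h3, mul_comm]

/-- Reduction of a form modulo `y ^ 2 = q x`, with pole orders at the point at infinity. -/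
theorem red (q : ℂ[X]) (h3 : q.natDegree = 3) {Z : S} {e m : ℕ}
    (hZ : Z.IsHomogeneous e) (hm : Z ∈ mx ![0, 1, 0] ^ m) :
    ∃ A B : ℂ[X], (∀ (R : Type) [CommRing R] [Algebra ℂ R] (ξ η : R), η ^ 2 = aeval ξ q →
        MvPolynomial.aeval ![ξ, η, 1] Z = aeval ξ A + aeval ξ B * η) ∧
      (A ≠ 0 → 2 * A.natDegree + m ≤ 3 * e) ∧ (B ≠ 0 → 2 * B.natDegree + 3 + m ≤ 3 * e) ∧
      (MvPolynomial.eval ![0, 1, 0] Z ≠ 0 → (A ^ 2 - B ^ 2 * q).natDegree = 3 * e) := by
  classical
  have hq : q ≠ 0 := fun h => by rw [h] at h3; simp at h3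
  let t : (Fin 3 →₀ ℕ) → ℂ[X] := fun s => C (MvPolynomial.coeff s Z) * X ^ s 0 * q ^ (s 1 / 2)
  let a : (Fin 3 →₀ ℕ) → ℂ[X] := fun s => if s 1 % 2 = 0 then t s else 0
  let b : (Fin 3 →₀ ℕ) → ℂ[X] := fun s => if s 1 % 2 = 0 then 0 else t s
  have ht : ∀ s ∈ Z.support, (t s).natDegree = s 0 + 3 * (s 1 / 2) := fun s hs =>
    elred_term h3 (MvPolynomial.mem_support_iff.1 hs) _ _
  have ha : ∀ s ∈ Z.support, a s ≠ 0 → s 1 % 2 = 0 ∧ (a s).natDegree = s 0 + 3 * (s 1 / 2) := by
    intro s hs h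
    by_cases hp : s 1 % 2 = 0
    · exact ⟨hp, by simp only [a, if_pos hp]; exact ht s hs⟩
    · exact absurd (if_neg hp) h
  have hb : ∀ s ∈ Z.support, b s ≠ 0 → s 1 % 2 = 1 ∧ (b s).natDegree = s 0 + 3 * (s 1 / 2) := by
    intro s hs h
    by_cases hp : s 1 % 2 = 0
    · exact absurd (if_pos hp) h
    · exact ⟨by omega, by simp only [b, if_neg hp]; exact ht s hs⟩
  have hA : ∑ s ∈ Z.support, a s ≠ 0 → ∃ s ∈ Z.support, s 1 % 2 = 0 ∧
      (∑ s ∈ Z.support, a s).natDegree ≤ s 0 + 3 * (s 1 / 2) := by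
    intro h
    obtain ⟨s, hs, h1, h2⟩ := elred_sum _ _ h
    exact ⟨s, hs, (ha s hs h1).1, h2.trans (ha s hs h1).2.le⟩
  have hB : ∑ s ∈ Z.support, b s ≠ 0 → ∃ s ∈ Z.support, s 1 % 2 = 1 ∧
      (∑ s ∈ Z.support, b s).natDegree ≤ s 0 + 3 * (s 1 / 2) := by
    intro h
    obtain ⟨s, hs, h1, h2⟩ := elred_sum _ _ h
    exact ⟨s, hs, (hb s hs h1).1, h2.trans (hb s hs h1).2.le⟩
  refine ⟨∑ s ∈ Z.support, a s, ∑ s ∈ Z.support, b s, fun R _ _ ξ η hη => ?_, fun h => ?_,
    fun h => ?_, fun h => ?_⟩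
  · rw [MvPolynomial.aeval_def, MvPolynomial.eval₂_eq', map_sum, map_sum, Finset.sum_mul,
      ← Finset.sum_add_distrib]
    refine Finset.sum_congr rfl fun s _ => ?_
    rw [Fin.prod_univ_three]
    have h1 : aeval ξ (t s) = algebraMap ℂ R (MvPolynomial.coeff s Z) * ξ ^ s 0 *
        (η ^ 2) ^ (s 1 / 2) := by
      simp only [t, map_mul, map_pow, aeval_C, aeval_X, hη]
    have h2 : η ^ s 1 = (η ^ 2) ^ (s 1 / 2) * η ^ (s 1 % 2) := by
      rw [← pow_mul, ← pow_add, Nat.div_add_mod]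
    by_cases hp : s 1 % 2 = 0
    · simp only [a, b, if_pos hp, h1, map_zero, zero_mul, add_zero]
      simp only [Matrix.cons_val_zero, Matrix.cons_val_one, Matrix.cons_val, one_pow, mul_one]
      rw [h2, hp]
      ring
    · simp only [a, b, if_neg hp, h1, map_zero, zero_add]
      simp only [Matrix.cons_val_zero, Matrix.cons_val_one, Matrix.cons_val, one_pow, mul_one]
      rw [h2, show s 1 % 2 = 1 by omega]
      ring
  · obtain ⟨s, hs, h1, h2⟩ := hA h
    have h4 := elred_deg hZ (MvPolynomial.mem_support_iff.1 hs)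
    have h5 := elred_supp m hZ hm s (MvPolynomial.mem_support_iff.1 hs)
    omega
  · obtain ⟨s, hs, h1, h2⟩ := hB h
    have h4 := elred_deg hZ (MvPolynomial.mem_support_iff.1 hs)
    have h5 := elred_supp m hZ hm s (MvPolynomial.mem_support_iff.1 hs)
    omega
  · rw [elred_eval hZ] at h
    have hs0 : Finsupp.single 1 e ∈ Z.support := MvPolynomial.mem_support_iff.2 h
    have hlt : ∀ s ∈ Z.support, s ≠ Finsupp.single 1 e →
        s 0 + s 1 + s 2 = e ∧ s 0 + s 2 ≠ 0 := fun s hs hne =>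
      ⟨elred_deg hZ (MvPolynomial.mem_support_iff.1 hs), fun h0 =>
        hne (elred_single (elred_deg hZ (MvPolynomial.mem_support_iff.1 hs)) h0)⟩
    have ht0 : (t (Finsupp.single 1 e)).natDegree = 3 * (e / 2) := by
      rw [ht _ hs0]; simp
    by_cases hp : e % 2 = 0
    · have ha0 : (a (Finsupp.single 1 e)).natDegree = 3 * (e / 2) := by
        have : (Finsupp.single (1 : Fin 3) e) 1 % 2 = 0 := by simpa using hp
        simp only [a, if_pos this]
        exact ht0
      have hAd : (∑ s ∈ Z.support, a s).natDegree = 3 * (e / 2) := by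
        rw [← ha0]
        refine elred_top _ _ hs0 fun s hs hne h1 => ?_
        obtain ⟨h4, h5⟩ := hlt s hs hne
        obtain ⟨h6, h7⟩ := ha s hs h1
        omega
      have hA2 : ((∑ s ∈ Z.support, a s) ^ 2).natDegree = 3 * e := by
        rw [natDegree_pow, hAd]; omega
      by_cases hB0 : ∑ s ∈ Z.support, b s = 0
      · rw [hB0, zero_pow two_ne_zero, zero_mul, sub_zero, hA2]
      · obtain ⟨s, hs, h1, h2⟩ := hB hB0
        have hne : s ≠ Finsupp.single 1 e := fun h0 => by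
          rw [h0] at h1
          simp at h1
          omega
        obtain ⟨h4, h5⟩ := hlt s hs hne
        rw [natDegree_sub_eq_left_of_natDegree_lt, hA2]
        rw [hA2, natDegree_mul (pow_ne_zero _ hB0) hq, natDegree_pow, h3]
        omega
    · have hb0 : (b (Finsupp.single 1 e)).natDegree = 3 * (e / 2) := by
        have : ¬(Finsupp.single (1 : Fin 3) e) 1 % 2 = 0 := by simpa using hp
        simp only [b, if_neg this]
        exact ht0
      have hBd : (∑ s ∈ Z.support, b s).natDegree = 3 * (e / 2) := by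
        rw [← hb0]
        refine elred_top _ _ hs0 fun s hs hne h1 => ?_
        obtain ⟨h4, h5⟩ := hlt s hs hne
        obtain ⟨h6, h7⟩ := hb s hs h1
        omega
      have hB0 : ∑ s ∈ Z.support, b s ≠ 0 := by
        intro h0
        have h1 : (∑ s ∈ Z.support, b s).coeff (3 * (e / 2)) = (b (Finsupp.single 1 e)).coeff
            (3 * (e / 2)) := by
          rw [finsetSum_coeff]
          refine Finset.sum_eq_single _ (fun s hs hne => ?_) fun h => absurd hs0 h
          by_cases h1 : b s = 0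
          · rw [h1, coeff_zero]
          · obtain ⟨h4, h5⟩ := hlt s hs hne
            obtain ⟨h6, h7⟩ := hb s hs h1
            exact coeff_eq_zero_of_natDegree_lt (by omega)
        rw [h0, coeff_zero, ← hb0] at h1
        have h2 : b (Finsupp.single 1 e) = 0 := leadingCoeff_eq_zero.1 h1.symm
        have h4 : ¬(Finsupp.single (1 : Fin 3) e) 1 % 2 = 0 := by simpa using hp
        simp only [b, if_neg h4, t] at h2
        exact mul_ne_zero (mul_ne_zero (C_ne_zero.2 h) (pow_ne_zero _ X_ne_zero))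
          (pow_ne_zero _ hq) h2
      have hB2 : ((∑ s ∈ Z.support, b s) ^ 2 * q).natDegree = 3 * e := by
        rw [natDegree_mul (pow_ne_zero _ hB0) hq, natDegree_pow, hBd, h3]; omega
      by_cases hA0 : ∑ s ∈ Z.support, a s = 0
      · rw [hA0, zero_pow two_ne_zero, zero_sub, natDegree_neg, hB2]
      · obtain ⟨s, hs, h1, h2⟩ := hA hA0
        have hne : s ≠ Finsupp.single 1 e := fun h0 => by
          rw [h0] at h1
          simp at h1
          omega
        obtain ⟨h4, h5⟩ := hlt s hs hne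
        rw [natDegree_sub_eq_right_of_natDegree_lt, hB2]
        rw [hB2, natDegree_pow]
        omega

end Pool.Agent.P.MP_3c83d0_ag
end

-- part Pool.Agent.P.MP_3c83d0_ag.ElBez
section

open Polynomial

namespace Pool.Agent.P.MP_3c83d0_ag

theorem elbez_coprime {p p' : Fin 3 → ℂ} (h : p ≠ p') : IsCoprime (mx p) (mx p') := by
  obtain ⟨j, hj⟩ := Function.ne_iff.1 h
  rw [Ideal.isCoprime_iff_sup_eq]
  have h1 : MvPolynomial.X j - MvPolynomial.C (p j) ∈ mx p := by
    simp [mx, RingHom.mem_ker]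
  have h2 : MvPolynomial.X j - MvPolynomial.C (p' j) ∈ mx p' := by
    simp [mx, RingHom.mem_ker]
  have h3 : (MvPolynomial.C (p' j - p j) : S) ∈ mx p ⊔ mx p' := by
    have := Ideal.sub_mem _ (Ideal.mem_sup_left (T := mx p') h1) (Ideal.mem_sup_right (S := mx p) h2)
    convert this using 1
    rw [map_sub]
    ring
  exact Ideal.eq_top_of_isUnit_mem _ h3
    ((isUnit_iff_ne_zero.2 (sub_ne_zero.2 hj.symm)).map MvPolynomial.C)

theorem elbez_map_le {R : Type} [CommRing R] [Algebra ℂ R] (ξ η : R) {w : Fin 3 → ℂ}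
    (hw : w 2 = 1) :
    (mx w).map (MvPolynomial.aeval ![ξ, η, 1] : S →ₐ[ℂ] R) ≤
      Ideal.span {ξ - algebraMap ℂ R (w 0)} ⊔ Ideal.span {η - algebraMap ℂ R (w 1)} := by
  rw [mx_eq_span, Ideal.map_span, Ideal.span_le]
  rintro _ ⟨_, ⟨j, rfl⟩, rfl⟩
  fin_cases j
  · exact Ideal.mem_sup_left (by simp)
  · exact Ideal.mem_sup_right (by simp)
  · simp [hw]

theorem elbez_mul_le {R : Type} [CommRing R] {a b c : R} (h : a ∣ b * c) :
    (Ideal.span {a} ⊔ Ideal.span {b}) * (Ideal.span {a} ⊔ Ideal.span {c}) ≤ Ideal.span {a} := by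
  rw [Ideal.sup_mul, Ideal.mul_sup (Ideal.span {b})]
  refine sup_le Ideal.mul_le_left (sup_le Ideal.mul_le_right ?_)
  rw [Ideal.span_singleton_mul_span_singleton]
  exact Ideal.span_singleton_le_span_singleton.2 h

theorem elbez_dvd (q : ℂ[X]) {ι : Type} (T : Finset ι) {w : ι → Fin 3 → ℂ} {m : ι → ℕ} {G : S}
    (hw : ∀ i ∈ T, w i 2 = 1) (hq : ∀ i ∈ T, w i 1 ^ 2 = q.eval (w i 0))
    (hne : ∀ i ∈ T, ∀ j ∈ T, i ≠ j → w i ≠ w j) (hm : ∀ i ∈ T, G ∈ mx (w i) ^ m i) {A B : ℂ[X]}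
    (hAB : ∀ (R : Type) [CommRing R] [Algebra ℂ R] (ξ η : R), η ^ 2 = aeval ξ q →
        MvPolynomial.aeval ![ξ, η, 1] G = aeval ξ A + aeval ξ B * η) :
    ∏ i ∈ T, (X - C (w i 0)) ^ m i ∣ A ^ 2 - B ^ 2 * q := by
  let R := QuadraticAlgebra ℂ[X] q 0
  let f : ℂ[X] →+* R := algebraMap ℂ[X] R
  let η : R := QuadraticAlgebra.omega
  have hf : ∀ p : ℂ[X], aeval (f X) p = f p := fun p => by
    have := Polynomial.aeval_algebraMap_apply R (X : ℂ[X]) p
    rwa [aeval_X_left_apply] at this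
  have hC : ∀ c : ℂ, algebraMap ℂ R c = f (C c) := fun c => rfl
  have hη : η ^ 2 = f q := by
    rw [pow_two]
    exact QuadraticAlgebra.omega_mul_omega_eq_mk
  have hη' : (-η) ^ 2 = f q := by rw [neg_sq, hη]
  have hG : G ∈ ∏ i ∈ T, mx (w i) ^ m i := by
    rw [Ideal.prod_eq_iInf_of_pairwise_isCoprime
      fun i hi j hj hij => (elbez_coprime (hne i hi j hj hij)).pow]
    simpa [Ideal.mem_iInf] using hm
  let φ : S →ₐ[ℂ] R := MvPolynomial.aeval ![f X, η, 1]
  let ψ : S →ₐ[ℂ] R := MvPolynomial.aeval ![f X, -η, 1]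
  have h1 : φ G ∈ ∏ i ∈ T, (mx (w i)).map φ ^ m i := by
    have := Ideal.mem_map_of_mem φ hG
    rw [← Ideal.mapHom_apply, map_prod] at this
    simpa [Ideal.map_pow] using this
  have h2 : ψ G ∈ ∏ i ∈ T, (mx (w i)).map ψ ^ m i := by
    have := Ideal.mem_map_of_mem ψ hG
    rw [← Ideal.mapHom_apply, map_prod] at this
    simpa [Ideal.map_pow] using this
  have h3 := Ideal.mul_mem_mul h1 h2
  rw [← Finset.prod_mul_distrib] at h3
  have h4 : ∏ i ∈ T, ((mx (w i)).map φ ^ m i * (mx (w i)).map ψ ^ m i) ≤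
      ∏ i ∈ T, Ideal.span {f ((X - C (w i 0)) ^ m i)} := by
    refine Finset.prod_le_prod' fun i hi => ?_
    rw [← mul_pow, map_pow, ← Ideal.span_singleton_pow]
    refine Ideal.pow_right_mono ?_ _
    refine (Ideal.mul_mono (elbez_map_le _ _ (hw i hi)) (elbez_map_le _ _ (hw i hi))).trans ?_
    rw [map_sub, ← hC]
    refine elbez_mul_le ?_
    have e : (η - algebraMap ℂ R (w i 1)) * (-η - algebraMap ℂ R (w i 1)) =
        -f (q - C (q.eval (w i 0))) := by
      rw [map_sub, ← hη, ← hq i hi, map_pow, map_pow, ← hC]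
      ring
    rw [e, dvd_neg, hC, ← map_sub]
    exact map_dvd f (X_sub_C_dvd_sub_C_eval)
  have h5 := h4 h3
  rw [Ideal.prod_span_singleton, Ideal.mem_span_singleton, ← map_prod] at h5
  have h6 : φ G * ψ G = f (A ^ 2 - B ^ 2 * q) := by
    have e1 : φ G = f A + f B * η := by
      have := hAB R (f X) η (by rw [hf, hη])
      rwa [hf, hf] at this
    have e2 : ψ G = f A + f B * -η := by
      have := hAB R (f X) (-η) (by rw [hf, hη'])
      rwa [hf, hf] at this
    rw [e1, e2, map_sub, map_mul, map_pow, map_pow, ← hη]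
    ring
  rw [h6] at h5
  exact QuadraticAlgebra.algebraMap_dvd_iff_dvd.1 h5

theorem elbez_zero {q A B : ℂ[X]} (h3 : q.natDegree = 3) (h : A ^ 2 - B ^ 2 * q = 0) :
    A = 0 ∧ B = 0 := by
  have hq : q ≠ 0 := by
    rintro rfl
    simp at h3
  rw [sub_eq_zero] at h
  have hB : B = 0 := by
    by_contra hB
    have := congrArg natDegree h
    rw [natDegree_mul (pow_ne_zero _ hB) hq, natDegree_pow, natDegree_pow, h3] at this
    omega
  subst hB
  simpa using h

theorem elbez_deg {q A B : ℂ[X]} (h3 : q.natDegree = 3) {n k : ℕ}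
    (hA : A ≠ 0 → 2 * A.natDegree + k ≤ n) (hB : B ≠ 0 → 2 * B.natDegree + 3 + k ≤ n)
    (h : A ^ 2 - B ^ 2 * q ≠ 0) : (A ^ 2 - B ^ 2 * q).natDegree + k ≤ n := by
  have h1 : (A ^ 2).natDegree = 2 * A.natDegree := natDegree_pow _ _
  have h2 : (B ^ 2 * q).natDegree ≤ 2 * B.natDegree + 3 := by
    refine natDegree_mul_le.trans ?_
    rw [natDegree_pow, h3]
  have h4 := natDegree_sub_le (A ^ 2) (B ^ 2 * q)
  by_cases a0 : A = 0
  · have b0 : B ≠ 0 := by
      rintro rfl
      simp [a0] at h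
    have := hB b0
    rw [a0, natDegree_zero] at h1
    rw [a0] at h4
    rw [a0]
    omega
  · have := hA a0
    by_cases b0 : B = 0
    · have e : A ^ 2 - B ^ 2 * q = A ^ 2 := by simp [b0]
      rw [e]
      omega
    · have := hB b0
      omega

/-- Bezout theorem for the Legendre cubic. -/
theorem bez (μ : ℂ) {ι : Type} [Fintype ι] {v : ι → Fin 3 → ℂ} (hs : Sep v)
    (hc : ∀ i, OnC μ (v i)) {G : S} {d : ℕ} {m : ι → ℕ} (hG : G.IsHomogeneous d)
    (hm : ∀ i, G ∈ mx (v i) ^ m i) (hlt : 3 * d < ∑ i, m i)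
    {R : Type} [CommRing R] [Algebra ℂ R] (ξ η : R)
    (h : η ^ 2 = ξ * (ξ - 1) * (ξ - algebraMap ℂ R μ)) :
    MvPolynomial.aeval ![ξ, η, 1] G = 0 := by
  classical
  let q : ℂ[X] := X * (X - 1) * (X - C μ)
  have h3 : q.natDegree = 3 := by
    simp only [q]
    compute_degree!
  have hinf : ∀ i, v i 2 = 0 → v i 1 ≠ 0 ∧ (v i 1)⁻¹ • v i = ![0, 1, 0] := by
    intro i hi
    have h0 : v i 0 = 0 := by
      have := hc i
      simp only [OnC, hi, mul_zero, sub_zero] at this
      simpa using this.symm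
    have h1 : v i 1 ≠ 0 := by
      intro h1
      apply hs.1 i
      funext j
      fin_cases j <;> simp [h0, h1, hi]
    refine ⟨h1, ?_⟩
    funext j
    fin_cases j <;> simp [h0, h1, hi]
  obtain ⟨k, hk, hk'⟩ : ∃ k, G ∈ mx ![0, 1, 0] ^ k ∧
      ∑ i ∈ Finset.univ.filter (fun i => ¬ v i 2 ≠ 0), m i ≤ k := by
    by_cases hex : ∃ i, v i 2 = 0
    · obtain ⟨i, hi⟩ := hex
      refine ⟨m i, ?_, ?_⟩
      · rw [← (hinf i hi).2]
        exact mem_pow_smul_of_mem hG _ (inv_ne_zero (hinf i hi).1) (hm i)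
      · have : Finset.univ.filter (fun j => ¬ v j 2 ≠ 0) = {i} := by
          ext j
          simp only [Finset.mem_filter, Finset.mem_univ, true_and, not_not, Finset.mem_singleton]
          refine ⟨fun hj => ?_, fun hj => hj ▸ hi⟩
          by_contra hji
          apply hs.2 j i hji (v j 1 * (v i 1)⁻¹)
          rw [mul_smul, (hinf i hi).2, ← (hinf j hj).2, smul_smul,
            mul_inv_cancel₀ (hinf j hj).1, one_smul]
        rw [this, Finset.sum_singleton]
    · refine ⟨0, by simp, ?_⟩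
      refine (Finset.sum_eq_zero fun i hi => ?_).le
      exact absurd ⟨i, not_not.1 (Finset.mem_filter.1 hi).2⟩ hex
  obtain ⟨A, B, hAB, hA, hB, -⟩ := red q h3 hG hk
  let T := Finset.univ.filter fun i => v i 2 ≠ 0
  have hT : ∀ i ∈ T, v i 2 ≠ 0 := fun i hi => (Finset.mem_filter.1 hi).2
  have hd := elbez_dvd q T (w := fun i => (v i 2)⁻¹ • v i) (m := m) (G := G)
    (fun i hi => by simp [hT i hi])
    (fun i hi => by
      have h0 := hT i hi
      have h1 : v i 1 ^ 2 * v i 2 = v i 0 * (v i 0 - v i 2) * (v i 0 - μ * v i 2) := hc i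
      simp only [q, Pi.smul_apply, smul_eq_mul, eval_mul, eval_sub, eval_X, eval_one, eval_C]
      field_simp
      linear_combination h1)
    (fun i hi j hj hij he => hs.2 i j hij (v i 2 * (v j 2)⁻¹) (by
      rw [mul_smul, ← he, smul_smul, mul_inv_cancel₀ (hT i hi), one_smul]))
    (fun i hi => mem_pow_smul_of_mem hG _ (inv_ne_zero (hT i hi)) (hm i)) hAB
  have hN : A ^ 2 - B ^ 2 * q = 0 := by
    by_contra hN
    have h4 := natDegree_le_of_dvd hd hN
    rw [natDegree_prod_of_monic _ _ fun i _ => (monic_X_sub_C _).pow _] at h4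
    simp only [natDegree_pow, natDegree_X_sub_C, mul_one] at h4
    have h5 := elbez_deg h3 hA hB hN
    have h6 := Finset.sum_filter_add_sum_filter_not Finset.univ (fun i => v i 2 ≠ 0) m
    simp only [T] at h4
    omega
  obtain ⟨rfl, rfl⟩ := elbez_zero h3 hN
  rw [hAB R ξ η (by simpa [q] using h)]
  simp

end Pool.Agent.P.MP_3c83d0_ag
end

-- part Pool.Agent.P.MP_3c83d0_ag.ElKerF
section

open MvPolynomial

namespace Pool.Agent.P.MP_3c83d0_ag

/-- Elimination of one variable from two coprime polynomials. -/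
theorem elim_one {R : Type} [CommRing R] [IsDomain R] [UniqueFactorizationMonoid R]
    {Φ Ψ : Polynomial R} (hΦ : Irreducible Φ) (hd : 0 < Φ.natDegree) (h : ¬Φ ∣ Ψ) :
    ∃ r : R, r ≠ 0 ∧ Polynomial.C r ∈ Ideal.span {Φ, Ψ} := by
  have hp : Φ.IsPrimitive := hΦ.isPrimitive hd.ne'
  have hi : Irreducible (Φ.map (algebraMap R (FractionRing R))) :=
    (hp.irreducible_iff_irreducible_map_fraction_map (K := FractionRing R)).1 hΦ
  have hn : ¬Φ.map (algebraMap R (FractionRing R)) ∣ Ψ.map (algebraMap R (FractionRing R)) :=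
    fun hh => h (hp.dvd_of_fraction_map_dvd_fraction_map hh)
  obtain ⟨a, b, hab⟩ := hi.coprime_iff_not_dvd.2 hn
  obtain ⟨s, hs, ha⟩ := IsLocalization.integerNormalization_spec (nonZeroDivisors R) a
  obtain ⟨t, ht, hb⟩ := IsLocalization.integerNormalization_spec (nonZeroDivisors R) b
  refine ⟨s * t, mul_ne_zero (nonZeroDivisors.ne_zero hs) (nonZeroDivisors.ne_zero ht), ?_⟩
  rw [Ideal.mem_span_pair]
  refine ⟨Polynomial.C t * IsLocalization.integerNormalization (nonZeroDivisors R) a,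
    Polynomial.C s * IsLocalization.integerNormalization (nonZeroDivisors R) b, ?_⟩
  apply Polynomial.map_injective (algebraMap R (FractionRing R)) (IsFractionRing.injective R _)
  simp only [Polynomial.map_add, Polynomial.map_mul, Polynomial.map_C, ha, hb, Algebra.smul_def,
    Polynomial.algebraMap_apply, map_mul]
  linear_combination
    (Polynomial.C (algebraMap R (FractionRing R) s) *
      Polynomial.C (algebraMap R (FractionRing R) t)) * hab

theorem elkerf_scale {σ A : Type} [CommRing A] [Algebra ℂ A] {φ : MvPolynomial σ ℂ} {d : ℕ}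
    (hφ : φ.IsHomogeneous d) (c : A) (v : σ → A) :
    aeval (fun i => v i * c) φ = aeval v φ * c ^ d := by
  rw [aeval_def, aeval_def, eval₂_eq, eval₂_eq, Finset.sum_mul]
  refine Finset.sum_congr rfl fun s hs => ?_
  have h1 : ∑ i ∈ s.support, s i = d := by
    have := hφ (mem_support_iff.1 hs)
    simpa [Finsupp.weight_apply, Finsupp.sum] using this
  simp only [mul_pow, Finset.prod_mul_distrib, Finset.prod_pow_eq_pow_sum, h1, mul_assoc]

theorem elkerf_symm (r : MvPolynomial (Fin 2) ℂ) :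
    finSuccEquiv ℂ 2 (rename Fin.succ r) = Polynomial.C r := by
  have : (finSuccEquiv ℂ 2).toAlgHom.comp (rename Fin.succ) =
      (IsScalarTower.toAlgHom ℂ (MvPolynomial (Fin 2) ℂ) (Polynomial (MvPolynomial (Fin 2) ℂ))) := by
    ext1 i
    simp [finSuccEquiv_X_succ]
  exact DFunLike.congr_fun this r

theorem elkerf_core {F H : S} (hirr : Irreducible F) (h : ¬F ∣ H) :
    ∃ r : MvPolynomial (Fin 2) ℂ, r ≠ 0 ∧ ∃ a b : S, a * F + b * H = rename Fin.succ r := by
  have hi : Irreducible (finSuccEquiv ℂ 2 F) := (MulEquiv.irreducible_iff _).2 hirr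
  have hn : ¬finSuccEquiv ℂ 2 F ∣ finSuccEquiv ℂ 2 H := fun hh => h ((map_dvd_iff _).1 hh)
  have key : ∃ r : MvPolynomial (Fin 2) ℂ, r ≠ 0 ∧
      Polynomial.C r ∈ Ideal.span {finSuccEquiv ℂ 2 F, finSuccEquiv ℂ 2 H} := by
    rcases Nat.eq_zero_or_pos (finSuccEquiv ℂ 2 F).natDegree with h0 | h0
    · obtain ⟨r, hr⟩ := Polynomial.natDegree_eq_zero.1 h0
      refine ⟨r, fun h1 => hi.ne_zero ?_, ?_⟩
      · rw [← hr, h1, map_zero]
      · rw [hr]
        exact Ideal.subset_span (by simp)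
    · exact elim_one hi h0 hn
  obtain ⟨r, hr, hm⟩ := key
  obtain ⟨a, b, hab⟩ := Ideal.mem_span_pair.1 hm
  refine ⟨r, hr, (finSuccEquiv ℂ 2).symm a, (finSuccEquiv ℂ 2).symm b, ?_⟩
  apply (finSuccEquiv ℂ 2).injective
  rw [elkerf_symm, ← hab]
  simp

theorem elkerf_inj {r : MvPolynomial (Fin 2) ℂ}
    (h : aeval (![Polynomial.C Polynomial.X * Polynomial.X, Polynomial.X] :
      Fin 2 → Polynomial (Polynomial ℂ)) r = 0) : r = 0 := by
  have h1 : (X 1 : MvPolynomial (Fin 2) ℂ) * r = 0 := by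
    apply MvPolynomial.funext
    intro x
    rw [map_mul, map_zero, eval_X]
    by_cases hx : x 1 = 0
    · rw [hx, zero_mul]
    · have h2 := congrArg (Polynomial.eval₂AlgHom (Polynomial.aeval (x 0 / x 1) :
        Polynomial ℂ →ₐ[ℂ] ℂ) (x 1) fun _ => Commute.all _ _) h
      rw [map_zero, ← AlgHom.comp_apply, comp_aeval] at h2
      have h3 : (fun i => (Polynomial.eval₂AlgHom (Polynomial.aeval (x 0 / x 1) :
          Polynomial ℂ →ₐ[ℂ] ℂ) (x 1) fun _ => Commute.all _ _)
          ((![Polynomial.C Polynomial.X * Polynomial.X, Polynomial.X] :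
            Fin 2 → Polynomial (Polynomial ℂ)) i)) = x := by
        funext i
        fin_cases i
        · simp [hx]
        · simp
      rw [h3] at h2
      rw [← coe_aeval_eq_eval]
      simp only [RingHom.coe_coe]
      rw [h2, mul_zero]
  exact (mul_eq_zero.1 h1).resolve_left (X_ne_zero 1)

theorem elkerf_const {L : Type} [Field L] [Algebra ℂ L] {r : MvPolynomial (Fin 2) ℂ} (hr : r ≠ 0)
    {u : Fin 2 → L} (hu : u 1 ≠ 0)
    (h : aeval (fun i => Polynomial.C (u i) * Polynomial.X : Fin 2 → Polynomial L) r = 0) :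
    ∃ c : ℂ, u 0 = u 1 * algebraMap ℂ L c := by
  by_cases ht : IsAlgebraic ℂ (u 0 / u 1)
  · obtain ⟨c, hc⟩ : u 0 / u 1 ∈ (algebraMap ℂ L).range :=
      minpoly.mem_range_of_degree_eq_one ℂ _
        (IsAlgClosed.degree_eq_one_of_irreducible ℂ (minpoly.irreducible ht.isIntegral))
    exact ⟨c, by rw [hc]; field_simp⟩
  · exfalso
    have hinj : Function.Injective (Polynomial.aeval (u 0 / u 1) : Polynomial ℂ →ₐ[ℂ] L) :=
      transcendental_iff_injective.1 ht
    apply hr
    apply elkerf_inj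
    apply Polynomial.map_injective
      ((Polynomial.aeval (u 0 / u 1) : Polynomial ℂ →ₐ[ℂ] L) : Polynomial ℂ →+* L) hinj
    have h2 := congrArg ((Polynomial.aeval (Polynomial.C (u 1)⁻¹ * Polynomial.X) :
      Polynomial L →ₐ[L] Polynomial L).restrictScalars ℂ) h
    rw [map_zero, ← AlgHom.comp_apply, comp_aeval] at h2
    rw [Polynomial.map_zero, ← Polynomial.coe_mapAlgHom, ← AlgHom.comp_apply, comp_aeval, ← h2]
    congr 2
    funext i
    fin_cases i
    · simp [div_eq_mul_inv, mul_assoc]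
    · simp [← mul_assoc, ← Polynomial.C_mul, hu]

theorem elkerf_perm {L : Type} [Field L] [Algebra ℂ L] {F H : S} {d e : ℕ} (hF : F.IsHomogeneous d)
    (hirr : Irreducible F) (hH : H.IsHomogeneous e) {f : Fin 3 → L} (h1 : aeval f F = 0)
    (h2 : aeval f H = 0) (h : ¬F ∣ H) (p : Equiv.Perm (Fin 3)) (hk : f (p 2) ≠ 0) :
    ∃ c : ℂ, f (p 1) = f (p 2) * algebraMap ℂ L c := by
  have hi : Irreducible (renameEquiv ℂ p.symm F) := (MulEquiv.irreducible_iff _).2 hirr
  have hn : ¬renameEquiv ℂ p.symm F ∣ renameEquiv ℂ p.symm H := fun hh => h ((map_dvd_iff _).1 hh)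
  obtain ⟨r, hr, a, b, hab⟩ := elkerf_core hi hn
  have h3 := congrArg
    (aeval (fun i => Polynomial.C (f (p i)) * Polynomial.X : Fin 3 → Polynomial L)) hab
  have h4 : ∀ {G : S} {n : ℕ}, G.IsHomogeneous n → aeval f G = 0 →
      aeval (fun i => Polynomial.C (f (p i)) * Polynomial.X : Fin 3 → Polynomial L)
        (renameEquiv ℂ p.symm G) = 0 := by
    intro G n hG h0
    rw [renameEquiv_apply, aeval_rename]
    have h5 : ((fun i => Polynomial.C (f (p i)) * Polynomial.X : Fin 3 → Polynomial L) ∘ p.symm) =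
        fun i => Polynomial.C (f i) * Polynomial.X := by
      funext i
      simp
    have h6 := comp_aeval_apply (IsScalarTower.toAlgHom ℂ L (Polynomial L)) G (f := f)
    rw [h0, map_zero] at h6
    rw [h5, elkerf_scale hG]
    have h7 : aeval (fun i => Polynomial.C (f i) : Fin 3 → Polynomial L) G = 0 := h6.symm
    rw [h7, zero_mul]
  rw [map_add, map_mul, map_mul, h4 hF h1, h4 hH h2, mul_zero, mul_zero, add_zero,
    aeval_rename] at h3
  exact elkerf_const hr (u := fun i => f (p i.succ)) hk h3.symm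

theorem elkerf_exists : ∀ j k : Fin 3, ¬j = k → ∃ p : Equiv.Perm (Fin 3), p 1 = j ∧ p 2 = k := by
  decide

/-- A nonconstant point of an irreducible plane curve is a generic point. -/
theorem ker_form {L : Type} [Field L] [Algebra ℂ L] {F H : S} {d e : ℕ} (hF : F.IsHomogeneous d)
    (hirr : Irreducible F) (hH : H.IsHomogeneous e) {f : Fin 3 → L} (h1 : aeval f F = 0)
    (h2 : aeval f H = 0)
    (hnc : ¬∃ (u : L) (c : Fin 3 → ℂ), ∀ i, f i = u * algebraMap ℂ L (c i)) : F ∣ H := by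
  by_contra h
  apply hnc
  by_cases h0 : ∀ k, f k = 0
  · exact ⟨0, 0, fun i => by rw [h0 i, zero_mul]⟩
  obtain ⟨k, hk⟩ := not_forall.1 h0
  have key : ∀ j, ∃ c : ℂ, f j = f k * algebraMap ℂ L c := by
    intro j
    by_cases hj : j = k
    · exact ⟨1, by rw [hj, map_one, mul_one]⟩
    obtain ⟨p, hp1, hp2⟩ := elkerf_exists j k hj
    have := elkerf_perm hF hirr hH h1 h2 h p (by rw [hp2]; exact hk)
    rwa [hp1, hp2] at this
  choose c hc using key
  exact ⟨f k, c, hc⟩

end Pool.Agent.P.MP_3c83d0_ag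
end

-- part Pool.Agent.P.MP_3c83d0_ag.ElDom
section

open MvPolynomial

namespace Pool.Agent.P.MP_3c83d0_ag

theorem Place.exists_tp {L Ω σ : Type} [Field L] [Field Ω] (P : Place L Ω)
    {F : MvPolynomial σ L} (hF : F ≠ 0) :
    ∃ (c : L) (G : MvPolynomial σ Ω), c ≠ 0 ∧ G ≠ 0 ∧ P.TP (C c * F) G := by
  obtain ⟨s0, hs0, h0, hm⟩ := P.exists_max F.support (fun s => coeff s F)
    (by obtain ⟨s, hs⟩ := support_nonempty.2 hF; exact ⟨s, hs, mem_support_iff.1 hs⟩)
  have hr : C (coeff s0 F)⁻¹ * F ∈ Set.range (map P.O.subtype : MvPolynomial σ P.O → _) := by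
    rw [mem_range_map_iff_coeffs_subset]
    intro c hc
    obtain ⟨s, hs, rfl⟩ := mem_coeffs_iff.1 (Finset.mem_coe.1 hc)
    have hs' : s ∈ F.support := by
      rw [mem_support_iff] at hs ⊢
      intro h
      rw [coeff_C_mul, h, mul_zero] at hs
      exact hs rfl
    refine ⟨⟨_, hm s hs'⟩, ?_⟩
    rw [coeff_C_mul, mul_comm, ← div_eq_mul_inv]
    rfl
  obtain ⟨H, hH⟩ := hr
  refine ⟨(coeff s0 F)⁻¹, map P.ev H, inv_ne_zero h0, fun hz => ?_, H, hH, rfl⟩
  have h1 : coeff s0 H = 1 := by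
    apply Subtype.ext
    have := congrArg (coeff s0) hH
    rw [coeff_map, coeff_C_mul, inv_mul_cancel₀ h0] at this
    exact this
  have h2 := congrArg (coeff s0) hz
  rw [coeff_map, h1, map_one, coeff_zero] at h2
  exact one_ne_zero h2

theorem Place.TP.hom {L Ω σ : Type} [Field L] [Field Ω] {P : Place L Ω}
    {F : MvPolynomial σ L} {G : MvPolynomial σ Ω} (h : P.TP F G) {d : ℕ}
    (hF : F.IsHomogeneous d) : G.IsHomogeneous d := by
  obtain ⟨H, rfl, rfl⟩ := h
  exact (IsHomogeneous.of_map P.O.subtype_injective hF).map _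

theorem Place.TP.mult {σ : Type} {P : Place ℂ ℂ} {F G : MvPolynomial σ ℂ} (h : P.TP F G)
    {p v : σ → ℂ} (hp : ∀ j, P.To (p j) (v j)) {m : ℕ} (hF : F ∈ mx p ^ m) : G ∈ mx v ^ m := by
  obtain ⟨H, rfl, rfl⟩ := h
  let π : σ → P.O := fun j => ⟨p j, (hp j).mem⟩
  have key : ∀ (g : P.O →+* ℂ) (w : σ → ℂ), (∀ j, g (π j) = w j) → ∀ K : MvPolynomial σ P.O,
      LocX.tr w (map g K) =
        map g (aeval (fun j => (X j + C (π j) : MvPolynomial σ P.O)) K) := by
    intro g w hw K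
    induction K using MvPolynomial.induction_on with
    | C c => simp
    | add K K' h1 h2 => simp only [map_add, h1, h2]
    | mul_X K j h1 =>
      rw [map_mul, map_mul, map_mul, map_mul, h1, map_X, LocX.tr_X, aeval_X, map_add, map_X,
        map_C, hw]
  rw [LocX.mem_pow_iff, key P.O.subtype p fun j => rfl, mem_pow_idealOfVars_iff'] at hF
  rw [LocX.mem_pow_iff, key P.ev v fun j => (hp j).2, mem_pow_idealOfVars_iff']
  intro x hx
  have h1 := hF x hx
  rw [coeff_map] at h1 ⊢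
  rw [P.O.subtype_injective (h1.trans (map_zero _).symm), map_zero]

theorem eldom_scale {R A σ : Type} [CommRing R] [CommRing A] (g : R →+* A) {H : MvPolynomial σ R}
    {N : ℕ} (hH : H.IsHomogeneous N) (u : A) (w : σ → A) :
    eval₂ g (fun i => u * w i) H = u ^ N * eval₂ g w H := by
  rw [eval₂_eq, eval₂_eq, Finset.mul_sum]
  refine Finset.sum_congr rfl fun s hs => ?_
  rw [hH.degree_eq_sum_deg_support hs]
  simp only [mul_pow, Finset.prod_mul_distrib, Finset.prod_pow_eq_pow_sum]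
  ring

theorem eldom_homog {R : Type} [CommRing R] (h : MvPolynomial (Fin 3) R) :
    ∃ (N : ℕ) (H : MvPolynomial (Fin 3) R), H.IsHomogeneous N ∧
      ∀ (A : Type) [CommRing A] (g : R →+* A) (w : Fin 3 → A), w 2 = 1 →
        eval₂ g w H = eval₂ g w h := by
  refine ⟨h.totalDegree, ∑ e ∈ Finset.range (h.totalDegree + 1),
    X 2 ^ (h.totalDegree - e) * homogeneousComponent e h, ?_, ?_⟩
  · refine IsHomogeneous.sum _ _ _ fun e he => ?_
    have h1 := (isHomogeneous_X_pow (R := R) (2 : Fin 3) (h.totalDegree - e)).mul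
      (homogeneousComponent_isHomogeneous e h)
    rwa [Nat.sub_add_cancel (Nat.lt_succ_iff.1 (Finset.mem_range.1 he))] at h1
  · intro A _ g w hw
    conv_rhs => rw [← sum_homogeneousComponent h]
    rw [eval₂_sum, eval₂_sum]
    refine Finset.sum_congr rfl fun e _ => ?_
    rw [eval₂_mul, eval₂_pow, eval₂_X, hw, one_pow, one_mul]

theorem eldom_mul {L Ω σ : Type} [Field L] [Field Ω] {P : Place L Ω}
    {F F' : MvPolynomial σ L} {G G' : MvPolynomial σ Ω} (h : P.TP F G) (h' : P.TP F' G') :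
    P.TP (F * F') (G * G') := by
  obtain ⟨H, rfl, rfl⟩ := h
  obtain ⟨H', rfl, rfl⟩ := h'
  exact ⟨H * H', map_mul _ _ _, map_mul _ _ _⟩

theorem eldom_uniq {L Ω σ : Type} [Field L] [Field Ω] {P : Place L Ω}
    {F : MvPolynomial σ L} {G G' : MvPolynomial σ Ω} (h : P.TP F G) (h' : P.TP F G') :
    G = G' := by
  obtain ⟨H, rfl, rfl⟩ := h
  obtain ⟨H', e, rfl⟩ := h'
  rw [map_injective _ P.O.subtype_injective e]

theorem eldom_C {L Ω σ : Type} [Field L] [Field Ω] {P : Place L Ω} {a : L} {b : Ω}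
    (h : P.To a b) : P.TP (C a : MvPolynomial σ L) (C b) := by
  obtain ⟨ha, rfl⟩ := h
  exact ⟨C ⟨a, ha⟩, map_C _ _, map_C _ _⟩

theorem eldom_dvd {σ : Type} {P : Place ℂ ℂ} {F G K K' : MvPolynomial σ ℂ} (hFG : P.TP F G)
    (hG : G ≠ 0) (hK : P.TP K K') (hd : F ∣ K) : G ∣ K' := by
  obtain ⟨r, rfl⟩ := hd
  by_cases hr : r = 0
  · subst hr
    have h0 : P.TP (F * 0) (0 : MvPolynomial σ ℂ) := ⟨0, by simp, by simp⟩
    rw [eldom_uniq hK h0]
    exact dvd_zero _
  obtain ⟨c, rb, hc, hrb, hT⟩ := P.exists_tp hr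
  have h1 := eldom_mul hFG hT
  rcases P.to_or c⁻¹ with ⟨c', hc'⟩ | ⟨-, h0⟩
  · have h2 := eldom_mul (eldom_C (σ := σ) hc') h1
    have e : C c⁻¹ * (F * (C c * r)) = F * r := by
      rw [mul_left_comm F, ← mul_assoc, ← map_mul, inv_mul_cancel₀ hc, map_one, one_mul]
    rw [e] at h2
    rw [eldom_uniq hK h2]
    exact Dvd.dvd.mul_left (dvd_mul_right _ _) _
  · rw [inv_inv] at h0
    have h2 := eldom_mul (eldom_C (σ := σ) h0) hK
    rw [mul_left_comm, map_zero, zero_mul] at h2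
    exact absurd (eldom_uniq h1 h2) (mul_ne_zero hG hrb)

/-- A point of the specialised curve is the value of the generic point at a place. -/
theorem dom {L M : Type} [Field L] [Field M] [Algebra ℂ L] [Algebra ℂ M] [IsAlgClosed M]
    (P : Place ℂ ℂ) {F G : S} {d : ℕ} (hF : F.IsHomogeneous d) (hirr : Irreducible F)
    (hFG : P.TP F G) (hG : G ≠ 0) {f : Fin 3 → L} (h1 : aeval f F = 0)
    (hnc : ¬∃ (u : L) (c : Fin 3 → ℂ), ∀ i, f i = u * algebraMap ℂ L (c i)) (h2 : f 2 ≠ 0)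
    {ξ η : M} (hz : aeval ![ξ, η, 1] G = 0) :
    ∃ Q : Place L M, P.Over Q ∧ Q.To (f 0 / f 2) ξ ∧ Q.To (f 1 / f 2) η := by
  let w : Fin 3 → L := ![f 0 / f 2, f 1 / f 2, 1]
  let g1 : P.O →+* L := (algebraMap ℂ L).comp P.O.subtype
  let g2 : P.O →+* M := (algebraMap ℂ M).comp P.ev
  have hw : f = fun i => f 2 * w i := by
    funext i
    fin_cases i
    · show f 0 = f 2 * (f 0 / f 2)
      field_simp
    · show f 1 = f 2 * (f 1 / f 2)
      field_simp
    · show f 2 = f 2 * 1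
      rw [mul_one]
  obtain ⟨Q, hQ⟩ := exists_place (eval₂Hom g1 w) (eval₂Hom g2 ![ξ, η, 1]) fun h hh => by
    obtain ⟨N, H, hH, he⟩ := eldom_homog h
    rw [coe_eval₂Hom] at hh ⊢
    rw [← he L g1 w rfl] at hh
    rw [← he M g2 ![ξ, η, 1] rfl]
    have h3 : aeval f (map P.O.subtype H) = 0 := by
      rw [aeval_def, eval₂_map, hw]
      exact (eldom_scale g1 hH (f 2) w).trans (by rw [hh, mul_zero])
    have h4 := ker_form hF hirr (hH.map P.O.subtype) h1 h3 hnc
    obtain ⟨r, hr⟩ := eldom_dvd hFG hG ⟨H, rfl, rfl⟩ h4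
    have h5 : aeval ![ξ, η, 1] (map P.ev H) = 0 := by rw [hr, map_mul, hz, zero_mul]
    rwa [aeval_def, eval₂_map] at h5
  refine ⟨Q, ?_, ?_, ?_⟩
  · rintro a b ⟨ha, rfl⟩
    have := hQ (C ⟨a, ha⟩)
    rwa [eval₂Hom_C, eval₂Hom_C] at this
  · have := hQ (X 0)
    rwa [eval₂Hom_X', eval₂Hom_X'] at this
  · have := hQ (X 1)
    rwa [eval₂Hom_X', eval₂Hom_X'] at this

end Pool.Agent.P.MP_3c83d0_ag
end

-- part Pool.Agent.P.MP_3c83d0_ag.ElKer
section

open MvPolynomial

namespace Pool.Agent.P.MP_3c83d0_ag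

open Cardinal in
theorem exists_indep {κ : Type} [Fintype κ] (b : κ → ℂ) (τ : Type) [Fintype τ] :
    ∃ t : τ → ℂ, AlgebraicIndependent (Algebra.adjoin ℚ (Set.range b)) t := by
  obtain ⟨ι, v, hv⟩ := exists_isTranscendenceBasis' (Algebra.adjoin ℚ (Set.range b)) ℂ
  have hR : #(Algebra.adjoin ℚ (Set.range b)) ≤ ℵ₀ := by
    have h := Algebra.lift_cardinalMk_adjoin_le ℚ (Set.range b)
    simp only [lift_id, Cardinal.mkRat] at h
    refine h.trans (max_le (max_le le_rfl ?_) le_rfl)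
    exact (Set.finite_range b).lt_aleph0.le
  have hK : ℵ₀ < #ℂ := by
    rw [mk_complex]; exact aleph0_lt_continuum
  have hc := IsAlgClosed.cardinal_eq_cardinal_transcendence_basis_of_aleph0_lt' v hv hR hK
  have hinf : Infinite ι := by
    rw [infinite_iff, ← hc]; exact hK.le
  let e : τ ↪ ι := (Fintype.equivFin τ).toEmbedding.trans
    ((Fin.valEmbedding).trans (Infinite.natEmbedding ι))
  exact ⟨v ∘ e, hv.1.comp e e.injective⟩

theorem indep_hom {n : ℕ} (a : Fin n × Fin 2 → ℂ) (ha : AlgebraicIndependent ℚ a) (l : ℂ)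
    (t : Fin n → ℂ)
    (ht : AlgebraicIndependent
      (Algebra.adjoin ℚ (Set.range fun o : Option (Fin n × Fin 2) => o.elim l a)) t) :
    AlgebraicIndependent ℚ fun x : Fin n × Fin 3 => t x.1 * ![a (x.1, 0), a (x.1, 1), 1] x.2 := by
  have h1 : AlgebraicIndependent ℚ (Sum.elim t a) := by
    refine ha.sumElim_of_tower ?_ ht
    rintro _ ⟨x, rfl⟩
    exact ⟨⟨a x, Algebra.subset_adjoin ⟨some x, rfl⟩⟩, rfl⟩
  let θ : MvPolynomial (Fin n × Fin 3) ℚ →ₐ[ℚ] MvPolynomial (Fin n ⊕ Fin n × Fin 2) ℚ :=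
    aeval fun x => X (Sum.inl x.1) * ![X (Sum.inr (x.1, 0)), X (Sum.inr (x.1, 1)), 1] x.2
  let A := MvPolynomial (Fin n × Fin 3) ℚ
  let K := FractionRing A
  let ι : A →ₐ[ℚ] K := IsScalarTower.toAlgHom ℚ A K
  have hι : Function.Injective ι := IsFractionRing.injective A K
  have hX : ∀ x, ι (X x) ≠ 0 := fun x h => X_ne_zero (R := ℚ) x (hι (h.trans (map_zero ι).symm))
  let ρ : MvPolynomial (Fin n ⊕ Fin n × Fin 2) ℚ →ₐ[ℚ] K :=
    aeval (Sum.elim (fun i => ι (X (i, 2))) fun y => ι (X (y.1, y.2.castSucc)) / ι (X (y.1, 2)))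
  have hρ : ρ.comp θ = ι := by
    refine MvPolynomial.algHom_ext ?_
    rintro ⟨i, j⟩
    have := hX (i, 2)
    fin_cases j
    · simp only [θ, ρ, AlgHom.comp_apply, aeval_X, map_mul, Sum.elim_inl]
      simp only [Fin.zero_eta, Matrix.cons_val_zero, aeval_X, Sum.elim_inr, Fin.castSucc_zero]
      exact mul_div_cancel₀ _ this
    · simp only [θ, ρ, AlgHom.comp_apply, aeval_X, map_mul, Sum.elim_inl]
      simp only [Fin.mk_one, Matrix.cons_val_one, Matrix.cons_val_zero, aeval_X, Sum.elim_inr,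
        Fin.castSucc_one]
      exact mul_div_cancel₀ _ this
    · simp only [θ, ρ, AlgHom.comp_apply, aeval_X, map_mul, Sum.elim_inl]
      simp
  have hθ : Function.Injective θ := by
    have : Function.Injective (ρ.comp θ) := hρ ▸ hι
    exact Function.Injective.of_comp (f := ρ) this
  have h2 : (aeval (Sum.elim t a)).comp θ =
      (aeval fun x : Fin n × Fin 3 => t x.1 * ![a (x.1, 0), a (x.1, 1), 1] x.2 :
        MvPolynomial (Fin n × Fin 3) ℚ →ₐ[ℚ] ℂ) := by
    refine MvPolynomial.algHom_ext ?_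
    rintro ⟨i, j⟩
    fin_cases j <;> simp [θ]
  rw [algebraicIndependent_iff_injective_aeval, ← h2]
  exact (algebraicIndependent_iff_injective_aeval.1 h1).comp hθ

theorem elker_prod {σ τ R : Type} [CommRing R] (w : σ → (τ →₀ ℕ)) (β : σ → R) (s : σ →₀ ℕ) :
    ∃ r : R, (s.prod fun o k => (monomial (w o) (β o) : MvPolynomial τ R) ^ k) =
      monomial (Finsupp.weight w s) r := by
  induction s using Finsupp.induction_linear with
  | zero => exact ⟨1, by simp⟩
  | add f g hf hg =>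
    obtain ⟨r, hr⟩ := hf
    obtain ⟨r', hr'⟩ := hg
    refine ⟨r * r', ?_⟩
    rw [Finsupp.prod_add_index' (fun _ => pow_zero _) (fun _ _ _ => pow_add _ _ _), hr, hr',
      monomial_mul, map_add]
  | single o k =>
    refine ⟨β o ^ k, ?_⟩
    rw [Finsupp.prod_single_index (by exact pow_zero _), monomial_pow, Finsupp.weight_single]

theorem elker_theta {σ τ R : Type} [CommRing R] [Algebra ℚ R] (w : σ → (τ →₀ ℕ)) (β : σ → R)
    (d : τ →₀ ℕ) (Ψ : MvPolynomial σ ℚ) :
    aeval (fun o => (monomial (w o) (β o) : MvPolynomial τ R))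
        (weightedHomogeneousComponent w d Ψ) =
      monomial d (coeff d (aeval (fun o => (monomial (w o) (β o) : MvPolynomial τ R)) Ψ)) := by
  classical
  induction Ψ using MvPolynomial.induction_on' with
  | monomial s c =>
    have hm : monomial s c ∈ weightedHomogeneousSubmodule ℚ w (Finsupp.weight w s) :=
      isWeightedHomogeneous_monomial w s c rfl
    obtain ⟨r, hr⟩ := elker_prod w β s
    have he : aeval (fun o => (monomial (w o) (β o) : MvPolynomial τ R)) (monomial s c) =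
        monomial (Finsupp.weight w s) (algebraMap ℚ R c * r) := by
      rw [aeval_monomial, hr, MvPolynomial.algebraMap_apply, C_mul_monomial]
    rw [weightedHomogeneousComponent_of_mem hm, he, coeff_monomial]
    by_cases h : d = Finsupp.weight w s
    · rw [if_pos h, if_pos h.symm, he, h]
    · rw [if_neg h, if_neg (Ne.symm h), map_zero, map_zero]
  | add p q hp hq => simp only [map_add, coeff_add, hp, hq]

/-- A principal ideal closed under weighted components has a homogeneous generator. -/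
theorem elker_hom {σ M : Type} [AddCommMonoid M] (w : σ → M) {Φ : MvPolynomial σ ℚ}
    (h0 : Φ ≠ 0) (h : ∀ d, Φ ∣ weightedHomogeneousComponent w d Φ) :
    ∃ d, Φ.IsWeightedHomogeneous w d := by
  classical
  obtain ⟨s, hs⟩ := ne_zero_iff.1 h0
  refine ⟨Finsupp.weight w s, ?_⟩
  obtain ⟨c, hc⟩ := h (Finsupp.weight w s)
  have hne : weightedHomogeneousComponent w (Finsupp.weight w s) Φ ≠ 0 := by
    intro h1
    have := coeff_weightedHomogeneousComponent (w := w) (Finsupp.weight w s) Φ s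
    rw [h1, if_pos rfl, coeff_zero] at this
    exact hs this.symm
  have hc0 : c ≠ 0 := by
    rintro rfl
    exact hne (by rw [hc, mul_zero])
  have hle : (weightedHomogeneousComponent w (Finsupp.weight w s) Φ).totalDegree ≤
      Φ.totalDegree := by
    refine totalDegree_le_of_support_subset ?_
    intro x hx
    rw [mem_support_iff, coeff_weightedHomogeneousComponent] at hx
    rw [mem_support_iff]
    intro h2
    simp [h2] at hx
  rw [hc, totalDegree_mul_of_isDomain h0 hc0] at hle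
  have hd : c.totalDegree = 0 := by omega
  rw [totalDegree_eq_zero_iff_eq_C] at hd
  have hk : coeff 0 c ≠ 0 := fun h3 => hc0 (by rw [hd, h3, map_zero])
  intro x hx
  refine weightedHomogeneousComponent_isWeightedHomogeneous (w := w) (Finsupp.weight w s) Φ ?_
  rw [hc, hd, mul_comm, coeff_C_mul]
  exact mul_ne_zero hk hx

/-- A kernel that meets the ring of the variables `some x` trivially is principal. -/
theorem elker_princ {σ : Type} [Fintype σ] (f : σ → ℂ) (hf : AlgebraicIndependent ℚ f) (l : ℂ) :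
    (∀ Ψ : MvPolynomial (Option σ) ℚ, aeval (fun o => o.elim l f) Ψ = 0 → Ψ = 0) ∨
    ∃ Φ : MvPolynomial (Option σ) ℚ, Φ ≠ 0 ∧ aeval (fun o => o.elim l f) Φ = 0 ∧
      ∀ Ψ : MvPolynomial (Option σ) ℚ, aeval (fun o => o.elim l f) Ψ = 0 → Φ ∣ Ψ := by
  let ev : MvPolynomial (Option σ) ℚ →ₐ[ℚ] ℂ := aeval fun o => o.elim l f
  by_cases hb : RingHom.ker ev = ⊥
  · left
    intro Ψ hΨ
    have : Ψ ∈ RingHom.ker ev := hΨ
    rwa [hb, Ideal.mem_bot] at this
  right
  obtain ⟨Φ, hΦ, hp⟩ := (RingHom.ker_isPrime ev).exists_mem_prime_of_ne_bot hb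
  let E := optionEquivLeft ℚ σ
  have hC : ∀ r : MvPolynomial σ ℚ, ev (E.symm (Polynomial.C r)) = 0 → r = 0 := by
    intro r hr
    have h1 : ∀ r : MvPolynomial σ ℚ, ev (E.symm (Polynomial.C r)) = aeval f r := by
      intro r
      induction r using MvPolynomial.induction_on with
      | C c => simp [E, ev]
      | add p q hp hq => simp only [map_add, hp, hq]
      | mul_X p x hp =>
        rw [map_mul, map_mul, map_mul, map_mul, hp]
        simp [E, ev]
    rw [h1] at hr
    exact algebraicIndependent_iff.1 hf r hr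
  have hirr : Irreducible (E Φ) := (MulEquiv.irreducible_iff E.toMulEquiv).2 hp.irreducible
  have hd : 0 < (E Φ).natDegree := by
    by_contra h
    have h0 : (E Φ).natDegree = 0 := by omega
    rw [Polynomial.natDegree_eq_zero] at h0
    obtain ⟨r, hr⟩ := h0
    have : r = 0 := hC r (by rw [hr, E.symm_apply_apply]; exact hΦ)
    rw [this, map_zero] at hr
    exact hirr.ne_zero hr.symm
  refine ⟨Φ, hp.ne_zero, hΦ, fun Ψ hΨ => ?_⟩
  by_contra hn
  have hn' : ¬E Φ ∣ E Ψ := fun h => hn (by simpa using map_dvd E.symm h)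
  obtain ⟨r, hr0, hr⟩ := elim_one hirr hd hn'
  obtain ⟨u, v, huv⟩ := Ideal.mem_span_pair.1 hr
  refine hr0 (hC r ?_)
  have h1 : ev Φ = 0 := hΦ
  have h2 : ev Ψ = 0 := hΨ
  rw [← huv]
  simp only [map_add, map_mul, E.symm_apply_apply, h1, h2, mul_zero, add_zero]

/-- The relations between homogeneous coordinates of generic points and one more number. -/
theorem ker_hom {n : ℕ} (a : Fin n × Fin 2 → ℂ) (ha : AlgebraicIndependent ℚ a) (l : ℂ)
    (hl : Transcendental ℚ l) (t : Fin n → ℂ)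
    (ht : AlgebraicIndependent
      (Algebra.adjoin ℚ (Set.range fun o : Option (Fin n × Fin 2) => o.elim l a)) t) :
    (∀ Ψ : MvPolynomial (Option (Fin n × Fin 3)) ℚ,
      aeval (fun o => o.elim l fun x => t x.1 * ![a (x.1, 0), a (x.1, 1), 1] x.2) Ψ = 0 → Ψ = 0) ∨
    ∃ (Φ : MvPolynomial (Option (Fin n × Fin 3)) ℚ) (i : Fin n) (e : ℕ), 0 < e ∧
      Φ.IsWeightedHomogeneous (fun o => o.elim 0 fun x => if x.1 = i then 1 else 0) e ∧
      ∀ Ψ : MvPolynomial (Option (Fin n × Fin 3)) ℚ,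
        aeval (fun o => o.elim l fun x => t x.1 * ![a (x.1, 0), a (x.1, 1), 1] x.2) Ψ = 0 →
          Φ ∣ Ψ := by
  classical
  rcases elker_princ _ (indep_hom a ha l t ht) l with h | ⟨Φ, h0, hΦ, hdvd⟩
  · exact Or.inl h
  right
  let R := Algebra.adjoin ℚ (Set.range fun o : Option (Fin n × Fin 2) => o.elim l a)
  let b : Option (Fin n × Fin 2) → R := fun o => ⟨o.elim l a, Algebra.subset_adjoin ⟨o, rfl⟩⟩
  let β : Option (Fin n × Fin 3) → R := fun o =>
    o.elim (b none) fun x => ![b (some (x.1, 0)), b (some (x.1, 1)), 1] x.2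
  let w : Option (Fin n × Fin 3) → (Fin n →₀ ℕ) := fun o => o.elim 0 fun x => Finsupp.single x.1 1
  let θ : MvPolynomial (Option (Fin n × Fin 3)) ℚ →ₐ[ℚ] MvPolynomial (Fin n) R :=
    aeval fun o => monomial (w o) (β o)
  let ev : MvPolynomial (Option (Fin n × Fin 3)) ℚ →ₐ[ℚ] ℂ :=
    aeval fun o => o.elim l fun x => t x.1 * ![a (x.1, 0), a (x.1, 1), 1] x.2
  have hcomp : ((aeval t : MvPolynomial (Fin n) R →ₐ[R] ℂ).restrictScalars ℚ).comp θ = ev := by
    refine MvPolynomial.algHom_ext ?_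
    rintro (_ | ⟨i, j⟩)
    · simp [θ, ev, w, β, b]
    · fin_cases j <;> simp [θ, ev, w, β, b, aeval_monomial, mul_comm]
  have hev : ∀ Ψ, ev Ψ = aeval t (θ Ψ) := fun Ψ => by rw [← hcomp]; rfl
  have hθ : θ Φ = 0 := algebraicIndependent_iff.1 ht _ (by rw [← hev]; exact hΦ)
  have hcm : ∀ d, Φ ∣ weightedHomogeneousComponent w d Φ := by
    intro d
    refine hdvd _ ?_
    have h1 : θ (weightedHomogeneousComponent w d Φ) = monomial d (coeff d (θ Φ)) :=
      elker_theta w β d Φ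
    have h2 := hev (weightedHomogeneousComponent w d Φ)
    rw [h1, hθ, coeff_zero, map_zero, map_zero] at h2
    exact h2
  obtain ⟨d, hd⟩ := elker_hom w h0 hcm
  have hw : ∀ (i : Fin n) (s : Option (Fin n × Fin 3) →₀ ℕ),
      Finsupp.weight (fun o : Option (Fin n × Fin 3) =>
        o.elim 0 fun x => if x.1 = i then 1 else 0) s = Finsupp.weight w s i := by
    intro i s
    rw [Finsupp.weight_eq_sum, Finsupp.weight_eq_sum, Finsupp.finsetSum_apply]
    refine Finset.sum_congr rfl ?_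
    rintro (_ | x) _
    · simp [w]
    · simp [w, Finsupp.single_apply]
  by_cases hz : ∃ i, 0 < d i
  · obtain ⟨i, hi⟩ := hz
    refine ⟨Φ, i, d i, hi, ?_, hdvd⟩
    intro s hs
    rw [hw, hd hs]
  exfalso
  have hv : (↑Φ.vars : Set (Option (Fin n × Fin 3))) ⊆ Set.range fun _ : Unit => none := by
    rintro (_ | x) hx
    · exact ⟨(), rfl⟩
    · exfalso
      obtain ⟨s, hs, hx⟩ := (mem_vars_iff_mem_support _).1 (Finset.mem_coe.1 hx)
      refine hz ⟨x.1, ?_⟩
      rw [← hd (mem_support_iff.1 hs), ← hw, Finsupp.weight_eq_sum]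
      refine lt_of_lt_of_le ?_ (Finset.single_le_sum (fun _ _ => Nat.zero_le _)
        (Finset.mem_univ (some x)))
      simpa [Nat.pos_iff_ne_zero] using hx
  obtain ⟨q, rfl⟩ := exists_rename_eq_of_vars_subset_range Φ _ (fun _ _ _ => rfl) hv
  have hl' : AlgebraicIndependent ℚ fun _ : Unit => l :=
    algebraicIndependent_unique_type_iff.2 hl
  rw [aeval_rename] at hΦ
  exact h0 (by rw [algebraicIndependent_iff.1 hl' q hΦ, map_zero])

end Pool.Agent.P.MP_3c83d0_ag
end

-- part Pool.Agent.P.MP_3c83d0_ag.ElInd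
section

open Polynomial

namespace Pool.Agent.P.MP_3c83d0_ag

/-- A derivation acting on the coefficients of a polynomial. -/
noncomputable def elindE (D : Derivation ℤ ℂ ℂ) : Derivation ℤ ℂ[X] ℂ[X] :=
  @Differential.mapCoeffs ℂ _ ⟨D⟩

theorem elind_coeff (D : Derivation ℤ ℂ ℂ) (p : ℂ[X]) (i : ℕ) :
    (elindE D p).coeff i = D (p.coeff i) := rfl

theorem elind_X (D : Derivation ℤ ℂ ℂ) : elindE D X = 0 :=
  @Differential.mapCoeffs_X ℂ _ ⟨D⟩

theorem elind_C (D : Derivation ℤ ℂ ℂ) (a : ℂ) : elindE D (C a) = C (D a) :=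
  @Differential.mapCoeffs_C ℂ _ ⟨D⟩ a

theorem elind_lin (D : Derivation ℤ ℂ ℂ) (a : ℂ) : elindE D (X - C a) = - C (D a) := by
  rw [map_sub, elind_X, elind_C, zero_sub]

theorem elind_deg (D : Derivation ℤ ℂ ℂ) (p : ℂ[X]) : (elindE D p).natDegree ≤ p.natDegree := by
  rw [natDegree_le_iff_coeff_eq_zero]
  intro n hn
  rw [elind_coeff, coeff_eq_zero_of_natDegree_lt hn, map_zero]

theorem elind_log (D : Derivation ℤ ℂ ℂ) : ∀ (n : ℕ) (p : ℂ[X]), p.natDegree = n → p ≠ 0 →
    (∀ x, p.eval x = 0 → D x = 0) → ∃ γ : ℂ, elindE D p = C γ * p := by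
  intro n
  induction n with
  | zero =>
    intro p hp h0 _
    obtain ⟨c, rfl⟩ := natDegree_eq_zero.1 hp
    have hc : c ≠ 0 := fun h => h0 (by rw [h, map_zero])
    refine ⟨D c / c, ?_⟩
    rw [elind_C, ← C_mul, div_mul_cancel₀ _ hc]
  | succ n ih =>
    intro p hp h0 hr
    have hd : p.degree ≠ 0 := by
      rw [degree_eq_natDegree h0, hp]
      exact_mod_cast Nat.succ_ne_zero n
    obtain ⟨r, hroot⟩ := IsAlgClosed.exists_root p hd
    obtain ⟨p1, rfl⟩ := dvd_iff_isRoot.2 hroot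
    have h1 : p1 ≠ 0 := right_ne_zero_of_mul h0
    have hn : p1.natDegree = n := by
      rw [natDegree_mul (X_sub_C_ne_zero r) h1, natDegree_X_sub_C] at hp
      omega
    obtain ⟨γ, hγ⟩ := ih p1 hn h1 fun x hx => hr x (by rw [eval_mul, hx, mul_zero])
    refine ⟨γ, ?_⟩
    rw [Derivation.leibniz, hγ, elind_lin, hr r hroot]
    simp only [smul_eq_mul, map_zero, neg_zero, mul_zero, add_zero]
    ring

theorem elind_log_one (D : Derivation ℤ ℂ ℂ) (p : ℂ[X]) (h0 : p ≠ 0) (a : ℂ) (ha : p.eval a = 0)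
    (hDa : D a = 1) (hr : ∀ x, p.eval x = 0 → x ≠ a → D x = 0) :
    ∃ (γ : ℂ) (ν : ℕ), ν ≠ 0 ∧ (X - C a) * elindE D p = p * (C γ * (X - C a) - (ν : ℂ[X])) := by
  obtain ⟨p1, hp1, hnd⟩ := exists_eq_pow_rootMultiplicity_mul_and_not_dvd p h0 a
  have hpos : 0 < rootMultiplicity a p := (rootMultiplicity_pos h0).2 ha
  obtain ⟨ν, hν⟩ : ∃ ν, rootMultiplicity a p = ν + 1 := ⟨_, (Nat.succ_pred_eq_of_pos hpos).symm⟩
  rw [hν] at hp1
  have h1 : p1 ≠ 0 := fun h => hnd (h ▸ dvd_zero _)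
  obtain ⟨γ, hγ⟩ := elind_log D _ p1 rfl h1 fun x hx => hr x
    (by rw [hp1, eval_mul, hx, mul_zero])
    (fun h => hnd (dvd_iff_isRoot.2 (by rw [← h]; exact hx)))
  refine ⟨γ, ν + 1, Nat.succ_ne_zero ν, ?_⟩
  rw [hp1, Derivation.leibniz, hγ, Derivation.leibniz_pow, elind_lin, hDa]
  simp only [smul_eq_mul, nsmul_eq_mul, Nat.add_sub_cancel, map_one]
  ring

theorem ind_core {ι : Type} [Fintype ι] (q A B : ℂ[X]) (e : ℕ) (he : 0 < e)
    (hA : A ≠ 0 → 2 * A.natDegree ≤ 3 * e) (hB : B ≠ 0 → 2 * B.natDegree + 3 ≤ 3 * e)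
    (hN : (A ^ 2 - B ^ 2 * q).natDegree = 3 * e) (s t : ι → ℂ)
    (ht : ∀ b, t b ≠ 0)
    (hD : ∀ b, ∃ D : Derivation ℤ ℂ ℂ, D (s b) = 1 ∧ (∀ c, c ≠ b → D (s c) = 0) ∧
      ∀ k, D (q.coeff k) = 0)
    (hz : ∀ x y : ℂ, y ^ 2 = q.eval x → A.eval x + B.eval x * y = 0 → ∃ b, x = s b ∧ y = t b) :
    False := by
  obtain ⟨N, hNd⟩ : ∃ N, N = A ^ 2 - B ^ 2 * q := ⟨_, rfl⟩
  rw [← hNd] at hN
  have hN0 : N ≠ 0 := by
    rintro rfl
    rw [natDegree_zero] at hN
    omega
  have hinj : ∀ b c, s b = s c → b = c := by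
    intro b c h
    by_contra hbc
    obtain ⟨D, h1, h2, -⟩ := hD b
    have := h2 c (Ne.symm hbc)
    rw [← h, h1] at this
    exact one_ne_zero this
  have hcom : ∀ x, A.eval x = 0 → B.eval x = 0 → False := by
    intro x h1 h2
    obtain ⟨y, hy⟩ := IsAlgClosed.exists_pow_nat_eq (q.eval x) (n := 2) (by norm_num)
    obtain ⟨b, hb1, hb2⟩ := hz x y hy (by rw [h1, h2]; ring)
    obtain ⟨c, hc1, hc2⟩ := hz x (-y) (by rw [← hy]; ring) (by rw [h1, h2]; ring)
    obtain rfl := hinj b c (hb1.symm.trans hc1)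
    exact ht b (by linear_combination (-1 / 2 : ℂ) * hb2 - (1 / 2 : ℂ) * hc2)
  have hroot : ∀ x, N.eval x = 0 → ∃ b, x = s b ∧ q.eval x ≠ 0 := by
    intro x hx
    obtain ⟨y, hy⟩ := IsAlgClosed.exists_pow_nat_eq (q.eval x) (n := 2) (by norm_num)
    have h1 : (A.eval x + B.eval x * y) * (A.eval x + B.eval x * (-y)) = 0 := by
      rw [hNd] at hx
      simp only [eval_sub, eval_mul, eval_pow] at hx
      rw [← hy] at hx
      linear_combination hx
    rcases mul_eq_zero.1 h1 with h | h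
    · obtain ⟨b, hb1, hb2⟩ := hz x y hy h
      exact ⟨b, hb1, by rw [← hy, hb2]; exact pow_ne_zero _ (ht b)⟩
    · have hy' : (-y) ^ 2 = q.eval x := by rw [← hy]; ring
      obtain ⟨b, hb1, hb2⟩ := hz x (-y) hy' h
      exact ⟨b, hb1, by rw [← hy', hb2]; exact pow_ne_zero _ (ht b)⟩
  have hAne : ∀ x, N.eval x = 0 → A.eval x ≠ 0 := by
    intro x hx h1
    obtain ⟨b, -, hq⟩ := hroot x hx
    rw [hNd] at hx
    simp only [eval_sub, eval_mul, eval_pow, h1] at hx
    have h2 : B.eval x ^ 2 * q.eval x = 0 := by linear_combination -hx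
    exact hcom x h1 (pow_eq_zero_iff two_ne_zero |>.1 ((mul_eq_zero.1 h2).resolve_right hq))
  have hcop : IsCoprime N A := by
    rw [isCoprime_iff_aeval_ne_zero_of_isAlgClosed ℂ ℂ]
    intro x
    by_cases hx : N.eval x = 0
    · right
      simpa using hAne x hx
    · left
      simpa using hx
  have hd : N.degree ≠ 0 := by
    rw [degree_eq_natDegree hN0, hN]
    exact_mod_cast (by omega : 3 * e ≠ 0)
  obtain ⟨x, hx⟩ := IsAlgClosed.exists_root N hd
  obtain ⟨b, rfl, -⟩ := hroot x hx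
  obtain ⟨D, h1, h2, h3⟩ := hD b
  obtain ⟨γ, ν, hν, hlog⟩ := elind_log_one D N hN0 (s b) hx h1 fun x hx hne => by
    obtain ⟨c, rfl, -⟩ := hroot x hx
    exact h2 c fun h => hne (by rw [h])
  have hq : elindE D q = 0 := by
    ext k
    rw [elind_coeff, h3, coeff_zero]
  have hEN : elindE D N = 2 * A * elindE D A - 2 * B * elindE D B * q := by
    rw [hNd, map_sub, Derivation.leibniz, Derivation.leibniz_pow, Derivation.leibniz_pow, hq]
    simp only [smul_eq_mul, nsmul_eq_mul, Nat.add_one_sub_one, pow_one, Nat.cast_ofNat]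
    ring
  obtain ⟨W, hW⟩ : ∃ W, W = elindE D B * A - elindE D A * B := ⟨_, rfl⟩
  have hkey : (X - C (s b)) * (W + W) * A =
      N * (2 * (X - C (s b)) * elindE D B - B * (C γ * (X - C (s b)) - (ν : ℂ[X]))) := by
    rw [hEN] at hlog
    rw [hW]
    linear_combination (-B) * hlog - 2 * (X - C (s b)) * elindE D B * hNd
  have hW0 : (X - C (s b)) * (W + W) = 0 := by
    by_cases hA0 : A = 0
    · rw [hW, hA0]; simp
    by_cases hB0 : B = 0
    · rw [hW, hB0]; simp
    have hdvd : N ∣ (X - C (s b)) * (W + W) := hcop.dvd_of_dvd_mul_right ⟨_, hkey⟩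
    refine eq_zero_of_dvd_of_natDegree_lt hdvd ?_
    have e1 : W.natDegree ≤ A.natDegree + B.natDegree := by
      rw [hW]
      refine (natDegree_sub_le _ _).trans (max_le ?_ ?_)
      · have := elind_deg D B
        exact natDegree_mul_le.trans (by omega)
      · have := elind_deg D A
        exact natDegree_mul_le.trans (by omega)
    have e2 : (W + W).natDegree ≤ W.natDegree := (natDegree_add_le _ _).trans (max_self _).le
    have e3 : ((X - C (s b)) * (W + W)).natDegree ≤ 1 + (W + W).natDegree := by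
      refine natDegree_mul_le.trans ?_
      rw [natDegree_X_sub_C]
    have := hA hA0
    have := hB hB0
    omega
  rw [hW0, zero_mul] at hkey
  have h4 := congrArg (eval (s b)) ((mul_eq_zero.1 hkey.symm).resolve_left hN0)
  simp only [eval_sub, eval_mul, eval_X, eval_C, sub_self, mul_zero, zero_mul, zero_sub,
    eval_natCast, eval_zero, mul_neg, neg_neg, mul_eq_zero, Nat.cast_eq_zero] at h4
  have h5 : B.eval (s b) = 0 := h4.resolve_right hν
  have h6 : N.eval (s b) = 0 := hx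
  refine hAne _ hx ?_
  rw [hNd] at h6
  simp only [eval_sub, eval_mul, eval_pow, h5] at h6
  exact (pow_eq_zero_iff two_ne_zero).1 (by linear_combination h6)

/-- A form of positive degree has a zero on the cubic outside a set of generic points. -/
theorem zero_one {ι : Type} [Fintype ι] (μ : ℂ) (s : ι → ℂ)
    (hind : AlgebraicIndependent ℚ fun o : Option ι => o.elim μ s) (t : ι → ℂ)
    (ht : ∀ b, t b ^ 2 = s b * (s b - 1) * (s b - μ)) {Z : S} {e : ℕ} (he : 0 < e)
    (hZ : Z.IsHomogeneous e) :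
    ∃ v : Fin 3 → ℂ, v ≠ 0 ∧ OnC μ v ∧ MvPolynomial.eval v Z = 0 ∧
      ∀ (b : ι) (c : ℂ), v ≠ c • ![s b, t b, 1] := by
  classical
  by_cases h0 : MvPolynomial.eval ![0, 1, 0] Z = 0
  · refine ⟨![0, 1, 0], fun h => ?_, ?_, h0, fun b c h => ?_⟩
    · simpa using congrFun h 1
    · simp [OnC]
    · have h2 := congrFun h 2
      have h1 := congrFun h 1
      simp at h1 h2
      rw [← h2] at h1
      simp at h1
  by_contra hcon
  push Not at hcon
  have hq3 : (X * (X - C 1) * (X - C μ) : ℂ[X]).natDegree = 3 := by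
    rw [natDegree_mul (mul_ne_zero X_ne_zero (X_sub_C_ne_zero 1)) (X_sub_C_ne_zero μ),
      natDegree_mul X_ne_zero (X_sub_C_ne_zero 1), natDegree_X, natDegree_X_sub_C,
      natDegree_X_sub_C]
  obtain ⟨A, B, hAB, hA, hB, hN⟩ := red _ hq3 (m := 0) hZ (by simp)
  have hder : ∀ b, ∃ D : Derivation ℤ ℂ ℂ, D (s b) = 1 ∧ (∀ c, c ≠ b → D (s c) = 0) ∧
      D μ = 0 := by
    intro b
    obtain ⟨D, hD⟩ := exists_derivation _ hind fun o => if o = some b then 1 else 0
    refine ⟨D, ?_, fun c hc => ?_, ?_⟩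
    · simpa using hD (some b)
    · simpa [hc] using hD (some c)
    · simpa using hD none
  refine ind_core _ A B e he hA hB (hN h0) s t (fun b hb => ?_) (fun b => ?_)
    fun x y hxy hz => ?_
  · obtain ⟨D, h1, -, h3⟩ := hder b
    have h := ht b
    rw [hb, zero_pow two_ne_zero] at h
    rcases mul_eq_zero.1 h.symm with h | h
    · rcases mul_eq_zero.1 h with h | h
      · rw [h, map_zero] at h1
        exact zero_ne_one h1
      · rw [sub_eq_zero.1 h, Derivation.map_one_eq_zero] at h1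
        exact zero_ne_one h1
    · rw [sub_eq_zero.1 h, h3] at h1
      exact zero_ne_one h1
  · obtain ⟨D, h1, h2, h3⟩ := hder b
    refine ⟨D, h1, h2, fun k => ?_⟩
    rw [← elind_coeff, Derivation.leibniz, Derivation.leibniz, elind_lin, elind_lin, elind_X, h3,
      Derivation.map_one_eq_zero]
    simp
  · have h1 := hAB ℂ x y (by simpa using hxy)
    have h2 : MvPolynomial.eval ![x, y, 1] Z = 0 := by
      rw [← MvPolynomial.coe_aeval_eq_eval]
      change MvPolynomial.aeval ![x, y, 1] Z = 0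
      rw [h1]
      simpa using hz
    obtain ⟨b, c, hbc⟩ := hcon ![x, y, 1] (fun h => by simpa using congrFun h 2)
      (by simpa [OnC] using hxy) h2
    have e2 := congrFun hbc 2
    have e1 := congrFun hbc 1
    have e0 := congrFun hbc 0
    simp at e0 e1 e2
    rw [← e2, one_mul] at e0 e1
    exact ⟨b, e0, e1⟩

end Pool.Agent.P.MP_3c83d0_ag
end

-- part Pool.Agent.P.MP_3c83d0_ag.ElSpec
section

open MvPolynomial

namespace Pool.Agent.P.MP_3c83d0_ag

theorem elspec_hom {σ : Type} (w : σ → ℕ) (g : σ → S) (hg : ∀ o, (g o).IsHomogeneous (w o))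
    {Φ : MvPolynomial σ ℚ} {e : ℕ} (h : Φ.IsWeightedHomogeneous w e) :
    (aeval g Φ).IsHomogeneous e := by
  rw [aeval_def, eval₂_eq]
  refine IsHomogeneous.sum _ _ _ fun d hd => ?_
  have h1 : Finsupp.weight w d = e := h (mem_support_iff.1 hd)
  have h2 := IsHomogeneous.prod d.support (fun i => g i ^ d i) (fun i => w i * d i)
    fun i _ => (hg i).pow (d i)
  have h3 : ∑ i ∈ d.support, w i * d i = e := by
    rw [← h1, Finsupp.weight_apply, Finsupp.sum]
    exact Finset.sum_congr rfl fun i _ => by rw [smul_eq_mul, mul_comm]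
  rw [h3] at h2
  rw [MvPolynomial.algebraMap_apply]
  exact h2.C_mul _

theorem elspec_base (n : ℕ) : ∃ (μ : ℂ) (s r : Fin n → ℂ),
    AlgebraicIndependent ℚ (fun o : Option (Fin n) => o.elim μ s) ∧
      ∀ b, r b ^ 2 = s b * (s b - 1) * (s b - μ) := by
  obtain ⟨u, hu⟩ := exists_indep (κ := Empty) Empty.elim (Option (Fin n))
  choose r hr using fun b : Fin n =>
    IsAlgClosed.exists_pow_nat_eq (u (some b) * (u (some b) - 1) * (u (some b) - u none)) two_pos
  refine ⟨u none, fun b => u (some b), r, ?_, hr⟩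
  have : (fun o : Option (Fin n) => o.elim (u none) fun b => u (some b)) = u := by
    funext o
    cases o <;> rfl
  rw [this]
  exact hu.restrictScalars (algebraMap ℚ _).injective

theorem elspec_sep {n : ℕ} {s r : Fin n → ℂ} (hs : Function.Injective s) :
    Sep fun b => ![s b, r b, 1] := by
  refine ⟨fun b h => ?_, fun b b' hb c h => hb (hs ?_)⟩
  · simpa using congrFun h 2
  · have h2 : (1 : ℂ) = c := by simpa using congrFun h 2
    simpa [← h2] using congrFun h 0

theorem elspec_sep_update {n : ℕ} {w : Fin n → Fin 3 → ℂ} (hw : Sep w) (i : Fin n)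
    {v : Fin 3 → ℂ} (hv : v ≠ 0) (h : ∀ b (c : ℂ), v ≠ c • w b) :
    Sep (Function.update w i v) := by
  refine ⟨fun b => ?_, fun b b' hb c => ?_⟩
  · rcases eq_or_ne b i with rfl | hb
    · rwa [Function.update_self]
    · rw [Function.update_of_ne hb]
      exact hw.1 b
  · rcases eq_or_ne b i with rfl | h1
    · rw [Function.update_self, Function.update_of_ne hb.symm]
      exact h b' c
    · rw [Function.update_of_ne h1]
      rcases eq_or_ne b' i with rfl | h2
      · rw [Function.update_self]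
        intro h3
        have hc : c ≠ 0 := fun h4 => hw.1 b (by rw [h3, h4, zero_smul])
        exact h b c⁻¹ (by rw [h3, smul_smul, inv_mul_cancel₀ hc, one_smul])
      · rw [Function.update_of_ne h2]
        exact hw.2 b b' hb c

theorem elspec_place {σ : Type} (x y : σ → ℂ)
    (h : ∀ Ψ : MvPolynomial σ ℚ, aeval x Ψ = 0 → aeval y Ψ = 0) :
    ∃ P : Place ℂ ℂ, ∀ o, P.To (x o) (y o) := by
  obtain ⟨P, hP⟩ := exists_place (aeval x : MvPolynomial σ ℚ →ₐ[ℚ] ℂ).toRingHom
    (aeval y : MvPolynomial σ ℚ →ₐ[ℚ] ℂ).toRingHom h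
  exact ⟨P, fun o => by simpa using hP (X o)⟩

/-- Generic points can be specialised to distinct points of a cubic with transcendental
parameter, and a given number to an algebraic number. -/
theorem exists_spec {n : ℕ} (a : Fin n × Fin 2 → ℂ) (ha : AlgebraicIndependent ℚ a) (l : ℂ) :
    ∃ (μ : ℂ) (P : Place ℂ ℂ) (t : Fin n → ℂ) (v : Fin n → Fin 3 → ℂ) (l' : ℂ),
      Transcendental ℚ μ ∧ (∀ i, t i ≠ 0) ∧ Sep v ∧ (∀ i, OnC μ (v i)) ∧
      (∀ i j, P.To (t i * ![a (i, 0), a (i, 1), 1] j) (v i j)) ∧ P.To l l' ∧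
      IsAlgebraic ℚ l' := by
  classical
  obtain ⟨t, ht⟩ := exists_indep (fun o : Option (Fin n × Fin 2) => o.elim l a) (Fin n)
  obtain ⟨μ, s, r, hind, hr⟩ := elspec_base n
  have hμ : Transcendental ℚ μ := hind.transcendental none
  have ht0 : ∀ i, t i ≠ 0 := fun i => ht.ne_zero i
  have hs : Function.Injective s := fun b b' hb =>
    Option.some_injective _ (hind.injective (a₁ := some b) (a₂ := some b') hb)
  set w : Fin n → Fin 3 → ℂ := fun b => ![s b, r b, 1] with hw
  have hsep : Sep w := elspec_sep hs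
  have hon : ∀ b, OnC μ (w b) := fun b => by
    simp only [OnC, hw, Matrix.cons_val_zero, Matrix.cons_val_one, Matrix.cons_val]
    rw [mul_one, mul_one, hr]
  have h2 : IsAlgebraic ℚ (2 : ℂ) := by simpa using isAlgebraic_natCast (R := ℚ) (A := ℂ) 2
  by_cases hl : IsAlgebraic ℚ l
  · obtain ⟨P, hP⟩ := elspec_place
      (fun x : Fin n × Fin 3 => t x.1 * ![a (x.1, 0), a (x.1, 1), 1] x.2) (fun x => w x.1 x.2)
      fun Ψ hΨ => by rw [(indep_hom a ha l t ht).eq_zero_of_aeval_eq_zero Ψ hΨ, map_zero]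
    obtain ⟨l', h1, h3⟩ := P.to_alg hl
    exact ⟨μ, P, t, w, l', hμ, ht0, hsep, hon, fun i j => hP (i, j), h1, h3⟩
  · have key : ∀ v : Fin n → Fin 3 → ℂ, Sep v → (∀ b, OnC μ (v b)) →
        (∀ Ψ : MvPolynomial (Option (Fin n × Fin 3)) ℚ,
          aeval (fun o => o.elim l fun x => t x.1 * ![a (x.1, 0), a (x.1, 1), 1] x.2) Ψ = 0 →
          aeval (fun o : Option (Fin n × Fin 3) => o.elim (2 : ℂ) fun x => v x.1 x.2) Ψ = 0) →
        ∃ (μ : ℂ) (P : Place ℂ ℂ) (t : Fin n → ℂ) (v : Fin n → Fin 3 → ℂ) (l' : ℂ),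
          Transcendental ℚ μ ∧ (∀ i, t i ≠ 0) ∧ Sep v ∧ (∀ i, OnC μ (v i)) ∧
          (∀ i j, P.To (t i * ![a (i, 0), a (i, 1), 1] j) (v i j)) ∧ P.To l l' ∧
          IsAlgebraic ℚ l' := fun v hv hv' h => by
      obtain ⟨P, hP⟩ := elspec_place _ _ h
      exact ⟨μ, P, t, v, 2, hμ, ht0, hv, hv', fun i j => hP (some (i, j)), hP none, h2⟩
    rcases ker_hom a ha l hl t ht with h | ⟨Φ, i, e, he, hΦ, h⟩
    · exact key w hsep hon fun Ψ hΨ => by rw [h Ψ hΨ, map_zero]
    · let g : Option (Fin n × Fin 3) → S := fun o =>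
        o.elim (C 2) fun x => if x.1 = i then X x.2 else C (w x.1 x.2)
      have hZ := elspec_hom _ g (fun o => by
        cases o with
        | none => exact isHomogeneous_C _ _
        | some x =>
          simp only [g, Option.elim_some]
          split_ifs
          · exact isHomogeneous_X _ _
          · exact isHomogeneous_C _ _) hΦ
      obtain ⟨v, hv0, hv1, hv2, hv3⟩ := zero_one μ s hind r hr he hZ
      refine key (Function.update w i v) (elspec_sep_update hsep i hv0 hv3) (fun b => ?_)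
        fun Ψ hΨ => ?_
      · rcases eq_or_ne b i with rfl | hb
        · rwa [Function.update_self]
        · rw [Function.update_of_ne hb]
          exact hon b
      · obtain ⟨Q, rfl⟩ := h Ψ hΨ
        have h3 : aeval (fun o : Option (Fin n × Fin 3) =>
            o.elim (2 : ℂ) fun x => Function.update w i v x.1 x.2) Φ = 0 := by
          rw [← hv2, ← coe_aeval_eq_eval]
          have h4 := comp_aeval_apply (f := g)
            ((aeval v : S →ₐ[ℂ] ℂ).restrictScalars ℚ) Φ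
          refine Eq.trans ?_ h4.symm
          congr 2
          funext o
          cases o with
          | none => simp [g]
          | some x =>
            rcases eq_or_ne x.1 i with hx | hx
            · simp [g, hx]
            · simp [g, hx]
        rw [map_mul, h3, zero_mul]

end Pool.Agent.P.MP_3c83d0_ag
end

-- part Pool.Agent.P.MP_3c83d0_ag.ElW
section

open Polynomial

namespace Pool.Agent.P.MP_3c83d0_ag

theorem elw_roots (W : WeierstrassCurve ℂ) [W.IsElliptic] :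
    ∃ e1 e2 e3 : ℂ, e1 ≠ e2 ∧ W.b₂ = 4 * -(e1 + e2 + e3) ∧
      2 * W.b₄ = 4 * (e1 * e2 + e1 * e3 + e2 * e3) ∧ W.b₆ = 4 * -(e1 * e2 * e3) := by
  have ha : W.twoTorsionPolynomial.a ≠ 0 := by
    simp [WeierstrassCurve.twoTorsionPolynomial]
  obtain ⟨e1, e2, e3, h3⟩ := (Cubic.splits_iff_roots_eq_three (φ := RingHom.id ℂ) ha).1
    (IsAlgClosed.splits _)
  have hd : W.twoTorsionPolynomial.discr ≠ 0 :=
    W.twoTorsionPolynomial_discr_ne_zero (IsUnit.mk0 _ two_ne_zero) W.isUnit_Δ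
  have h1 := (Cubic.discr_ne_zero_iff_roots_ne ha h3).1 hd
  exact ⟨e1, e2, e3, h1.1, Cubic.b_eq_three_roots ha h3, Cubic.c_eq_three_roots ha h3,
    Cubic.d_eq_three_roots ha h3⟩

/-- The two coordinate functions satisfy the equation and generate the function field. -/
theorem elw_coord (W : WeierstrassCurve ℂ) :
    ∃ x y : W.toAffine.FunctionField,
      y ^ 2 + (algebraMap ℂ _ W.a₁ * x + algebraMap ℂ _ W.a₃) * y =
        x ^ 3 + algebraMap ℂ _ W.a₂ * x ^ 2 + algebraMap ℂ _ W.a₄ * x + algebraMap ℂ _ W.a₆ ∧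
      ∀ K : IntermediateField ℂ W.toAffine.FunctionField, x ∈ K → y ∈ K → K = ⊤ := by
  let j : ℂ[X][X] →+* W.toAffine.FunctionField :=
    (algebraMap W.toAffine.CoordinateRing W.toAffine.FunctionField).comp
      (WeierstrassCurve.Affine.CoordinateRing.mk W.toAffine)
  have hj : ∀ a : ℂ, j (C (C a)) = algebraMap ℂ _ a := fun a => by
    rw [IsScalarTower.algebraMap_apply ℂ W.toAffine.CoordinateRing W.toAffine.FunctionField]
    rfl
  refine ⟨j (C X), j X, ?_, fun K hx hy => ?_⟩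
  · have h0 : j (X ^ 2 + C (C W.a₁ * X + C W.a₃) * X -
        C (X ^ 3 + C W.a₂ * X ^ 2 + C W.a₄ * X + C W.a₆)) = 0 := by
      change j W.toAffine.polynomial = 0
      simp only [j, RingHom.comp_apply]
      rw [AdjoinRoot.mk_self, map_zero]
    simp only [map_sub, map_add, map_mul, map_pow, hj] at h0
    exact sub_eq_zero.1 h0
  · have h1 : ∀ p : ℂ[X], j (C p) ∈ K := fun p => by
      induction p using Polynomial.induction_on' with
      | add p q hp hq => rw [map_add, map_add]; exact K.add_mem hp hq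
      | monomial n a =>
        rw [← C_mul_X_pow_eq_monomial, map_mul, map_mul, map_pow, map_pow, hj]
        exact K.mul_mem (K.algebraMap_mem a) (pow_mem hx n)
    have h2 : ∀ p : ℂ[X][X], j p ∈ K := fun p => by
      induction p using Polynomial.induction_on' with
      | add p q hp hq => rw [map_add]; exact K.add_mem hp hq
      | monomial n a =>
        rw [← C_mul_X_pow_eq_monomial, map_mul, map_pow]
        exact K.mul_mem (h1 a) (pow_mem hy n)
    have h3 : ∀ u : W.toAffine.CoordinateRing, algebraMap _ W.toAffine.FunctionField u ∈ K :=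
      fun u => by
        obtain ⟨p, rfl⟩ := AdjoinRoot.mk_surjective u
        exact h2 p
    rw [eq_top_iff]
    intro z _
    obtain ⟨u, v, _, rfl⟩ := IsFractionRing.div_surjective (A := W.toAffine.CoordinateRing) z
    exact K.div_mem (h3 u) (h3 v)

/-- Legendre form of the function field of an elliptic curve. -/
theorem wbridge (W : WeierstrassCurve ℂ) [W.IsElliptic] :
    ∃ (l : ℂ) (x y : W.toAffine.FunctionField),
      y ^ 2 = x * (x - 1) * (x - algebraMap ℂ W.toAffine.FunctionField l) ∧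
      IntermediateField.adjoin ℂ {x, y} = ⊤ := by
  obtain ⟨e1, e2, e3, h12, hb2, hb4, hb6⟩ := elw_roots W
  obtain ⟨x, y, hxy, htop⟩ := elw_coord W
  have hd : e2 - e1 ≠ 0 := sub_ne_zero.2 h12.symm
  obtain ⟨ρ, hρ⟩ := IsAlgClosed.exists_pow_nat_eq ((e2 - e1) ^ 3) (n := 2) two_pos
  have hρ0 : ρ ≠ 0 := by
    rintro rfl
    exact pow_ne_zero 3 hd (by rw [← hρ]; simp)
  set i := algebraMap ℂ W.toAffine.FunctionField with hi
  have hd' : i e2 - i e1 ≠ 0 := by rw [← map_sub]; exact (map_ne_zero i).2 hd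
  have hρ' : i ρ ≠ 0 := (map_ne_zero i).2 hρ0
  have h2 : i (1 / 2) * 2 = 1 := by
    rw [← map_ofNat i 2, ← map_mul]; norm_num
  have hρ2 : i ρ ^ 2 = (i e2 - i e1) ^ 3 := by rw [← map_pow, hρ, map_pow, map_sub]
  have ha2 : W.a₂ + (1 / 2 * W.a₁) ^ 2 = -(e1 + e2 + e3) := by
    rw [WeierstrassCurve.b₂] at hb2
    linear_combination hb2 / 4
  have ha4 : W.a₄ + 2 * (1 / 2 * W.a₁) * (1 / 2 * W.a₃) = e1 * e2 + e1 * e3 + e2 * e3 := by
    rw [WeierstrassCurve.b₄] at hb4
    linear_combination hb4 / 4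
  have ha6 : W.a₆ + (1 / 2 * W.a₃) ^ 2 = -(e1 * e2 * e3) := by
    rw [WeierstrassCurve.b₆] at hb6
    linear_combination hb6 / 4
  have ha2' := congrArg i ha2
  have ha4' := congrArg i ha4
  have ha6' := congrArg i ha6
  simp only [map_add, map_mul, map_pow, map_neg, map_ofNat] at ha2' ha4' ha6'
  set h := i (1 / 2) with hh
  have key : (y + h * (i W.a₁ * x + i W.a₃)) ^ 2 = (x - i e1) * (x - i e2) * (x - i e3) := by
    linear_combination hxy + x ^ 2 * ha2' + x * ha4' + ha6' + (i W.a₁ * x + i W.a₃) * y * h2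
  refine ⟨(e3 - e1) / (e2 - e1), (x - i e1) / (i e2 - i e1),
    (y + h * (i W.a₁ * x + i W.a₃)) / i ρ, ?_, htop _ ?_ ?_⟩
  · rw [div_pow, key, hρ2, map_div₀, map_sub, map_sub]
    field_simp
    ring
  · have hx : x = i (e2 - e1) * ((x - i e1) / (i e2 - i e1)) + i e1 := by
      rw [map_sub]
      field_simp
      ring
    rw [hx]
    refine add_mem (mul_mem (IntermediateField.algebraMap_mem _ _) ?_)
      (IntermediateField.algebraMap_mem _ _)
    rw [← hx]
    exact IntermediateField.subset_adjoin _ _ (Set.mem_insert _ _)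
  · set K := IntermediateField.adjoin ℂ {(x - i e1) / (i e2 - i e1),
      (y + h * (i W.a₁ * x + i W.a₃)) / i ρ} with hK
    have hc : ∀ a : ℂ, i a ∈ K := fun a => IntermediateField.algebraMap_mem _ _
    have h1 : (x - i e1) / (i e2 - i e1) ∈ K :=
      IntermediateField.subset_adjoin _ _ (Set.mem_insert _ _)
    have h3 : (y + h * (i W.a₁ * x + i W.a₃)) / i ρ ∈ K :=
      IntermediateField.subset_adjoin _ _ (Set.mem_insert_of_mem _ rfl)
    have hx : x ∈ K := by
      have := add_mem (mul_mem (sub_mem (hc e2) (hc e1)) h1) (hc e1)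
      rwa [mul_div_cancel₀ _ hd', sub_add_cancel] at this
    have := sub_mem (mul_mem (hc ρ) h3)
      (mul_mem (hc (1 / 2)) (add_mem (mul_mem (hc W.a₁) hx) (hc W.a₃)))
    rwa [mul_div_cancel₀ _ hρ', add_sub_cancel_right] at this

theorem exists_generic : ∃ ξ : AlgebraicClosure (RatFunc ℂ), Transcendental ℂ ξ ∧
    ∀ w : AlgebraicClosure (RatFunc ℂ), IsAlgebraic (IntermediateField.adjoin ℂ {ξ}) w := by
  set j := algebraMap (RatFunc ℂ) (AlgebraicClosure (RatFunc ℂ)) with hj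
  refine ⟨j RatFunc.X, ?_, fun w => ?_⟩
  · exact (transcendental_algebraMap_iff j.injective).2 RatFunc.transcendental_X
  · set K := IntermediateField.adjoin ℂ {j RatFunc.X} with hK
    have h1 : ∀ p : ℂ[X], j (algebraMap ℂ[X] (RatFunc ℂ) p) ∈ K := fun p => by
      induction p using Polynomial.induction_on' with
      | add p q hp hq => rw [map_add, map_add]; exact K.add_mem hp hq
      | monomial n a =>
        rw [← C_mul_X_pow_eq_monomial, map_mul, map_mul, map_pow, map_pow, RatFunc.algebraMap_X]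
        refine K.mul_mem ?_ (pow_mem (IntermediateField.mem_adjoin_simple_self ℂ _) n)
        have : j (algebraMap ℂ[X] (RatFunc ℂ) (C a)) = algebraMap ℂ _ a := by
          rw [IsScalarTower.algebraMap_apply ℂ (RatFunc ℂ) (AlgebraicClosure (RatFunc ℂ)),
            RatFunc.algebraMap_C, RatFunc.algebraMap_eq_C]
        rw [this]
        exact K.algebraMap_mem a
    have h2 : ∀ r : RatFunc ℂ, j r ∈ K := fun r => by
      rw [← RatFunc.num_div_denom r, map_div₀]
      exact K.div_mem (h1 _) (h1 _)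
    let f : RatFunc ℂ →+* K := j.codRestrict K.toSubfield h2
    obtain ⟨p, hp0, hp⟩ := Algebra.IsAlgebraic.isAlgebraic (R := RatFunc ℂ) w
    refine ⟨p.map f, (Polynomial.map_ne_zero_iff f.injective).2 hp0, ?_⟩
    rw [aeval_def, eval₂_map]
    exact hp

end Pool.Agent.P.MP_3c83d0_ag
end

-- part Pool.Agent.P.MP_3c83d0_ag.ElNum
section

open Finset

namespace Pool.Agent.P.MP_3c83d0_ag

variable {ι : Type*} [Fintype ι]

/-- There are no roots in a family of classes that satisfies the rules. -/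
theorem Rules.no_root {R : ℕ → (ι → ℕ) → Prop} (h : Rules R) (d : ℕ) : ∀ m : ι → ℕ, R d m →
    sq d m = -2 → kc d m = 0 → False := by
  classical
  induction d using Nat.strong_induction_on with
  | _ d ih =>
  intro m hR hs hk0
  have hd : (0 : ℤ) < d := by exact_mod_cast h.pos d m hR
  have hle : ∀ l, (m l : ℤ) ≤ d := fun l => by exact_mod_cast h.le d m hR l
  have hn : sq d m < 0 := by omega
  have hsum : 3 * (d : ℤ) = ∑ l, (m l : ℤ) := by unfold kc at hk0; omega
  have ne1 : (univ : Finset ι).Nonempty := by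
    by_contra hne
    rw [not_nonempty_iff_eq_empty.1 hne, sum_empty] at hsum
    omega
  obtain ⟨i, -, hi⟩ := exists_max_image univ m ne1
  have e1 := add_sum_erase univ (fun l => (m l : ℤ)) (mem_univ i)
  have ne2 : (univ.erase i).Nonempty := by
    by_contra hne
    rw [not_nonempty_iff_eq_empty.1 hne, sum_empty] at e1
    have := hle i
    omega
  obtain ⟨j, hj, hj'⟩ := exists_max_image _ m ne2
  have e2 := add_sum_erase _ (fun l => (m l : ℤ)) hj
  have ne3 : ((univ.erase i).erase j).Nonempty := by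
    by_contra hne
    rw [not_nonempty_iff_eq_empty.1 hne, sum_empty] at e2
    have := hle i
    have := hle j
    omega
  obtain ⟨k, hk, hk'⟩ := exists_max_image _ m ne3
  clear e1 e2 ne1 ne2 ne3
  have hij : i ≠ j := (ne_of_mem_erase hj).symm
  have hjk : j ≠ k := (ne_of_mem_erase hk).symm
  have hik : i ≠ k := (ne_of_mem_erase (mem_of_mem_erase hk)).symm
  have hji : m j ≤ m i := hi j (mem_univ _)
  have hkj : m k ≤ m j := hj' k (mem_of_mem_erase hk)
  set U := ((univ.erase i).erase j).erase k with hU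
  have memU : ∀ l, l ∈ U ↔ l ≠ i ∧ l ≠ j ∧ l ≠ k := by
    intro l
    simp only [hU, mem_erase, mem_univ, and_true]
    tauto
  have hUk : ∀ l ∈ U, m l ≤ m k := fun l hl => hk' l (mem_of_mem_erase hl)
  have s1 := sum_three hj hk (fun l => (m l : ℤ))
  have s2 := sum_three hj hk (fun l => (m l : ℤ) ^ 2)
  rw [← hU] at s1 s2
  have hU2 : ∑ l ∈ U, (m l : ℤ) ^ 2 ≤ (m k : ℤ) * ∑ l ∈ U, (m l : ℤ) := by
    rw [mul_sum]
    refine sum_le_sum fun l hl => ?_
    have h1 : (m l : ℤ) ≤ m k := by exact_mod_cast hUk l hl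
    have h2 : (0 : ℤ) ≤ m l := Int.natCast_nonneg _
    nlinarith
  have hbig : (d : ℤ) < m i + m j + m k := by
    by_contra hc
    rw [not_lt] at hc
    unfold sq at hs
    have a1 : (0 : ℤ) ≤ m i - m k := by omega
    have a2 : (0 : ℤ) ≤ m j - m k := by omega
    have a3 : (0 : ℤ) ≤ m k := Int.natCast_nonneg _
    have a4 : (0 : ℤ) ≤ d - (m i + m j + m k) := by omega
    have e : ∑ l ∈ U, (m l : ℤ) = 3 * d - m i - m j - m k := by omega
    rw [e] at hU2
    nlinarith [mul_nonneg a1 a2, mul_nonneg a1 a3, mul_nonneg a2 a3, mul_nonneg a1 a4,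
      mul_nonneg a2 a4, mul_nonneg a3 a4, mul_nonneg a4 a4]
  by_cases hd1 : d = 1
  · have h1 := hle i
    have h2 := h.r1 d m hR hn i (by omega)
    omega
  obtain ⟨d', m', hR', c0, c1, c2, c3, c4⟩ := h.cr d m hR hd1 i j k hij hik hjk
  have t1 := sum_three hj hk (fun l => (m' l : ℤ))
  have t2 := sum_three hj hk (fun l => (m' l : ℤ) ^ 2)
  rw [← hU] at t1 t2
  have u1 : ∑ l ∈ U, (m' l : ℤ) = ∑ l ∈ U, (m l : ℤ) := sum_congr rfl fun l hl => by
    obtain ⟨x1, x2, x3⟩ := (memU l).1 hl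
    rw [c4 l x1 x2 x3]
  have u2 : ∑ l ∈ U, (m' l : ℤ) ^ 2 = ∑ l ∈ U, (m l : ℤ) ^ 2 := sum_congr rfl fun l hl => by
    obtain ⟨x1, x2, x3⟩ := (memU l).1 hl
    rw [c4 l x1 x2 x3]
  have z0 : (d' : ℤ) = 2 * d - m i - m j - m k := by omega
  have z1 : (m' i : ℤ) = d - m j - m k := by omega
  have z2 : (m' j : ℤ) = d - m i - m k := by omega
  have z3 : (m' k : ℤ) = d - m i - m j := by omega
  refine ih d' (by omega) m' hR' ?_ ?_
  · unfold sq at hs ⊢
    rw [t2, u2, z0, z1, z2, z3]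
    rw [s2] at hs
    linear_combination hs
  · unfold kc
    omega

end Pool.Agent.P.MP_3c83d0_ag
end

-- part Pool.Agent.P.MP_3c83d0_ag.ElMain
section

open MvPolynomial

namespace Pool.Agent.P.MP_3c83d0_ag

/-- A curve that is dominated by an elliptic curve meets the canonical class nonpositively. -/
theorem kc_nonpos {n : ℕ} (a : Fin n × Fin 2 → ℂ) (ha : AlgebraicIndependent ℚ a) {F : S} {d : ℕ}
    {m : Fin n → ℕ} (hF : F.IsHomogeneous d) (hirr : Irreducible F)
    (hm : ∀ i, F ∈ mx ![a (i, 0), a (i, 1), 1] ^ m i) {L : Type} [Field L] [Algebra ℂ L] {l : ℂ}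
    {x y : L} (hy : y ^ 2 = x * (x - 1) * (x - algebraMap ℂ L l))
    (hgen : IntermediateField.adjoin ℂ {x, y} = ⊤) {f : Fin 3 → L} (h1 : aeval f F = 0)
    (hnc : ¬∃ (u : L) (c : Fin 3 → ℂ), ∀ i, f i = u * algebraMap ℂ L (c i)) :
    ∑ i, m i ≤ 3 * d := by
  by_contra hlt
  rw [not_le] at hlt
  have h2 : f 2 ≠ 0 := by
    intro h
    have hd : F ∣ X 2 := ker_form hF hirr (isHomogeneous_X ℂ 2) h1 (by simpa using h) hnc
    have : ∀ i, m i = 0 := fun i => by
      by_contra hi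
      have h3 : F ∈ mx ![a (i, 0), a (i, 1), 1] := Ideal.pow_le_self hi (hm i)
      obtain ⟨r, hr⟩ := hd
      have h4 := congrArg (eval ![a (i, 0), a (i, 1), 1]) hr
      rw [map_mul, (mem_mx _ _).1 h3] at h4
      simp at h4
    simp [this] at hlt
  obtain ⟨μ, P, t, v, l', hμ, ht, hs, hc, hp, hl, hl'⟩ := exists_spec a ha l
  obtain ⟨c, G, hc0, hG0, hFG⟩ := P.exists_tp hirr.ne_zero
  have hF' : (C c * F).IsHomogeneous d := hF.C_mul c
  have hirr' : Irreducible (C c * F) :=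
    (irreducible_isUnit_mul ((isUnit_iff_ne_zero.2 hc0).map C)).2 hirr
  have hmG : ∀ i, G ∈ mx (v i) ^ m i := fun i =>
    hFG.mult (p := t i • ![a (i, 0), a (i, 1), 1]) (hp i)
      (mem_pow_smul_of_mem hF' _ (ht i) (Ideal.mul_mem_left _ _ (hm i)))
  obtain ⟨ξ, hξ, halg⟩ := exists_generic
  obtain ⟨η, hη⟩ := IsAlgClosed.exists_pow_nat_eq
    (ξ * (ξ - 1) * (ξ - algebraMap ℂ _ μ)) (n := 2) (by norm_num)
  have hz := bez μ hs hc (hFG.hom hF') hmG hlt ξ η hη
  obtain ⟨Q, hPQ, q0, q1⟩ := dom P hF' hirr' hFG hG0 (f := f) (by simp [h1]) hnc h2 hz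
  obtain ⟨k, x0, y0, hk, k0, k1, hx0, hy0, hall⟩ := gi hPQ hl hy hgen q0 hξ
  have hka : IsAlgebraic ℚ k := by
    rcases hk with rfl | rfl
    · exact hl'
    · exact isAlgebraic_one.neg
  exact iso hka k0 k1 hμ hx0 hy0 hξ hη (hall _ _ q0) (hall _ _ q1) halg

/-- The conjecture for classes that meet the canonical class nonpositively. -/
theorem of_kc_nonpos {ι : Type*} [Fintype ι] {p : ι → Fin 3 → ℂ} {F : S} {d : ℕ} {m : ι → ℕ}
    (hp : Gen p) (hC : Cv p F d m) (hn : sq d m < 0) (hk : kc d m ≤ 0) :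
    sq d m = -1 ∧ g2 d m = -2 := by
  have h0 := rules.r0 d m ⟨p, F, hp, hC⟩
  have h1 := rules.no_root d m ⟨p, F, hp, hC⟩
  obtain ⟨c, hc⟩ := g2_even d m
  have hg : g2 d m = sq d m + kc d m := rfl
  by_cases h2 : sq d m = -2
  · exact (h1 h2 (by omega)).elim
  · omega

end Pool.Agent.P.MP_3c83d0_ag
end
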