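import Pool.Agent.K.MP_3c83d0_ag.C1
import Pool.Agent.K.MP_3c83d0_ag.C2
import Pool.Agent.P.MP_3c83d0_ag.Reduce

open MvPolynomial

namespace Pool.Agent.P.MP_3c83d0_ag

variable {ι : Type*} [Fintype ι]

theorem Step.kc_eq {x y : ℕ × (ι → ℕ)} (h : Step x y) : kc y.1 y.2 = kc x.1 x.2 := by
  classical
  obtain ⟨i, j, k, hij, hik, hjk, e0, e1, e2, e3, e4⟩ := h
  have hj : j ∈ Finset.univ.erase i := Finset.mem_erase.mpr ⟨hij.symm, Finset.mem_univ _⟩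
  have hk : k ∈ (Finset.univ.erase i).erase j :=
    Finset.mem_erase.mpr ⟨hjk.symm, Finset.mem_erase.mpr ⟨hik.symm, Finset.mem_univ _⟩⟩
  have h1 : ∑ l ∈ ((Finset.univ.erase i).erase j).erase k, (y.2 l : ℤ) =
      ∑ l ∈ ((Finset.univ.erase i).erase j).erase k, (x.2 l : ℤ) :=
    Finset.sum_congr rfl fun l hl => by
      simp only [Finset.mem_erase] at hl
      rw [e4 l hl.2.2.1 hl.2.1 hl.1]
  rw [kc, kc, sum_three hj hk, sum_three hj hk (fun l => (x.2 l : ℤ)), h1]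
  omega

theorem kc_eq_of_steps {x y : ℕ × (ι → ℕ)} (h : Relation.ReflTransGen Step x y) :
    kc y.1 y.2 = kc x.1 x.2 := by
  induction h with
  | refl => rfl
  | tail _ h2 ih => rw [h2.kc_eq, ih]

theorem reduce_degree {p : ι → Fin 3 → ℂ} {F : S} {d : ℕ} {m : ι → ℕ} (hp : Gen p)
    (hC : Cv p F d m) (hn : sq d m < 0) (i : ι) (hi : 2 ≤ m i) :
    ∃ y : ℕ × (ι → ℕ), Relation.ReflTransGen Step (d, m) y ∧ y.1 ≤ 24 * m i ^ 6 ∧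
      ∑ l, y.2 l ≤ 74 * m i ^ 6 := by
  obtain ⟨μ, hμ⟩ : ∃ μ, m i = μ + 2 := ⟨m i - 2, by omega⟩
  have h1 := genus_bound hp hC hn i hi
  have hk : kc d m ≤ (((μ + 2) ^ 2 * (2 * μ + 1) : ℕ) : ℤ) := by
    rw [hμ, g2] at h1
    push_cast at h1 ⊢
    have : (0 : ℤ) ≤ μ := by positivity
    nlinarith
  obtain ⟨y, h2, _, h3⟩ := rules.reduce
    (fun _ _ ⟨_, _, hp', hC'⟩ hn' l hl => rule_xu hp' hC' hn' l hl) (μ + 2)
    ((μ + 2) ^ 2 * (2 * μ + 1)) (by nlinarith [Nat.zero_le μ, Nat.zero_le (μ ^ 2), Nat.zero_le (μ ^ 3)])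
    (by
      have : μ + 2 ≤ (μ + 2) ^ 2 * (2 * μ + 1) := by
        nlinarith [Nat.zero_le μ, Nat.zero_le (μ ^ 2), Nat.zero_le (μ ^ 3)]
      nlinarith)
    d m ⟨p, F, hp, hC⟩ hn hk i hi hμ.le
  have h4 := kc_eq_of_steps h2
  have h5 : ∑ l, y.2 l ≤ 3 * y.1 + (μ + 2) ^ 2 * (2 * μ + 1) := by
    have h6 : ((∑ l, y.2 l : ℕ) : ℤ) = ∑ l, (y.2 l : ℤ) := by push_cast; rfl
    change kc y.1 y.2 = kc d m at h4
    rw [← h4, kc, ← h6] at hk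
    omega
  have h7 : (μ + 2) ^ 2 * (2 * μ + 1) ≤ 2 * (μ + 2) ^ 6 :=
    calc (μ + 2) ^ 2 * (2 * μ + 1) ≤ (μ + 2) ^ 2 * (2 * (μ + 2)) :=
          Nat.mul_le_mul_left _ (by omega)
      _ = 2 * (μ + 2) ^ 3 := by ring
      _ ≤ 2 * (μ + 2) ^ 6 := Nat.mul_le_mul_left _ (Nat.pow_le_pow_right (by omega) (by omega))
  rw [hμ]
  have e : 24 * (μ + 2) ^ 6 = 6 * ((μ + 2) ^ 2 * (2 * μ + 1)) ^ 2 + (μ + 2) ^ 2 * (2 * μ + 1) +
      (μ + 2) ^ 2 * (72 * μ ^ 3 + 378 * μ ^ 2 + 646 * μ + 359) := by ring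
  exact ⟨y, h2, by omega, by omega⟩

end Pool.Agent.P.MP_3c83d0_ag
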